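import Mathlib

/-!
Slot functions: functions of the labels `e s : σ → ℕ` (exponents) of finitely many slots `s : ι`.
-/

set_option linter.unusedSectionVars false

namespace Pool.Agent.H69.VT

open scoped BigOperators

variable {σ ι : Type} [Fintype σ] [DecidableEq σ] [Fintype ι] [DecidableEq ι]

/-- slot functions -/
abbrev SF (σ ι : Type) : Type := (ι → σ → ℕ) → ℂ

/-- the variable `k` in slot `s` -/
def u1 (s : ι) (k : σ) : ι → σ → ℕ := Pi.single s (Pi.single k 1)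

/-- antisymmetrization of three variables over three slots -/
def A3 (Φ : SF σ ι) (s1 s2 s3 : ι) (k1 k2 k3 : σ) : SF σ ι := fun e =>
  Φ (e + u1 s1 k1 + u1 s2 k2 + u1 s3 k3) - Φ (e + u1 s1 k2 + u1 s2 k1 + u1 s3 k3)
  - Φ (e + u1 s1 k1 + u1 s2 k3 + u1 s3 k2) - Φ (e + u1 s1 k3 + u1 s2 k2 + u1 s3 k1)
  + Φ (e + u1 s1 k2 + u1 s2 k3 + u1 s3 k1) + Φ (e + u1 s1 k3 + u1 s2 k1 + u1 s3 k2)

/-- total degree of a label -/
def dl (g : σ → ℕ) : ℕ := ∑ i, g i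

/-- replace one variable `a` of slot `s` by `b` -/
def mv (a b : σ) (s : ι) (e : ι → σ → ℕ) : ι → σ → ℕ :=
  Function.update e s (e s - Pi.single a 1 + Pi.single b 1)

/-- polarization over the slots in `act` -/
def Ro (act : Finset ι) (a b : σ) (Φ : SF σ ι) : SF σ ι := fun e =>
  ∑ s ∈ act, (e s a : ℂ) * Φ (mv a b s e)

/-- weight -/
def wt (act : Finset ι) (e : ι → σ → ℕ) : σ → ℕ := ∑ s ∈ act, e s

/-- roles of the slots -/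
inductive Rl : Type
  | F : Rl
  | G : Rl
  | L : Rl
  | gr (i : ℕ) : Rl
  | no : Rl
  deriving DecidableEq

/-- slots with the role `r` -/
def cl (ρ : ι → Rl) (r : Rl) : Finset ι := Finset.univ.filter (fun s => ρ s = r)

/-- the roles `F`, `G`, `L` -/
def isB (r : Rl) : Prop := r = Rl.F ∨ r = Rl.G ∨ r = Rl.L

/-- the active slots -/
def actv (ρ : ι → Rl) (C : Finset ℕ) : Finset ι :=
  Finset.univ.filter (fun s => ρ s = Rl.F ∨ ρ s = Rl.G ∨ ρ s = Rl.L ∨ ∃ i ∈ C, ρ s = Rl.gr i)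

/-- the part of the class that only involves the slots of degree `q` -/
structure ClsW (ρ : ι → Rl) (C : Finset ℕ) (Φ : SF σ ι) : Prop where
  sym : ∀ i ∈ C, ∀ s s', ρ s = Rl.gr i → ρ s' = Rl.gr i → ∀ e, Φ (e ∘ Equiv.swap s s') = Φ e
  alt : ∀ s s', s ≠ s' → ρ s = Rl.L → ρ s' = Rl.L → ∀ e, Φ (e ∘ Equiv.swap s s') = - Φ e
  ex : ∀ i ∈ C, ∀ s, ρ s = Rl.L → ∀ e,
    Φ e + ∑ s' ∈ cl ρ (Rl.gr i), Φ (e ∘ Equiv.swap s' s) = 0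

/-- the class of slot functions -/
structure Cls (q : ℕ) (ρ : ι → Rl) (C : Finset ℕ) (Φ : SF σ ι) : Prop extends ClsW ρ C Φ where
  deg1 : ∀ e, Φ e ≠ 0 → ∀ s, ρ s = Rl.F ∨ ρ s = Rl.G → dl (e s) = 1
  degq : ∀ e, Φ e ≠ 0 → ∀ s, (ρ s = Rl.L ∨ ∃ i ∈ C, ρ s = Rl.gr i) → dl (e s) = q
  symF : ∀ s s', ρ s = Rl.F → ρ s' = Rl.F → ∀ e, Φ (e ∘ Equiv.swap s s') = Φ e
  symG : ∀ s s', ρ s = Rl.G → ρ s' = Rl.G → ∀ e, Φ (e ∘ Equiv.swap s s') = Φ e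
  tri : ∀ s1 s2 s3, s1 ≠ s2 → s1 ≠ s3 → s2 ≠ s3 → isB (ρ s1) → isB (ρ s2) → isB (ρ s3) →
    ∀ k1 k2 k3 e, A3 Φ s1 s2 s3 k1 k2 k3 e = 0
  fg : ∀ s, ρ s = Rl.F → ∀ e, Φ e + ∑ s' ∈ cl ρ Rl.G, Φ (e ∘ Equiv.swap s' s) = 0

end Pool.Agent.H69.VT
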