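import Mathlib
import Pool.Agent.H69.VT.SDefs

/-!
The class of slot functions is closed under the polarizations.
-/

set_option linter.unusedSectionVars false

namespace Pool.Agent.H69.VT

open scoped BigOperators

variable {σ ι : Type} [Fintype σ] [DecidableEq σ] [Fintype ι] [DecidableEq ι]

namespace X3

/-- polarization and permutation of slots -/
theorem mv_swap (a b : σ) (s s' t : ι) (e : ι → σ → ℕ) :
    mv a b t (e ∘ Equiv.swap s s') = (mv a b (Equiv.swap s s' t) e) ∘ Equiv.swap s s' := by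
  funext x
  by_cases hx : x = t
  · subst hx
    simp [mv]
  · have h2 : Equiv.swap s s' x ≠ Equiv.swap s s' t := fun h => hx ((Equiv.swap s s').injective h)
    simp [mv, Function.update_of_ne hx, Function.update_of_ne h2]

theorem Ro_swap {act : Finset ι} (a b : σ) (Φ : SF σ ι) {s s' : ι} (hs : s ∈ act) (hs' : s' ∈ act)
    (e : ι → σ → ℕ) :
    Ro act a b Φ (e ∘ Equiv.swap s s') =
      ∑ t ∈ act, (e t a : ℂ) * Φ ((mv a b t e) ∘ Equiv.swap s s') := by
  unfold Ro
  refine Finset.sum_equiv (Equiv.swap s s') ?_ ?_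
  · intro t
    by_cases h1 : t = s
    · subst h1
      simp [hs, hs']
    · by_cases h2 : t = s'
      · subst h2
        simp [hs, hs']
      · rw [Equiv.swap_apply_of_ne_of_ne h1 h2]
  · intro t _
    rw [mv_swap]
    rfl

theorem dl_mv {a b : σ} {t s : ι} {e : ι → σ → ℕ} (h : e t a ≠ 0) :
    dl (mv a b t e s) = dl (e s) := by
  by_cases hs : s = t
  · subst hs
    have h1 : mv a b s e s + Pi.single a 1 = e s + Pi.single b 1 := by
      funext i
      simp only [mv, Function.update_self, Pi.add_apply, Pi.sub_apply]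
      by_cases hi : i = a
      · subst hi
        have : 1 ≤ e s i := Nat.one_le_iff_ne_zero.mpr h
        simp only [Pi.single_eq_same]
        omega
      · simp [Pi.single_eq_of_ne hi]
    have h2 : ∀ (g g' : σ → ℕ), dl (g + g') = dl g + dl g' := by
      intro g g'
      simp [dl, Finset.sum_add_distrib]
    have h3 : ∀ c : σ, dl (Pi.single c 1 : σ → ℕ) = 1 := by
      intro c
      simp [dl]
    have h4 := congrArg dl h1
    rw [h2, h2, h3, h3] at h4
    omega
  · simp [mv, Function.update_of_ne hs]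

theorem shift (act : Finset ι) {a b : σ} (Φ : SF σ ι) {s : ι} (hs : s ∈ act) (k : σ)
    (e : ι → σ → ℕ) :
    Ro act a b Φ (e + u1 s k) =
      Ro act a b (fun e' => Φ (e' + u1 s k)) e + (if k = a then 1 else 0) * Φ (e + u1 s b) := by
  unfold Ro
  rw [← Finset.add_sum_erase act _ hs, ← Finset.add_sum_erase act _ hs]
  have h1 : ∑ t ∈ act.erase s, ((e + u1 s k) t a : ℂ) * Φ (mv a b t (e + u1 s k)) =
      ∑ t ∈ act.erase s, (e t a : ℂ) * Φ (mv a b t e + u1 s k) := by
    refine Finset.sum_congr rfl ?_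
    intro t ht
    have hts : t ≠ s := Finset.ne_of_mem_erase ht
    have h2 : (e + u1 s k) t = e t := by
      simp [u1, Pi.single_eq_of_ne hts]
    have h3 : mv a b t (e + u1 s k) = mv a b t e + u1 s k := by
      funext x
      by_cases hx : x = t
      · subst hx
        simp [mv, u1, Pi.single_eq_of_ne hts]
      · simp [mv, Function.update_of_ne hx]
    rw [h2, h3]
  rw [h1]
  have h2 : ((e + u1 s k) s a : ℂ) * Φ (mv a b s (e + u1 s k)) =
      (e s a : ℂ) * Φ (mv a b s e + u1 s k) + (if k = a then 1 else 0) * Φ (e + u1 s b) := by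
    by_cases hk : k = a
    · subst hk
      have h3 : mv k b s (e + u1 s k) = e + u1 s b := by
        funext x
        by_cases hx : x = s
        · subst hx
          simp [mv, u1]
        · simp [mv, Function.update_of_ne hx, u1, Pi.single_eq_of_ne hx]
      rw [h3]
      by_cases h0 : e s k = 0
      · simp [h0, u1]
      · have h4 : mv k b s e + u1 s k = e + u1 s b := by
          funext x
          by_cases hx : x = s
          · subst hx
            funext i
            simp only [mv, u1, Pi.add_apply, Function.update_self, Pi.single_eq_same,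
              Pi.sub_apply]
            by_cases hi : i = k
            · subst hi
              have : 1 ≤ e x i := Nat.one_le_iff_ne_zero.mpr h0
              simp only [Pi.single_eq_same]
              omega
            · simp [Pi.single_eq_of_ne hi]
          · simp [mv, Function.update_of_ne hx, u1, Pi.single_eq_of_ne hx]
        rw [h4]
        simp [u1]
        ring
    · have hka : (Pi.single k 1 : σ → ℕ) a = 0 := Pi.single_eq_of_ne (Ne.symm hk) 1
      have h5 : (e + u1 s k) s a = e s a := by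
        simp [u1, hka]
      rw [h5, if_neg hk]
      by_cases h0 : e s a = 0
      · simp [h0]
      · have h4 : mv a b s (e + u1 s k) = mv a b s e + u1 s k := by
          funext x
          by_cases hx : x = s
          · subst hx
            funext i
            simp only [mv, u1, Pi.add_apply, Function.update_self, Pi.single_eq_same,
              Pi.sub_apply]
            by_cases hi : i = a
            · subst hi
              have : 1 ≤ e x i := Nat.one_le_iff_ne_zero.mpr h0
              simp only [Pi.single_eq_same, hka]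
              omega
            · simp only [Pi.single_eq_of_ne hi]
              omega
          · simp [mv, Function.update_of_ne hx]
        rw [h4]
        ring
  rw [h2]
  ring

theorem shift3 (act : Finset ι) {a b : σ} (Φ : SF σ ι) {s1 s2 s3 : ι} (h1 : s1 ∈ act)
    (h2 : s2 ∈ act) (h3 : s3 ∈ act) (k1 k2 k3 : σ) (e : ι → σ → ℕ) :
    Ro act a b Φ (e + u1 s1 k1 + u1 s2 k2 + u1 s3 k3) =
      ∑ t ∈ act, (e t a : ℂ) * Φ (mv a b t e + u1 s1 k1 + u1 s2 k2 + u1 s3 k3)
      + (if k1 = a then 1 else 0) * Φ (e + u1 s1 b + u1 s2 k2 + u1 s3 k3)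
      + (if k2 = a then 1 else 0) * Φ (e + u1 s1 k1 + u1 s2 b + u1 s3 k3)
      + (if k3 = a then 1 else 0) * Φ (e + u1 s1 k1 + u1 s2 k2 + u1 s3 b) := by
  rw [shift act Φ h3, shift act _ h2, shift act _ h1]
  rfl

theorem tri3 (act : Finset ι) {a b : σ} (Φ : SF σ ι) {s1 s2 s3 : ι} (h1 : s1 ∈ act)
    (h2 : s2 ∈ act) (h3 : s3 ∈ act) (h : ∀ k1 k2 k3 e, A3 Φ s1 s2 s3 k1 k2 k3 e = 0)
    (k1 k2 k3 : σ) (e : ι → σ → ℕ) :
    A3 (Ro act a b Φ) s1 s2 s3 k1 k2 k3 e = 0 := by
  have hS : ∑ t ∈ act, (e t a : ℂ) * A3 Φ s1 s2 s3 k1 k2 k3 (mv a b t e) = 0 :=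
    Finset.sum_eq_zero (fun t _ => by rw [h, mul_zero])
  have hA := h b k2 k3 e
  have hB := h k1 b k3 e
  have hC := h k1 k2 b e
  simp only [A3, mul_add, mul_sub, Finset.sum_add_distrib, Finset.sum_sub_distrib] at hS
  simp only [A3] at hA hB hC
  simp only [A3, shift3 act Φ h1 h2 h3]
  linear_combination hS + (if k1 = a then 1 else 0) * hA + (if k2 = a then 1 else 0) * hB
    + (if k3 = a then 1 else 0) * hC

end X3

theorem cls_R {q : ℕ} {ρ : ι → Rl} {C : Finset ℕ} {Φ : SF σ ι} (h : Cls q ρ C Φ) {a b : σ}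
    (hab : a ≠ b) : Cls q ρ C (Ro (actv ρ C) a b Φ) := by
  have _ := hab
  have mF : ∀ {s}, ρ s = Rl.F → s ∈ actv ρ C := fun {s} hs => by
    simp [actv, hs]
  have mG : ∀ {s}, ρ s = Rl.G → s ∈ actv ρ C := fun {s} hs => by
    simp [actv, hs]
  have mL : ∀ {s}, ρ s = Rl.L → s ∈ actv ρ C := fun {s} hs => by
    simp [actv, hs]
  have mgr : ∀ {s i}, i ∈ C → ρ s = Rl.gr i → s ∈ actv ρ C := fun {s i} hi hs => by
    unfold actv
    rw [Finset.mem_filter]
    exact ⟨Finset.mem_univ _, Or.inr (Or.inr (Or.inr ⟨i, hi, hs⟩))⟩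
  have mB : ∀ {s}, isB (ρ s) → s ∈ actv ρ C := fun {s} hs => by
    rcases hs with hs | hs | hs
    · exact mF hs
    · exact mG hs
    · exact mL hs
  have hex : ∀ (T : Finset ι) (s : ι), s ∈ actv ρ C → (∀ t ∈ T, t ∈ actv ρ C) →
      (∀ e, Φ e + ∑ s' ∈ T, Φ (e ∘ Equiv.swap s' s) = 0) → ∀ e,
      Ro (actv ρ C) a b Φ e + ∑ s' ∈ T, Ro (actv ρ C) a b Φ (e ∘ Equiv.swap s' s) = 0 := by
    intro T s hs hT hx e
    have h1 : ∑ s' ∈ T, Ro (actv ρ C) a b Φ (e ∘ Equiv.swap s' s) =
        ∑ s' ∈ T, ∑ t ∈ actv ρ C, (e t a : ℂ) * Φ ((mv a b t e) ∘ Equiv.swap s' s) :=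
      Finset.sum_congr rfl (fun s' hs' => X3.Ro_swap a b Φ (hT s' hs') hs e)
    rw [h1, Finset.sum_comm]
    unfold Ro
    rw [← Finset.sum_add_distrib]
    refine Finset.sum_eq_zero (fun t _ => ?_)
    rw [← Finset.mul_sum, ← mul_add, hx, mul_zero]
  have hne : ∀ e, Ro (actv ρ C) a b Φ e ≠ 0 →
      ∃ t, e t a ≠ 0 ∧ Φ (mv a b t e) ≠ 0 := by
    intro e he
    obtain ⟨t, _, ht⟩ := Finset.exists_ne_zero_of_sum_ne_zero he
    refine ⟨t, ?_, right_ne_zero_of_mul ht⟩
    have := left_ne_zero_of_mul ht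
    exact_mod_cast this
  refine
    { sym := ?_
      alt := ?_
      ex := ?_
      deg1 := ?_
      degq := ?_
      symF := ?_
      symG := ?_
      tri := ?_
      fg := ?_ }
  · intro i hi s s' hs hs' e
    rw [X3.Ro_swap a b Φ (mgr hi hs) (mgr hi hs') e]
    exact Finset.sum_congr rfl (fun t _ => by rw [h.sym i hi s s' hs hs'])
  · intro s s' hne hs hs' e
    rw [X3.Ro_swap a b Φ (mL hs) (mL hs') e]
    unfold Ro
    rw [← Finset.sum_neg_distrib]
    exact Finset.sum_congr rfl (fun t _ => by rw [h.alt s s' hne hs hs', mul_neg])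
  · intro i hi s hs
    refine hex _ s (mL hs) ?_ (h.ex i hi s hs)
    intro t ht
    exact mgr hi (Finset.mem_filter.mp ht).2
  · intro e he s hs
    obtain ⟨t, h1, h2⟩ := hne e he
    rw [← X3.dl_mv (b := b) (s := s) h1]
    exact h.deg1 _ h2 s hs
  · intro e he s hs
    obtain ⟨t, h1, h2⟩ := hne e he
    rw [← X3.dl_mv (b := b) (s := s) h1]
    exact h.degq _ h2 s hs
  · intro s s' hs hs' e
    rw [X3.Ro_swap a b Φ (mF hs) (mF hs') e]
    exact Finset.sum_congr rfl (fun t _ => by rw [h.symF s s' hs hs'])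
  · intro s s' hs hs' e
    rw [X3.Ro_swap a b Φ (mG hs) (mG hs') e]
    exact Finset.sum_congr rfl (fun t _ => by rw [h.symG s s' hs hs'])
  · intro s1 s2 s3 h12 h13 h23 b1 b2 b3 k1 k2 k3 e
    exact X3.tri3 (actv ρ C) Φ (mB b1) (mB b2) (mB b3)
      (fun k1 k2 k3 e => h.tri s1 s2 s3 h12 h13 h23 b1 b2 b3 k1 k2 k3 e) k1 k2 k3 e
  · intro s hs
    refine hex _ s (mF hs) ?_ (h.fg s hs)
    intro t ht
    exact mG (Finset.mem_filter.mp ht).2

end Pool.Agent.H69.VT
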