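import Pool.Agent.H69.VT.SDefs

/-!
Project VT, row X1: the Capelli row test.
-/

set_option linter.unusedSectionVars false

namespace Pool.Agent.H69.VT

open scoped BigOperators

variable {σ ι : Type} [Fintype σ] [DecidableEq σ] [Fintype ι] [DecidableEq ι]

namespace X1

theorem mv_add (f : ι → σ → ℕ) (s : ι) (a b : σ) : mv a b s (f + u1 s a) = f + u1 s b := by
  funext t k
  by_cases ht : t = s
  · subst ht
    simp [mv, u1]
  · simp [mv, u1, ht]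

theorem exists_sub (e : ι → σ → ℕ) (s : ι) (a : σ) (h : e s a ≠ 0) :
    ∃ f : ι → σ → ℕ, e = f + u1 s a := by
  refine ⟨e - u1 s a, ?_⟩
  funext t k
  by_cases ht : t = s
  · subst ht
    by_cases hk : k = a
    · subst hk
      simp [u1]
      omega
    · simp [u1, hk]
  · simp [u1, ht]

theorem u1_apply_ne (s t : ι) {a b : σ} (h : a ≠ b) : u1 s a t b = 0 := by
  by_cases ht : t = s
  · subst ht
    simp [u1, h.symm]
  · simp [u1, ht]

theorem u1_apply (s t : ι) (a : σ) : u1 s a t a = if t = s then 1 else 0 := by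
  by_cases ht : t = s
  · subst ht
    simp [u1]
  · simp [u1, ht]

theorem A3_zero (Φ : SF σ ι) (s1 s2 s3 : ι) (k1 k2 k3 : σ) (e : ι → σ → ℕ)
    (h : s1 = s2 ∨ s1 = s3 ∨ s2 = s3) : A3 Φ s1 s2 s3 k1 k2 k3 e = 0 := by
  unfold A3
  rcases h with rfl | rfl | rfl
  · rw [add_right_comm e (u1 s1 k2) (u1 s1 k1), add_right_comm e (u1 s1 k3) (u1 s1 k1),
      add_right_comm e (u1 s1 k3) (u1 s1 k2)]
    ring
  · rw [show e + u1 s1 k3 + u1 s2 k2 + u1 s1 k1 = e + u1 s1 k1 + u1 s2 k2 + u1 s1 k3 by abel,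
      show e + u1 s1 k2 + u1 s2 k3 + u1 s1 k1 = e + u1 s1 k1 + u1 s2 k3 + u1 s1 k2 by abel,
      show e + u1 s1 k3 + u1 s2 k1 + u1 s1 k2 = e + u1 s1 k2 + u1 s2 k1 + u1 s1 k3 by abel]
    ring
  · rw [show e + u1 s1 k1 + u1 s2 k3 + u1 s2 k2 = e + u1 s1 k1 + u1 s2 k2 + u1 s2 k3 by abel,
      show e + u1 s1 k2 + u1 s2 k3 + u1 s2 k1 = e + u1 s1 k2 + u1 s2 k1 + u1 s2 k3 by abel,
      show e + u1 s1 k3 + u1 s2 k2 + u1 s2 k1 = e + u1 s1 k3 + u1 s2 k1 + u1 s2 k2 by abel]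
    ring

theorem exists_sub2 (e : ι → σ → ℕ) {b c : σ} (hbc : b ≠ c) {s2 s3 : ι}
    (h2 : e s2 b ≠ 0) (h3 : e s3 c ≠ 0) :
    ∃ f : ι → σ → ℕ, e = f + u1 s2 b + u1 s3 c := by
  obtain ⟨f1, rfl⟩ := exists_sub e s3 c h3
  have h2' : f1 s2 b ≠ 0 := by
    simpa [u1_apply_ne s3 s2 hbc.symm] using h2
  obtain ⟨f2, rfl⟩ := exists_sub f1 s2 b h2'
  exact ⟨f2, rfl⟩

theorem exists_sub3 (e : ι → σ → ℕ) {a b c : σ} (hab : a ≠ b) (hac : a ≠ c) (hbc : b ≠ c)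
    {s1 s2 s3 : ι} (h1 : e s1 a ≠ 0) (h2 : e s2 b ≠ 0) (h3 : e s3 c ≠ 0) :
    ∃ f : ι → σ → ℕ, e = f + u1 s1 a + u1 s2 b + u1 s3 c := by
  obtain ⟨f1, rfl⟩ := exists_sub2 e hbc h2 h3
  have h1' : f1 s1 a ≠ 0 := by
    simpa [u1_apply_ne s3 s1 hac.symm, u1_apply_ne s2 s1 hab.symm] using h1
  obtain ⟨f2, rfl⟩ := exists_sub f1 s1 a h1'
  exact ⟨f2, rfl⟩

theorem triple {act : Finset ι} {Φ : SF σ ι}
    (hA : ∀ s1 ∈ act, ∀ s2 ∈ act, ∀ s3 ∈ act, s1 ≠ s2 → s1 ≠ s3 → s2 ≠ s3 →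
      ∀ k1 k2 k3 e, A3 Φ s1 s2 s3 k1 k2 k3 e = 0)
    (e : ι → σ → ℕ) {a b c : σ} (hab : a ≠ b) (hac : a ≠ c) (hbc : b ≠ c) {s1 s2 s3 : ι}
    (h1 : s1 ∈ act) (h2 : s2 ∈ act) (h3 : s3 ∈ act) :
    (e s1 a : ℂ) * ((e s2 b : ℂ) * (e s3 c : ℂ) *
      (Φ e - Φ (mv a b s1 (mv b a s2 e)) - Φ (mv b c s2 (mv c b s3 e))
        - Φ (mv a c s1 (mv c a s3 e)) + Φ (mv a b s1 (mv b c s2 (mv c a s3 e)))
        + Φ (mv a c s1 (mv c b s3 (mv b a s2 e))))) = 0 := by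
  by_cases z1 : e s1 a = 0
  · simp [z1]
  by_cases z2 : e s2 b = 0
  · simp [z2]
  by_cases z3 : e s3 c = 0
  · simp [z3]
  obtain ⟨f, hf⟩ := exists_sub3 e hab hac hbc z1 z2 z3
  have hz : A3 Φ s1 s2 s3 a b c f = 0 := by
    by_cases h12 : s1 = s2
    · exact A3_zero _ _ _ _ _ _ _ _ (Or.inl h12)
    by_cases h13 : s1 = s3
    · exact A3_zero _ _ _ _ _ _ _ _ (Or.inr (Or.inl h13))
    by_cases h23 : s2 = s3
    · exact A3_zero _ _ _ _ _ _ _ _ (Or.inr (Or.inr h23))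
    exact hA s1 h1 s2 h2 s3 h3 h12 h13 h23 a b c f
  have e1 : mv a b s1 (mv b a s2 e) = f + u1 s1 b + u1 s2 a + u1 s3 c := by
    rw [hf, show f + u1 s1 a + u1 s2 b + u1 s3 c = (f + u1 s1 a + u1 s3 c) + u1 s2 b by abel,
      mv_add, show f + u1 s1 a + u1 s3 c + u1 s2 a = (f + u1 s3 c + u1 s2 a) + u1 s1 a by abel,
      mv_add]
    abel
  have e2 : mv b c s2 (mv c b s3 e) = f + u1 s1 a + u1 s2 c + u1 s3 b := by
    rw [hf, mv_add, show f + u1 s1 a + u1 s2 b + u1 s3 b = (f + u1 s1 a + u1 s3 b) + u1 s2 b by abel,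
      mv_add]
    abel
  have e3 : mv a c s1 (mv c a s3 e) = f + u1 s1 c + u1 s2 b + u1 s3 a := by
    rw [hf, mv_add, show f + u1 s1 a + u1 s2 b + u1 s3 a = (f + u1 s2 b + u1 s3 a) + u1 s1 a by abel,
      mv_add]
    abel
  have e4 : mv a b s1 (mv b c s2 (mv c a s3 e)) = f + u1 s1 b + u1 s2 c + u1 s3 a := by
    rw [hf, mv_add, show f + u1 s1 a + u1 s2 b + u1 s3 a = (f + u1 s1 a + u1 s3 a) + u1 s2 b by abel,
      mv_add, show f + u1 s1 a + u1 s3 a + u1 s2 c = (f + u1 s3 a + u1 s2 c) + u1 s1 a by abel,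
      mv_add]
    abel
  have e5 : mv a c s1 (mv c b s3 (mv b a s2 e)) = f + u1 s1 c + u1 s2 a + u1 s3 b := by
    rw [hf, show f + u1 s1 a + u1 s2 b + u1 s3 c = (f + u1 s1 a + u1 s3 c) + u1 s2 b by abel,
      mv_add, show f + u1 s1 a + u1 s3 c + u1 s2 a = (f + u1 s1 a + u1 s2 a) + u1 s3 c by abel,
      mv_add, show f + u1 s1 a + u1 s2 a + u1 s3 b = (f + u1 s2 a + u1 s3 b) + u1 s1 a by abel,
      mv_add]
    abel
  have hfin : Φ e - Φ (mv a b s1 (mv b a s2 e)) - Φ (mv b c s2 (mv c b s3 e))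
        - Φ (mv a c s1 (mv c a s3 e)) + Φ (mv a b s1 (mv b c s2 (mv c a s3 e)))
        + Φ (mv a c s1 (mv c b s3 (mv b a s2 e))) = 0 := by
    rw [e1, e2, e3, e4, e5, hf]
    exact hz
  rw [hfin, mul_zero, mul_zero]

theorem key {act : Finset ι} {Φ : SF σ ι} {a b : σ} {s : ι} (hs : s ∈ act)
    (e e' : ι → σ → ℕ) (he : ∀ t, e' t a = e t a + if t = s then 1 else 0)
    (h0 : Ro act a b Φ e' = 0) :
    ∑ t ∈ act, (e t a : ℂ) * Φ (mv a b t e') = - Φ (mv a b s e') := by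
  have h1 : Ro act a b Φ e' = ∑ t ∈ act, ((e t a : ℂ) * Φ (mv a b t e')
      + (if t = s then Φ (mv a b t e') else 0)) := by
    unfold Ro
    apply Finset.sum_congr rfl
    intro t _
    rw [he t]
    split_ifs <;> push_cast <;> ring
  rw [Finset.sum_add_distrib, Finset.sum_ite_eq', if_pos hs, h0] at h1
  linear_combination -h1

theorem wt_add {act : Finset ι} (f : ι → σ → ℕ) {s : ι} (hs : s ∈ act) (a : σ) :
    wt act (f + u1 s a) = wt act f + Pi.single a 1 := by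
  unfold wt
  simp only [Pi.add_apply, Finset.sum_add_distrib]
  congr 1
  rw [Finset.sum_eq_single_of_mem s hs]
  · simp [u1]
  · intro t _ ht
    simp [u1, ht]

theorem sum_single (W : σ → ℕ) (a : σ) : ∑ k, (W + Pi.single a 1 : σ → ℕ) k = ∑ k, W k + 1 := by
  simp [Finset.sum_add_distrib]

theorem sq_single (W : σ → ℕ) (a : σ) :
    ∑ k, ((W + Pi.single a 1 : σ → ℕ) k) ^ 2 = ∑ k, (W k) ^ 2 + (2 * W a + 1) := by
  have h : ∀ k, ((W + Pi.single a 1 : σ → ℕ) k) ^ 2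
      = (W k) ^ 2 + (if k = a then 2 * W k + 1 else 0) := by
    intro k
    by_cases hk : k = a
    · subst hk
      simp
      ring
    · simp [hk]
  rw [Finset.sum_congr rfl (fun k _ => h k), Finset.sum_add_distrib]
  simp

theorem sq_le (W : σ → ℕ) : ∑ k, (W k) ^ 2 ≤ (∑ k, W k) ^ 2 := by
  rw [sq (∑ k, W k), Finset.sum_mul]
  apply Finset.sum_le_sum
  intro k _
  rw [sq]
  exact Nat.mul_le_mul_left _ (Finset.single_le_sum (f := W) (fun _ _ => Nat.zero_le _)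
    (Finset.mem_univ k))

/-- the measure -/
def ms (W : σ → ℕ) : ℕ := (∑ k, W k) ^ 2 - ∑ k, (W k) ^ 2

theorem ms_lt (W : σ → ℕ) {a b : σ} (hab : a ≠ b)
    (h : (W + Pi.single b 1 : σ → ℕ) b ≤ (W + Pi.single b 1 : σ → ℕ) a) :
    ms (W + Pi.single a 1) < ms (W + Pi.single b 1) := by
  have h' : W b < W a := by
    have h1 : (W + Pi.single b 1 : σ → ℕ) b = W b + 1 := by simp
    have h2 : (W + Pi.single b 1 : σ → ℕ) a = W a := by simp [hab]
    omega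
  have ha := sq_le (W + Pi.single a 1)
  have hb := sq_le (W + Pi.single b 1)
  unfold ms
  rw [sum_single, sq_single] at ha hb
  rw [sum_single, sq_single, sum_single, sq_single]
  omega

theorem step {act : Finset ι} {P : SF σ ι → Prop}
    (hR : ∀ Φ, P Φ → ∀ a b, a ≠ b → P (Ro act a b Φ))
    (hA : ∀ Φ, P Φ → ∀ s1 ∈ act, ∀ s2 ∈ act, ∀ s3 ∈ act, s1 ≠ s2 → s1 ≠ s3 → s2 ≠ s3 →
      ∀ k1 k2 k3 e, A3 Φ s1 s2 s3 k1 k2 k3 e = 0)
    (e : ι → σ → ℕ)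
    (ih : ∀ Φ, P Φ → ∀ e' : ι → σ → ℕ, ms (wt act e') < ms (wt act e) → Φ e' = 0)
    {a b c : σ} (hab : a ≠ b) (hac : a ≠ c) (hbc : b ≠ c)
    (w1 : wt act e b ≤ wt act e a) (w2 : wt act e c ≤ wt act e b) (w3 : wt act e c ≠ 0)
    {Φ : SF σ ι} (hΦ : P Φ) : Φ e = 0 := by
  have w13 : wt act e c ≤ wt act e a := w2.trans w1
  -- vanishing of the polarizations
  have van : ∀ {x y : σ}, x ≠ y → wt act e y ≤ wt act e x → ∀ (W : σ → ℕ) (e' : ι → σ → ℕ),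
      wt act e = W + Pi.single y 1 → wt act e' = W + Pi.single x 1 → Ro act x y Φ e' = 0 := by
    intro x y hxy hw W e' hW hW'
    apply ih _ (hR Φ hΦ x y hxy)
    rw [hW', hW]
    apply ms_lt W hxy
    rw [← hW]
    exact hw
  -- transpositions
  have tr : ∀ {x y : σ}, x ≠ y → wt act e y ≤ wt act e x → ∀ s ∈ act,
      (e s y : ℂ) * ∑ t ∈ act, (e t x : ℂ) * Φ (mv x y t (mv y x s e)) = - ((e s y : ℂ) * Φ e) := by
    intro x y hxy hw s hs
    by_cases hz : e s y = 0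
    · simp [hz]
    obtain ⟨f, hf⟩ := exists_sub e s y hz
    have he' : mv y x s e = f + u1 s x := by rw [hf, mv_add]
    have h0 : Ro act x y Φ (f + u1 s x) = 0 :=
      van hxy hw (wt act f) (f + u1 s x) (by rw [hf, wt_add f hs]) (wt_add f hs x)
    have hk := key hs e (f + u1 s x) (by
      intro t
      rw [hf]
      simp only [Pi.add_apply]
      rw [u1_apply, u1_apply_ne s t hxy.symm, add_zero]) h0
    rw [he', hk, mv_add, ← hf]
    ring
  -- the two 3-cycles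
  have cyc1 : ∀ s2 ∈ act, ∀ s3 ∈ act,
      (e s2 b : ℂ) * (e s3 c : ℂ) *
        ∑ t ∈ act, (e t a : ℂ) * Φ (mv a b t (mv b c s2 (mv c a s3 e)))
      = - ((e s2 b : ℂ) * (e s3 c : ℂ) * Φ (mv b c s2 (mv c b s3 e))) := by
    intro s2 h2 s3 h3
    by_cases z2 : e s2 b = 0
    · simp [z2]
    by_cases z3 : e s3 c = 0
    · simp [z3]
    obtain ⟨f, hf⟩ := exists_sub2 e hbc z2 z3
    have he' : mv b c s2 (mv c a s3 e) = f + u1 s2 c + u1 s3 a := by
      rw [hf, mv_add, show f + u1 s2 b + u1 s3 a = (f + u1 s3 a) + u1 s2 b by abel, mv_add]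
      abel
    have he2 : mv b c s2 (mv c b s3 e) = f + u1 s2 c + u1 s3 b := by
      rw [hf, mv_add, show f + u1 s2 b + u1 s3 b = (f + u1 s3 b) + u1 s2 b by abel, mv_add]
      abel
    have h0 : Ro act a b Φ (f + u1 s2 c + u1 s3 a) = 0 := by
      apply van hab w1 (wt act f + Pi.single c 1)
      · rw [hf, wt_add _ h3, wt_add _ h2]
        abel
      · rw [wt_add _ h3, wt_add _ h2]
    have hk := key h3 e (f + u1 s2 c + u1 s3 a) (by
      intro t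
      rw [hf]
      simp only [Pi.add_apply]
      simp [u1_apply, u1_apply_ne s2 t hac.symm, u1_apply_ne s2 t hab.symm,
        u1_apply_ne s3 t hac.symm]) h0
    rw [he', he2, hk, mv_add]
    ring
  have cyc2 : ∀ s2 ∈ act, ∀ s3 ∈ act,
      (e s2 b : ℂ) * (e s3 c : ℂ) *
        ∑ t ∈ act, (e t a : ℂ) * Φ (mv a c t (mv c b s3 (mv b a s2 e)))
      = - ((e s2 b : ℂ) * (e s3 c : ℂ) * Φ (mv b c s2 (mv c b s3 e))) := by
    intro s2 h2 s3 h3
    by_cases z2 : e s2 b = 0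
    · simp [z2]
    by_cases z3 : e s3 c = 0
    · simp [z3]
    obtain ⟨f, hf⟩ := exists_sub2 e hbc z2 z3
    have he' : mv c b s3 (mv b a s2 e) = (f + u1 s3 b) + u1 s2 a := by
      rw [hf, show f + u1 s2 b + u1 s3 c = (f + u1 s3 c) + u1 s2 b by abel, mv_add,
        show f + u1 s3 c + u1 s2 a = (f + u1 s2 a) + u1 s3 c by abel, mv_add]
      abel
    have he2 : mv b c s2 (mv c b s3 e) = (f + u1 s3 b) + u1 s2 c := by
      rw [hf, mv_add, show f + u1 s2 b + u1 s3 b = (f + u1 s3 b) + u1 s2 b by abel, mv_add]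
    have h0 : Ro act a c Φ ((f + u1 s3 b) + u1 s2 a) = 0 := by
      apply van hac w13 (wt act f + Pi.single b 1)
      · rw [hf, wt_add _ h3, wt_add _ h2]
      · rw [wt_add _ h2, wt_add _ h3]
    have hk := key h2 e ((f + u1 s3 b) + u1 s2 a) (by
      intro t
      rw [hf]
      simp only [Pi.add_apply]
      simp [u1_apply, u1_apply_ne s3 t hab.symm, u1_apply_ne s2 t hab.symm,
        u1_apply_ne s3 t hac.symm]) h0
    rw [he', he2, hk, mv_add]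
    ring
  -- the sum over the first slot
  have hL : ∀ x : σ, ((wt act e x : ℕ) : ℂ) = ∑ s ∈ act, (e s x : ℂ) := by
    intro x
    unfold wt
    rw [Finset.sum_apply]
    push_cast
    rfl
  have hfirst : ∀ s2 ∈ act, ∀ s3 ∈ act,
      (e s2 b : ℂ) * (e s3 c : ℂ) * (Φ e - Φ (mv b c s2 (mv c b s3 e))) = 0 := by
    intro s2 h2 s3 h3
    have hs : ∑ s1 ∈ act, (e s1 a : ℂ) * ((e s2 b : ℂ) * (e s3 c : ℂ) *
      (Φ e - Φ (mv a b s1 (mv b a s2 e)) - Φ (mv b c s2 (mv c b s3 e))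
        - Φ (mv a c s1 (mv c a s3 e)) + Φ (mv a b s1 (mv b c s2 (mv c a s3 e)))
        + Φ (mv a c s1 (mv c b s3 (mv b a s2 e))))) = 0 :=
      Finset.sum_eq_zero (fun s1 h1 => triple (hA Φ hΦ) e hab hac hbc h1 h2 h3)
    have hexp : ∑ s1 ∈ act, (e s1 a : ℂ) * ((e s2 b : ℂ) * (e s3 c : ℂ) *
      (Φ e - Φ (mv a b s1 (mv b a s2 e)) - Φ (mv b c s2 (mv c b s3 e))
        - Φ (mv a c s1 (mv c a s3 e)) + Φ (mv a b s1 (mv b c s2 (mv c a s3 e)))
        + Φ (mv a c s1 (mv c b s3 (mv b a s2 e)))))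
      = (wt act e a : ℂ) * ((e s2 b : ℂ) * (e s3 c : ℂ) * (Φ e - Φ (mv b c s2 (mv c b s3 e))))
        - (e s3 c : ℂ) * ((e s2 b : ℂ) * ∑ t ∈ act, (e t a : ℂ) * Φ (mv a b t (mv b a s2 e)))
        - (e s2 b : ℂ) * ((e s3 c : ℂ) * ∑ t ∈ act, (e t a : ℂ) * Φ (mv a c t (mv c a s3 e)))
        + (e s2 b : ℂ) * (e s3 c : ℂ) *
          ∑ t ∈ act, (e t a : ℂ) * Φ (mv a b t (mv b c s2 (mv c a s3 e)))
        + (e s2 b : ℂ) * (e s3 c : ℂ) *
          ∑ t ∈ act, (e t a : ℂ) * Φ (mv a c t (mv c b s3 (mv b a s2 e))) := by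
      rw [hL a]
      simp only [Finset.mul_sum, Finset.sum_mul]
      rw [← Finset.sum_sub_distrib, ← Finset.sum_sub_distrib, ← Finset.sum_add_distrib,
        ← Finset.sum_add_distrib]
      apply Finset.sum_congr rfl
      intro t _
      ring
    rw [hexp, tr hab w1 s2 h2, tr hac w13 s3 h3, cyc1 s2 h2 s3 h3, cyc2 s2 h2 s3 h3] at hs
    have hne : ((wt act e a : ℂ) + 2) ≠ 0 := by
      exact_mod_cast Nat.succ_ne_zero (wt act e a + 1)
    have : ((wt act e a : ℂ) + 2) *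
        ((e s2 b : ℂ) * (e s3 c : ℂ) * (Φ e - Φ (mv b c s2 (mv c b s3 e)))) = 0 := by
      linear_combination hs
    exact (mul_eq_zero.mp this).resolve_left hne
  -- a slot containing c
  obtain ⟨s3, h3, hc⟩ : ∃ s3 ∈ act, e s3 c ≠ 0 := by
    by_contra hno
    push Not at hno
    apply w3
    unfold wt
    rw [Finset.sum_apply]
    exact Finset.sum_eq_zero hno
  have hsum : ∑ s2 ∈ act, (e s2 b : ℂ) * (e s3 c : ℂ) * (Φ e - Φ (mv b c s2 (mv c b s3 e))) = 0 :=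
    Finset.sum_eq_zero (fun s2 h2 => hfirst s2 h2 s3 h3)
  have hexp2 : ∑ s2 ∈ act, (e s2 b : ℂ) * (e s3 c : ℂ) * (Φ e - Φ (mv b c s2 (mv c b s3 e)))
      = (wt act e b : ℂ) * ((e s3 c : ℂ) * Φ e)
        - (e s3 c : ℂ) * ∑ t ∈ act, (e t b : ℂ) * Φ (mv b c t (mv c b s3 e)) := by
    rw [hL b]
    simp only [Finset.mul_sum, Finset.sum_mul]
    rw [← Finset.sum_sub_distrib]
    apply Finset.sum_congr rfl
    intro t _
    ring
  rw [hexp2, tr hbc w2 s3 h3] at hsum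
  have hne : ((wt act e b : ℂ) + 1) ≠ 0 := by
    exact_mod_cast Nat.succ_ne_zero (wt act e b)
  have hc' : ((e s3 c : ℕ) : ℂ) ≠ 0 := by
    exact_mod_cast hc
  have : ((wt act e b : ℂ) + 1) * (e s3 c : ℂ) * Φ e = 0 := by
    linear_combination hsum
  exact (mul_eq_zero.mp this).resolve_left (mul_ne_zero hne hc')

end X1

/-- the Capelli row test -/
theorem test3 (act : Finset ι) (P : SF σ ι → Prop)
    (hR : ∀ Φ, P Φ → ∀ a b, a ≠ b → P (Ro act a b Φ))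
    (hA : ∀ Φ, P Φ → ∀ s1 ∈ act, ∀ s2 ∈ act, ∀ s3 ∈ act, s1 ≠ s2 → s1 ≠ s3 → s2 ≠ s3 →
      ∀ k1 k2 k3 e, A3 Φ s1 s2 s3 k1 k2 k3 e = 0)
    (h2 : ∀ Φ, P Φ → ∀ e, (Finset.univ.filter (fun k => wt act e k ≠ 0)).card ≤ 2 → Φ e = 0) :
    ∀ Φ, P Φ → ∀ e, Φ e = 0 := by
  have main : ∀ n : ℕ, ∀ Φ, P Φ → ∀ e, X1.ms (wt act e) = n → Φ e = 0 := by
    intro n
    induction n using Nat.strong_induction_on with
    | _ n ihn =>
      intro Φ hΦ e hn
      by_cases hcard : (Finset.univ.filter (fun k => wt act e k ≠ 0)).card ≤ 2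
      · exact h2 Φ hΦ e hcard
      push Not at hcard
      obtain ⟨a, b, c, ha, hb, hc, hab, hac, hbc⟩ := Finset.two_lt_card_iff.mp hcard
      have ih : ∀ Φ, P Φ → ∀ e' : ι → σ → ℕ, X1.ms (wt act e') < X1.ms (wt act e) →
          Φ e' = 0 := by
        intro Ψ hΨ e' he'
        exact ihn _ (hn ▸ he') Ψ hΨ e' rfl
      simp only [Finset.mem_filter, Finset.mem_univ, true_and] at ha hb hc
      rcases le_total (wt act e b) (wt act e a) with h1 | h1 <;>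
      rcases le_total (wt act e c) (wt act e b) with h2 | h2 <;>
      rcases le_total (wt act e c) (wt act e a) with h3 | h3
      · exact X1.step hR hA e ih hab hac hbc h1 h2 hc hΦ
      · exact X1.step hR hA e ih hab hac hbc h1 h2 hc hΦ
      · exact X1.step hR hA e ih hac hab hbc.symm h3 h2 hb hΦ
      · exact X1.step hR hA e ih hac.symm hbc.symm hab h3 h1 hb hΦ
      · exact X1.step hR hA e ih hab.symm hbc hac h1 h3 hc hΦ
      · exact X1.step hR hA e ih hbc hab.symm hac.symm h2 h3 ha hΦ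
      · exact X1.step hR hA e ih hbc.symm hac.symm hab.symm h2 h1 ha hΦ
      · exact X1.step hR hA e ih hbc.symm hac.symm hab.symm h2 h1 ha hΦ
  intro Φ hΦ e
  exact main _ Φ hΦ e rfl

end Pool.Agent.H69.VT
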