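import Pool.Agent.H69.VT.SDefs

/-!
X6: a group with one slot joins `L`.
-/

set_option linter.unusedSectionVars false

namespace Pool.Agent.H69.VT

open scoped BigOperators

variable {σ ι : Type} [Fintype σ] [DecidableEq σ] [Fintype ι] [DecidableEq ι]

namespace X6

theorem u1_swap (a s l : ι) (k : σ) :
    (u1 a k : ι → σ → ℕ) ∘ Equiv.swap s l = u1 (Equiv.swap s l a) k := by
  funext x
  unfold u1
  rw [Function.comp_apply]
  by_cases h : x = Equiv.swap s l a
  · rw [h, Equiv.swap_apply_self, Pi.single_eq_same, Pi.single_eq_same]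
  · rw [Pi.single_eq_of_ne h, Pi.single_eq_of_ne]
    intro h'
    apply h
    rw [← h', Equiv.swap_apply_self]

theorem comp3 (e : ι → σ → ℕ) (a b c s l : ι) (k1 k2 k3 : σ) :
    (e + u1 a k1 + u1 b k2 + u1 c k3) ∘ Equiv.swap s l =
      e ∘ Equiv.swap s l + u1 (Equiv.swap s l a) k1 + u1 (Equiv.swap s l b) k2 +
        u1 (Equiv.swap s l c) k3 := by
  rw [← u1_swap a, ← u1_swap b, ← u1_swap c]
  rfl

theorem A3_swap {Φ : SF σ ι} {s l : ι} (h : ∀ e, Φ (e ∘ Equiv.swap s l) = - Φ e)
    (s1 s2 s3 : ι) (k1 k2 k3 : σ) (e : ι → σ → ℕ) :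
    A3 Φ (Equiv.swap s l s1) (Equiv.swap s l s2) (Equiv.swap s l s3) k1 k2 k3
      (e ∘ Equiv.swap s l) = - A3 Φ s1 s2 s3 k1 k2 k3 e := by
  unfold A3
  simp only [← comp3, h]
  ring

theorem cl_upd {ρ : ι → Rl} {s : ι} {r r' : Rl} (h1 : ρ s ≠ r) (h2 : r' ≠ r) :
    cl (Function.update ρ s r') r = cl ρ r := by
  unfold cl
  ext t
  simp only [Finset.mem_filter, Finset.mem_univ, true_and]
  by_cases ht : t = s
  · subst ht
    rw [Function.update_self]
    exact ⟨fun h => absurd h h2, fun h => absurd h h1⟩
  · rw [Function.update_of_ne ht]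

end X6

open X6 in
theorem cls_join {q : ℕ} {ρ : ι → Rl} {C : Finset ℕ} {Φ : SF σ ι} (h : Cls q ρ C Φ) {i : ℕ}
    (hi : i ∈ C) {s : ι} (hs : cl ρ (Rl.gr i) = {s}) (hK : 3 ≤ (cl ρ Rl.L).card) :
    Cls q (Function.update ρ s Rl.L) (C.erase i) Φ := by
  have hρs : ρ s = Rl.gr i := by
    have h1 : s ∈ cl ρ (Rl.gr i) := by
      rw [hs]
      exact Finset.mem_singleton_self s
    exact (Finset.mem_filter.1 h1).2
  -- the value of the new role off `s`
  have hup : ∀ t r, r ≠ Rl.L → Function.update ρ s Rl.L t = r → t ≠ s ∧ ρ t = r := by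
    intro t r hr ht
    by_cases hts : t = s
    · subst hts
      rw [Function.update_self] at ht
      exact absurd ht.symm hr
    · rw [Function.update_of_ne hts] at ht
      exact ⟨hts, ht⟩
  have hupL : ∀ t, Function.update ρ s Rl.L t = Rl.L → t = s ∨ ρ t = Rl.L := by
    intro t ht
    by_cases hts : t = s
    · exact Or.inl hts
    · rw [Function.update_of_ne hts] at ht
      exact Or.inr ht
  have hne : ∀ l, ρ l = Rl.L → l ≠ s := by
    intro l hl hls
    rw [hls, hρs] at hl
    exact absurd hl (by simp)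
  -- alternation with the slot `s`
  have halt : ∀ l, ρ l = Rl.L → ∀ e, Φ (e ∘ Equiv.swap s l) = - Φ e := by
    intro l hl e
    have h1 := h.ex i hi l hl e
    rw [hs, Finset.sum_singleton] at h1
    linear_combination h1
  refine
    { sym := ?_
      alt := ?_
      ex := ?_
      deg1 := ?_
      degq := ?_
      symF := ?_
      symG := ?_
      tri := ?_
      fg := ?_ }
  · intro j hj t t' ht ht' e
    exact h.sym j (Finset.mem_of_mem_erase hj) t t' (hup t _ (by simp) ht).2
      (hup t' _ (by simp) ht').2 e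
  · intro t t' htt ht ht' e
    rcases hupL t ht with h1 | h1
    · rcases hupL t' ht' with h2 | h2
      · exact absurd (h1.trans h2.symm) htt
      · rw [h1]
        exact halt t' h2 e
    · rcases hupL t' ht' with h2 | h2
      · rw [h2, Equiv.swap_comm]
        exact halt t h1 e
      · exact h.alt t t' htt h1 h2 e
  · intro j hj t ht e
    have hji : j ≠ i := Finset.ne_of_mem_erase hj
    have hcl : cl (Function.update ρ s Rl.L) (Rl.gr j) = cl ρ (Rl.gr j) := by
      apply cl_upd
      · rw [hρs]
        intro h1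
        exact hji (Rl.gr.inj h1).symm
      · simp
    rw [hcl]
    rcases hupL t ht with h1 | h1
    · subst h1
      obtain ⟨l, hl⟩ := Finset.card_pos.1 (lt_of_lt_of_le (by norm_num) hK)
      have hl' : ρ l = Rl.L := (Finset.mem_filter.1 hl).2
      have h2 := h.ex j (Finset.mem_of_mem_erase hj) l hl' (e ∘ Equiv.swap t l)
      have h3 : ∀ s' ∈ cl ρ (Rl.gr j), Φ (e ∘ Equiv.swap s' t) =
          - Φ ((e ∘ Equiv.swap t l) ∘ Equiv.swap s' l) := by
        intro s' hs'
        have hs'' : ρ s' = Rl.gr j := (Finset.mem_filter.1 hs').2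
        have hs't : s' ≠ t := by
          intro h4
          rw [h4, hρs] at hs''
          exact hji (Rl.gr.inj hs'').symm
        have hs'l : s' ≠ l := by
          intro h4
          rw [h4, hl'] at hs''
          exact absurd hs'' (by simp)
        have h5 : (e ∘ Equiv.swap t l) ∘ Equiv.swap s' l =
            (e ∘ Equiv.swap s' t) ∘ Equiv.swap t l := by
          funext x
          simp only [Function.comp_apply]
          congr 1
          by_cases hx1 : x = t
          · rw [hx1, Equiv.swap_apply_left, Equiv.swap_apply_of_ne_of_ne hs't.symm (hne l hl').symm,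
              Equiv.swap_apply_left, Equiv.swap_apply_of_ne_of_ne hs'l.symm (hne l hl')]
          · by_cases hx2 : x = l
            · rw [hx2, Equiv.swap_apply_right, Equiv.swap_apply_right, Equiv.swap_apply_right,
                Equiv.swap_apply_of_ne_of_ne hs't hs'l]
            · by_cases hx3 : x = s'
              · rw [hx3, Equiv.swap_apply_left, Equiv.swap_apply_right,
                  Equiv.swap_apply_of_ne_of_ne hs't hs'l, Equiv.swap_apply_left]
              · rw [Equiv.swap_apply_of_ne_of_ne hx3 hx2, Equiv.swap_apply_of_ne_of_ne hx1 hx2,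
                  Equiv.swap_apply_of_ne_of_ne hx3 hx1]
        rw [h5, halt l hl', neg_neg]
      rw [Finset.sum_congr rfl h3, Finset.sum_neg_distrib]
      have h6 := halt l hl' e
      linear_combination h6 - h2
    · exact h.ex j (Finset.mem_of_mem_erase hj) t h1 e
  · intro e he t ht
    rcases ht with h1 | h1
    · exact h.deg1 e he t (Or.inl (hup t _ (by simp) h1).2)
    · exact h.deg1 e he t (Or.inr (hup t _ (by simp) h1).2)
  · intro e he t ht
    rcases ht with h1 | ⟨j, hj, h1⟩
    · rcases hupL t h1 with h2 | h2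
      · exact h.degq e he t (Or.inr ⟨i, hi, by rw [h2, hρs]⟩)
      · exact h.degq e he t (Or.inl h2)
    · exact h.degq e he t (Or.inr ⟨j, Finset.mem_of_mem_erase hj, (hup t _ (by simp) h1).2⟩)
  · intro t t' ht ht' e
    exact h.symF t t' (hup t _ (by simp) ht).2 (hup t' _ (by simp) ht').2 e
  · intro t t' ht ht' e
    exact h.symG t t' (hup t _ (by simp) ht).2 (hup t' _ (by simp) ht').2 e
  · intro s1 s2 s3 h12 h13 h23 hb1 hb2 hb3 k1 k2 k3 e
    -- roles off `s`
    have hB : ∀ t, t ≠ s → isB (Function.update ρ s Rl.L t) → isB (ρ t) := by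
      intro t ht hb
      rwa [Function.update_of_ne ht] at hb
    by_cases hall : s1 ≠ s ∧ s2 ≠ s ∧ s3 ≠ s
    · exact h.tri s1 s2 s3 h12 h13 h23 (hB s1 hall.1 hb1) (hB s2 hall.2.1 hb2)
        (hB s3 hall.2.2 hb3) k1 k2 k3 e
    · have hmem : s ∈ ({s1, s2, s3} : Finset ι) := by
        simp only [Finset.mem_insert, Finset.mem_singleton]
        by_contra hcon
        apply hall
        refine ⟨fun h4 => hcon (Or.inl h4.symm), fun h4 => hcon (Or.inr (Or.inl h4.symm)),
          fun h4 => hcon (Or.inr (Or.inr h4.symm))⟩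
      have hex : ∃ l ∈ cl ρ Rl.L, l ∉ ({s1, s2, s3} : Finset ι) := by
        by_contra hcon
        push Not at hcon
        have hsub : cl ρ Rl.L ⊆ {s1, s2, s3} := fun l hl => hcon l hl
        have hcard : ({s1, s2, s3} : Finset ι).card ≤ (cl ρ Rl.L).card :=
          le_trans Finset.card_le_three hK
        have heq := Finset.eq_of_subset_of_card_le hsub hcard
        rw [← heq] at hmem
        exact hne s (Finset.mem_filter.1 hmem).2 rfl
      obtain ⟨l, hl, hl3⟩ := hex
      have hl' : ρ l = Rl.L := (Finset.mem_filter.1 hl).2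
      simp only [Finset.mem_insert, Finset.mem_singleton, not_or] at hl3
      have hkey : ∀ t, l ≠ t → isB (Function.update ρ s Rl.L t) → isB (ρ (Equiv.swap s l t)) := by
        intro t hlt hb
        by_cases hts : t = s
        · rw [hts, Equiv.swap_apply_left, hl']
          exact Or.inr (Or.inr rfl)
        · rw [Equiv.swap_apply_of_ne_of_ne hts hlt.symm]
          exact hB t hts hb
      have h4 := A3_swap (halt l hl') s1 s2 s3 k1 k2 k3 e
      rw [h.tri _ _ _ (fun h5 => h12 ((Equiv.swap s l).injective h5))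
        (fun h5 => h13 ((Equiv.swap s l).injective h5))
        (fun h5 => h23 ((Equiv.swap s l).injective h5)) (hkey s1 hl3.1 hb1) (hkey s2 hl3.2.1 hb2)
        (hkey s3 hl3.2.2 hb3) k1 k2 k3 _] at h4
      exact neg_eq_zero.1 h4.symm
  · intro t ht e
    have hcl : cl (Function.update ρ s Rl.L) Rl.G = cl ρ Rl.G := by
      apply cl_upd
      · rw [hρs]
        simp
      · simp
    rw [hcl]
    exact h.fg t (hup t _ (by simp) ht).2 e

end Pool.Agent.H69.VT
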