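import Pool.Agent.H69.VT.SDefs

/-!
Project VT, row X2: the straightening lemma.
-/

set_option linter.unusedSectionVars false

namespace Pool.Agent.H69.VT

open scoped BigOperators

variable {σ ι : Type} [Fintype σ] [DecidableEq σ] [Fintype ι] [DecidableEq ι]

namespace X2

open Equiv

/-! ### Compositions with transpositions -/

theorem conj (e : ι → σ → ℕ) (τ : Perm ι) (a b : ι) :
    (e ∘ τ) ∘ swap a b = (e ∘ swap (τ a) (τ b)) ∘ τ := by
  funext t
  simp only [Function.comp_apply]
  rw [τ.injective.swap_apply]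

theorem comm (e : ι → σ → ℕ) {a b c d : ι} (hac : c ≠ a) (hbc : c ≠ b) (had : d ≠ a)
    (hbd : d ≠ b) : (e ∘ swap a b) ∘ swap c d = (e ∘ swap c d) ∘ swap a b := by
  rw [conj, swap_apply_of_ne_of_ne hac hbc, swap_apply_of_ne_of_ne had hbd]

theorem cyc2 (e : ι → σ → ℕ) {x y z : ι} (hxz : z ≠ x) (hyz : z ≠ y) :
    (e ∘ swap x y) ∘ swap x z = (e ∘ swap y z) ∘ swap x y := by
  rw [conj, swap_apply_left, swap_apply_of_ne_of_ne hxz hyz]

theorem cyc1 (e : ι → σ → ℕ) {x y z : ι} (hxy : y ≠ x) (hyz : y ≠ z) :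
    (e ∘ swap x y) ∘ swap x z = (e ∘ swap x z) ∘ swap y z := by
  rw [conj (τ := swap x z), swap_apply_right, swap_apply_of_ne_of_ne hxy hyz, swap_comm y x]

theorem self (e : ι → σ → ℕ) (a b : ι) : (e ∘ swap a b) ∘ swap a b = e := by
  funext t
  simp

theorem refl (e : ι → σ → ℕ) (a : ι) : e ∘ swap a a = e := by
  funext t
  simp

/-! ### Classes -/

theorem mem_cl {ρ : ι → Rl} {r : Rl} {s : ι} : s ∈ cl ρ r ↔ ρ s = r := by
  simp [cl]

theorem role_swap {ρ : ι → Rl} {a b : ι} (h : ρ a = ρ b) (x : ι) : ρ (swap a b x) = ρ x := by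
  rcases eq_or_ne x a with rfl | hxa
  · rw [swap_apply_left, h]
  · rcases eq_or_ne x b with rfl | hxb
    · rw [swap_apply_right, h]
    · rw [swap_apply_of_ne_of_ne hxa hxb]

theorem sum_swap {ρ : ι → Rl} {a b : ι} (h : ρ a = ρ b) (r : Rl) (f : ι → ℂ) :
    ∑ x ∈ cl ρ r, f (swap a b x) = ∑ x ∈ cl ρ r, f x := by
  apply Finset.sum_equiv (swap a b)
  · intro x
    rw [mem_cl, mem_cl, role_swap h]
  · intro x _
    rfl

theorem cl_upd_same (ρ : ι → Rl) (s : ι) (r : Rl) :
    cl (Function.update ρ s r) r = insert s (cl ρ r) := by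
  ext x
  rw [mem_cl, Finset.mem_insert, mem_cl]
  rcases eq_or_ne x s with rfl | hx
  · simp
  · rw [Function.update_of_ne hx]
    simp [hx]

theorem cl_upd_ne (ρ : ι → Rl) (s : ι) {r r' : Rl} (h : r' ≠ r) :
    cl (Function.update ρ s r') r = (cl ρ r).erase s := by
  ext x
  rw [mem_cl, Finset.mem_erase, mem_cl]
  rcases eq_or_ne x s with rfl | hx
  · simp [h]
  · rw [Function.update_of_ne hx]
    simp [hx]

/-- the relevant slots -/
def rel (ρ : ι → Rl) (C : Finset ℕ) (s : ι) : Prop := ρ s = Rl.L ∨ ∃ i ∈ C, ρ s = Rl.gr i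

/-- antisymmetrization of the slot `s` with the slots of `L` -/
def Q (ρ : ι → Rl) (s : ι) (Φ : SF σ ι) : SF σ ι := fun e =>
  Φ e - ∑ l ∈ cl ρ Rl.L, Φ (e ∘ swap s l)

/-- symmetrization of the slot `s` with the group `i` -/
def R (ρ : ι → Rl) (i : ℕ) (s : ι) (Φ : SF σ ι) : SF σ ι := fun e =>
  Φ e + ∑ b ∈ cl ρ (Rl.gr i), Φ (e ∘ swap b s)

theorem ex_of_alt {Ψ : SF σ ι} {t t' : ι} {B : Finset ι} (ht : t ∉ B) (ht' : t' ∉ B)
    (halt : ∀ e, Ψ (e ∘ swap t t') = -Ψ e)
    (h : ∀ e, Ψ e + ∑ b ∈ B, Ψ (e ∘ swap b t) = 0) (e : ι → σ → ℕ) :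
    Ψ e + ∑ b ∈ B, Ψ (e ∘ swap b t') = 0 := by
  have h1 := h (e ∘ swap t t')
  have h2 : ∑ b ∈ B, Ψ ((e ∘ swap t t') ∘ swap b t) = -∑ b ∈ B, Ψ (e ∘ swap b t') := by
    rw [← Finset.sum_neg_distrib]
    apply Finset.sum_congr rfl
    intro b hb
    have hbt : b ≠ t := fun h => ht (h ▸ hb)
    have hbt' : b ≠ t' := fun h => ht' (h ▸ hb)
    rw [conj, swap_apply_left, swap_apply_of_ne_of_ne hbt hbt', halt]
  rw [halt, h2] at h1
  linear_combination -h1

section Step

variable {ρ : ι → Rl} {C : Finset ℕ} {Φ : SF σ ι} (h : ClsW ρ C Φ) {i0 : ℕ} (hi0 : i0 ∈ C)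
  {s : ι} (hs : ρ s = Rl.gr i0)

include h hi0 hs

theorem s_ne_L {l : ι} (hl : ρ l = Rl.L) : s ≠ l := by
  rintro rfl
  rw [hl] at hs
  cases hs

theorem key (e : ι → σ → ℕ) :
    (((cl ρ (Rl.gr i0)).card : ℂ) + (cl ρ Rl.L).card) * Φ e =
      ∑ a ∈ cl ρ (Rl.gr i0), Q ρ s Φ (e ∘ swap a s) := by
  have h1 : ∀ a ∈ cl ρ (Rl.gr i0), Q ρ s Φ (e ∘ swap a s) =
      Φ e - ∑ l ∈ cl ρ Rl.L, Φ (e ∘ swap a l) := by
    intro a ha
    rw [mem_cl] at ha
    rw [Q, h.sym i0 hi0 a s ha hs]
    congr 1
    apply Finset.sum_congr rfl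
    intro l hl
    rw [mem_cl] at hl
    have hsl := s_ne_L h hi0 hs hl
    rcases eq_or_ne a s with rfl | has
    · rw [refl]
    · have hal : l ≠ a := by
        rintro rfl
        rw [ha] at hl
        cases hl
      rw [swap_comm a s, cyc2 e hsl.symm hal, h.sym i0 hi0 s a hs ha]
  rw [Finset.sum_congr rfl h1, Finset.sum_sub_distrib, Finset.sum_const, Finset.sum_comm]
  have h2 : ∑ l ∈ cl ρ Rl.L, ∑ a ∈ cl ρ (Rl.gr i0), Φ (e ∘ swap a l) =
      -(((cl ρ Rl.L).card : ℂ) * Φ e) := by
    have h3 : ∀ l ∈ cl ρ Rl.L, ∑ a ∈ cl ρ (Rl.gr i0), Φ (e ∘ swap a l) = -Φ e := by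
      intro l hl
      rw [mem_cl] at hl
      have := h.ex i0 hi0 l hl e
      linear_combination this
    rw [Finset.sum_congr rfl h3, Finset.sum_const, nsmul_eq_mul]
    ring
  rw [h2, nsmul_eq_mul]
  ring

theorem altQ_s {l : ι} (hl : ρ l = Rl.L) (e : ι → σ → ℕ) :
    Q ρ s Φ (e ∘ swap s l) = -Q ρ s Φ e := by
  have hl' : l ∈ cl ρ Rl.L := mem_cl.mpr hl
  have hsl := s_ne_L h hi0 hs hl
  rw [Q, Q, ← Finset.add_sum_erase _ _ hl', ← Finset.add_sum_erase _ _ hl', self]
  have h1 : ∑ m ∈ (cl ρ Rl.L).erase l, Φ ((e ∘ swap s l) ∘ swap s m) =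
      -∑ m ∈ (cl ρ Rl.L).erase l, Φ (e ∘ swap s m) := by
    rw [← Finset.sum_neg_distrib]
    apply Finset.sum_congr rfl
    intro m hm
    rw [Finset.mem_erase, mem_cl] at hm
    rw [cyc1 e hsl.symm hm.1.symm, h.alt l m hm.1.symm hl hm.2]
  rw [h1]
  ring

theorem altQ_L {l l' : ι} (hll : l ≠ l') (hl : ρ l = Rl.L) (hl' : ρ l' = Rl.L)
    (e : ι → σ → ℕ) : Q ρ s Φ (e ∘ swap l l') = -Q ρ s Φ e := by
  have hsl := s_ne_L h hi0 hs hl
  have hsl' := s_ne_L h hi0 hs hl'
  rw [Q, Q, h.alt l l' hll hl hl']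
  have h1 : ∑ m ∈ cl ρ Rl.L, Φ ((e ∘ swap l l') ∘ swap s m) =
      -∑ m ∈ cl ρ Rl.L, Φ (e ∘ swap s m) := by
    rw [← Finset.sum_neg_distrib]
    rw [← sum_swap (hl.trans hl'.symm) Rl.L (fun m => -Φ (e ∘ swap s m))]
    apply Finset.sum_congr rfl
    intro m _
    rw [conj, swap_apply_of_ne_of_ne hsl hsl', h.alt l l' hll hl hl']
  rw [h1]
  ring

theorem sum_Q {i : ℕ} (hi : i ∈ C) (hii : i ≠ i0) (e : ι → σ → ℕ) :
    Q ρ s Φ e + ∑ b ∈ cl ρ (Rl.gr i), Q ρ s Φ (e ∘ swap b s) = R ρ i s Φ e := by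
  have h1 : ∑ b ∈ cl ρ (Rl.gr i), Q ρ s Φ (e ∘ swap b s) =
      ∑ b ∈ cl ρ (Rl.gr i), Φ (e ∘ swap b s) +
        ∑ l ∈ cl ρ Rl.L, Φ (e ∘ swap s l) := by
    have h2 : ∀ b ∈ cl ρ (Rl.gr i), Q ρ s Φ (e ∘ swap b s) = Φ (e ∘ swap b s) -
        ∑ l ∈ cl ρ Rl.L, Φ ((e ∘ swap s l) ∘ swap b l) := by
      intro b hb
      rw [mem_cl] at hb
      rw [Q]
      congr 1
      apply Finset.sum_congr rfl
      intro l hl
      rw [mem_cl] at hl
      have hbs : b ≠ s := by
        rintro rfl
        rw [hb] at hs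
        exact hii (by injection hs)
      have hbl : b ≠ l := by
        rintro rfl
        rw [hb] at hl
        cases hl
      rw [swap_comm b s, cyc1 e hbs hbl]
    rw [Finset.sum_congr rfl h2, Finset.sum_sub_distrib, Finset.sum_comm]
    have h3 : ∀ l ∈ cl ρ Rl.L, ∑ b ∈ cl ρ (Rl.gr i), Φ ((e ∘ swap s l) ∘ swap b l) =
        -Φ (e ∘ swap s l) := by
      intro l hl
      rw [mem_cl] at hl
      have := h.ex i hi l hl (e ∘ swap s l)
      linear_combination this
    rw [Finset.sum_congr rfl h3, Finset.sum_neg_distrib]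
    ring
  rw [h1, Q, R]
  ring

theorem clsQ (hR : ∀ i ∈ C, i ≠ i0 → ∀ e, R ρ i s Φ e = 0) :
    ClsW (Function.update ρ s Rl.L) (C.erase i0) (Q ρ s Φ) := by
  have hne : ∀ {i : ℕ} {x : ι}, Function.update ρ s Rl.L x = Rl.gr i → x ≠ s ∧ ρ x = Rl.gr i := by
    intro i x hx
    rcases eq_or_ne x s with rfl | hxs
    · rw [Function.update_self] at hx
      cases hx
    · rw [Function.update_of_ne hxs] at hx
      exact ⟨hxs, hx⟩
  have halt : ∀ a b, a ≠ b → Function.update ρ s Rl.L a = Rl.L →
      Function.update ρ s Rl.L b = Rl.L → ∀ e, Q ρ s Φ (e ∘ swap a b) = -Q ρ s Φ e := by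
    intro a b hab ha hb e
    rcases eq_or_ne a s with rfl | has
    · rw [Function.update_of_ne hab.symm] at hb
      exact altQ_s h hi0 hs hb e
    · rw [Function.update_of_ne has] at ha
      rcases eq_or_ne b s with rfl | hbs
      · rw [swap_comm]
        exact altQ_s h hi0 hs ha e
      · rw [Function.update_of_ne hbs] at hb
        exact altQ_L h hi0 hs hab ha hb e
  refine ⟨?_, halt, ?_⟩
  · intro i hi a b ha hb e
    rw [Finset.mem_erase] at hi
    obtain ⟨has, ha⟩ := hne ha
    obtain ⟨hbs, hb⟩ := hne hb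
    rw [Q, Q, h.sym i hi.2 a b ha hb]
    congr 1
    apply Finset.sum_congr rfl
    intro l hl
    rw [mem_cl] at hl
    have hal : l ≠ a := by
      rintro rfl
      rw [hl] at ha
      cases ha
    have hbl : l ≠ b := by
      rintro rfl
      rw [hl] at hb
      cases hb
    rw [comm e has.symm hbs.symm hal hbl, h.sym i hi.2 a b ha hb]
  · intro i hi t ht e
    rw [Finset.mem_erase] at hi
    have hcl : cl (Function.update ρ s Rl.L) (Rl.gr i) = cl ρ (Rl.gr i) := by
      rw [cl_upd_ne ρ s (by simp)]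
      apply Finset.erase_eq_of_notMem
      rw [mem_cl, hs]
      intro h1
      exact hi.1 (by injection h1 with h2; exact h2.symm)
    rw [hcl]
    have hsB : s ∉ cl ρ (Rl.gr i) := by
      rw [mem_cl, hs]
      intro h1
      exact hi.1 (by injection h1 with h2; exact h2.symm)
    have hexs : ∀ e, Q ρ s Φ e + ∑ b ∈ cl ρ (Rl.gr i), Q ρ s Φ (e ∘ swap b s) = 0 := by
      intro e
      rw [sum_Q h hi0 hs hi.2 hi.1, hR i hi.2 hi.1]
    rcases eq_or_ne t s with rfl | hts
    · exact hexs e
    · have htB : t ∉ cl ρ (Rl.gr i) := by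
        rw [Function.update_of_ne hts] at ht
        rw [mem_cl, ht]
        simp
      refine ex_of_alt hsB htB (fun e => ?_) hexs e
      exact halt s t hts.symm (Function.update_self _ _ _) ht e

theorem clsR {i : ℕ} (hi : i ∈ C) (hii : i ≠ i0) :
    ClsW (Function.update ρ s (Rl.gr i)) C (R ρ i s Φ) := by
  have hsL : ∀ {l}, ρ l = Rl.L → l ≠ s := fun hl => (s_ne_L h hi0 hs hl).symm
  have hsB : ∀ {b}, ρ b = Rl.gr i → b ≠ s := by
    rintro b hb rfl
    rw [hb] at hs
    exact hii (by injection hs)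
  have hBL : ∀ {b l}, ρ b = Rl.gr i → ρ l = Rl.L → b ≠ l := by
    rintro b l hb hl rfl
    rw [hb] at hl
    cases hl
  -- two slots with the same old role, both different from `s`
  have hsym1 : ∀ j ∈ C, ∀ a b, a ≠ s → b ≠ s → ρ a = Rl.gr j → ρ b = Rl.gr j → ∀ e,
      R ρ i s Φ (e ∘ swap a b) = R ρ i s Φ e := by
    intro j hj a b has hbs ha hb e
    rw [R, R, h.sym j hj a b ha hb]
    congr 1
    rw [← sum_swap (ha.trans hb.symm) (Rl.gr i) (fun x => Φ (e ∘ swap x s))]
    apply Finset.sum_congr rfl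
    intro x _
    rw [conj, swap_apply_of_ne_of_ne has.symm hbs.symm, h.sym j hj a b ha hb]
  have hsym2 : ∀ b0, ρ b0 = Rl.gr i → ∀ e, R ρ i s Φ (e ∘ swap s b0) = R ρ i s Φ e := by
    intro b0 hb0 e
    have hb0' : b0 ∈ cl ρ (Rl.gr i) := mem_cl.mpr hb0
    rw [R, R, ← Finset.add_sum_erase _ _ hb0', ← Finset.add_sum_erase _ _ hb0']
    have h1 : ∑ b ∈ (cl ρ (Rl.gr i)).erase b0, Φ ((e ∘ swap s b0) ∘ swap b s) =
        ∑ b ∈ (cl ρ (Rl.gr i)).erase b0, Φ (e ∘ swap b s) := by
      apply Finset.sum_congr rfl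
      intro b hb
      rw [Finset.mem_erase, mem_cl] at hb
      rw [swap_comm b s, cyc1 e (hsB hb0) hb.1.symm, h.sym i hi b0 b hb0 hb.2]
    rw [h1, swap_comm b0 s, self]
    ring
  refine ⟨?_, ?_, ?_⟩
  · intro j hj a b ha hb e
    rcases eq_or_ne a s with rfl | has
    · rcases eq_or_ne b a with rfl | hba
      · rw [refl]
      · rw [Function.update_self] at ha
        rw [Function.update_of_ne hba, ← ha] at hb
        exact hsym2 b hb e
    · rw [Function.update_of_ne has] at ha
      rcases eq_or_ne b s with rfl | hbs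
      · rw [Function.update_self] at hb
        rw [← hb] at ha
        rw [swap_comm]
        exact hsym2 a ha e
      · rw [Function.update_of_ne hbs] at hb
        exact hsym1 j hj a b has hbs ha hb e
  · intro a b hab ha hb e
    have ha' : ρ a = Rl.L := by
      rcases eq_or_ne a s with rfl | has
      · rw [Function.update_self] at ha
        cases ha
      · rwa [Function.update_of_ne has] at ha
    have hb' : ρ b = Rl.L := by
      rcases eq_or_ne b s with rfl | hbs
      · rw [Function.update_self] at hb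
        cases hb
      · rwa [Function.update_of_ne hbs] at hb
    rw [R, R, h.alt a b hab ha' hb']
    have h1 : ∑ x ∈ cl ρ (Rl.gr i), Φ ((e ∘ swap a b) ∘ swap x s) =
        -∑ x ∈ cl ρ (Rl.gr i), Φ (e ∘ swap x s) := by
      rw [← Finset.sum_neg_distrib]
      rw [← sum_swap (ha'.trans hb'.symm) (Rl.gr i) (fun x => -Φ (e ∘ swap x s))]
      apply Finset.sum_congr rfl
      intro x _
      rw [conj, swap_apply_of_ne_of_ne (hsL ha').symm (hsL hb').symm, h.alt a b hab ha' hb']
    rw [h1]
    ring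
  · intro j hj l hl e
    have hl' : ρ l = Rl.L := by
      rcases eq_or_ne l s with rfl | hls
      · rw [Function.update_self] at hl
        cases hl
      · rwa [Function.update_of_ne hls] at hl
    rcases eq_or_ne j i with rfl | hji
    · -- the group which gets `s`
      rw [cl_upd_same, Finset.sum_insert (by
        rw [mem_cl, hs]
        intro h1
        exact hii (by injection h1 with h2; exact h2.symm))]
      have hex : ∀ e, ∑ b ∈ cl ρ (Rl.gr j), Φ (e ∘ swap b l) = -Φ e := by
        intro e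
        have := h.ex j hj l hl' e
        linear_combination this
      have h1 : ∀ b ∈ cl ρ (Rl.gr j),
          ∑ b' ∈ cl ρ (Rl.gr j), Φ ((e ∘ swap b' l) ∘ swap b s) =
            Φ ((e ∘ swap s l) ∘ swap b l) - Φ (e ∘ swap b s) -
              Φ ((e ∘ swap s l) ∘ swap b s) := by
        intro b hb
        have hb1 := mem_cl.mp hb
        have h2 := hex (e ∘ swap b s)
        rw [← Finset.add_sum_erase _ _ hb] at h2 ⊢
        have h3 : ∑ b' ∈ (cl ρ (Rl.gr j)).erase b, Φ ((e ∘ swap b' l) ∘ swap b s) =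
            ∑ b' ∈ (cl ρ (Rl.gr j)).erase b, Φ ((e ∘ swap b s) ∘ swap b' l) := by
          apply Finset.sum_congr rfl
          intro b' hb'
          rw [Finset.mem_erase, mem_cl] at hb'
          rw [comm e hb'.1.symm (hBL hb1 hl') (hsB hb'.2).symm (hsL hl').symm]
        have h4 : (e ∘ swap b l) ∘ swap b s = (e ∘ swap s l) ∘ swap b l := by
          rw [cyc2 e (hsB hb1).symm (hsL hl').symm, swap_comm l s]
        have h5 : (e ∘ swap b s) ∘ swap b l = (e ∘ swap s l) ∘ swap b s := by
          rw [cyc2 e (hBL hb1 hl').symm (hsL hl')]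
        rw [h5] at h2
        rw [h3, h4]
        linear_combination h2
      have h6 : ∑ b' ∈ cl ρ (Rl.gr j), R ρ j s Φ (e ∘ swap b' l) =
          -Φ e + ∑ b ∈ cl ρ (Rl.gr j), (Φ ((e ∘ swap s l) ∘ swap b l) - Φ (e ∘ swap b s) -
              Φ ((e ∘ swap s l) ∘ swap b s)) := by
        simp only [R]
        rw [Finset.sum_add_distrib, Finset.sum_comm, hex, Finset.sum_congr rfl h1]
      rw [h6, Finset.sum_sub_distrib, Finset.sum_sub_distrib, hex, R, R]
      ring
    · -- the other groups
      have hcl : cl (Function.update ρ s (Rl.gr i)) (Rl.gr j) = (cl ρ (Rl.gr j)).erase s := by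
        apply cl_upd_ne
        intro h1
        exact hji (by injection h1 with h2; exact h2.symm)
      rw [hcl]
      set A := (cl ρ (Rl.gr j)).erase s with hA
      have hAm : ∀ a ∈ A, a ≠ s ∧ ρ a = Rl.gr j := by
        intro a ha
        rw [hA, Finset.mem_erase, mem_cl] at ha
        exact ha
      have h6 : ∑ a ∈ A, R ρ i s Φ (e ∘ swap a l) =
          ∑ a ∈ A, Φ (e ∘ swap a l) +
            ∑ b ∈ cl ρ (Rl.gr i), ∑ a ∈ A, Φ ((e ∘ swap b s) ∘ swap a l) := by
        simp only [R]
        rw [Finset.sum_add_distrib]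
        congr 1
        rw [Finset.sum_comm]
        apply Finset.sum_congr rfl
        intro b hb
        rw [mem_cl] at hb
        apply Finset.sum_congr rfl
        intro a ha
        obtain ⟨ha1, ha2⟩ := hAm a ha
        have hab : b ≠ a := by
          rintro rfl
          rw [hb] at ha2
          exact hji (by injection ha2 with h2; exact h2.symm)
        rw [comm e hab (hBL hb hl') ha1.symm (hsL hl').symm]
      rw [h6]
      rcases eq_or_ne j i0 with rfl | hj0
      · have hsj : s ∈ cl ρ (Rl.gr j) := mem_cl.mpr hs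
        have hex : ∀ e, ∑ a ∈ A, Φ (e ∘ swap a l) = -Φ e - Φ (e ∘ swap s l) := by
          intro e
          have := h.ex j hj l hl' e
          rw [← Finset.add_sum_erase _ _ hsj] at this
          rw [hA]
          linear_combination this
        rw [hex, Finset.sum_congr rfl (fun b _ => hex (e ∘ swap b s)), Finset.sum_sub_distrib,
          Finset.sum_neg_distrib]
        have h7 : ∑ b ∈ cl ρ (Rl.gr i), Φ ((e ∘ swap b s) ∘ swap s l) = -Φ (e ∘ swap s l) := by
          have h8 := h.ex i hi l hl' (e ∘ swap s l)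
          have h9 : ∑ b ∈ cl ρ (Rl.gr i), Φ ((e ∘ swap b s) ∘ swap s l) =
              ∑ b ∈ cl ρ (Rl.gr i), Φ ((e ∘ swap s l) ∘ swap b l) := by
            apply Finset.sum_congr rfl
            intro b hb
            rw [mem_cl] at hb
            rw [swap_comm b s, cyc1 e (hsB hb) (hBL hb hl')]
          rw [h9]
          linear_combination h8
        rw [h7, R]
        ring
      · have hA' : A = cl ρ (Rl.gr j) := by
          rw [hA]
          apply Finset.erase_eq_of_notMem
          rw [mem_cl, hs]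
          intro h1
          exact hj0 (by injection h1 with h2; exact h2.symm)
        have hex : ∀ e, ∑ a ∈ A, Φ (e ∘ swap a l) = -Φ e := by
          intro e
          have := h.ex j hj l hl' e
          rw [hA']
          linear_combination this
        rw [hex, Finset.sum_congr rfl (fun b _ => hex (e ∘ swap b s)), Finset.sum_neg_distrib, R]
        ring

end Step

/-- the case without groups -/
theorem base {ρ : ι → Rl} {C : Finset ℕ} {Φ : SF σ ι} (h : ClsW ρ C Φ) (N : Finset (σ → ℕ))
    (hN : N.card < (cl ρ Rl.L).card) (e : ι → σ → ℕ) (he : ∀ s, ρ s = Rl.L → e s ∈ N) :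
    Φ e = 0 := by
  obtain ⟨a, ha, b, hb, hab, hab2⟩ := Finset.exists_ne_map_eq_of_card_lt_of_maps_to hN
    (f := e) (fun s hs => he s (mem_cl.mp hs))
  have h1 := h.alt a b hab (mem_cl.mp ha) (mem_cl.mp hb) e
  have h2 : e ∘ swap a b = e := by
    funext t
    rw [Function.comp_apply]
    rcases eq_or_ne t a with rfl | hta
    · rw [swap_apply_left, hab2]
    · rcases eq_or_ne t b with rfl | htb
      · rw [swap_apply_right, hab2]
      · rw [swap_apply_of_ne_of_ne hta htb]
  rw [h2] at h1
  have h3 : (2 : ℂ) * Φ e = 0 := by linear_combination h1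
  exact (mul_eq_zero.mp h3).resolve_left two_ne_zero

theorem main (N : Finset (σ → ℕ)) : ∀ (n : ℕ) (C : Finset ℕ), C.card = n →
    ∀ (ρ : ι → Rl) (Φ : SF σ ι), ClsW ρ C Φ → (cl ρ Rl.L).Nonempty →
      N.card < (cl ρ Rl.L).card + C.card →
      (∀ e, Φ e ≠ 0 → ∀ s, rel ρ C s → e s ∈ N) → ∀ e, Φ e = 0 := by
  intro n
  induction n with
  | zero =>
    intro C hC ρ Φ h _ hN hsup e
    by_contra hne
    apply hne
    apply base h N (by omega) e
    intro s hs
    exact hsup e hne s (Or.inl hs)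
  | succ n ih =>
    intro C hC
    obtain ⟨i0, hi0⟩ : C.Nonempty := Finset.card_pos.mp (by omega)
    have key2 : ∀ (m : ℕ) (ρ : ι → Rl), (cl ρ (Rl.gr i0)).card = m → ∀ Φ : SF σ ι,
        ClsW ρ C Φ → (cl ρ Rl.L).Nonempty → N.card < (cl ρ Rl.L).card + C.card →
        (∀ e, Φ e ≠ 0 → ∀ s, rel ρ C s → e s ∈ N) → ∀ e, Φ e = 0 := by
      intro m
      induction m with
      | zero =>
        intro ρ hm Φ h hL _ _ e
        obtain ⟨l, hl⟩ := hL
        have h1 := h.ex i0 hi0 l (mem_cl.mp hl) e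
        rw [Finset.card_eq_zero.mp hm, Finset.sum_empty, add_zero] at h1
        exact h1
      | succ m ihm =>
        intro ρ hm Φ h hL hN hsup e
        obtain ⟨s, hs'⟩ : (cl ρ (Rl.gr i0)).Nonempty := Finset.card_pos.mp (by omega)
        have hs := mem_cl.mp hs'
        have hclL : ∀ i : ℕ, cl (Function.update ρ s (Rl.gr i)) Rl.L = cl ρ Rl.L := by
          intro i
          rw [cl_upd_ne ρ s (by simp)]
          apply Finset.erase_eq_of_notMem
          rw [mem_cl, hs]
          simp
        have hR : ∀ i ∈ C, i ≠ i0 → ∀ e, R ρ i s Φ e = 0 := by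
          intro i hi hii
          have hrel : ∀ t, rel (Function.update ρ s (Rl.gr i)) C t → rel ρ C t := by
            intro t ht
            rcases eq_or_ne t s with rfl | hts
            · exact Or.inr ⟨i0, hi0, hs⟩
            · rwa [rel, Function.update_of_ne hts] at ht
          refine ihm (Function.update ρ s (Rl.gr i)) ?_ (R ρ i s Φ) (clsR h hi0 hs hi hii) ?_ ?_ ?_
          · rw [cl_upd_ne ρ s (by simpa using hii), Finset.card_erase_of_mem hs', hm]
            omega
          · rw [hclL]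
            exact hL
          · rw [hclL]
            exact hN
          · intro e he t ht
            have ht' := hrel t ht
            by_contra hcon
            apply he
            have h1 : Φ e = 0 := by
              by_contra h2
              exact hcon (hsup e h2 t ht')
            have h3 : ∀ b ∈ cl ρ (Rl.gr i), Φ (e ∘ swap b s) = 0 := by
              intro b hb
              by_contra h2
              apply hcon
              have h4 := hsup _ h2 (swap b s t) (by
                rcases eq_or_ne t b with rfl | htb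
                · rw [swap_apply_left]
                  exact Or.inr ⟨i0, hi0, hs⟩
                · rcases eq_or_ne t s with rfl | hts
                  · rw [swap_apply_right]
                    exact Or.inr ⟨i, hi, mem_cl.mp hb⟩
                  · rwa [swap_apply_of_ne_of_ne htb hts])
              rw [Function.comp_apply, swap_apply_self] at h4
              exact h4
            rw [R, h1, Finset.sum_eq_zero h3, add_zero]
        have hclL' : cl (Function.update ρ s Rl.L) Rl.L = insert s (cl ρ Rl.L) :=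
          cl_upd_same ρ s Rl.L
        have hsL : s ∉ cl ρ Rl.L := by
          rw [mem_cl, hs]
          simp
        have hQ : ∀ e, Q ρ s Φ e = 0 := by
          refine ih (C.erase i0) (by rw [Finset.card_erase_of_mem hi0, hC]; rfl)
            (Function.update ρ s Rl.L) (Q ρ s Φ) (clsQ h hi0 hs hR) ?_ ?_ ?_
          · rw [hclL']
            exact Finset.insert_nonempty _ _
          · rw [hclL', Finset.card_insert_of_notMem hsL, Finset.card_erase_of_mem hi0]
            omega
          · intro e he t ht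
            have ht' : rel ρ C t := by
              rcases eq_or_ne t s with rfl | hts
              · exact Or.inr ⟨i0, hi0, hs⟩
              · rw [rel, Function.update_of_ne hts] at ht
                rcases ht with ht | ⟨i, hi, ht⟩
                · exact Or.inl ht
                · exact Or.inr ⟨i, Finset.mem_of_mem_erase hi, ht⟩
            by_contra hcon
            apply he
            have h1 : Φ e = 0 := by
              by_contra h2
              exact hcon (hsup e h2 t ht')
            have h3 : ∀ l ∈ cl ρ Rl.L, Φ (e ∘ swap s l) = 0 := by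
              intro l hl
              by_contra h2
              apply hcon
              have h4 := hsup _ h2 (swap s l t) (by
                rcases eq_or_ne t s with rfl | hts
                · rw [swap_apply_left]
                  exact Or.inl (mem_cl.mp hl)
                · rcases eq_or_ne t l with rfl | htl
                  · rw [swap_apply_right]
                    exact Or.inr ⟨i0, hi0, hs⟩
                  · rwa [swap_apply_of_ne_of_ne hts htl])
              rw [Function.comp_apply, swap_apply_self] at h4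
              exact h4
            rw [Q, h1, Finset.sum_eq_zero h3, sub_zero]
        have h1 := key h hi0 hs e
        rw [Finset.sum_eq_zero (fun a _ => hQ _)] at h1
        have h2 : (((cl ρ (Rl.gr i0)).card : ℂ) + (cl ρ Rl.L).card) ≠ 0 := by
          have : (cl ρ (Rl.gr i0)).card + (cl ρ Rl.L).card ≠ 0 := by omega
          exact_mod_cast this
        exact (mul_eq_zero.mp h1).resolve_left h2
    intro ρ Φ h hL hN hsup e
    exact key2 _ ρ rfl Φ h hL hN hsup e

/-- `Φ` on the labels in `N` -/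
noncomputable def trunc (ρ : ι → Rl) (C : Finset ℕ) (N : Finset (σ → ℕ)) (Φ : SF σ ι) : SF σ ι :=
  fun e => by
    classical
    exact if ∀ s, rel ρ C s → e s ∈ N then Φ e else 0

theorem trunc_swap {ρ : ι → Rl} {C : Finset ℕ} {N : Finset (σ → ℕ)} {a b : ι} (ha : rel ρ C a)
    (hb : rel ρ C b) (e : ι → σ → ℕ) :
    (∀ s, rel ρ C s → (e ∘ swap a b) s ∈ N) ↔ ∀ s, rel ρ C s → e s ∈ N := by
  have h1 : ∀ t, rel ρ C t → rel ρ C (swap a b t) := by
    intro t ht
    rcases eq_or_ne t a with rfl | hta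
    · rwa [swap_apply_left]
    · rcases eq_or_ne t b with rfl | htb
      · rwa [swap_apply_right]
      · rwa [swap_apply_of_ne_of_ne hta htb]
  constructor
  · intro h s hs
    have := h _ (h1 s hs)
    rwa [Function.comp_apply, swap_apply_self] at this
  · intro h s hs
    exact h _ (h1 s hs)

theorem cls_trunc {ρ : ι → Rl} {C : Finset ℕ} {Φ : SF σ ι} (h : ClsW ρ C Φ)
    (N : Finset (σ → ℕ)) : ClsW ρ C (trunc ρ C N Φ) := by
  classical
  refine ⟨?_, ?_, ?_⟩
  · intro i hi s s' hs hs' e
    have h1 := trunc_swap (N := N) (Or.inr ⟨i, hi, hs⟩ : rel ρ C s) (Or.inr ⟨i, hi, hs'⟩) e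
    simp only [trunc, h1, h.sym i hi s s' hs hs']
  · intro s s' hss hs hs' e
    have h1 := trunc_swap (C := C) (N := N) (Or.inl hs : rel ρ C s) (Or.inl hs') e
    simp only [trunc, h1, h.alt s s' hss hs hs']
    split_ifs
    · rfl
    · rw [neg_zero]
  · intro i hi s hs e
    have h1 : ∀ s' ∈ cl ρ (Rl.gr i), trunc ρ C N Φ (e ∘ swap s' s) =
        if ∀ s, rel ρ C s → e s ∈ N then Φ (e ∘ swap s' s) else 0 := by
      intro s' hs'
      have h2 := trunc_swap (N := N) (Or.inr ⟨i, hi, mem_cl.mp hs'⟩ : rel ρ C s')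
        (Or.inl hs) e
      simp only [trunc, h2]
    rw [Finset.sum_congr rfl h1]
    simp only [trunc]
    split_ifs with h3
    · exact h.ex i hi s hs e
    · simp

end X2

theorem wlem (C : Finset ℕ) (ρ : ι → Rl) (Φ : SF σ ι) (h : ClsW ρ C Φ)
    (hL : (cl ρ Rl.L).Nonempty) (N : Finset (σ → ℕ))
    (hN : N.card < (cl ρ Rl.L).card + C.card) (e : ι → σ → ℕ)
    (he : ∀ s, (ρ s = Rl.L ∨ ∃ i ∈ C, ρ s = Rl.gr i) → e s ∈ N) : Φ e = 0 := by
  classical
  have h1 := X2.main N C.card C rfl ρ (X2.trunc ρ C N Φ) (X2.cls_trunc h N) hL hN (by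
    intro e' he' s hs
    by_contra hcon
    apply he'
    have : ¬ ∀ s, X2.rel ρ C s → e' s ∈ N := fun h => hcon (h s hs)
    simp only [X2.trunc, this, if_false]) e
  have h2 : ∀ s, X2.rel ρ C s → e s ∈ N := he
  simp only [X2.trunc] at h1
  rwa [if_pos h2] at h1

end Pool.Agent.H69.VT
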