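import Pool.Agent.H69.VT.SDefs

/-! Project VT (MP_fb19ec_ag), row X4: symmetries of `A3`, four slots. -/

set_option linter.unusedSectionVars false

namespace Pool.Agent.H69.VT

open scoped BigOperators

variable {σ ι : Type} [Fintype σ] [DecidableEq σ] [Fintype ι] [DecidableEq ι]

theorem A3_12 (Φ : SF σ ι) (s1 s2 s3 : ι) (k1 k2 k3 : σ) (e : ι → σ → ℕ) :
    A3 Φ s2 s1 s3 k1 k2 k3 e = - A3 Φ s1 s2 s3 k1 k2 k3 e := by
  have r : ∀ a b : σ, e + u1 s2 a + u1 s1 b = e + u1 s1 b + u1 s2 a := fun a b =>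
    add_right_comm _ _ _
  simp only [A3]
  rw [r k1 k2, r k2 k1, r k1 k3, r k3 k2, r k2 k3, r k3 k1]
  ring

theorem A3_23 (Φ : SF σ ι) (s1 s2 s3 : ι) (k1 k2 k3 : σ) (e : ι → σ → ℕ) :
    A3 Φ s1 s3 s2 k1 k2 k3 e = - A3 Φ s1 s2 s3 k1 k2 k3 e := by
  have r : ∀ a b c : σ, e + u1 s1 a + u1 s3 b + u1 s2 c = e + u1 s1 a + u1 s2 c + u1 s3 b :=
    fun a b c => add_right_comm _ _ _
  simp only [A3]
  rw [r k1 k2 k3, r k2 k1 k3, r k1 k3 k2, r k3 k2 k1, r k2 k3 k1, r k3 k1 k2]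
  ring

namespace X4

theorem u1_swap (s a b : ι) (k : σ) :
    u1 s k ∘ Equiv.swap a b = u1 (Equiv.swap a b s) k := by
  funext t
  simp only [u1, Function.comp_apply, Pi.single_apply]
  have h : (Equiv.swap a b t = s) ↔ (t = Equiv.swap a b s) := by
    constructor
    · rintro rfl
      rw [Equiv.swap_apply_self]
    · rintro rfl
      rw [Equiv.swap_apply_self]
  simp only [h]

theorem dl_single (k : σ) : dl (Pi.single k 1 : σ → ℕ) = 1 := by
  simp [dl, Pi.single_apply]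

theorem dl_add (x y : σ → ℕ) : dl (x + y) = dl x + dl y := by
  simp [dl, Finset.sum_add_distrib]

theorem dl_zero {x : σ → ℕ} (h : dl x = 0) : x = 0 := by
  funext i
  have := (Finset.sum_eq_zero_iff.1 h) i (Finset.mem_univ i)
  simpa using this

theorem dl_one {x : σ → ℕ} (h : dl x = 1) : ∃ y, x = Pi.single y 1 := by
  have h1 : ∃ y, x y ≠ 0 := by
    by_contra hc
    push Not at hc
    have : dl x = 0 := Finset.sum_eq_zero fun i _ => hc i
    omega
  obtain ⟨y, hy⟩ := h1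
  refine ⟨y, ?_⟩
  have h2 : x y + ∑ i ∈ Finset.univ.erase y, x i = 1 := by
    rw [Finset.add_sum_erase _ _ (Finset.mem_univ y)]
    exact h
  funext i
  by_cases hi : i = y
  · subst hi
    rw [Pi.single_eq_same]
    omega
  · rw [Pi.single_eq_of_ne hi]
    have h3 : x i ≤ ∑ i ∈ Finset.univ.erase y, x i :=
      Finset.single_le_sum (f := x) (fun _ _ => Nat.zero_le _)
        (Finset.mem_erase.2 ⟨hi, Finset.mem_univ i⟩)
    omega

theorem u1_same (s : ι) (k : σ) : (u1 s k : ι → σ → ℕ) s = Pi.single k 1 := by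
  simp [u1]

theorem u1_ne {s t : ι} (h : t ≠ s) (k : σ) : (u1 s k : ι → σ → ℕ) t = 0 := by
  simp [u1, Pi.single_eq_of_ne h]

/-- all six arguments vanish -/
theorem A3_zero {Φ : SF σ ι} {s1 s2 s3 : ι} {e : ι → σ → ℕ}
    (h : ∀ a b c, Φ (e + u1 s1 a + u1 s2 b + u1 s3 c) = 0) (k1 k2 k3 : σ) :
    A3 Φ s1 s2 s3 k1 k2 k3 e = 0 := by
  simp only [A3, h]
  ring

end X4

/-- two symmetric slots of degree one -/
theorem A3_sym {Φ : SF σ ι} {s s' x : ι} (hss : s ≠ s') (hx : x ≠ s) (hx' : x ≠ s')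
    (hd : ∀ e, Φ e ≠ 0 → dl (e s) = 1 ∧ dl (e s') = 1)
    (hs : ∀ e, Φ (e ∘ Equiv.swap s s') = Φ e) (k1 k2 k3 : σ) (e : ι → σ → ℕ) :
    A3 Φ s s' x k1 k2 k3 e = 0 := by
  by_cases h : e s = 0 ∧ e s' = 0
  · have he : e ∘ Equiv.swap s s' = e := by
      funext t
      simp only [Function.comp_apply]
      by_cases h1 : t = s
      · subst h1
        rw [Equiv.swap_apply_left, h.1, h.2]
      · by_cases h2 : t = s'
        · subst h2
          rw [Equiv.swap_apply_right, h.1, h.2]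
        · rw [Equiv.swap_apply_of_ne_of_ne h1 h2]
    have key : ∀ a b c, Φ (e + u1 s a + u1 s' b + u1 x c) =
        Φ (e + u1 s b + u1 s' a + u1 x c) := by
      intro a b c
      rw [← hs (e + u1 s a + u1 s' b + u1 x c)]
      congr 1
      have h3 : (e + u1 s a + u1 s' b + u1 x c) ∘ Equiv.swap s s' =
          e ∘ Equiv.swap s s' + u1 s a ∘ Equiv.swap s s' + u1 s' b ∘ Equiv.swap s s' +
            u1 x c ∘ Equiv.swap s s' := rfl
      rw [h3, he, X4.u1_swap, X4.u1_swap, X4.u1_swap, Equiv.swap_apply_left,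
        Equiv.swap_apply_right, Equiv.swap_apply_of_ne_of_ne hx hx']
      exact congrArg (· + u1 x c) (add_right_comm _ _ _)
    simp only [A3]
    rw [key k1 k2 k3, key k1 k3 k2, key k3 k2 k1]
    ring
  · refine X4.A3_zero (fun a b c => ?_) k1 k2 k3
    by_contra hne
    apply h
    obtain ⟨h1, h2⟩ := hd _ hne
    simp only [Pi.add_apply, X4.u1_same, X4.u1_ne hss, X4.u1_ne hss.symm, X4.u1_ne hx.symm,
      X4.u1_ne hx'.symm, add_zero, X4.dl_add, X4.dl_single] at h1 h2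
    exact ⟨X4.dl_zero (by omega), X4.dl_zero (by omega)⟩

theorem four {Φ : SF σ ι} {s0 s1 s2 s3 : ι}
    (h1 : ∀ k1 k2 k3 e, A3 Φ s0 s1 s2 k1 k2 k3 e = 0)
    (h2 : ∀ k1 k2 k3 e, A3 Φ s0 s1 s3 k1 k2 k3 e = 0)
    (h3 : ∀ k1 k2 k3 e, A3 Φ s0 s2 s3 k1 k2 k3 e = 0) (k0 k1 k2 k3 : σ) (e : ι → σ → ℕ) :
    A3 Φ s1 s2 s3 k1 k2 k3 (e + u1 s0 k0) = 0 := by
  have r1 : ∀ a b c d : σ, e + u1 s1 b + u1 s0 a + u1 s2 c + u1 s3 d =
      e + u1 s0 a + u1 s1 b + u1 s2 c + u1 s3 d := by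
    intro a b c d
    abel
  have r2 : ∀ a b c d : σ, e + u1 s2 c + u1 s0 a + u1 s1 b + u1 s3 d =
      e + u1 s0 a + u1 s1 b + u1 s2 c + u1 s3 d := by
    intro a b c d
    abel
  have r3 : ∀ a b c d : σ, e + u1 s3 d + u1 s0 a + u1 s1 b + u1 s2 c =
      e + u1 s0 a + u1 s1 b + u1 s2 c + u1 s3 d := by
    intro a b c d
    abel
  have i1 := h3 k0 k2 k3 (e + u1 s1 k1)
  have i2 := h3 k0 k1 k3 (e + u1 s1 k2)
  have i3 := h3 k0 k1 k2 (e + u1 s1 k3)
  have i4 := h2 k1 k2 k3 (e + u1 s2 k0)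
  have i5 := h1 k1 k2 k3 (e + u1 s3 k0)
  simp only [A3, r1, r2, r3] at i1 i2 i3 i4 i5 ⊢
  linear_combination i1 - i2 + i3 - i4 + i5

theorem star {Φ : SF σ ι} {f g l a : ι}
    (h1 : ∀ k1 k2 k3 e, A3 Φ f g l k1 k2 k3 e = 0)
    (h2 : ∀ k1 k2 k3 e, A3 Φ f g a k1 k2 k3 e = 0) (y k1 k2 k3 : σ) (e : ι → σ → ℕ) :
    A3 Φ f l a k1 k2 k3 (e + u1 g y) = A3 Φ g l a k1 k2 k3 (e + u1 f y) := by
  have r1 : ∀ p q r s : σ, e + u1 g q + u1 f p + u1 l r + u1 a s =
      e + u1 f p + u1 g q + u1 l r + u1 a s := by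
    intro p q r s
    abel
  have r2 : ∀ p q r s : σ, e + u1 a s + u1 f p + u1 g q + u1 l r =
      e + u1 f p + u1 g q + u1 l r + u1 a s := by
    intro p q r s
    abel
  have r3 : ∀ p q r s : σ, e + u1 l r + u1 f p + u1 g q + u1 a s =
      e + u1 f p + u1 g q + u1 l r + u1 a s := by
    intro p q r s
    abel
  have i1 := h2 k1 k2 k3 (e + u1 l y)
  have i2 := h1 k1 k2 y (e + u1 a k3)
  have i3 := h1 k1 k3 y (e + u1 a k2)
  have i4 := h1 k2 k3 y (e + u1 a k1)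
  simp only [A3, r1, r2, r3] at i1 i2 i3 i4 ⊢
  linear_combination i1 - i2 + i3 - i4

/-- the triples (F, L, group) -/
theorem fla {q : ℕ} {ρ : ι → Rl} {C : Finset ℕ} {Φ : SF σ ι} (h : Cls q ρ C Φ) {f l a : ι} {i : ℕ}
    (hf : ρ f = Rl.F) (hl : ρ l = Rl.L) (hi : i ∈ C) (ha : ρ a = Rl.gr i)
    (hg : ∀ g, ρ g = Rl.G → ∀ k1 k2 k3 e, A3 Φ f g a k1 k2 k3 e = 0) :
    ∀ k1 k2 k3 e, A3 Φ f l a k1 k2 k3 e = 0 := by
  intro k1 k2 k3 e
  have hfl : f ≠ l := by rintro rfl; rw [hf] at hl; cases hl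
  have hfa : f ≠ a := by rintro rfl; rw [hf] at ha; cases ha
  by_cases hef : e f = 0
  swap
  · refine X4.A3_zero (fun x y z => ?_) k1 k2 k3
    by_contra hne
    apply hef
    have h1 := h.deg1 _ hne f (Or.inl hf)
    simp only [Pi.add_apply, X4.u1_same, X4.u1_ne hfl, X4.u1_ne hfa, add_zero, X4.dl_add,
      X4.dl_single] at h1
    exact X4.dl_zero (by omega)
  by_cases heg : ∀ g, ρ g = Rl.G → dl (e g) = 1
  swap
  · push Not at heg
    obtain ⟨g, hgG, hge⟩ := heg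
    have hgf : g ≠ f := by rintro rfl; rw [hf] at hgG; cases hgG
    have hgl : g ≠ l := by rintro rfl; rw [hl] at hgG; cases hgG
    have hga : g ≠ a := by rintro rfl; rw [ha] at hgG; cases hgG
    refine X4.A3_zero (fun x y z => ?_) k1 k2 k3
    by_contra hne
    apply hge
    have h1 := h.deg1 _ hne g (Or.inr hgG)
    simpa only [Pi.add_apply, X4.u1_ne hgf, X4.u1_ne hgl, X4.u1_ne hga, add_zero] using h1
  -- the G slots
  have key : ∀ g ∈ cl ρ Rl.G, A3 Φ g l a k1 k2 k3 (e ∘ Equiv.swap g f) =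
      A3 Φ f l a k1 k2 k3 e := by
    intro g hgm
    have hgG : ρ g = Rl.G := (Finset.mem_filter.1 hgm).2
    have hgf : g ≠ f := by rintro rfl; rw [hf] at hgG; cases hgG
    have hgl : g ≠ l := by rintro rfl; rw [hl] at hgG; cases hgG
    obtain ⟨y, hy⟩ := X4.dl_one (heg g hgG)
    have h1 : e = Function.update e g 0 + u1 g y := by
      funext t
      rw [Pi.add_apply]
      by_cases ht : t = g
      · subst ht
        rw [Function.update_self, X4.u1_same, zero_add, hy]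
      · rw [Function.update_of_ne ht, X4.u1_ne ht, add_zero]
    have h2 : e ∘ Equiv.swap g f = Function.update e g 0 + u1 f y := by
      funext t
      rw [Pi.add_apply, Function.comp_apply]
      by_cases ht : t = g
      · subst ht
        rw [Function.update_self, X4.u1_ne hgf, Equiv.swap_apply_left, hef, add_zero]
      · by_cases ht2 : t = f
        · subst ht2
          rw [Function.update_of_ne ht, X4.u1_same, Equiv.swap_apply_right, hef, zero_add, hy]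
        · rw [Function.update_of_ne ht, X4.u1_ne ht2, add_zero,
            Equiv.swap_apply_of_ne_of_ne ht ht2]
    rw [h2]
    conv_rhs => rw [h1]
    exact (star (fun k1 k2 k3 e => h.tri f g l hgf.symm hfl hgl (Or.inl hf)
      (Or.inr (Or.inl hgG)) (Or.inr (Or.inr hl)) k1 k2 k3 e) (hg g hgG) y k1 k2 k3 _).symm
  have hsum : A3 Φ f l a k1 k2 k3 e +
      ∑ g ∈ cl ρ Rl.G, A3 Φ g l a k1 k2 k3 (e ∘ Equiv.swap g f) = 0 := by
    have hE : ∀ x y z : σ, Φ (e + u1 f x + u1 l y + u1 a z) +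
        ∑ g ∈ cl ρ Rl.G, Φ (e ∘ Equiv.swap g f + u1 g x + u1 l y + u1 a z) = 0 := by
      intro x y z
      have h1 := h.fg f hf (e + u1 f x + u1 l y + u1 a z)
      have h2 : ∑ g ∈ cl ρ Rl.G, Φ (e ∘ Equiv.swap g f + u1 g x + u1 l y + u1 a z) =
          ∑ g ∈ cl ρ Rl.G, Φ ((e + u1 f x + u1 l y + u1 a z) ∘ Equiv.swap g f) := by
        refine Finset.sum_congr rfl fun g hgm => ?_
        have hgG : ρ g = Rl.G := (Finset.mem_filter.1 hgm).2
        have hgl : g ≠ l := by rintro rfl; rw [hl] at hgG; cases hgG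
        have hga : g ≠ a := by rintro rfl; rw [ha] at hgG; cases hgG
        have h3 : (e + u1 f x + u1 l y + u1 a z) ∘ Equiv.swap g f =
            e ∘ Equiv.swap g f + u1 f x ∘ Equiv.swap g f + u1 l y ∘ Equiv.swap g f +
              u1 a z ∘ Equiv.swap g f := rfl
        rw [h3, X4.u1_swap, X4.u1_swap, X4.u1_swap, Equiv.swap_apply_right,
          Equiv.swap_apply_of_ne_of_ne hgl.symm hfl.symm,
          Equiv.swap_apply_of_ne_of_ne hga.symm hfa.symm]
      rw [h2]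
      exact h1
    simp only [A3, Finset.sum_add_distrib, Finset.sum_sub_distrib]
    linear_combination hE k1 k2 k3 - hE k2 k1 k3 - hE k1 k3 k2 - hE k3 k2 k1 + hE k2 k3 k1 +
      hE k3 k1 k2
  rw [Finset.sum_congr rfl key, Finset.sum_const, nsmul_eq_mul] at hsum
  have h1 : (1 + ((cl ρ Rl.G).card : ℂ)) * A3 Φ f l a k1 k2 k3 e = 0 := by
    linear_combination hsum
  rcases mul_eq_zero.1 h1 with h2 | h2
  · exfalso
    have h3 : ((1 + (cl ρ Rl.G).card : ℕ) : ℂ) = 0 := by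
      push_cast
      exact h2
    rw [Nat.cast_eq_zero] at h3
    omega
  · exact h2

end Pool.Agent.H69.VT
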