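import Pool.Agent.H69.VT.SDefs

/-!
The antisymmetrized functionals are in the class again.
-/

set_option linter.unusedSectionVars false

namespace Pool.Agent.H69.VT

open scoped BigOperators

variable {σ ι : Type} [Fintype σ] [DecidableEq σ] [Fintype ι] [DecidableEq ι]

private theorem x5_u1_swap (s t x : ι) (k : σ) :
    u1 x k ∘ Equiv.swap s t = u1 (Equiv.swap s t x) k := by
  funext r
  simp only [Function.comp, u1]
  by_cases h : r = Equiv.swap s t x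
  · subst h
    simp
  · have h' : Equiv.swap s t r ≠ x := by
      intro h1
      apply h
      rw [← h1, Equiv.swap_apply_self]
    rw [Pi.single_eq_of_ne h', Pi.single_eq_of_ne h]

private theorem x5_add_comp (a b : ι → σ → ℕ) (τ : Equiv.Perm ι) :
    (a + b) ∘ τ = a ∘ τ + b ∘ τ := rfl

private theorem x5_A3_swap (Φ : SF σ ι) (s t x y z : ι) (k1 k2 k3 : σ) (e : ι → σ → ℕ) :
    A3 (fun e => Φ (e ∘ Equiv.swap s t)) x y z k1 k2 k3 e =
      A3 Φ (Equiv.swap s t x) (Equiv.swap s t y) (Equiv.swap s t z) k1 k2 k3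
        (e ∘ Equiv.swap s t) := by
  simp only [A3, x5_add_comp, x5_u1_swap]

private theorem x5_A3_zero {Φ : SF σ ι} (h : ∀ e, Φ e = 0) (x y z : ι) (k1 k2 k3 : σ)
    (e : ι → σ → ℕ) : A3 Φ x y z k1 k2 k3 e = 0 := by
  simp only [A3, h]
  ring

private theorem x5_A3_add (Φ Ψ : SF σ ι) (x y z : ι) (k1 k2 k3 : σ) (e : ι → σ → ℕ) :
    A3 (fun e => Φ e + Ψ e) x y z k1 k2 k3 e =
      A3 Φ x y z k1 k2 k3 e + A3 Ψ x y z k1 k2 k3 e := by
  simp only [A3]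
  ring

private theorem x5_A3_sum {α : Type} (S : Finset α) (Φ : α → SF σ ι) (x y z : ι) (k1 k2 k3 : σ)
    (e : ι → σ → ℕ) :
    A3 (fun e => ∑ t ∈ S, Φ t e) x y z k1 k2 k3 e =
      ∑ t ∈ S, A3 (Φ t) x y z k1 k2 k3 e := by
  simp only [A3, Finset.sum_add_distrib, Finset.sum_sub_distrib]

/-- the antisymmetrization in an abstract additive monoid -/
private def x5B {M κ : Type} [AddCommMonoid M] (Φ : M → ℂ) (X Y Z : κ → M) (k1 k2 k3 : κ) :
    M → ℂ := fun e =>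
  Φ (e + X k1 + Y k2 + Z k3) - Φ (e + X k2 + Y k1 + Z k3)
  - Φ (e + X k1 + Y k3 + Z k2) - Φ (e + X k3 + Y k2 + Z k1)
  + Φ (e + X k2 + Y k3 + Z k1) + Φ (e + X k3 + Y k1 + Z k2)

private theorem x5_A3_eq (Φ : SF σ ι) (s1 s2 s3 : ι) (k1 k2 k3 : σ) :
    A3 Φ s1 s2 s3 k1 k2 k3 = x5B Φ (u1 s1) (u1 s2) (u1 s3) k1 k2 k3 := rfl

private theorem x5B_comm {M κ : Type} [AddCommMonoid M] {Φ : M → ℂ} {A B C : κ → M}
    {l1 l2 l3 : κ} (h : ∀ e, x5B Φ A B C l1 l2 l3 e = 0) (X Y Z : κ → M) (k1 k2 k3 : κ) (e : M) :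
    x5B (x5B Φ X Y Z k1 k2 k3) A B C l1 l2 l3 e = 0 := by
  have h1 := h (e + X k1 + Y k2 + Z k3)
  have h2 := h (e + X k2 + Y k1 + Z k3)
  have h3 := h (e + X k1 + Y k3 + Z k2)
  have h4 := h (e + X k3 + Y k2 + Z k1)
  have h5 := h (e + X k2 + Y k3 + Z k1)
  have h6 := h (e + X k3 + Y k1 + Z k2)
  have key : ∀ a b c p q r : M,
      Φ (e + a + b + c + p + q + r) = Φ (e + p + q + r + a + b + c) := by
    intro a b c p q r
    congr 1
    abel
  simp only [x5B] at h1 h2 h3 h4 h5 h6 ⊢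
  simp only [key (A _) (B _) (C _) (X _) (Y _) (Z _)]
  linear_combination h1 - h2 - h3 - h4 + h5 + h6

private theorem x5_A3_comm {Φ : SF σ ι} {s1 s2 s3 : ι} {l1 l2 l3 : σ}
    (h : ∀ e, A3 Φ s1 s2 s3 l1 l2 l3 e = 0) (x y z : ι) (k1 k2 k3 : σ) (e : ι → σ → ℕ) :
    A3 (A3 Φ x y z k1 k2 k3) s1 s2 s3 l1 l2 l3 e = 0 :=
  x5B_comm (A := u1 s1) (B := u1 s2) (C := u1 s3) h (u1 x) (u1 y) (u1 z) k1 k2 k3 e

private theorem x5B_23 {M κ : Type} [AddCommMonoid M] (Φ : M → ℂ) (A B C : κ → M)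
    (k1 k2 k3 : κ) (e : M) : x5B Φ A C B k1 k2 k3 e = - x5B Φ A B C k1 k2 k3 e := by
  have key : ∀ a b c : M, e + a + b + c = e + a + c + b := by
    intro a b c
    abel
  simp only [x5B]
  rw [key (A k1) (C k2) (B k3), key (A k2) (C k1) (B k3), key (A k1) (C k3) (B k2),
    key (A k3) (C k2) (B k1), key (A k2) (C k3) (B k1), key (A k3) (C k1) (B k2)]
  ring

private theorem x5_A3_23 (Φ : SF σ ι) (s1 s2 s3 : ι) (k1 k2 k3 : σ) (e : ι → σ → ℕ) :
    A3 Φ s1 s3 s2 k1 k2 k3 e = - A3 Φ s1 s2 s3 k1 k2 k3 e :=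
  x5B_23 Φ (u1 s1) (u1 s2) (u1 s3) k1 k2 k3 e

private theorem x5_dl_u1 (s : ι) (k : σ) : dl (u1 s k s) = 1 := by
  simp [dl, u1]

private theorem x5_dl_add (a b : σ → ℕ) : dl (a + b) = dl a + dl b := by
  simp [dl, Finset.sum_add_distrib]

private theorem x5_dl_zero {a : σ → ℕ} (h : dl a = 0) : a = 0 := by
  funext i
  have := (Finset.sum_eq_zero_iff (s := Finset.univ) (f := a)).1 h i (Finset.mem_univ i)
  simpa using this

private theorem x5_A3_sym {Φ : SF σ ι} {s s' x : ι} (hss : s ≠ s') (hx : x ≠ s) (hx' : x ≠ s')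
    (hd : ∀ e, Φ e ≠ 0 → dl (e s) = 1 ∧ dl (e s') = 1)
    (hs : ∀ e, Φ (e ∘ Equiv.swap s s') = Φ e) (k1 k2 k3 : σ) (e : ι → σ → ℕ) :
    A3 Φ s s' x k1 k2 k3 e = 0 := by
  by_cases he : dl (e s) = 0 ∧ dl (e s') = 0
  · have hes : e s = 0 := x5_dl_zero he.1
    have hes' : e s' = 0 := x5_dl_zero he.2
    have hcomp : e ∘ Equiv.swap s s' = e := by
      funext r
      by_cases h1 : r = s
      · subst h1
        simp [hes, hes']
      · by_cases h2 : r = s'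
        · subst h2
          simp [hes, hes']
        · simp [Equiv.swap_apply_of_ne_of_ne h1 h2]
    have key : ∀ a b c : σ, Φ (e + u1 s a + u1 s' b + u1 x c) =
        Φ (e + u1 s b + u1 s' a + u1 x c) := by
      intro a b c
      rw [← hs (e + u1 s a + u1 s' b + u1 x c)]
      simp only [x5_add_comp, x5_u1_swap, hcomp, Equiv.swap_apply_left, Equiv.swap_apply_right,
        Equiv.swap_apply_of_ne_of_ne hx hx']
      congr 1
      abel
    simp only [A3]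
    rw [key k1 k2 k3, key k1 k3 k2, key k3 k2 k1]
    ring
  · have hz : ∀ a b c : σ, Φ (e + u1 s a + u1 s' b + u1 x c) = 0 := by
      intro a b c
      by_contra hne
      obtain ⟨h1, h2⟩ := hd _ hne
      apply he
      simp only [Pi.add_apply, x5_dl_add, x5_dl_u1] at h1 h2
      constructor
      · omega
      · omega
    simp only [A3, hz]
    ring

private theorem x5_fresh {ρ : ι → Rl} {x y z s : ι} {r : Rl} (hr : r ≠ Rl.no)
    (h : Function.update (Function.update (Function.update ρ x Rl.no) y Rl.no) z Rl.no s = r) :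
    ρ s = r ∧ s ≠ x ∧ s ≠ y ∧ s ≠ z := by
  have hz : s ≠ z := by
    intro h1
    subst h1
    rw [Function.update_self] at h
    exact hr h.symm
  rw [Function.update_of_ne hz] at h
  have hy : s ≠ y := by
    intro h1
    subst h1
    rw [Function.update_self] at h
    exact hr h.symm
  rw [Function.update_of_ne hy] at h
  have hx : s ≠ x := by
    intro h1
    subst h1
    rw [Function.update_self] at h
    exact hr h.symm
  rw [Function.update_of_ne hx] at h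
  exact ⟨h, hx, hy, hz⟩

private theorem x5_swap_eq {Φ : SF σ ι} {x y z s s' : ι} (hx : s ≠ x) (hy : s ≠ y) (hz : s ≠ z)
    (hx' : s' ≠ x) (hy' : s' ≠ y) (hz' : s' ≠ z) (k1 k2 k3 : σ) (e : ι → σ → ℕ) :
    A3 Φ x y z k1 k2 k3 (e ∘ Equiv.swap s s') =
      A3 (fun e => Φ (e ∘ Equiv.swap s s')) x y z k1 k2 k3 e := by
  rw [x5_A3_swap, Equiv.swap_apply_of_ne_of_ne hx.symm hx'.symm,
    Equiv.swap_apply_of_ne_of_ne hy.symm hy'.symm, Equiv.swap_apply_of_ne_of_ne hz.symm hz'.symm]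

private theorem x5_neg {Φ : SF σ ι} (x y z : ι) (k1 k2 k3 : σ) (e : ι → σ → ℕ) :
    A3 (fun e => - Φ e) x y z k1 k2 k3 e = - A3 Φ x y z k1 k2 k3 e := by
  simp only [A3]
  ring

private theorem x5_ne {Φ : SF σ ι} {x y z : ι} {k1 k2 k3 : σ} {e : ι → σ → ℕ}
    (h : A3 Φ x y z k1 k2 k3 e ≠ 0) :
    ∃ a b c : σ, Φ (e + u1 x a + u1 y b + u1 z c) ≠ 0 := by
  by_contra hn
  push Not at hn
  apply h
  simp only [A3, hn]
  ring

private theorem x5_u1_ne {x s : ι} (h : s ≠ x) (k : σ) : (u1 x k : ι → σ → ℕ) s = 0 := by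
  simp only [u1]
  rw [Pi.single_eq_of_ne h]

private theorem x5_sum {ρ : ι → Rl} {Φ : SF σ ι} {x y z s : ι} {r : Rl} (hr : r ≠ Rl.no)
    (hx : s ≠ x) (hy : s ≠ y) (hz : s ≠ z)
    (hxy : x ≠ y) (hxz : x ≠ z) (hyz : y ≠ z) (k1 k2 k3 : σ)
    (H : ∀ e, Φ e + ∑ s' ∈ cl ρ r, Φ (e ∘ Equiv.swap s' s) = 0)
    (Ex : ρ x = r → ∀ e, A3 Φ s y z k1 k2 k3 e = 0)
    (Ey : ρ y = r → ∀ e, A3 Φ x s z k1 k2 k3 e = 0)
    (Ez : ρ z = r → ∀ e, A3 Φ x y s k1 k2 k3 e = 0) (e : ι → σ → ℕ) :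
    A3 Φ x y z k1 k2 k3 e + ∑ s' ∈ cl (Function.update (Function.update
      (Function.update ρ x Rl.no) y Rl.no) z Rl.no) r,
        A3 Φ x y z k1 k2 k3 (e ∘ Equiv.swap s' s) = 0 := by
  have h0 := x5_A3_zero H x y z k1 k2 k3 e
  rw [x5_A3_add, x5_A3_sum] at h0
  rw [← h0]
  congr 1
  have hsub : cl (Function.update (Function.update
      (Function.update ρ x Rl.no) y Rl.no) z Rl.no) r ⊆ cl ρ r := by
    intro t ht
    simp only [cl, Finset.mem_filter, Finset.mem_univ, true_and] at ht ⊢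
    exact (x5_fresh hr ht).1
  rw [← Finset.sum_subset hsub (f := fun s' =>
    A3 (fun e => Φ (e ∘ Equiv.swap s' s)) x y z k1 k2 k3 e)]
  · apply Finset.sum_congr rfl
    intro t ht
    simp only [cl, Finset.mem_filter, Finset.mem_univ, true_and] at ht
    obtain ⟨-, h1, h2, h3⟩ := x5_fresh hr ht
    exact x5_swap_eq h1 h2 h3 hx hy hz k1 k2 k3 e
  · intro t ht hnt
    simp only [cl, Finset.mem_filter, Finset.mem_univ, true_and] at ht hnt
    rw [x5_A3_swap]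
    by_cases h1 : t = x
    · subst h1
      rw [Equiv.swap_apply_left, Equiv.swap_apply_of_ne_of_ne hxy.symm hy.symm,
        Equiv.swap_apply_of_ne_of_ne hxz.symm hz.symm]
      exact Ex ht _
    · by_cases h2 : t = y
      · subst h2
        rw [Equiv.swap_apply_left, Equiv.swap_apply_of_ne_of_ne hxy hx.symm,
          Equiv.swap_apply_of_ne_of_ne hyz.symm hz.symm]
        exact Ey ht _
      · by_cases h3 : t = z
        · subst h3
          rw [Equiv.swap_apply_left, Equiv.swap_apply_of_ne_of_ne hxz hx.symm,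
            Equiv.swap_apply_of_ne_of_ne hyz hy.symm]
          exact Ez ht _
        · exfalso
          apply hnt
          rw [Function.update_of_ne h3, Function.update_of_ne h2, Function.update_of_ne h1, ht]

private theorem x5_gen {q : ℕ} {ρ : ι → Rl} {C : Finset ℕ} {Φ : SF σ ι} (h : Cls q ρ C Φ)
    {x y z : ι} (hxy : x ≠ y) (hxz : x ≠ z) (hyz : y ≠ z) (k1 k2 k3 : σ)
    (Hex : ∀ i ∈ C, ∀ s, ρ s = Rl.L → s ≠ x → s ≠ y → s ≠ z →
      (ρ x = Rl.gr i → ∀ e, A3 Φ s y z k1 k2 k3 e = 0) ∧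
      (ρ y = Rl.gr i → ∀ e, A3 Φ x s z k1 k2 k3 e = 0) ∧
      (ρ z = Rl.gr i → ∀ e, A3 Φ x y s k1 k2 k3 e = 0))
    (Hfg : ∀ s, ρ s = Rl.F → s ≠ x → s ≠ y → s ≠ z →
      (ρ x = Rl.G → ∀ e, A3 Φ s y z k1 k2 k3 e = 0) ∧
      (ρ y = Rl.G → ∀ e, A3 Φ x s z k1 k2 k3 e = 0) ∧
      (ρ z = Rl.G → ∀ e, A3 Φ x y s k1 k2 k3 e = 0)) :
    Cls q (Function.update (Function.update (Function.update ρ x Rl.no) y Rl.no) z Rl.no) C
      (A3 Φ x y z k1 k2 k3) := by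
  refine ⟨⟨?_, ?_, ?_⟩, ?_, ?_, ?_, ?_, ?_, ?_⟩
  · intro i hi s s' hs hs' e
    obtain ⟨r1, a1, b1, c1⟩ := x5_fresh (by simp) hs
    obtain ⟨r2, a2, b2, c2⟩ := x5_fresh (by simp) hs'
    rw [x5_swap_eq a1 b1 c1 a2 b2 c2]
    congr 1
    funext e'
    exact h.sym i hi s s' r1 r2 e'
  · intro s s' hne hs hs' e
    obtain ⟨r1, a1, b1, c1⟩ := x5_fresh (by simp) hs
    obtain ⟨r2, a2, b2, c2⟩ := x5_fresh (by simp) hs'
    rw [x5_swap_eq a1 b1 c1 a2 b2 c2, ← x5_neg]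
    congr 1
    funext e'
    exact h.alt s s' hne r1 r2 e'
  · intro i hi s hs e
    obtain ⟨r1, a1, b1, c1⟩ := x5_fresh (by simp) hs
    obtain ⟨E1, E2, E3⟩ := Hex i hi s r1 a1 b1 c1
    exact x5_sum (by simp) a1 b1 c1 hxy hxz hyz k1 k2 k3 (h.ex i hi s r1) E1 E2 E3 e
  · intro e he s hs
    obtain ⟨a, b, c, hne⟩ := x5_ne he
    have h1 : ρ s = Rl.F ∨ ρ s = Rl.G := by
      rcases hs with hs | hs
      · exact Or.inl (x5_fresh (by simp) hs).1
      · exact Or.inr (x5_fresh (by simp) hs).1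
    have h2 : s ≠ x ∧ s ≠ y ∧ s ≠ z := by
      rcases hs with hs | hs
      · exact (x5_fresh (by simp) hs).2
      · exact (x5_fresh (by simp) hs).2
    have h3 := h.deg1 _ hne s h1
    simpa only [Pi.add_apply, x5_u1_ne h2.1, x5_u1_ne h2.2.1, x5_u1_ne h2.2.2, add_zero] using h3
  · intro e he s hs
    obtain ⟨a, b, c, hne⟩ := x5_ne he
    have h1 : (ρ s = Rl.L ∨ ∃ i ∈ C, ρ s = Rl.gr i) ∧ s ≠ x ∧ s ≠ y ∧ s ≠ z := by
      rcases hs with hs | ⟨i, hi, hs⟩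
      · obtain ⟨r1, r2⟩ := x5_fresh (by simp) hs
        exact ⟨Or.inl r1, r2⟩
      · obtain ⟨r1, r2⟩ := x5_fresh (by simp) hs
        exact ⟨Or.inr ⟨i, hi, r1⟩, r2⟩
    obtain ⟨h1, h2⟩ := h1
    have h3 := h.degq _ hne s h1
    simpa only [Pi.add_apply, x5_u1_ne h2.1, x5_u1_ne h2.2.1, x5_u1_ne h2.2.2, add_zero] using h3
  · intro s s' hs hs' e
    obtain ⟨r1, a1, b1, c1⟩ := x5_fresh (by simp) hs
    obtain ⟨r2, a2, b2, c2⟩ := x5_fresh (by simp) hs'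
    rw [x5_swap_eq a1 b1 c1 a2 b2 c2]
    congr 1
    funext e'
    exact h.symF s s' r1 r2 e'
  · intro s s' hs hs' e
    obtain ⟨r1, a1, b1, c1⟩ := x5_fresh (by simp) hs
    obtain ⟨r2, a2, b2, c2⟩ := x5_fresh (by simp) hs'
    rw [x5_swap_eq a1 b1 c1 a2 b2 c2]
    congr 1
    funext e'
    exact h.symG s s' r1 r2 e'
  · intro s1 s2 s3 h12 h13 h23 hb1 hb2 hb3 l1 l2 l3 e
    have conv : ∀ s, isB (Function.update (Function.update (Function.update ρ x Rl.no) y Rl.no)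
        z Rl.no s) → isB (ρ s) := by
      intro s hs
      rcases hs with hs | hs | hs
      · exact Or.inl (x5_fresh (by simp) hs).1
      · exact Or.inr (Or.inl (x5_fresh (by simp) hs).1)
      · exact Or.inr (Or.inr (x5_fresh (by simp) hs).1)
    exact x5_A3_comm (fun e' => h.tri s1 s2 s3 h12 h13 h23 (conv _ hb1) (conv _ hb2)
      (conv _ hb3) l1 l2 l3 e') x y z k1 k2 k3 e
  · intro s hs e
    obtain ⟨r1, a1, b1, c1⟩ := x5_fresh (by simp) hs
    obtain ⟨E1, E2, E3⟩ := Hfg s r1 a1 b1 c1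
    exact x5_sum (by simp) a1 b1 c1 hxy hxz hyz k1 k2 k3 (h.fg s r1) E1 E2 E3 e

theorem cls_fga {q : ℕ} {ρ : ι → Rl} {C : Finset ℕ} {Φ : SF σ ι} (h : Cls q ρ C Φ) {f g a : ι}
    {i : ℕ} (hf : ρ f = Rl.F) (hg : ρ g = Rl.G) (hi : i ∈ C) (ha : ρ a = Rl.gr i) (k1 k2 k3 : σ) :
    Cls q (Function.update (Function.update (Function.update ρ f Rl.no) g Rl.no) a Rl.no) C
      (A3 Φ f g a k1 k2 k3) := by
  have hfg : f ≠ g := by
    intro h1
    rw [h1, hg] at hf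
    simp at hf
  have hfa : f ≠ a := by
    intro h1
    rw [h1, ha] at hf
    simp at hf
  have hga : g ≠ a := by
    intro h1
    rw [h1, ha] at hg
    simp at hg
  apply x5_gen h hfg hfa hga k1 k2 k3
  · intro j hj s hs h1 h2 h3
    refine ⟨fun h4 => ?_, fun h4 => ?_, fun h4 e => ?_⟩
    · rw [hf] at h4
      simp at h4
    · rw [hg] at h4
      simp at h4
    · exact h.tri f g s hfg h1.symm h2.symm (Or.inl hf) (Or.inr (Or.inl hg)) (Or.inr (Or.inr hs))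
        k1 k2 k3 e
  · intro s hs h1 h2 h3
    refine ⟨fun h4 => ?_, fun h4 e => ?_, fun h4 => ?_⟩
    · rw [hf] at h4
      simp at h4
    · exact x5_A3_sym h1.symm hfa.symm h3.symm
        (fun e' he' => ⟨h.deg1 e' he' f (Or.inl hf), h.deg1 e' he' s (Or.inl hs)⟩)
        (fun e' => h.symF f s hf hs e') k1 k2 k3 e
    · rw [ha] at h4
      simp at h4

theorem cls_faa {q : ℕ} {ρ : ι → Rl} {C : Finset ℕ} {Φ : SF σ ι} (h : Cls q ρ C Φ) {f a b : ι}
    {i j : ℕ} (hf : ρ f = Rl.F) (hi : i ∈ C) (ha : ρ a = Rl.gr i) (hj : j ∈ C) (hb : ρ b = Rl.gr j)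
    (hab : a ≠ b)
    (h1 : ∀ l, ρ l = Rl.L → ∀ k1 k2 k3 e, A3 Φ f l a k1 k2 k3 e = 0)
    (h2 : ∀ l, ρ l = Rl.L → ∀ k1 k2 k3 e, A3 Φ f l b k1 k2 k3 e = 0) (k1 k2 k3 : σ) :
    Cls q (Function.update (Function.update (Function.update ρ f Rl.no) a Rl.no) b Rl.no) C
      (A3 Φ f a b k1 k2 k3) := by
  have hfa : f ≠ a := by
    intro h1
    rw [h1, ha] at hf
    simp at hf
  have hfb : f ≠ b := by
    intro h1
    rw [h1, hb] at hf
    simp at hf
  apply x5_gen h hfa hfb hab k1 k2 k3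
  · intro j' hj' s hs h3 h4 h5
    refine ⟨fun h6 => ?_, fun h6 e => ?_, fun h6 e => ?_⟩
    · rw [hf] at h6
      simp at h6
    · exact h2 s hs k1 k2 k3 e
    · rw [x5_A3_23, h1 s hs k1 k2 k3 e, neg_zero]
  · intro s hs h3 h4 h5
    refine ⟨fun h6 => ?_, fun h6 => ?_, fun h6 => ?_⟩
    · rw [hf] at h6
      simp at h6
    · rw [ha] at h6
      simp at h6
    · rw [hb] at h6
      simp at h6

end Pool.Agent.H69.VT
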