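import Pool.Agent.H69.VT.X1
import Pool.Agent.H69.VT.X2
import Pool.Agent.H69.VT.X3
import Pool.Agent.H69.VT.X4
import Pool.Agent.H69.VT.X5
import Pool.Agent.H69.VT.X6

/-! Slot functions: the main induction (project VT, row X7). -/

set_option linter.unusedSectionVars false

namespace Pool.Agent.H69.VT

open scoped BigOperators

variable {σ ι : Type} [Fintype σ] [DecidableEq σ] [Fintype ι] [DecidableEq ι]

namespace X7

theorem mem_cl {ρ : ι → Rl} {r : Rl} {s : ι} : s ∈ cl ρ r ↔ ρ s = r := by
  simp [cl]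

theorem mem_actv {ρ : ι → Rl} {C : Finset ℕ} {s : ι} : s ∈ actv ρ C ↔
    ρ s = Rl.F ∨ ρ s = Rl.G ∨ ρ s = Rl.L ∨ ∃ i ∈ C, ρ s = Rl.gr i := by
  simp [actv]

theorem cl_update_no (ρ : ι → Rl) (s : ι) {r : Rl} (hr : r ≠ Rl.no) :
    cl (Function.update ρ s Rl.no) r = (cl ρ r).erase s := by
  ext t
  rw [Finset.mem_erase, mem_cl, mem_cl]
  by_cases hts : t = s
  · subst hts
    rw [Function.update_self]
    exact ⟨fun h => absurd h.symm hr, fun h => absurd rfl h.1⟩
  · rw [Function.update_of_ne hts]
    exact ⟨fun h => ⟨hts, h⟩, fun h => h.2⟩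

theorem cl3 (ρ : ι → Rl) (f x y : ι) {r : Rl} (hr : r ≠ Rl.no) :
    cl (Function.update (Function.update (Function.update ρ f Rl.no) x Rl.no) y Rl.no) r
      = (((cl ρ r).erase f).erase x).erase y := by
  rw [cl_update_no _ _ hr, cl_update_no _ _ hr, cl_update_no _ _ hr]

/-- the numerical conditions after the removal of three slots -/
theorem step {ρ : ι → Rl} {C : Finset ℕ} {f x y : ι} (hf : ρ f = Rl.F)
    (hxF : ρ x ≠ Rl.F) (hyF : ρ y ≠ Rl.F) (hxL : ρ x ≠ Rl.L) (hyL : ρ y ≠ Rl.L)
    (h2 : ∀ i ∈ C, 2 ≤ (cl ρ (Rl.gr i)).card) {i : ℕ} (hi : i ∈ C)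
    (hxy : ρ x = Rl.gr i ∨ ρ y = Rl.gr i)
    (hn : ∑ i ∈ C, ((cl ρ (Rl.gr i)).card - 1) ≤ (cl ρ Rl.F).card) :
    (cl (Function.update (Function.update (Function.update ρ f Rl.no) x Rl.no) y Rl.no)
      Rl.L).card = (cl ρ Rl.L).card ∧
    ∑ i ∈ C, ((cl (Function.update (Function.update (Function.update ρ f Rl.no) x Rl.no) y Rl.no)
      (Rl.gr i)).card - 1) ≤
      (cl (Function.update (Function.update (Function.update ρ f Rl.no) x Rl.no) y Rl.no)
        Rl.F).card ∧
    ∑ i ∈ C, (cl (Function.update (Function.update (Function.update ρ f Rl.no) x Rl.no) y Rl.no)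
      (Rl.gr i)).card < ∑ i ∈ C, (cl ρ (Rl.gr i)).card := by
  have e1 : (cl (Function.update (Function.update (Function.update ρ f Rl.no) x Rl.no) y Rl.no)
      Rl.L).card = (cl ρ Rl.L).card := by
    rw [cl3 ρ f x y (by decide)]
    have hfL : f ∉ cl ρ Rl.L := by rw [mem_cl, hf]; decide
    have hxL' : x ∉ cl ρ Rl.L := by rw [mem_cl]; exact hxL
    have hyL' : y ∉ cl ρ Rl.L := by rw [mem_cl]; exact hyL
    rw [Finset.erase_eq_of_notMem hfL, Finset.erase_eq_of_notMem hxL',
      Finset.erase_eq_of_notMem hyL']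
  have e2 : (cl (Function.update (Function.update (Function.update ρ f Rl.no) x Rl.no) y Rl.no)
        Rl.F).card = (cl ρ Rl.F).card - 1 := by
    rw [cl3 ρ f x y (by decide)]
    have hxF' : x ∉ (cl ρ Rl.F).erase f := by
      rw [Finset.mem_erase, mem_cl]
      exact fun h => hxF h.2
    have hyF' : y ∉ (cl ρ Rl.F).erase f := by
      rw [Finset.mem_erase, mem_cl]
      exact fun h => hyF h.2
    rw [Finset.erase_eq_of_notMem hxF', Finset.erase_eq_of_notMem hyF',
      Finset.card_erase_of_mem (mem_cl.2 hf)]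
  have e3 : ∀ j, (cl (Function.update (Function.update (Function.update ρ f Rl.no) x Rl.no) y
      Rl.no) (Rl.gr j)).card ≤ (cl ρ (Rl.gr j)).card := by
    intro j
    rw [cl3 ρ f x y (fun h => Rl.noConfusion h)]
    exact Finset.card_le_card ((Finset.erase_subset _ _).trans
      ((Finset.erase_subset _ _).trans (Finset.erase_subset _ _)))
  have e4 : (cl (Function.update (Function.update (Function.update ρ f Rl.no) x Rl.no) y
      Rl.no) (Rl.gr i)).card < (cl ρ (Rl.gr i)).card := by
    rw [cl3 ρ f x y (fun h => Rl.noConfusion h)]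
    apply Finset.card_lt_card
    rcases hxy with h | h
    · refine (Finset.ssubset_iff_of_subset ((Finset.erase_subset _ _).trans
        ((Finset.erase_subset _ _).trans (Finset.erase_subset _ _)))).2 ⟨x, mem_cl.2 h, ?_⟩
      rw [Finset.mem_erase, Finset.mem_erase]
      exact fun h' => h'.2.1 rfl
    · refine (Finset.ssubset_iff_of_subset ((Finset.erase_subset _ _).trans
        ((Finset.erase_subset _ _).trans (Finset.erase_subset _ _)))).2 ⟨y, mem_cl.2 h, ?_⟩
      rw [Finset.mem_erase]
      exact fun h' => h'.1 rfl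
  refine ⟨e1, ?_, Finset.sum_lt_sum (fun j _ => e3 j) ⟨i, hi, e4⟩⟩
  have e5 : ∑ i ∈ C, ((cl (Function.update (Function.update (Function.update ρ f Rl.no) x Rl.no)
      y Rl.no) (Rl.gr i)).card - 1) < ∑ i ∈ C, ((cl ρ (Rl.gr i)).card - 1) := by
    refine Finset.sum_lt_sum (fun j _ => Nat.sub_le_sub_right (e3 j) 1) ⟨i, hi, ?_⟩
    have := h2 i hi
    omega
  rw [e2]
  omega

/-- a label of total degree one is a unit vector -/
theorem unit_of_dl {g : σ → ℕ} (h : dl g = 1) : ∃ k, g = Pi.single k 1 := by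
  unfold dl at h
  obtain ⟨k, hk⟩ : ∃ k, g k ≠ 0 := by
    by_contra hcon
    push Not at hcon
    rw [Finset.sum_eq_zero fun k _ => hcon k] at h
    exact absurd h (by decide)
  refine ⟨k, ?_⟩
  have h1 := Finset.add_sum_erase Finset.univ g (Finset.mem_univ k)
  rw [h] at h1
  funext k'
  by_cases hkk : k' = k
  · subst hkk
    rw [Pi.single_eq_same]
    omega
  · rw [Pi.single_eq_of_ne hkk]
    have h2 : g k' ≤ ∑ x ∈ Finset.univ.erase k, g x :=
      Finset.single_le_sum (f := g) (fun _ _ => Nat.zero_le _)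
        (Finset.mem_erase.2 ⟨hkk, Finset.mem_univ _⟩)
    omega

theorem u1_ne {s t : ι} (h : t ≠ s) (k : σ) : (u1 s k) t = 0 := by
  unfold u1
  exact Pi.single_eq_of_ne h _

/-- labels of degree `q` in at most two variables -/
theorem labels (q : ℕ) (S : Finset σ) (hS : S.card ≤ 2) (N : Finset (σ → ℕ))
    (hN : ∀ g ∈ N, dl g = q ∧ ∀ k, k ∉ S → g k = 0) : N.card ≤ q + 1 := by
  rcases S.eq_empty_or_nonempty with h0 | ⟨x, hx⟩
  · have h1 : N ⊆ {0} := by
      intro g hg
      rw [Finset.mem_singleton]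
      funext k
      exact (hN g hg).2 k (by rw [h0]; exact Finset.notMem_empty k)
    have := Finset.card_le_card h1
    rw [Finset.card_singleton] at this
    omega
  · have h1 : N.card ≤ (Finset.range (q + 1)).card := by
      refine Finset.card_le_card_of_injOn (fun g => g x) ?_ ?_
      · intro g hg
        have h2 := (hN g hg).1
        unfold dl at h2
        have h3 : g x ≤ ∑ k, g k :=
          Finset.single_le_sum (f := g) (fun _ _ => Nat.zero_le _) (Finset.mem_univ x)
        simp only [Finset.coe_range, Set.mem_Iio]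
        omega
      · intro g hg g' hg' hgg
        simp only at hgg
        have key : ∀ g ∈ N, ∀ y, y ≠ x → y ∈ S → g y = q - g x := by
          intro g hg y hyx hyS
          have h2 := (hN g hg).1
          unfold dl at h2
          have h3 : ∑ k, g k = ∑ k ∈ S, g k := by
            symm
            exact Finset.sum_subset (Finset.subset_univ _) fun k _ hk => (hN g hg).2 k hk
          have h4 : S = {x, y} := by
            symm
            apply Finset.eq_of_subset_of_card_le
            · intro z hz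
              rw [Finset.mem_insert, Finset.mem_singleton] at hz
              rcases hz with rfl | rfl
              · exact hx
              · exact hyS
            · rw [Finset.card_pair (Ne.symm hyx)]
              exact hS
          rw [h3, h4, Finset.sum_pair (Ne.symm hyx)] at h2
          omega
        funext y
        by_cases hyx : y = x
        · rw [hyx]; exact hgg
        · by_cases hyS : y ∈ S
          · rw [key g hg y hyx hyS, key g' hg' y hyx hyS, hgg]
          · rw [(hN g hg).2 y hyS, (hN g' hg').2 y hyS]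
    rw [Finset.card_range] at h1
    exact h1

/-- the case of weights with at most two variables -/
theorem two {q : ℕ} {C : Finset ℕ} {ρ : ι → Rl} {Φ : SF σ ι} (h : Cls q ρ C Φ)
    (hK : 3 ≤ (cl ρ Rl.L).card) (hq : q + 2 ≤ (cl ρ Rl.L).card + C.card) (e : ι → σ → ℕ)
    (he : (Finset.univ.filter (fun k => wt (actv ρ C) e k ≠ 0)).card ≤ 2) : Φ e = 0 := by
  by_contra hne
  set T : Finset ι := Finset.univ.filter (fun s => ρ s = Rl.L ∨ ∃ i ∈ C, ρ s = Rl.gr i) with hT
  have hmem : ∀ g ∈ T.image e, dl g = q ∧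
      ∀ k, k ∉ Finset.univ.filter (fun k => wt (actv ρ C) e k ≠ 0) → g k = 0 := by
    intro g hg
    obtain ⟨s, hs, rfl⟩ := Finset.mem_image.1 hg
    have hs' : ρ s = Rl.L ∨ ∃ i ∈ C, ρ s = Rl.gr i := by
      simpa [hT] using hs
    refine ⟨h.degq e hne s hs', fun k hk => ?_⟩
    have hk' : wt (actv ρ C) e k = 0 := by
      by_contra hcon
      exact hk (Finset.mem_filter.2 ⟨Finset.mem_univ _, hcon⟩)
    unfold wt at hk'
    rw [Finset.sum_apply, Finset.sum_eq_zero_iff] at hk'
    exact hk' s (mem_actv.2 (Or.inr (Or.inr hs')))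
  have hcard := labels q _ he (T.image e) hmem
  refine hne (wlem C ρ Φ h.toClsW (Finset.card_pos.1 (by omega)) (T.image e) (by omega) e
    fun s hs => Finset.mem_image_of_mem e ?_)
  rw [hT, Finset.mem_filter]
  exact ⟨Finset.mem_univ _, hs⟩

end X7

open X7

theorem Xplus {q : ℕ} (C : Finset ℕ) (ρ : ι → Rl) (Φ : SF σ ι) (h : Cls q ρ C Φ)
    (hK : 3 ≤ (cl ρ Rl.L).card) (hq : q + 2 ≤ (cl ρ Rl.L).card + C.card)
    (hn : ∑ i ∈ C, ((cl ρ (Rl.gr i)).card - 1) ≤ (cl ρ Rl.F).card) : ∀ e, Φ e = 0 := by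
  obtain ⟨M, hM⟩ : ∃ M, ∑ i ∈ C, (cl ρ (Rl.gr i)).card = M := ⟨_, rfl⟩
  induction M using Nat.strong_induction_on generalizing C ρ Φ with
  | _ M ih =>
  by_cases hsmall : ∃ i ∈ C, (cl ρ (Rl.gr i)).card < 2
  · obtain ⟨i, hi, hi2⟩ := hsmall
    rcases Nat.lt_or_ge (cl ρ (Rl.gr i)).card 1 with h0 | h1
    · -- an empty group
      intro e
      have h3 : cl ρ (Rl.gr i) = ∅ := Finset.card_eq_zero.1 (by omega)
      obtain ⟨s, hs⟩ := Finset.card_pos.1 (by omega : 0 < (cl ρ Rl.L).card)
      have h4 := h.ex i hi s (mem_cl.1 hs) e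
      rw [h3, Finset.sum_empty, add_zero] at h4
      exact h4
    · -- a group with one slot
      obtain ⟨s, hs⟩ := Finset.card_eq_one.1 (by omega : (cl ρ (Rl.gr i)).card = 1)
      have hsr : ρ s = Rl.gr i := mem_cl.1 (by rw [hs]; exact Finset.mem_singleton_self s)
      have hcls := cls_join h hi hs hK
      have hr : ∀ r, r ≠ Rl.L → r ≠ Rl.gr i → cl (Function.update ρ s Rl.L) r = cl ρ r := by
        intro r hr1 hr2
        ext t
        rw [mem_cl, mem_cl]
        by_cases hts : t = s
        · subst hts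
          rw [Function.update_self, hsr]
          exact ⟨fun h => absurd h.symm hr1, fun h => absurd h.symm hr2⟩
        · rw [Function.update_of_ne hts]
      have hL : (cl (Function.update ρ s Rl.L) Rl.L).card = (cl ρ Rl.L).card + 1 := by
        have h5 : cl (Function.update ρ s Rl.L) Rl.L = insert s (cl ρ Rl.L) := by
          ext t
          rw [Finset.mem_insert, mem_cl, mem_cl]
          by_cases hts : t = s
          · subst hts
            rw [Function.update_self]
            exact ⟨fun _ => Or.inl rfl, fun _ => rfl⟩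
          · rw [Function.update_of_ne hts]
            exact ⟨fun h => Or.inr h, fun h => h.resolve_left hts⟩
        rw [h5, Finset.card_insert_of_notMem]
        rw [mem_cl, hsr]
        exact fun h => Rl.noConfusion h
      have hgr : ∀ j ∈ C.erase i, cl (Function.update ρ s Rl.L) (Rl.gr j) = cl ρ (Rl.gr j) := by
        intro j hj
        refine hr _ (fun h => Rl.noConfusion h) (fun h => ?_)
        exact (Finset.mem_erase.1 hj).1 (Rl.gr.inj h)
      have hF : cl (Function.update ρ s Rl.L) Rl.F = cl ρ Rl.F :=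
        hr _ (fun h => Rl.noConfusion h) (fun h => Rl.noConfusion h)
      have hCc := Finset.card_erase_of_mem hi
      have hCp : 0 < C.card := Finset.card_pos.2 ⟨i, hi⟩
      have hsum := Finset.add_sum_erase C (fun i => (cl ρ (Rl.gr i)).card) hi
      have hsum2 := Finset.add_sum_erase C (fun i => (cl ρ (Rl.gr i)).card - 1) hi
      refine ih (∑ j ∈ C.erase i, (cl (Function.update ρ s Rl.L) (Rl.gr j)).card) ?_
        (C.erase i) (Function.update ρ s Rl.L) Φ hcls ?_ ?_ ?_ rfl
      · rw [Finset.sum_congr rfl fun j hj => by rw [hgr j hj]]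
        omega
      · omega
      · omega
      · rw [Finset.sum_congr rfl fun j hj => by rw [hgr j hj], hF]
        omega
  · push Not at hsmall
    refine test3 (actv ρ C) (fun Φ => Cls q ρ C Φ) (fun Φ h a b hab => cls_R h hab) ?_
      (fun Φ h e he => two h hK hq e he) Φ h
    clear h Φ
    intro Φ h
    rcases C.eq_empty_or_nonempty with hC | ⟨i₀, hi₀⟩
    · -- no groups
      intro s1 h1 s2 h2 s3 h3 h12 h13 h23
      have hB : ∀ s ∈ actv ρ C, isB (ρ s) := by
        intro s hs
        rcases mem_actv.1 hs with h | h | h | ⟨i, hi, _⟩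
        · exact Or.inl h
        · exact Or.inr (Or.inl h)
        · exact Or.inr (Or.inr h)
        · rw [hC] at hi
          exact absurd hi (Finset.notMem_empty i)
      exact h.tri s1 s2 s3 h12 h13 h23 (hB s1 h1) (hB s2 h2) (hB s3 h3)
    · -- a slot f
      have hFpos : 0 < (cl ρ Rl.F).card := by
        refine lt_of_lt_of_le ?_ hn
        refine lt_of_lt_of_le ?_ (Finset.single_le_sum
          (f := fun i => (cl ρ (Rl.gr i)).card - 1) (fun _ _ => Nat.zero_le _) hi₀)
        have := hsmall i₀ hi₀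
        omega
      obtain ⟨f, hf⟩ := Finset.card_pos.1 hFpos
      have hfF : ρ f = Rl.F := mem_cl.1 hf
      -- the triples (f, g, group)
      have hfga : ∀ g, ρ g = Rl.G → ∀ i ∈ C, ∀ a, ρ a = Rl.gr i → ∀ k1 k2 k3 e,
          A3 Φ f g a k1 k2 k3 e = 0 := by
        intro g hg i hi a ha k1 k2 k3
        obtain ⟨e1, e2, e3⟩ := step (x := g) (y := a) hfF (by rw [hg]; decide)
          (by rw [ha]; exact fun h => Rl.noConfusion h) (by rw [hg]; decide)
          (by rw [ha]; exact fun h => Rl.noConfusion h) hsmall hi (Or.inr ha) hn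
        exact ih _ (by rw [← hM]; exact e3) C _ _ (cls_fga h hfF hg hi ha k1 k2 k3)
          (by rw [e1]; exact hK) (by rw [e1]; exact hq) e2 rfl
      have hfla : ∀ l, ρ l = Rl.L → ∀ i ∈ C, ∀ a, ρ a = Rl.gr i → ∀ k1 k2 k3 e,
          A3 Φ f l a k1 k2 k3 e = 0 := by
        intro l hl i hi a ha
        exact fla h hfF hl hi ha fun g hg => hfga g hg i hi a ha
      have hfaa : ∀ i ∈ C, ∀ a, ρ a = Rl.gr i → ∀ j ∈ C, ∀ b, ρ b = Rl.gr j → a ≠ b →
          ∀ k1 k2 k3 e, A3 Φ f a b k1 k2 k3 e = 0 := by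
        intro i hi a ha j hj b hb hab k1 k2 k3
        obtain ⟨e1, e2, e3⟩ := step (x := a) (y := b) hfF
          (by rw [ha]; exact fun h => Rl.noConfusion h)
          (by rw [hb]; exact fun h => Rl.noConfusion h)
          (by rw [ha]; exact fun h => Rl.noConfusion h)
          (by rw [hb]; exact fun h => Rl.noConfusion h) hsmall hi (Or.inl ha) hn
        exact ih _ (by rw [← hM]; exact e3) C _ _
          (cls_faa h hfF hi ha hj hb hab (fun l hl => hfla l hl i hi a ha)
            (fun l hl => hfla l hl j hj b hb) k1 k2 k3)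
          (by rw [e1]; exact hK) (by rw [e1]; exact hq) e2 rfl
      have hffa : ∀ f', f' ≠ f → ρ f' = Rl.F → ∀ i ∈ C, ∀ a, ρ a = Rl.gr i → ∀ k1 k2 k3 e,
          A3 Φ f f' a k1 k2 k3 e = 0 := by
        intro f' hff hf' i hi a ha
        refine A3_sym (Ne.symm hff) ?_ ?_ ?_ (h.symF f f' hfF hf')
        · rintro rfl
          rw [hfF] at ha
          exact Rl.noConfusion ha
        · rintro rfl
          rw [hf'] at ha
          exact Rl.noConfusion ha
        · intro e he
          exact ⟨h.deg1 e he f (Or.inl hfF), h.deg1 e he f' (Or.inl hf')⟩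
      -- all triples with f
      have hAf : ∀ s ∈ actv ρ C, ∀ t ∈ actv ρ C, s ≠ f → t ≠ f → s ≠ t → ∀ k1 k2 k3 e,
          A3 Φ f s t k1 k2 k3 e = 0 := by
        -- second slot in a group
        have hgen : ∀ s ∈ actv ρ C, s ≠ f → ∀ i ∈ C, ∀ a, ρ a = Rl.gr i → s ≠ a →
            ∀ k1 k2 k3 e, A3 Φ f s a k1 k2 k3 e = 0 := by
          intro s hs hsf i hi a ha hsa
          rcases mem_actv.1 hs with h1 | h1 | h1 | ⟨j, hj, h1⟩
          · exact hffa s hsf h1 i hi a ha
          · exact hfga s h1 i hi a ha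
          · exact hfla s h1 i hi a ha
          · exact hfaa j hj s h1 i hi a ha hsa
        intro s hs t ht hsf htf hst
        have hcase : ∀ t ∈ actv ρ C, isB (ρ t) ∨ ∃ i ∈ C, ρ t = Rl.gr i := by
          intro t ht
          rcases mem_actv.1 ht with h1 | h1 | h1 | h1
          · exact Or.inl (Or.inl h1)
          · exact Or.inl (Or.inr (Or.inl h1))
          · exact Or.inl (Or.inr (Or.inr h1))
          · exact Or.inr h1
        rcases hcase t ht with hB | ⟨i, hi, ha⟩
        · rcases hcase s hs with hB' | ⟨i, hi, ha⟩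
          · exact h.tri f s t (Ne.symm hsf) (Ne.symm htf) hst (Or.inl hfF) hB' hB
          · intro k1 k2 k3 e
            rw [A3_23 Φ f t s k1 k2 k3 e, hgen t ht htf i hi s ha (Ne.symm hst) k1 k2 k3 e,
              neg_zero]
        · exact hgen s hs hsf i hi t ha hst
      -- all triples
      intro s1 h1 s2 h2 s3 h3 h12 h13 h23 k1 k2 k3 e
      by_cases hf1 : s1 = f
      · rw [hf1]
        rw [hf1] at h12 h13
        exact hAf s2 h2 s3 h3 (Ne.symm h12) (Ne.symm h13) h23 k1 k2 k3 e
      by_cases hf2 : s2 = f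
      · rw [hf2, A3_12 Φ f s1 s3 k1 k2 k3 e]
        rw [hf2] at h23
        rw [hAf s1 h1 s3 h3 hf1 (Ne.symm h23) h13 k1 k2 k3 e, neg_zero]
      by_cases hf3 : s3 = f
      · rw [hf3, A3_23 Φ s1 f s2 k1 k2 k3 e, A3_12 Φ f s1 s2 k1 k2 k3 e]
        rw [hAf s1 h1 s2 h2 hf1 hf2 h12 k1 k2 k3 e, neg_zero, neg_zero]
      by_cases hdl : dl (e f) = 1
      · obtain ⟨k0, hk0⟩ := unit_of_dl hdl
        have he : e = Function.update e f 0 + u1 f k0 := by
          funext s
          by_cases hs : s = f
          · subst hs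
            rw [Pi.add_apply, Function.update_self, zero_add, hk0]
            unfold u1
            rw [Pi.single_eq_same]
          · rw [Pi.add_apply, Function.update_of_ne hs, u1_ne hs, add_zero]
        rw [he]
        exact four (fun a b c e => hAf s1 h1 s2 h2 hf1 hf2 h12 a b c e)
          (fun a b c e => hAf s1 h1 s3 h3 hf1 hf3 h13 a b c e)
          (fun a b c e => hAf s2 h2 s3 h3 hf2 hf3 h23 a b c e) k0 k1 k2 k3 _
      · have hz : ∀ a b c : σ, Φ (e + u1 s1 a + u1 s2 b + u1 s3 c) = 0 := by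
          intro a b c
          by_contra hne
          have h4 := h.deg1 _ hne f (Or.inl hfF)
          rw [Pi.add_apply, Pi.add_apply, Pi.add_apply, u1_ne (Ne.symm hf1), u1_ne (Ne.symm hf2),
            u1_ne (Ne.symm hf3), add_zero, add_zero, add_zero] at h4
          exact hdl h4
        unfold A3
        simp only [hz]
        ring

end Pool.Agent.H69.VT
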