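import Pool.Agent.H69.VT.T1

/-!
Project VT, row T2: Laplace expansion of `gE`, differential, the two relations.
-/

set_option linter.unusedSectionVars false

namespace Pool.Agent.H69.VT

open scoped BigOperators
open Pool.Agent.H69.VS

namespace T2X

section sums

variable {α β M N : Type} [AddCommGroup M] [AddCommGroup N]

theorem x2_su_congr {C : List α} : ∀ {f g : α → List α → M},
    (∀ a R, a ∈ C → (∀ x ∈ R, x ∈ C) → R.length + 1 = C.length → f a R = g a R) →
    su f C = su g C := by
  induction C with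
  | nil => intro f g _; rfl
  | cons u C ih =>
    intro f g h
    rw [su, su, h u C List.mem_cons_self (fun x hx => List.mem_cons_of_mem _ hx) rfl]
    congr 1
    refine ih fun a R ha hR hl => h a (u :: R) (List.mem_cons_of_mem _ ha) ?_ ?_
    · intro x hx
      rcases List.mem_cons.1 hx with rfl | hx
      · exact List.mem_cons_self
      · exact List.mem_cons_of_mem _ (hR x hx)
    · simp only [List.length_cons]; omega

theorem x2_sp_congr {C : List α} : ∀ {f g : α → List α → M},
    (∀ a R, a ∈ C → (∀ x ∈ R, x ∈ C) → R.length + 1 = C.length → f a R = g a R) →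
    sp f C = sp g C := by
  induction C with
  | nil => intro f g _; rfl
  | cons u C ih =>
    intro f g h
    rw [sp, sp, h u C List.mem_cons_self (fun x hx => List.mem_cons_of_mem _ hx) rfl]
    congr 1
    refine ih fun a R ha hR hl => h a (u :: R) (List.mem_cons_of_mem _ ha) ?_ ?_
    · intro x hx
      rcases List.mem_cons.1 hx with rfl | hx
      · exact List.mem_cons_self
      · exact List.mem_cons_of_mem _ (hR x hx)
    · simp only [List.length_cons]; omega

theorem x2_su_map (φ : M →+ N) (C : List α) : ∀ f : α → List α → M,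
    φ (su f C) = su (fun a R => φ (f a R)) C := by
  induction C with
  | nil => intro f; simp [su]
  | cons u C ih => intro f; rw [su, su, map_sub, ih]

theorem x2_sp_map (φ : M →+ N) (C : List α) : ∀ f : α → List α → M,
    φ (sp f C) = sp (fun a R => φ (f a R)) C := by
  induction C with
  | nil => intro f; simp [sp]
  | cons u C ih => intro f; rw [sp, sp, map_add, ih]

theorem x2_su_zero (C : List α) : su (fun _ _ => (0 : M)) C = 0 := by
  induction C with
  | nil => rfl
  | cons u C ih => rw [su, ih, sub_zero]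

theorem x2_sp_zero (C : List α) : sp (fun _ _ => (0 : M)) C = 0 := by
  induction C with
  | nil => rfl
  | cons u C ih => rw [sp, ih, add_zero]

theorem x2_su_add (C : List α) : ∀ f g : α → List α → M,
    su (fun a R => f a R + g a R) C = su f C + su g C := by
  induction C with
  | nil => intro f g; simp [su]
  | cons u C ih => intro f g; rw [su, su, su, ih]; abel

theorem x2_su_sub (C : List α) : ∀ f g : α → List α → M,
    su (fun a R => f a R - g a R) C = su f C - su g C := by
  induction C with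
  | nil => intro f g; simp [su]
  | cons u C ih => intro f g; rw [su, su, su, ih]; abel

theorem x2_sp_add (C : List α) : ∀ f g : α → List α → M,
    sp (fun a R => f a R + g a R) C = sp f C + sp g C := by
  induction C with
  | nil => intro f g; simp [sp]
  | cons u C ih => intro f g; rw [sp, sp, sp, ih]; abel

theorem x2_sp_neg (C : List α) (f : α → List α → M) :
    sp (fun a R => - f a R) C = - sp f C := by
  have := x2_sp_map (-AddMonoidHom.id M) C f
  simpa using this.symm

theorem x2_su_neg (C : List α) (f : α → List α → M) :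
    su (fun a R => - f a R) C = - su f C := by
  have := x2_su_map (-AddMonoidHom.id M) C f
  simpa using this.symm

/-- exchange of a signed and an unsigned sum -/
theorem x2_su_sp (As : List α) (Bs : List β) : ∀ h : α → List α → β → List β → M,
    su (fun a R => sp (fun b S => h a R b S) Bs) As =
      sp (fun b S => su (fun a R => h a R b S) As) Bs := by
  induction Bs with
  | nil => intro h; simp only [sp]; exact x2_su_zero As
  | cons u Bs ih =>
    intro h
    simp only [sp]
    rw [x2_su_add, ih (fun a R b S => h a R b (u :: S))]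

/-- exchange of two unsigned sums -/
theorem x2_sp_sp (As : List α) (Bs : List β) : ∀ h : α → List α → β → List β → M,
    sp (fun a R => sp (fun b S => h a R b S) Bs) As =
      sp (fun b S => sp (fun a R => h a R b S) As) Bs := by
  induction Bs with
  | nil => intro h; simp only [sp]; exact x2_sp_zero As
  | cons u Bs ih =>
    intro h
    simp only [sp]
    rw [x2_sp_add, ih (fun a R b S => h a R b (u :: S))]

/-- exchange of two signed sums -/
theorem x2_su_su (C : List α) : ∀ h : α → α → List α → M,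
    su (fun a R => su (fun b S => h a b S) R) C =
      - su (fun b R => su (fun a S => h a b S) R) C := by
  induction C with
  | nil => intro h; simp [su]
  | cons u C ih =>
    intro h
    simp only [su]
    rw [x2_su_sub, x2_su_sub, ih (fun a b S => h a b (u :: S))]
    abel

end sums

variable {σ : Type} [Fintype σ] [DecidableEq σ]

/-- `gE` as an additive map -/
def x2_gEh (As Bs : List (σ → ℕ)) : Fn σ →+ Fn σ := AddMonoidHom.mk' (gE As Bs) (gE_add As Bs)

theorem x2_gEh_apply (As Bs : List (σ → ℕ)) (F : Fn σ) : x2_gEh As Bs F = gE As Bs F := rfl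

/-- `sg` as an additive map -/
def x2_sgh (g : σ → ℕ) : Fn σ →+ Fn σ := AddMonoidHom.mk' (sg g) (fun F G => sg_add F G g)

theorem x2_sgh_apply (g : σ → ℕ) (F : Fn σ) : x2_sgh g F = sg g F := rfl

/-- `dW` as an additive map -/
def x2_dWh (D : ℕ) : Fn σ →+ Fn σ := AddMonoidHom.mk' (dW D) (dW_add' D)

theorem x2_dWh_apply (D : ℕ) (F : Fn σ) : x2_dWh D F = dW D F := rfl

/-- multiplication by a scalar as an additive map -/
def x2_smh (c : ℂ) : Fn σ →+ Fn σ := AddMonoidHom.mk' (fun F => c • F) (smul_add c)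

theorem x2_smh_apply (c : ℂ) (F : Fn σ) : x2_smh c F = c • F := rfl

theorem x2_su_smul {α : Type} (c : ℂ) (C : List α) (f : α → List α → Fn σ) :
    su (fun a R => c • f a R) C = c • su f C := (x2_su_map (x2_smh c) C f).symm

theorem x2_sp_smul {α : Type} (c : ℂ) (C : List α) (f : α → List α → Fn σ) :
    sp (fun a R => c • f a R) C = c • sp f C := (x2_sp_map (x2_smh c) C f).symm

theorem x2_sg_sg (g g' : σ → ℕ) (F : Fn σ) : sg g (sg g' F) = sg g' (sg g F) := by
  funext w f; simp only [sg]; congr 1; abel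

theorem x2_sg_add_exp (g g' : σ → ℕ) (F : Fn σ) : sg (g + g') F = sg g' (sg g F) := by
  funext w f; simp only [sg]; congr 1; abel

theorem x2_AfE_comm {F : Fn σ} (h : SS F) (e e' : σ → ℕ) :
    Af (Lt.E e) (Af (Lt.E e') F) = - Af (Lt.E e') (Af (Lt.E e) F) := by
  have := h.front (Lt.E e') (Lt.E e)
  rw [this]
  simp [sn]

theorem x2_gE_cons_eq (As : List (σ → ℕ)) (b : σ → ℕ) (Bs : List (σ → ℕ)) (F : Fn σ) :
    gE As (b :: Bs) F = su (fun a R => gE R Bs (Af (Lt.E (a + b)) F)) As := by
  rw [gE]

theorem x2_gE_nil_nil (F : Fn σ) : gE [] [] F = F := by rw [gE, gN]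

theorem x2_gE_one_nil (a : σ → ℕ) (F : Fn σ) : gE [a] [] F = sg a F := by rw [gE, gN]

theorem x2_gE_two_nil (a b : σ → ℕ) (As : List (σ → ℕ)) (F : Fn σ) :
    gE (a :: b :: As) [] F = 0 := by rw [gE, gN]

end T2X

open T2X

variable {σ : Type} [Fintype σ] [DecidableEq σ]

theorem gE_cons {F : Fn σ} (h : SS F) (a : σ → ℕ) (As Bs : List (σ → ℕ))
    (hl : As.length ≤ Bs.length) :
    gE (a :: As) Bs F = sp (fun b R => gE As R (Af (Lt.E (a + b)) F)) Bs +
      ((-1 : ℂ) ^ Bs.length) • sg a (gE As Bs F) := by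
  induction Bs generalizing As F with
  | nil =>
    have hA : As = [] := List.length_eq_zero_iff.1 (by simpa using hl)
    subst hA
    simp [x2_gE_one_nil, x2_gE_nil_nil, sp]
  | cons b Bs ih =>
    rw [x2_gE_cons_eq, su]
    have h1 : su (fun a' R => gE (a :: R) Bs (Af (Lt.E (a' + b)) F)) As =
        - sp (fun b' S => gE As (b :: S) (Af (Lt.E (a + b')) F)) Bs +
          ((-1 : ℂ) ^ Bs.length) • sg a (gE As (b :: Bs) F) := by
      have h2 : su (fun a' R => gE (a :: R) Bs (Af (Lt.E (a' + b)) F)) As =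
          su (fun a' R => sp (fun b' S => - gE R S
            (Af (Lt.E (a' + b)) (Af (Lt.E (a + b')) F))) Bs +
            ((-1 : ℂ) ^ Bs.length) • sg a (gE R Bs (Af (Lt.E (a' + b)) F))) As := by
        refine x2_su_congr fun a' R _ _ hR => ?_
        have hlen : R.length ≤ Bs.length := by
          simp only [List.length_cons] at hl
          omega
        rw [ih (h.af _) R hlen]
        congr 1
        refine x2_sp_congr fun b' S _ _ _ => ?_
        rw [x2_AfE_comm h, gE_neg]
      rw [h2, x2_su_add, x2_su_smul, x2_su_sp]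
      congr 1
      · rw [← x2_sp_neg]
        refine x2_sp_congr fun b' S _ _ _ => ?_
        rw [x2_su_neg, x2_gE_cons_eq]
      · rw [x2_gE_cons_eq]
        congr 1
        exact (x2_su_map (x2_sgh a) As _).symm
    rw [h1, sp, List.length_cons, pow_succ]
    module

theorem su_sg (As Bs : List (σ → ℕ)) (F : Fn σ) (hl : As.length = Bs.length + 1) :
    su (fun a R => sg a (gE R Bs F)) As = ((-1 : ℂ) ^ Bs.length) • gE As Bs F := by
  induction Bs generalizing As F with
  | nil =>
    obtain ⟨a, rfl⟩ := List.length_eq_one_iff.1 hl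
    simp [su, x2_gE_one_nil, x2_gE_nil_nil]
  | cons b Bs ih =>
    have h1 : su (fun a R => sg a (gE R (b :: Bs) F)) As =
        su (fun a R => su (fun a' S => sg a (gE S Bs (Af (Lt.E (a' + b)) F))) R) As := by
      refine x2_su_congr fun a R _ _ _ => ?_
      rw [x2_gE_cons_eq]
      exact x2_su_map (x2_sgh a) R _
    rw [h1, x2_su_su]
    have h2 : su (fun a' R => su (fun a S => sg a (gE S Bs (Af (Lt.E (a' + b)) F))) R) As =
        su (fun a' R => ((-1 : ℂ) ^ Bs.length) • gE R Bs (Af (Lt.E (a' + b)) F)) As := by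
      refine x2_su_congr fun a' R _ _ hR => ?_
      refine ih R _ ?_
      simp only [List.length_cons] at hl
      omega
    rw [h2, x2_su_smul, x2_gE_cons_eq, List.length_cons, pow_succ]
    module

theorem su_sg0 (As Bs : List (σ → ℕ)) (F : Fn σ) (hl : As.length = Bs.length + 2) :
    su (fun a R => sg a (gE R Bs F)) As = 0 := by
  induction Bs generalizing As F with
  | nil =>
    obtain ⟨a, b, rfl⟩ := List.length_eq_two.1 hl
    simp only [su, x2_gE_one_nil, sub_zero]
    rw [x2_sg_sg, sub_self]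
  | cons b Bs ih =>
    have h1 : su (fun a R => sg a (gE R (b :: Bs) F)) As =
        su (fun a R => su (fun a' S => sg a (gE S Bs (Af (Lt.E (a' + b)) F))) R) As := by
      refine x2_su_congr fun a R _ _ _ => ?_
      rw [x2_gE_cons_eq]
      exact x2_su_map (x2_sgh a) R _
    rw [h1, x2_su_su]
    have h2 : su (fun a' R => su (fun a S => sg a (gE S Bs (Af (Lt.E (a' + b)) F))) R) As =
        su (fun _ _ => (0 : Fn σ)) As := by
      refine x2_su_congr fun a' R _ _ hR => ?_
      refine ih R _ ?_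
      simp only [List.length_cons] at hl
      omega
    rw [h2, x2_su_zero, neg_zero]

namespace T2X

/-- first step for the commutation with the differential -/
theorem x2_gE_dW_step {D : ℕ} {As : List (σ → ℕ)} {b : σ → ℕ} {Bs : List (σ → ℕ)}
    (hd : ∀ a ∈ As, dg a + dg b = D) (F : Fn σ) :
    gE As (b :: Bs) (dW D F) = sg b (su (fun a R => sg a (gE R Bs F)) As) -
      su (fun a R => gE R Bs (dW D (Af (Lt.E (a + b)) F))) As := by
  rw [x2_gE_cons_eq]
  have h1 : su (fun a R => gE R Bs (Af (Lt.E (a + b)) (dW D F))) As =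
      su (fun a R => sg b (sg a (gE R Bs F)) - gE R Bs (dW D (Af (Lt.E (a + b)) F))) As := by
    refine x2_su_congr fun a R ha _ _ => ?_
    rw [AE_dW]
    have hc : cE D (a + b) = 1 := by
      unfold cE
      rw [dg_add, if_pos (hd a ha)]
    rw [hc, one_smul, gE_sub, gE_sg, x2_sg_add_exp]
  rw [h1, x2_su_sub]
  congr 1
  exact (x2_su_map (x2_sgh b) As (fun a R => sg a (gE R Bs F))).symm

end T2X

theorem gE_dW_eq {D : ℕ} {As Bs : List (σ → ℕ)} (hd : ∀ a ∈ As, ∀ b ∈ Bs, dg a + dg b = D)
    (hl : As.length = Bs.length) (F : Fn σ) :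
    gE As Bs (dW D F) = ((-1 : ℂ) ^ Bs.length) • dW D (gE As Bs F) -
      ((-1 : ℂ) ^ Bs.length) • sp (fun b R => sg b (gE As R F)) Bs := by
  induction Bs generalizing As F with
  | nil =>
    have hA : As = [] := List.length_eq_zero_iff.1 (by simpa using hl)
    subst hA
    simp [x2_gE_nil_nil, sp]
  | cons b Bs ih =>
    simp only [List.length_cons] at hl
    rw [x2_gE_dW_step (fun a ha => hd a ha b List.mem_cons_self), su_sg As Bs F hl]
    have h1 : su (fun a R => gE R Bs (dW D (Af (Lt.E (a + b)) F))) As =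
        su (fun a R => ((-1 : ℂ) ^ Bs.length) • dW D (gE R Bs (Af (Lt.E (a + b)) F)) -
          ((-1 : ℂ) ^ Bs.length) • sp (fun b' S => sg b' (gE R S (Af (Lt.E (a + b)) F))) Bs)
          As := by
      refine x2_su_congr fun a R _ hRA hR => ?_
      exact ih (fun a' ha' b' hb' => hd a' (hRA a' ha') b' (List.mem_cons_of_mem _ hb'))
        (by omega) _
    rw [h1, x2_su_sub, x2_su_smul, x2_su_smul, x2_su_sp]
    have h2 : su (fun a R => dW D (gE R Bs (Af (Lt.E (a + b)) F))) As =
        dW D (gE As (b :: Bs) F) := by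
      rw [x2_gE_cons_eq]
      exact (x2_su_map (x2_dWh D) As _).symm
    have h3 : sp (fun b' S => su (fun a R => sg b' (gE R S (Af (Lt.E (a + b)) F))) As) Bs =
        sp (fun b' S => sg b' (gE As (b :: S) F)) Bs := by
      refine x2_sp_congr fun b' S _ _ _ => ?_
      rw [x2_gE_cons_eq]
      exact (x2_su_map (x2_sgh b') As _).symm
    rw [h2, h3, sp, List.length_cons, pow_succ, sg_smul]
    module

theorem gE_dW_succ {D : ℕ} {As Bs : List (σ → ℕ)} (hd : ∀ a ∈ As, ∀ b ∈ Bs, dg a + dg b = D)
    (hl : As.length = Bs.length + 1) (F : Fn σ) :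
    gE As Bs (dW D F) = ((-1 : ℂ) ^ Bs.length) • dW D (gE As Bs F) := by
  induction Bs generalizing As F with
  | nil =>
    obtain ⟨a, rfl⟩ := List.length_eq_one_iff.1 hl
    simp [x2_gE_one_nil, dW_sg]
  | cons b Bs ih =>
    simp only [List.length_cons] at hl
    rw [x2_gE_dW_step (fun a ha => hd a ha b List.mem_cons_self), su_sg0 As Bs F (by omega)]
    have h1 : su (fun a R => gE R Bs (dW D (Af (Lt.E (a + b)) F))) As =
        su (fun a R => ((-1 : ℂ) ^ Bs.length) • dW D (gE R Bs (Af (Lt.E (a + b)) F))) As := by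
      refine x2_su_congr fun a R _ hRA hR => ?_
      exact ih (fun a' ha' b' hb' => hd a' (hRA a' ha') b' (List.mem_cons_of_mem _ hb'))
        (by omega) _
    have h2 : su (fun a R => dW D (gE R Bs (Af (Lt.E (a + b)) F))) As =
        dW D (gE As (b :: Bs) F) := by
      rw [x2_gE_cons_eq]
      exact (x2_su_map (x2_dWh D) As _).symm
    have h3 : sg b (0 : Fn σ) = 0 := rfl
    rw [h1, x2_su_smul, h2, h3, List.length_cons, pow_succ]
    module

theorem Cb_gE {D : ℕ} {As Bs : List (σ → ℕ)} (hd : ∀ a ∈ As, ∀ b ∈ Bs, dg a + dg b = D)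
    (hl : As.length = Bs.length + 1) {u : Fn σ} (h : Cb D u) : Cb D (gE As Bs u) := by
  obtain ⟨F, hF, rfl⟩ := h
  refine ⟨((-1 : ℂ) ^ Bs.length) • gE As Bs F, (SS_gE hF As Bs).smul _, ?_⟩
  rw [dW_smul', gE_dW_succ hd hl]

/-- boundaries vanish on cycles -/
theorem hat_Cb {D : ℕ} {As Bs : List (σ → ℕ)} (hd : ∀ a ∈ As, ∀ b ∈ Bs, dg a + dg b = D)
    (hl : As.length = Bs.length + 1) {u : Fn σ} (h : Cb D u) (f : σ → ℕ) :
    gE As Bs u [] f = 0 := by
  obtain ⟨F, -, hu⟩ := Cb_gE hd hl h
  rw [← hu, dW_nil]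

theorem rel4 {D : ℕ} {F : Fn σ} (hF : SS F) (dF : dW D F = 0) {C al ls ys : List (σ → ℕ)}
    (hC : C.length = al.length) (hl : ls.length = ys.length) (h1 : ∀ x ∈ C, dg x = 1)
    (h2 : ok D al) (h3 : ∀ y ∈ ys, dg y = 1) (h4 : ok D ls) (f : σ → ℕ) :
    sp (fun a R => gE (a :: ls) ys (gE C R F)) al [] f =
      - ((-1 : ℂ) ^ al.length) * sp (fun y R => gE ls R (gE (y :: C) al F)) ys [] f := by
  -- the letters sum to `D`
  have hd1 : ∀ a ∈ C, ∀ b ∈ al, dg a + dg b = D := by
    intro a ha b hb
    have := h2 b hb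
    have := h1 a ha
    omega
  have hd2 : ∀ a ∈ ls, ∀ b ∈ ys, dg a + dg b = D := by
    intro a ha b hb
    have := h4 a ha
    have := h3 b hb
    omega
  set H : Fn σ := gE C al F with hH
  -- Laplace expansion of the first letter
  have e1 : sp (fun a R => gE (a :: ls) ys (gE C R F)) al =
      sp (fun a R => sp (fun y S => gE ls S (Af (Lt.E (a + y)) (gE C R F))) ys) al +
        ((-1 : ℂ) ^ ys.length) • gE ls ys (sp (fun a R => sg a (gE C R F)) al) := by
    have e2 : sp (fun a R => gE (a :: ls) ys (gE C R F)) al =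
        sp (fun a R => sp (fun y S => gE ls S (Af (Lt.E (a + y)) (gE C R F))) ys +
          ((-1 : ℂ) ^ ys.length) • gE ls ys (sg a (gE C R F))) al := by
      refine x2_sp_congr fun a R _ _ _ => ?_
      rw [gE_cons (SS_gE hF C R) a ls ys hl.le, gE_sg]
    rw [e2, x2_sp_add, x2_sp_smul]
    congr 2
    exact (x2_sp_map (x2_gEh ls ys) al _).symm
  -- the leftover
  have e3 : sp (fun a R => sg a (gE C R F)) al = dW D H := by
    have := gE_dW_eq hd1 hC F
    rw [dF, gE_zero, ← smul_sub] at this
    have h5 : ((-1 : ℂ) ^ al.length) ≠ 0 := pow_ne_zero _ (by norm_num)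
    have h6 := (smul_eq_zero.1 this.symm).resolve_left h5
    exact (sub_eq_zero.1 h6).symm
  have e4 : gE ls ys (dW D H) = ((-1 : ℂ) ^ ys.length) • dW D (gE ls ys H) -
      ((-1 : ℂ) ^ ys.length) • sp (fun y R => sg y (gE ls R H)) ys := gE_dW_eq hd2 hl H
  -- the main part
  have e5 : sp (fun a R => sp (fun y S => gE ls S (Af (Lt.E (a + y)) (gE C R F))) ys) al =
      sp (fun y S => gE ls S (sp (fun a R => Af (Lt.E (a + y)) (gE C R F)) al)) ys := by
    rw [x2_sp_sp]
    refine x2_sp_congr fun y S _ _ _ => ?_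
    exact (x2_sp_map (x2_gEh ls S) al _).symm
  have e6 : ∀ y, sp (fun a R => Af (Lt.E (a + y)) (gE C R F)) al =
      - ((-1 : ℂ) ^ al.length) • gE (y :: C) al F + sg y H := by
    intro y
    have e7 : sp (fun a R => Af (Lt.E (a + y)) (gE C R F)) al =
        - ((-1 : ℂ) ^ al.length) • sp (fun a R => gE C R (Af (Lt.E (y + a)) F)) al := by
      rw [← x2_sp_smul]
      refine x2_sp_congr fun a R _ _ hR => ?_
      rw [Af_gE hF, add_comm a y, ← hR, pow_succ]
      congr 1
      ring
    have e8 := gE_cons hF y C al hC.le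
    rw [e7, e8, smul_add, smul_smul]
    have e9 : - ((-1 : ℂ) ^ al.length) * ((-1 : ℂ) ^ al.length) = -1 := by
      rw [neg_mul, ← pow_add, ← two_mul, pow_mul]
      norm_num
    rw [e9, hH]
    module
  have e10 : sp (fun y S => gE ls S (sp (fun a R => Af (Lt.E (a + y)) (gE C R F)) al)) ys =
      - ((-1 : ℂ) ^ al.length) • sp (fun y S => gE ls S (gE (y :: C) al F)) ys +
        sp (fun y S => sg y (gE ls S H)) ys := by
    rw [← x2_sp_smul, ← x2_sp_add]
    refine x2_sp_congr fun y S _ _ _ => ?_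
    rw [e6, gE_add, gE_smul, gE_sg]
  rw [e1, e5, e10, e3, e4]
  have e11 : ((-1 : ℂ) ^ ys.length) * ((-1 : ℂ) ^ ys.length) = 1 := by
    rw [← pow_add, ← two_mul, pow_mul]
    norm_num
  rw [smul_sub, smul_smul, smul_smul, e11, one_smul, one_smul]
  simp only [Pi.add_apply, Pi.sub_apply, Pi.smul_apply, smul_eq_mul, dW_nil]
  ring

namespace T2X

/-- expansion of the column with the first letter `k` -/
theorem x2_zeta_step {u : Fn σ} (hu : SS u) (L Bs : List (σ → ℕ)) (x y a l : σ → ℕ) :
    su (fun k R => gE R Bs (gE [k, x, y] [a, l] u)) L = ((-1 : ℂ) ^ Bs.length) •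
      (gE [x, y] [l] (gE L (a :: Bs) u) + gE [x, y] [a] (gE L (l :: Bs) u)) +
        gE [x, y] [a, l] (su (fun k R => sg k (gE R Bs u)) L) := by
  have h1 : su (fun k R => gE R Bs (gE [k, x, y] [a, l] u)) L =
      su (fun k R => (((-1 : ℂ) ^ Bs.length) • gE [x, y] [l] (gE R Bs (Af (Lt.E (k + a)) u)) +
        ((-1 : ℂ) ^ Bs.length) • gE [x, y] [a] (gE R Bs (Af (Lt.E (k + l)) u))) +
        gE [x, y] [a, l] (sg k (gE R Bs u))) L := by
    refine x2_su_congr fun k R _ _ _ => ?_
    rw [gE_cons hu k [x, y] [a, l] le_rfl]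
    have h2 : ((-1 : ℂ) ^ ([a, l] : List (σ → ℕ)).length) = 1 := by norm_num
    rw [h2, one_smul]
    simp only [sp, add_zero]
    rw [gE_add, gE_add, gE_gE (hu.af _) R Bs [x, y] [l], gE_gE (hu.af _) R Bs [x, y] [a],
      gE_sg, gE_gE hu R Bs [x, y] [a, l], gE_sg]
    have h3 : ((-1 : ℂ) ^ (Bs.length * ([a, l] : List (σ → ℕ)).length)) = 1 := by
      rw [List.length_cons, List.length_cons, List.length_nil, mul_comm, pow_mul]
      norm_num
    have h4 : ∀ z : σ → ℕ, Bs.length * ([z] : List (σ → ℕ)).length = Bs.length := by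
      intro z; simp
    rw [h3, one_smul, h4, h4]
  rw [h1, x2_su_add, x2_su_add, x2_su_smul, x2_su_smul, smul_add, x2_gE_cons_eq L a Bs,
    x2_gE_cons_eq L l Bs]
  have k1 := x2_su_map (x2_gEh [x, y] [l]) L (fun k R => gE R Bs (Af (Lt.E (k + a)) u))
  have k2 := x2_su_map (x2_gEh [x, y] [a]) L (fun k R => gE R Bs (Af (Lt.E (k + l)) u))
  have k3 := x2_su_map (x2_gEh [x, y] [a, l]) L (fun k R => sg k (gE R Bs u))
  simp only [x2_gEh_apply] at k1 k2 k3
  rw [k1, k2, k3]

end T2X

theorem zeta1 {u : Fn σ} (hu : SS u) (L Bs : List (σ → ℕ)) (x y a l : σ → ℕ)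
    (hl : L.length = Bs.length + 1) :
    su (fun k R => gE R Bs (gE [k, x, y] [a, l] u)) L = ((-1 : ℂ) ^ Bs.length) •
      (gE [x, y] [l] (gE L (a :: Bs) u) + gE [x, y] [a] (gE L (l :: Bs) u) +
        gE [x, y] [a, l] (gE L Bs u)) := by
  rw [x2_zeta_step hu, su_sg L Bs u hl, gE_smul, ← smul_add]

theorem zeta2 {u : Fn σ} (hu : SS u) (L Bs : List (σ → ℕ)) (x y a l : σ → ℕ)
    (hl : L.length = Bs.length + 2) :
    su (fun k R => gE R Bs (gE [k, x, y] [a, l] u)) L = ((-1 : ℂ) ^ Bs.length) •
      (gE [x, y] [l] (gE L (a :: Bs) u) + gE [x, y] [a] (gE L (l :: Bs) u)) := by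
  rw [x2_zeta_step hu, su_sg0 L Bs u hl, gE_zero, add_zero]

end Pool.Agent.H69.VT
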