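import Pool.Agent.H69.VT.T1
import Pool.Agent.H69.VT.T2

/-! MP_fb19ec_ag, project VT, row T12: antisymmetrization -/

set_option linter.unusedSectionVars false

namespace Pool.Agent.H69.VT

open scoped BigOperators
open Pool.Agent.H69.VS

variable {σ : Type} [Fintype σ] [DecidableEq σ]

namespace T12X

/-- the antisymmetrization in three variables -/
def as12 {τ : Type} (g : τ → τ → τ → ℂ) (p q r : τ) : ℂ :=
  g p q r - g q p r - g p r q - g r q p + g q r p + g r p q

theorem as12_add {τ : Type} (g h : τ → τ → τ → ℂ) (p q r : τ) :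
    as12 (fun x y z => g x y z + h x y z) p q r = as12 g p q r + as12 h p q r := by
  unfold as12; ring

theorem as12_sub {τ : Type} (g h : τ → τ → τ → ℂ) (p q r : τ) :
    as12 (fun x y z => g x y z - h x y z) p q r = as12 g p q r - as12 h p q r := by
  unfold as12; ring

theorem as12_mul {τ : Type} (c : ℂ) (g : τ → τ → τ → ℂ) (p q r : τ) :
    as12 (fun x y z => c * g x y z) p q r = c * as12 g p q r := by
  unfold as12; ring

theorem as12_12 {τ : Type} (g : τ → τ → τ → ℂ) (h : ∀ x y z, g x y z = g y x z) (p q r : τ) :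
    as12 g p q r = 0 := by
  unfold as12; rw [h q p r, h r q p, h r p q]; ring

theorem as12_23 {τ : Type} (g : τ → τ → τ → ℂ) (h : ∀ x y z, g x y z = g x z y) (p q r : τ) :
    as12 g p q r = 0 := by
  unfold as12; rw [h p r q, h q r p, h r q p]; ring

theorem as12_13 {τ : Type} (g : τ → τ → τ → ℂ) (h : ∀ x y z, g x y z = g z y x) (p q r : τ) :
    as12 g p q r = 0 := by
  unfold as12; rw [h r q p, h q p r, h q r p]; ring

theorem as12_sp {τ α : Type} (F : τ → τ → τ → α → List α → ℂ) (p q r : τ) (l : List α) :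
    as12 (fun x y z => sp (F x y z) l) p q r = sp (fun b R => as12 (fun x y z => F x y z b R) p q r) l := by
  induction l generalizing F with
  | nil => simp [as12, sp]
  | cons u C ih =>
    have := ih (fun x y z v R => F x y z v (u :: R))
    simp only [sp]
    rw [as12_add, this]

theorem as12_su {τ α : Type} (F : τ → τ → τ → α → List α → ℂ) (p q r : τ) (l : List α) :
    as12 (fun x y z => su (F x y z) l) p q r = su (fun b R => as12 (fun x y z => F x y z b R) p q r) l := by
  induction l generalizing F with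
  | nil => simp [as12, su]
  | cons u C ih =>
    have := ih (fun x y z v R => F x y z v (u :: R))
    simp only [su]
    rw [as12_sub, this]

theorem spa12 {α : Type} (F : α → List α → Fn σ) (l : List α) (w : List (Lt σ)) (f : σ → ℕ) :
    sp F l w f = sp (fun b R => F b R w f) l := by
  induction l generalizing F with
  | nil => rfl
  | cons u C ih =>
    simp only [sp]
    rw [← ih (fun v R => F v (u :: R))]
    rfl

theorem sua12 {α : Type} (F : α → List α → Fn σ) (l : List α) (w : List (Lt σ)) (f : σ → ℕ) :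
    su F l w f = su (fun b R => F b R w f) l := by
  induction l generalizing F with
  | nil => rfl
  | cons u C ih =>
    simp only [su]
    rw [← ih (fun v R => F v (u :: R))]
    rfl

theorem spc12 {α M : Type} [AddCommGroup M] {F G : α → List α → M} (l : List α)
    (h : ∀ b R, (b :: R).Perm l → F b R = G b R) : sp F l = sp G l := by
  induction l generalizing F G with
  | nil => rfl
  | cons u C ih =>
    simp only [sp]
    rw [h u C (List.Perm.refl _)]
    congr 1
    apply ih
    intro b R hp
    apply h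
    exact (List.Perm.swap u b R).trans (hp.cons u)

theorem suc12 {α M : Type} [AddCommGroup M] {F G : α → List α → M} (l : List α)
    (h : ∀ b R, (b :: R).Perm l → F b R = G b R) : su F l = su G l := by
  induction l generalizing F G with
  | nil => rfl
  | cons u C ih =>
    simp only [su]
    rw [h u C (List.Perm.refl _)]
    congr 1
    apply ih
    intro b R hp
    apply h
    exact (List.Perm.swap u b R).trans (hp.cons u)

theorem spz12 {α M : Type} [AddCommGroup M] (l : List α) :
    sp (fun (_ : α) (_ : List α) => (0 : M)) l = 0 := by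
  induction l with
  | nil => rfl
  | cons u C ih => simp only [sp]; rw [ih, add_zero]

theorem suz12 {α M : Type} [AddCommGroup M] (l : List α) :
    su (fun (_ : α) (_ : List α) => (0 : M)) l = 0 := by
  induction l with
  | nil => rfl
  | cons u C ih => simp only [su]; rw [ih, sub_zero]

theorem cont12 (As Bs : List (σ → ℕ)) (u : Fn σ) (b1 b2 : σ → ℕ) (p q r : σ) (f : σ → ℕ) :
    gE As Bs (gE [ep p, ep q, ep r] [b1, b2] u) [] f =
      as12 (fun x y z => gE As Bs (Af (Lt.E (ep y + b2)) (Af (Lt.E (ep x + b1)) u)) []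
        (f + ep z)) p q r := by
  have h1 : gE [ep p, ep q, ep r] [b1, b2] u =
      sg (ep r) (Af (Lt.E (ep q + b2)) (Af (Lt.E (ep p + b1)) u)) -
      sg (ep q) (Af (Lt.E (ep r + b2)) (Af (Lt.E (ep p + b1)) u)) -
      (sg (ep r) (Af (Lt.E (ep p + b2)) (Af (Lt.E (ep q + b1)) u)) -
        sg (ep p) (Af (Lt.E (ep r + b2)) (Af (Lt.E (ep q + b1)) u)) -
        (sg (ep q) (Af (Lt.E (ep p + b2)) (Af (Lt.E (ep r + b1)) u)) -
          sg (ep p) (Af (Lt.E (ep q + b2)) (Af (Lt.E (ep r + b1)) u)))) := by
    simp only [gE, su, gN, sub_zero]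
  rw [h1]
  simp only [gE_sub, gE_sg]
  unfold as12
  simp only [Pi.sub_apply, sg]
  ring

/-- contractions by a column of length three are invisible on cycles -/
theorem kill12 {D : ℕ} {u : Fn σ} (hQ : Q3 D u) (p q r : σ) {b1 b2 : σ → ℕ} (h1 : dg b1 + 1 = D)
    (h2 : dg b2 + 1 = D) {As Bs : List (σ → ℕ)} (hA : ok D As) (hB : ∀ b ∈ Bs, dg b = 1)
    (hl : As.length = Bs.length + 1) (f : σ → ℕ) :
    as12 (fun x y z => gE As Bs (Af (Lt.E (ep y + b2)) (Af (Lt.E (ep x + b1)) u)) []
        (f + ep z)) p q r = 0 := by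
  rw [← cont12]
  apply hat_Cb (D := D) _ hl (hQ p q r b1 b2 h1 h2)
  intro a ha b hb
  rw [hB b hb]
  exact hA a ha

/-- a cyclic shift of the variables -/
theorem as12_rot {τ : Type} (g : τ → τ → τ → ℂ) (p q r : τ) :
    as12 (fun x y z => g y z x) p q r = as12 g p q r := by
  unfold as12; ring

theorem as12_rev {τ : Type} (g : τ → τ → τ → ℂ) (p q r : τ) :
    as12 (fun x y z => g z y x) p q r = - as12 g p q r := by
  unfold as12; ring

end T12X

open T12X

theorem rel2_FGL {D : ℕ} {u : Fn σ} (hu : SS u) (hQ : Q3 D u) (p q r : σ) {l : σ → ℕ}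
    (hl : dg l + 2 = D) {ls ys : List (σ → ℕ)} (hls : ok D ls) (hys : ∀ y ∈ ys, dg y = 1)
    (hlen : ls.length = ys.length + 1) (f : σ → ℕ) (Ψ : σ → σ → σ → ℂ)
    (hΨ : ∀ x y z, Ψ x y z = gE ((l + ep z) :: ls) (ep y :: ys) u [] (f + ep x)) :
    Ψ p q r - Ψ q p r - Ψ p r q - Ψ r q p + Ψ q r p + Ψ r p q = 0 := by
  change as12 Ψ p q r = 0
  have h1 : ∀ x y z, Ψ x y z =
      (gE ls ys (Af (Lt.E (l + ep z + ep y)) u) [] (f + ep x) +
        sp (fun b R => su (fun a' R' => gE R' R (Af (Lt.E (ep y + a'))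
          (Af (Lt.E (ep z + (l + b))) u)) [] (f + ep x)) ls) ys) +
      ((-1 : ℂ) ^ (ep y :: ys).length) * gE ls (ep y :: ys) u [] (f + ep x + (l + ep z)) := by
    intro x y z
    rw [hΨ, gE_cons hu _ _ _ (by simp [hlen])]
    simp only [Pi.add_apply, Pi.smul_apply, smul_eq_mul, sp]
    congr 2
    rw [spa12]
    apply spc12
    intro b R _
    rw [gE, sua12]
    apply suc12
    intro a' R' _
    rw [add_comm a' (ep y), show l + ep z + b = ep z + (l + b) by abel]
  have h2 : Ψ = fun x y z =>
      (gE ls ys (Af (Lt.E (l + ep z + ep y)) u) [] (f + ep x) +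
        sp (fun b R => su (fun a' R' => gE R' R (Af (Lt.E (ep y + a'))
          (Af (Lt.E (ep z + (l + b))) u)) [] (f + ep x)) ls) ys) +
      ((-1 : ℂ) ^ (ep y :: ys).length) * gE ls (ep y :: ys) u [] (f + ep x + (l + ep z)) := by
    funext x y z
    exact h1 x y z
  rw [h2, as12_add, as12_add, as12_23 (fun x y z => gE ls ys (Af (Lt.E (l + ep z + ep y)) u) [] (f + ep x))
    (fun x y z => by rw [add_right_comm]),
    as12_13 (fun x y z => ((-1 : ℂ) ^ (ep y :: ys).length) *
      gE ls (ep y :: ys) u [] (f + ep x + (l + ep z)))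
      (fun x y z => by rw [show f + ep x + (l + ep z) = f + ep z + (l + ep x) by abel]),
    add_zero, zero_add, as12_sp]
  rw [← spz12 (M := ℂ) ys]
  apply spc12
  intro b R hb
  rw [as12_su, ← suz12 (M := ℂ) ls]
  apply suc12
  intro a' R' ha
  have hb1 : dg b = 1 := hys b (hb.subset (by simp))
  have hlR : R.length + 1 = ys.length := by simpa using hb.length_eq
  have hlR' : R'.length + 1 = ls.length := by simpa using ha.length_eq
  have h3 := kill12 hQ p q r (b1 := l + b) (b2 := a') (by rw [dg_add, hb1]; omega)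
    (hls a' (ha.subset (by simp))) (As := R') (Bs := R)
    (fun x hx => hls x (ha.subset (by simp [hx]))) (fun x hx => hys x (hb.subset (by simp [hx])))
    (by omega) f
  have h4 := as12_rev (fun x y z => gE R' R (Af (Lt.E (ep y + a')) (Af (Lt.E (ep x + (l + b))) u)) []
        (f + ep z)) p q r
  rw [h3, neg_zero] at h4
  exact h4

theorem rel2_FLL {D : ℕ} {u : Fn σ} (hu : SS u) (hQ : Q3 D u) (p q r : σ) {l l' : σ → ℕ}
    (hl : dg l + 2 = D) (hl' : dg l' + 2 = D) {ls ys : List (σ → ℕ)} (hls : ok D ls)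
    (hys : ∀ y ∈ ys, dg y = 1) (hlen : ls.length + 1 = ys.length) (f : σ → ℕ)
    (Ψ : σ → σ → σ → ℂ)
    (hΨ : ∀ x y z, Ψ x y z = gE ((l + ep y) :: (l' + ep z) :: ls) ys u [] (f + ep x)) :
    Ψ p q r - Ψ q p r - Ψ p r q - Ψ r q p + Ψ q r p + Ψ r p q = 0 := by
  change as12 Ψ p q r = 0
  have h2 : Ψ = fun x y z =>
      (sp (fun b R => sp (fun b' R' => gE ls R' (Af (Lt.E (ep z + (l' + b')))
          (Af (Lt.E (ep y + (l + b))) u)) [] (f + ep x)) R) ys +
        sp (fun b R => ((-1 : ℂ) ^ R.length) * gE ls R (Af (Lt.E (l + ep y + b)) u) []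
          (f + ep x + (l' + ep z))) ys) +
      ((-1 : ℂ) ^ ys.length) * gE ((l' + ep z) :: ls) ys u [] (f + ep x + (l + ep y)) := by
    funext x y z
    rw [hΨ, gE_cons hu _ _ _ (by simp [hlen])]
    simp only [Pi.add_apply, Pi.smul_apply, smul_eq_mul]
    congr 1
    rw [spa12]
    have h3 : ∀ (A B : (σ → ℕ) → List (σ → ℕ) → ℂ) (t : List (σ → ℕ)),
        sp A t + sp B t = sp (fun b R => A b R + B b R) t := by
      intro A B t
      induction t generalizing A B with
      | nil => simp [sp]
      | cons v C ih => simp only [sp]; rw [← ih]; ring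
    rw [h3]
    apply spc12
    intro b R hb
    have hlR : R.length + 1 = ys.length := by simpa using hb.length_eq
    rw [gE_cons (hu.af _) _ _ _ (by omega)]
    simp only [Pi.add_apply, Pi.smul_apply, smul_eq_mul]
    congr 1
    rw [spa12]
    apply spc12
    intro b' R' _
    rw [show l' + ep z + b' = ep z + (l' + b') by abel,
      show l + ep y + b = ep y + (l + b) by abel]
  rw [h2, as12_add, as12_add,
    as12_12 (fun x y z => ((-1 : ℂ) ^ ys.length) *
      gE ((l' + ep z) :: ls) ys u [] (f + ep x + (l + ep y)))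
      (fun x y z => by rw [show f + ep x + (l + ep y) = f + ep y + (l + ep x) by abel]),
    as12_sp, as12_sp, add_zero]
  have e1 : sp (fun b R => as12 (fun x y z => ((-1 : ℂ) ^ R.length) *
      gE ls R (Af (Lt.E (l + ep y + b)) u) [] (f + ep x + (l' + ep z))) p q r) ys = 0 := by
    rw [← spz12 (M := ℂ) ys]
    apply spc12
    intro b R _
    exact as12_13 _ (fun x y z => by
      rw [show f + ep x + (l' + ep z) = f + ep z + (l' + ep x) by abel]) p q r
  rw [e1, add_zero, ← spz12 (M := ℂ) ys]
  apply spc12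
  intro b R hb
  rw [as12_sp, ← spz12 (M := ℂ) R]
  apply spc12
  intro b' R' hb'
  have hb1 : dg b = 1 := hys b (hb.subset (by simp))
  have hR : ∀ x ∈ R, dg x = 1 := fun x hx => hys x (hb.subset (by simp [hx]))
  have hb2 : dg b' = 1 := hR b' (hb'.subset (by simp))
  have hlR : R.length + 1 = ys.length := by simpa using hb.length_eq
  have hlR' : R'.length + 1 = R.length := by simpa using hb'.length_eq
  have h3 := kill12 hQ p q r (b1 := l + b) (b2 := l' + b') (by rw [dg_add, hb1]; omega)
    (by rw [dg_add, hb2]; omega) (As := ls) (Bs := R')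
    hls (fun x hx => hR x (hb'.subset (by simp [hx]))) (by omega) f
  have h4 := as12_rot (fun x y z => gE ls R' (Af (Lt.E (ep y + (l' + b')))
    (Af (Lt.E (ep x + (l + b))) u)) [] (f + ep z)) p q r
  rw [h3] at h4
  exact h4

end Pool.Agent.H69.VT
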