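import Pool.Agent.H69.VS.Main
import Pool.Agent.H69.VT.SDefs

/-!
The operators `gE` (expansions of determinants of letters) on functions of words, boundaries and
types with an offset.
-/

set_option linter.unusedSectionVars false

namespace Pool.Agent.H69.VT

open scoped BigOperators
open Pool.Agent.H69.VS

variable {σ : Type} [Fintype σ] [DecidableEq σ]

/-- signed sum over the choice of an element of a list -/
def su {α M : Type} [AddCommGroup M] (f : α → List α → M) : List α → M
  | [] => 0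
  | u :: C => f u C - su (fun v R => f v (u :: R)) C

/-- sum over the choice of an element of a list -/
def sp {α M : Type} [AddCommGroup M] (f : α → List α → M) : List α → M
  | [] => 0
  | u :: C => f u C + sp (fun v R => f v (u :: R)) C

/-- the case without symmetric letters -/
def gN : List (σ → ℕ) → Fn σ → Fn σ
  | [], F => F
  | [a], F => sg a F
  | _ :: _ :: _, _ => 0

/-- signed letters `As`, symmetric letters `Bs` -/
def gE : List (σ → ℕ) → List (σ → ℕ) → Fn σ → Fn σ
  | As, [], F => gN As F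
  | As, b :: Bs, F => su (fun a R => gE R Bs (Af (Lt.E (a + b)) F)) As

/-- derivation of a function of a list: one variable `j` is replaced by `k` -/
noncomputable def dL {M : Type} [AddCommGroup M] [Module ℂ M] (j k : σ)
    (f : List (σ → ℕ) → M) : List (σ → ℕ) → M
  | [] => 0
  | a :: A => (a j : ℂ) • f ((a - ep j + ep k) :: A) + dL j k (fun R => f (a :: R)) A

/-- polarization on functions without `eta` -/
noncomputable def Re (j k : σ) (F : Fn σ) : Fn σ := rW j k F + ta j (sg (ep k) F)

/-- boundaries -/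
def Cb (D : ℕ) (u : Fn σ) : Prop := ∃ F : Fn σ, SS F ∧ dW D F = u

/-- type with an offset `γ` -/
def St (D s t : ℕ) (γ β : σ → ℕ) (F : Fn σ) : Prop :=
  ∀ w f, F w f ≠ 0 → w.length + s = t ∧ nT w = 0 ∧ md w + f + γ = β ∧ ∀ x ∈ w, okL D x

/-- all labels have degree `D - 1` -/
def ok (D : ℕ) (α : List (σ → ℕ)) : Prop := ∀ a ∈ α, dg a + 1 = D

/-- iterated contractions by columns -/
def mE : List (List σ × List (σ → ℕ)) → Fn σ → Fn σ
  | [], v => v
  | p :: cols, v => gE (p.1.map ep) p.2 (mE cols v)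

/-- closed functions of type `(t, β)` -/
def Ev (D t : ℕ) (β : σ → ℕ) (u : Fn σ) : Prop := SS u ∧ Sp D 0 0 t 0 β u ∧ dW D u = 0

/-- all contractions by columns of length three are boundaries -/
def Q3 (D : ℕ) (u : Fn σ) : Prop :=
  ∀ (p q r : σ) (a a' : σ → ℕ), dg a + 1 = D → dg a' + 1 = D →
    Cb D (gE [ep p, ep q, ep r] [a, a'] u)

/-- the hat of `u` is zero -/
def Hz (D : ℕ) (u : Fn σ) : Prop :=
  ∀ (f : σ → ℕ) (ys ls : List (σ → ℕ)), ls.length = ys.length + 1 → (∀ y ∈ ys, dg y = 1) →
    ok D ls → gE ls ys u [] f = 0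

/-- vanishing in the strands `≥ 2 D - 1`, for less than `T` letters -/
def HV (σ : Type) [Fintype σ] [DecidableEq σ] (D T : ℕ) : Prop :=
  ∀ r, r < T → ∀ (j : ℕ) (β : σ → ℕ), 2 * D - 1 ≤ j → dg β = r * D + j → Van D r β

/-- the vanishing of the class of slot functions that is needed for `t` letters -/
def XP (D t : ℕ) : Prop :=
  ∀ (σ ι : Type) [Fintype σ] [DecidableEq σ] [Fintype ι] [DecidableEq ι] (C : Finset ℕ)
    (ρ : ι → Rl) (Φ : SF σ ι), Cls (D - 1) ρ C Φ → C.Nonempty →
    (∀ i ∈ C, 2 ≤ (cl ρ (Rl.gr i)).card) → (cl ρ Rl.F).card + C.card = D →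
    (cl ρ Rl.L).card + ∑ i ∈ C, (cl ρ (Rl.gr i)).card = t + 1 →
    (cl ρ Rl.G).card + 1 = (cl ρ Rl.L).card → D + 1 ≤ (cl ρ Rl.L).card + C.card →
    ∀ e, Φ e = 0

end Pool.Agent.H69.VT
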