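import Pool.Agent.H69.VS.Red
import Pool.Agent.H69.VT.TDefs

/-!
Types with an offset (project VT, row T5).
-/

set_option linter.unusedSectionVars false

namespace Pool.Agent.H69.VT

open scoped BigOperators
open Pool.Agent.H69.VS

variable {σ : Type} [Fintype σ] [DecidableEq σ]

namespace T5X

theorem su_ind {α M : Type} [AddCommGroup M] {P : M → Prop} (h0 : P 0)
    (hsub : ∀ x y, P x → P y → P (x - y)) :
    ∀ (As : List α) (f : α → List α → M), (∀ a R, (a :: R).Perm As → P (f a R)) → P (su f As)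
  | [], f, _ => by simpa only [su] using h0
  | u :: C, f, h => by
    simp only [su]
    refine hsub _ _ (h u C (List.Perm.refl _)) ?_
    refine su_ind h0 hsub C (fun v R => f v (u :: R)) fun a R hR => h a (u :: R) ?_
    exact (List.Perm.swap u a R).trans (hR.cons u)

theorem St_zero {D s t : ℕ} {γ β : σ → ℕ} : St D s t γ β (0 : Fn σ) :=
  fun _ _ h => absurd rfl h

theorem St_sub {D s t : ℕ} {γ β : σ → ℕ} {F G : Fn σ} (h : St D s t γ β F)
    (h' : St D s t γ β G) : St D s t γ β (F - G) := by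
  intro w f hne
  by_cases h0 : F w f = 0
  · apply h' w f
    intro h1; apply hne; simp [h0, h1]
  · exact h w f h0

end T5X

theorem St_of_Sp {D t : ℕ} {β : σ → ℕ} {F : Fn σ} (h : Sp D 0 0 t 0 β F) :
    St D 0 t 0 β F := by
  intro w f hne
  obtain ⟨a1, a2, a3, a4⟩ := h w f hne
  exact ⟨a1, by omega, by rw [add_zero]; exact a3, a4⟩

theorem St_sg {D s t : ℕ} {γ β : σ → ℕ} {F : Fn σ} (h : St D s t γ β F) (g : σ → ℕ) :
    St D s t (γ + g) β (sg g F) := by
  intro w f hne
  obtain ⟨a1, a2, a3, a4⟩ := h w (f + g) hne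
  refine ⟨a1, a2, ?_, a4⟩
  rw [← a3]; abel

theorem St_Af {D s t : ℕ} {γ β : σ → ℕ} {F : Fn σ} (h : St D s t γ β F) (e : σ → ℕ) :
    St D (s + 1) t (γ + e) β (Af (Lt.E e) F) := by
  intro w f hne
  obtain ⟨a1, a2, a3, a4⟩ := h (Lt.E e :: w) f hne
  refine ⟨?_, a2, ?_, fun x hx => a4 x (List.mem_cons_of_mem _ hx)⟩
  · simp only [List.length_cons] at a1; omega
  · rw [← a3]; simp only [md]; abel

namespace T5X

theorem St_gE' {D t : ℕ} {β : σ → ℕ} : ∀ (Bs As : List (σ → ℕ)) (s : ℕ) (γ : σ → ℕ) (F : Fn σ),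
    St D s t γ β F → St D (s + Bs.length) t (γ + As.sum + Bs.sum) β (gE As Bs F)
  | [], As, s, γ, F, h => by
    simp only [gE, List.length_nil, List.sum_nil, add_zero]
    match As with
    | [] => simpa only [gN, List.sum_nil, add_zero] using h
    | [a] => simpa only [gN, List.sum_cons, List.sum_nil, add_zero] using St_sg h a
    | _ :: _ :: _ => simp only [gN]; exact St_zero
  | b :: Bs, As, s, γ, F, h => by
    simp only [gE]
    refine su_ind (P := St D (s + (b :: Bs).length) t (γ + As.sum + (b :: Bs).sum) β)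
      St_zero (fun x y => St_sub) As _ ?_
    intro a R hR
    have h1 := St_gE' Bs R (s + 1) (γ + (a + b)) _ (St_Af h (a + b))
    have h2 : a + R.sum = As.sum := by rw [← List.sum_cons]; exact hR.sum_eq
    have h3 : s + 1 + Bs.length = s + (b :: Bs).length := by simp only [List.length_cons]; omega
    have h4 : γ + (a + b) + R.sum + Bs.sum = γ + As.sum + (b :: Bs).sum := by
      rw [← h2, List.sum_cons]; abel
    rw [h3, h4] at h1
    exact h1

theorem gE_zero' : ∀ (Bs As : List (σ → ℕ)), gE As Bs (0 : Fn σ) = 0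
  | [], As => by
    simp only [gE]
    match As with
    | [] => rfl
    | [a] => rfl
    | _ :: _ :: _ => rfl
  | b :: Bs, As => by
    simp only [gE]
    refine su_ind (P := fun x : Fn σ => x = 0) rfl (fun x y hx hy => by rw [hx, hy, sub_zero])
      As _ ?_
    intro a R _
    exact gE_zero' Bs R

end T5X

theorem St_gE {D s t : ℕ} {γ β : σ → ℕ} {F : Fn σ} (h : St D s t γ β F)
    (As Bs : List (σ → ℕ)) (hl : As.length = Bs.length ∨ As.length = Bs.length + 1) :
    St D (s + Bs.length) t (γ + As.sum + Bs.sum) β (gE As Bs F) := by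
  have _ := hl
  exact T5X.St_gE' Bs As s γ F h

/-- a typed function is zero or of a type without offset -/
theorem St_cases {D s t : ℕ} {γ β : σ → ℕ} {F : Fn σ} (h : St D s t γ β F) :
    F = 0 ∨ ∃ (r : ℕ) (β' : σ → ℕ), r + s = t ∧ β' + γ = β ∧ Sp D 0 0 r 0 β' F := by
  by_cases hF : F = 0
  · exact Or.inl hF
  · right
    have h1 : ∃ w0 f0, F w0 f0 ≠ 0 := by
      by_contra hne
      push Not at hne
      exact hF (funext fun w => funext fun f => hne w f)
    obtain ⟨w0, f0, h0⟩ := h1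
    obtain ⟨a1, a2, a3, a4⟩ := h w0 f0 h0
    refine ⟨w0.length, md w0 + f0, a1, a3, ?_⟩
    intro w f hne
    obtain ⟨b1, b2, b3, b4⟩ := h w f hne
    refine ⟨by omega, by omega, ?_, b4⟩
    rw [← a3] at b3
    exact add_right_cancel b3

theorem van_st {D s t : ℕ} {γ β : σ → ℕ} {F : Fn σ} (hF : SS F) (sF : St D s t γ β F)
    (dF : dW D F = 0) (hV : ∀ (r : ℕ) (β' : σ → ℕ), r + s = t → β' + γ = β → Van D r β') :
    ∃ G : Fn σ, SS G ∧ St D (s + 1) t γ β G ∧ dW D G = F := by
  rcases St_cases sF with h0 | ⟨r, β', h1, h2, h3⟩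
  · refine ⟨0, SS.zero, T5X.St_zero, ?_⟩
    rw [h0]; exact dW_zero' D
  · obtain ⟨F', g1, g2, g3⟩ := hV r β' h1 h2 F hF h3 dF
    refine ⟨F', g1, ?_, g3⟩
    intro w f hne
    obtain ⟨b1, b2, b3, b4⟩ := g2 w f hne
    refine ⟨by omega, by omega, ?_, b4⟩
    rw [← h2, ← b3]

theorem cb_st {D s t : ℕ} {γ β : σ → ℕ} {F : Fn σ} (h : Cb D F) (sF : St D s t γ β F) :
    ∃ G : Fn σ, SS G ∧ St D (s + 1) t γ β G ∧ dW D G = F := by
  rcases St_cases sF with h0 | ⟨r, β', h1, h2, h3⟩
  · refine ⟨0, SS.zero, T5X.St_zero, ?_⟩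
    rw [h0]; exact dW_zero' D
  · obtain ⟨G, g1, g2⟩ := h
    refine ⟨cut D 1 r β' G, SS_cut g1, ?_, ?_⟩
    · intro w f hne
      obtain ⟨b1, b2, b3, b4⟩ := Sp_cut (D := D) (s := 1) (t := r) (β := β') (F := G) w f hne
      refine ⟨by omega, by omega, ?_, b4⟩
      rw [← h2, ← b3]
    · refine dW_cut (G := 0) h3 ?_
      rw [hW_zero', add_zero, g2]

theorem Cb_add {D : ℕ} {F G : Fn σ} (h : Cb D F) (h' : Cb D G) : Cb D (F + G) := by
  obtain ⟨A, a1, a2⟩ := h
  obtain ⟨B, b1, b2⟩ := h'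
  exact ⟨A + B, a1.add b1, by rw [dW_add', a2, b2]⟩

theorem Cb_smul {D : ℕ} {F : Fn σ} (h : Cb D F) (c : ℂ) : Cb D (c • F) := by
  obtain ⟨A, a1, a2⟩ := h
  exact ⟨c • A, a1.smul c, by rw [dW_smul', a2]⟩

theorem Cb_zero (D : ℕ) : Cb D (0 : Fn σ) := ⟨0, SS.zero, dW_zero' D⟩

theorem Cb_sg {D : ℕ} {F : Fn σ} (h : Cb D F) (g : σ → ℕ) : Cb D (sg g F) := by
  obtain ⟨A, a1, a2⟩ := h
  exact ⟨sg g A, a1.sg g, by rw [dW_sg, a2]⟩

/-- a symmetric label outside the weight -/
theorem gE_out {D s t : ℕ} {γ β : σ → ℕ} {F : Fn σ} (h : St D s t γ β F) {As Bs : List (σ → ℕ)}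
    {b : σ → ℕ} (hb : b ∈ Bs) {z : σ} (hz : b z ≠ 0) (hβ : β z = 0) : gE As Bs F = 0 := by
  by_contra hne
  have h1 : ∃ w0 f0, gE As Bs F w0 f0 ≠ 0 := by
    by_contra hn
    push Not at hn
    exact hne (funext fun w => funext fun f => hn w f)
  obtain ⟨w0, f0, h0⟩ := h1
  obtain ⟨_, _, a3, _⟩ := T5X.St_gE' Bs As s γ F h w0 f0 h0
  obtain ⟨u, v, rfl⟩ := List.append_of_mem hb
  have h2 := congrFun a3 z
  simp only [Pi.add_apply, List.sum_append, List.sum_cons] at h2
  omega

/-- a symmetric label of a wrong degree -/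
theorem gE_bad {D s t : ℕ} {γ β : σ → ℕ} {F : Fn σ} (h : St D s t γ β F) {As Bs : List (σ → ℕ)}
    {b : σ → ℕ} (hb : b ∈ Bs) (hd : ∀ a ∈ As, dg a + dg b ≠ D) : gE As Bs F = 0 := by
  induction Bs generalizing As s γ F with
  | nil => exact absurd hb List.not_mem_nil
  | cons b' Bs ih =>
    simp only [gE]
    refine T5X.su_ind (P := fun x : Fn σ => x = 0) rfl
      (fun x y hx hy => by rw [hx, hy, sub_zero]) As _ ?_
    intro a R hR
    have ha : a ∈ As := hR.mem_iff.1 List.mem_cons_self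
    rcases List.mem_cons.1 hb with rfl | hb'
    · have h1 : Af (Lt.E (a + b)) F = 0 := by
        funext w f
        by_contra hne
        obtain ⟨_, _, _, a4⟩ := h _ _ hne
        have h2 := a4 (Lt.E (a + b)) List.mem_cons_self
        simp only [okL, dg_add] at h2
        exact hd a ha h2
      rw [h1]
      exact T5X.gE_zero' Bs R
    · refine ih (St_Af h (a + b')) hb' ?_
      intro a' ha'
      exact hd a' (hR.mem_iff.1 (List.mem_cons_of_mem _ ha'))

theorem HV_of {D T : ℕ} (hD : 2 ≤ D)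
    (h : ∀ r, r < T → ∀ β : σ → ℕ, dg β = r * D + (2 * D - 1) → Van D r β) : HV σ D T := by
  intro r
  induction r using Nat.strong_induction_on with
  | _ r ihr =>
    intro hr j
    induction j using Nat.strong_induction_on with
    | _ j ihj =>
      intro β hj hβ
      by_cases hj' : j = 2 * D - 1
      · rw [hj'] at hβ
        exact h r hr β hβ
      · refine Van_rows (D := D) (t := r) (j := j) (m := 2) ?_ ?_ ?_ β hβ
        · intro r' β' hr' hβ'
          exact ihr r' (by omega) (by omega) (j - 1) β' (by omega) (by omega)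
        · intro r' β' hr' hβ'
          exact ihr r' (by omega) (by omega) j β' hj hβ'
        · intro β' hc hβ'
          apply Van_small _ hβ'
          have h1 : (supp β').card * (D - 1) ≤ 2 * (D - 1) := Nat.mul_le_mul_right _ hc
          omega

end Pool.Agent.H69.VT
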