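import Pool.Agent.H69.VT.T2
import Pool.Agent.H69.VT.T5
import Pool.Agent.H69.VT.T12
import Pool.Agent.H69.VT.X4

/-!
The hat of iterated contractions is in the class of slot functions.
-/

set_option linter.unusedSectionVars false

namespace Pool.Agent.H69.VT

open scoped BigOperators
open Pool.Agent.H69.VS

variable {σ : Type} [Fintype σ] [DecidableEq σ]

open Classical in
/-- the hat of iterated contractions, as a slot function -/
noncomputable def hatF {ι : Type} (D c : ℕ) (lF lG lL : List ι) (lA : ℕ → List ι)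
    (Cs : ℕ → List σ) (v : Fn σ) : SF σ ι := fun e =>
  if (∀ s ∈ lF ++ lG, dl (e s) = 1) ∧ (∀ s ∈ lL, dl (e s) + 1 = D) ∧
      (∀ i < c, ∀ s ∈ lA i, dl (e s) + 1 = D) then
    gE (lL.map e) (lG.map e) (mE ((List.range c).map (fun i => (Cs i, (lA i).map e))) v) []
      (lF.map e).sum
  else 0

namespace T13X

/-! ### iterated contractions -/

theorem SS_mE {v : Fn σ} (hv : SS v) (cols : List (List σ × List (σ → ℕ))) :
    SS (mE cols v) := by
  induction cols with
  | nil => exact hv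
  | cons p cols ih => exact SS_gE ih _ _

theorem hd_of {D : ℕ} {C : List σ} {B : List (σ → ℕ)} (h : ok D B) :
    ∀ a ∈ C.map ep, ∀ b ∈ B, dg a + dg b = D := by
  intro a ha b hb
  obtain ⟨x, _, rfl⟩ := List.mem_map.1 ha
  rw [dg_ep, add_comm]
  exact h b hb

theorem dW_mE {D : ℕ} {v : Fn σ} (dv : dW D v = 0) (cols : List (List σ × List (σ → ℕ)))
    (h : ∀ p ∈ cols, p.1.length = p.2.length + 1 ∧ ok D p.2) : dW D (mE cols v) = 0 := by
  induction cols with
  | nil => exact dv
  | cons p cols ih =>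
    have h1 := ih fun q hq => h q (List.mem_cons_of_mem _ hq)
    have h2 := h p List.mem_cons_self
    have h3 := gE_dW_succ (hd_of (C := p.1) h2.2) (by rw [List.length_map]; exact h2.1)
      (mE cols v)
    rw [h1, gE_zero] at h3
    have h4 : ((-1 : ℂ) ^ p.2.length) ≠ 0 := pow_ne_zero _ (by norm_num)
    exact (smul_eq_zero.1 h3.symm).resolve_left h4

theorem mE_move {v : Fn σ} (hv : SS v) (p : List σ × List (σ → ℕ))
    (s t : List (List σ × List (σ → ℕ))) :
    mE (s ++ p :: t) v = ((-1 : ℂ) ^ ((s.map (fun q => q.2.length * p.2.length)).sum)) •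
      gE (p.1.map ep) p.2 (mE (s ++ t) v) := by
  induction s with
  | nil => simp [mE]
  | cons q s ih =>
    simp only [List.cons_append, mE, List.map_cons, List.sum_cons]
    rw [ih, gE_smul, gE_gE (SS_mE hv _), smul_smul, pow_add, mul_comm]

theorem mE_congr {v : Fn σ} (hv : SS v) (l : List ℕ) (g g' : ℕ → List σ × List (σ → ℕ))
    (h : ∀ i ∈ l, (g i).1 = (g' i).1 ∧ (g i).2.Perm (g' i).2) :
    mE (l.map g) v = mE (l.map g') v := by
  induction l with
  | nil => rfl
  | cons i l ih =>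
    have h1 := ih fun j hj => h j (List.mem_cons_of_mem _ hj)
    have h2 := h i List.mem_cons_self
    simp only [List.map_cons, mE]
    rw [h1, h2.1, gE_permB (SS_mE hv _) h2.2]

/-! ### sums over the choice of an element -/

theorem sp_eval {α : Type} (g : α → List α → Fn σ) (A : List α) (w : List (Lt σ)) (f : σ → ℕ) :
    sp g A w f = sp (fun a R => g a R w f) A := by
  induction A generalizing g with
  | nil => rfl
  | cons u C ih =>
    simp only [sp]
    rw [← ih]
    rfl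

theorem sp_list {ι α M : Type} [DecidableEq ι] [AddCommGroup M] (g : α → List α → M)
    (e : ι → α) {l : List ι} (hl : l.Nodup) :
    sp g (l.map e) = (l.map fun s => g (e s) ((l.erase s).map e)).sum := by
  induction l generalizing g with
  | nil => rfl
  | cons x l ih =>
    obtain ⟨hx, hl'⟩ := List.nodup_cons.1 hl
    simp only [List.map_cons, List.sum_cons, sp, List.erase_cons_head]
    rw [ih _ hl']
    congr 2
    apply List.map_congr_left
    intro s hs
    have : x ≠ s := fun h => hx (h ▸ hs)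
    rw [List.erase_cons_tail (by simpa using this), List.map_cons]

/-! ### lists of slots -/

variable {ι : Type} [Fintype ι] [DecidableEq ι]

theorem swap_in {l : List ι} (hl : l.Nodup) {s s' : ι} (h : s ∈ l ↔ s' ∈ l)
    (e : ι → σ → ℕ) : (l.map (e ∘ Equiv.swap s s')).Perm (l.map e) := by
  have key : ∀ x, x ∈ l → Equiv.swap s s' x ∈ l := by
    intro x hx
    rcases eq_or_ne x s with rfl | h1
    · rw [Equiv.swap_apply_left]; exact h.1 hx
    · rcases eq_or_ne x s' with rfl | h2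
      · rw [Equiv.swap_apply_right]; exact h.2 hx
      · rwa [Equiv.swap_apply_of_ne_of_ne h1 h2]
  rw [← List.map_map]
  apply List.Perm.map
  rw [List.perm_ext_iff_of_nodup (hl.map (Equiv.injective _)) hl]
  intro a
  rw [List.mem_map]
  constructor
  · rintro ⟨x, hx, rfl⟩
    exact key x hx
  · intro ha
    exact ⟨Equiv.swap s s' a, key a ha, by simp⟩

theorem swap_none {l : List ι} {s s' : ι} (h : s ∉ l) (h' : s' ∉ l) (e : ι → σ → ℕ) :
    l.map (e ∘ Equiv.swap s s') = l.map e := by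
  apply List.map_congr_left
  intro x hx
  have h1 : x ≠ s := fun h2 => h (h2 ▸ hx)
  have h2 : x ≠ s' := fun h2 => h' (h2 ▸ hx)
  rw [Function.comp_apply, Equiv.swap_apply_of_ne_of_ne h1 h2]

theorem erase_map {l : List ι} (hl : l.Nodup) {s : ι} {e e' : ι → σ → ℕ}
    (h : ∀ x ∈ l, x ≠ s → e' x = e x) : (l.erase s).map e' = (l.erase s).map e := by
  apply List.map_congr_left
  intro x hx
  obtain ⟨h1, h2⟩ := (hl.mem_erase_iff).1 hx
  exact h x h2 h1

theorem perm_mv {l : List ι} {s : ι} (hs : s ∈ l) (e : ι → σ → ℕ) :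
    (l.map e).Perm (e s :: (l.erase s).map e) := (List.perm_cons_erase hs).map e

theorem mv1 {l : List ι} {s : ι} (hs : s ∈ l) :
    ∃ n : ℕ, ∀ (e : ι → σ → ℕ) (Bs : List (σ → ℕ)) (F : Fn σ),
      gE (l.map e) Bs F = ((-1 : ℂ) ^ n) • gE (e s :: (l.erase s).map e) Bs F := by
  obtain ⟨A, A', _, h1, h2⟩ := List.exists_erase_eq hs
  refine ⟨A.length, fun e Bs F => ?_⟩
  rw [h2, h1]
  simp only [List.map_append, List.map_cons]
  rw [gE_moveA, List.length_map]

theorem mv2 {l : List ι} {s s' : ι} (hs : s ∈ l) (hs' : s' ∈ l) (hss : s ≠ s') :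
    ∃ n : ℕ, ∀ (e : ι → σ → ℕ) (Bs : List (σ → ℕ)) (F : Fn σ),
      gE (l.map e) Bs F =
        ((-1 : ℂ) ^ n) • gE (e s :: e s' :: ((l.erase s).erase s').map e) Bs F := by
  obtain ⟨n, hn⟩ := mv1 (σ := σ) hs
  obtain ⟨A, A', _, h1, h2⟩ := List.exists_erase_eq ((List.mem_erase_of_ne hss.symm).2 hs')
  refine ⟨n + A.length, fun e Bs F => ?_⟩
  rw [hn, h2, h1]
  simp only [List.map_append, List.map_cons]
  have h3 := T1X.moveA [e s] (A.map e) (A'.map e) (e s') Bs F
  simp only [List.singleton_append, List.length_map] at h3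
  rw [h3, smul_smul, pow_add]

theorem pred_swap {C : ι → Prop} {d : (σ → ℕ) → Prop} {s s' : ι} (h : C s ↔ C s')
    (e : ι → σ → ℕ) :
    (∀ x, C x → d ((e ∘ Equiv.swap s s') x)) ↔ (∀ x, C x → d (e x)) := by
  have key : ∀ x, C x → C (Equiv.swap s s' x) := by
    intro x hx
    rcases eq_or_ne x s with rfl | h1
    · rw [Equiv.swap_apply_left]; exact h.1 hx
    · rcases eq_or_ne x s' with rfl | h2
      · rw [Equiv.swap_apply_right]; exact h.2 hx
      · rwa [Equiv.swap_apply_of_ne_of_ne h1 h2]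
  constructor
  · intro h1 x hx
    have h2 := h1 _ (key x hx)
    simpa using h2
  · intro h1 x hx
    exact h1 _ (key x hx)

theorem sum_cl {M : Type} [AddCommMonoid M] {ρ : ι → Rl} {r : Rl} {l : List ι} (hl : l.Nodup)
    (h : ∀ s, s ∈ l ↔ ρ s = r) (g : ι → M) : ∑ s ∈ cl ρ r, g s = (l.map g).sum := by
  rw [← List.sum_toFinset g hl]
  congr 1
  ext s
  simp [cl, h]

theorem one_dg {y : σ → ℕ} (h : dg y = 1) : ∃ z, y = ep z := by
  have h1 : ∃ z, y z ≠ 0 := by
    by_contra hn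
    push Not at hn
    have : dg y = 0 := Finset.sum_eq_zero fun i _ => hn i
    omega
  obtain ⟨z, hz⟩ := h1
  refine ⟨z, ?_⟩
  have h2 := dg_sub y z hz
  have h3 : dg (y - ep z) = 0 := by omega
  have h4 : ∀ i, (y - ep z) i = 0 := by
    intro i
    exact (Finset.sum_eq_zero_iff.1 h3) i (Finset.mem_univ i)
  funext i
  have h5 := h4 i
  by_cases hi : i = z
  · subst hi
    simp only [Pi.sub_apply, ep, Pi.single_eq_same] at h5 ⊢
    omega
  · simp only [Pi.sub_apply, ep, Pi.single_eq_of_ne hi] at h5 ⊢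
    omega

/-! ### the context -/

/-- the condition on the degrees of the labels -/
def PP (D c : ℕ) (ρ : ι → Rl) (e : ι → σ → ℕ) : Prop :=
  (∀ s, (ρ s = Rl.F ∨ ρ s = Rl.G) → dl (e s) = 1) ∧
    (∀ s, (ρ s = Rl.L ∨ ∃ i ∈ Finset.range c, ρ s = Rl.gr i) → dl (e s) + 1 = D)

/-- the hypotheses on lists of slots -/
structure Ctx (D c : ℕ) (ρ : ι → Rl) (lF lG lL : List ι) (lA : ℕ → List ι)
    (Cs : ℕ → List σ) (v : Fn σ) : Prop where
  nF : lF.Nodup
  nG : lG.Nodup
  nL : lL.Nodup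
  nA : ∀ i < c, (lA i).Nodup
  hF : ∀ s, s ∈ lF ↔ ρ s = Rl.F
  hG : ∀ s, s ∈ lG ↔ ρ s = Rl.G
  hL : ∀ s, s ∈ lL ↔ ρ s = Rl.L
  hA : ∀ i < c, ∀ s, s ∈ lA i ↔ ρ s = Rl.gr i
  hGL : lL.length = lG.length + 1
  hC : ∀ i < c, (Cs i).length = (lA i).length + 1
  hv : SS v
  dv : dW D v = 0

variable {D c : ℕ} {ρ : ι → Rl} {lF lG lL : List ι} {lA : ℕ → List ι} {Cs : ℕ → List σ}
  {v : Fn σ}

theorem PP_iff (h : Ctx D c ρ lF lG lL lA Cs v) (e : ι → σ → ℕ) :
    ((∀ s ∈ lF ++ lG, dl (e s) = 1) ∧ (∀ s ∈ lL, dl (e s) + 1 = D) ∧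
      (∀ i < c, ∀ s ∈ lA i, dl (e s) + 1 = D)) ↔ PP D c ρ e := by
  constructor
  · rintro ⟨h1, h2, h3⟩
    refine ⟨fun s hs => h1 s ?_, fun s hs => ?_⟩
    · rw [List.mem_append, h.hF, h.hG]; exact hs
    · rcases hs with hs | ⟨i, hi, hs⟩
      · exact h2 s ((h.hL s).2 hs)
      · have hi' := Finset.mem_range.1 hi
        exact h3 i hi' s ((h.hA i hi' s).2 hs)
  · rintro ⟨h1, h2⟩
    refine ⟨fun s hs => h1 s ?_, fun s hs => h2 s (Or.inl ((h.hL s).1 hs)), fun i hi s hs =>
      h2 s (Or.inr ⟨i, Finset.mem_range.2 hi, (h.hA i hi s).1 hs⟩)⟩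
    rwa [List.mem_append, h.hF, h.hG] at hs

/-- the iterated contraction -/
def uu (c : ℕ) (lA : ℕ → List ι) (Cs : ℕ → List σ) (v : Fn σ) (e : ι → σ → ℕ) : Fn σ :=
  mE ((List.range c).map (fun i => (Cs i, (lA i).map e))) v

theorem hat_pos (h : Ctx D c ρ lF lG lL lA Cs v) {e : ι → σ → ℕ} (he : PP D c ρ e) :
    hatF D c lF lG lL lA Cs v e =
      gE (lL.map e) (lG.map e) (uu c lA Cs v e) [] (lF.map e).sum :=
  if_pos ((PP_iff h e).2 he)

theorem hat_neg (h : Ctx D c ρ lF lG lL lA Cs v) {e : ι → σ → ℕ} (he : ¬ PP D c ρ e) :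
    hatF D c lF lG lL lA Cs v e = 0 :=
  if_neg fun h1 => he ((PP_iff h e).1 h1)

theorem PP_swap {s s' : ι} (h1 : (ρ s = Rl.F ∨ ρ s = Rl.G) ↔ (ρ s' = Rl.F ∨ ρ s' = Rl.G))
    (h2 : (ρ s = Rl.L ∨ ∃ i ∈ Finset.range c, ρ s = Rl.gr i) ↔
      (ρ s' = Rl.L ∨ ∃ i ∈ Finset.range c, ρ s' = Rl.gr i)) (e : ι → σ → ℕ) :
    PP D c ρ (e ∘ Equiv.swap s s') ↔ PP D c ρ e :=
  and_congr (pred_swap (C := fun s => ρ s = Rl.F ∨ ρ s = Rl.G) (d := fun y => dl y = 1) h1 e)
    (pred_swap (C := fun s => ρ s = Rl.L ∨ ∃ i ∈ Finset.range c, ρ s = Rl.gr i)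
      (d := fun y => dl y + 1 = D) h2 e)

theorem SS_uu (h : Ctx D c ρ lF lG lL lA Cs v) (e : ι → σ → ℕ) : SS (uu c lA Cs v e) :=
  SS_mE h.hv _

theorem uu_congr (h : Ctx D c ρ lF lG lL lA Cs v) {e e' : ι → σ → ℕ}
    (h1 : ∀ i < c, ((lA i).map e').Perm ((lA i).map e)) :
    uu c lA Cs v e' = uu c lA Cs v e :=
  mE_congr h.hv _ _ _ fun i hi => ⟨rfl, h1 i (List.mem_range.1 hi)⟩

theorem uu_swap_none (h : Ctx D c ρ lF lG lL lA Cs v) {s s' : ι}
    (hs : ∀ i < c, ρ s ≠ Rl.gr i) (hs' : ∀ i < c, ρ s' ≠ Rl.gr i) (e : ι → σ → ℕ) :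
    uu c lA Cs v (e ∘ Equiv.swap s s') = uu c lA Cs v e := by
  apply uu_congr h
  intro i hi
  rw [swap_none (fun h1 => hs i hi ((h.hA i hi s).1 h1))
    (fun h1 => hs' i hi ((h.hA i hi s').1 h1)) e]

theorem same_role (h : Ctx D c ρ lF lG lL lA Cs v) {s s' : ι} (hr : ρ s = ρ s')
    (hn : ρ s ≠ Rl.L) (e : ι → σ → ℕ) :
    hatF D c lF lG lL lA Cs v (e ∘ Equiv.swap s s') = hatF D c lF lG lL lA Cs v e := by
  have hP : PP D c ρ (e ∘ Equiv.swap s s') ↔ PP D c ρ e :=
    PP_swap (by rw [hr]) (by rw [hr]) e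
  by_cases he : PP D c ρ e
  · rw [hat_pos h (hP.2 he), hat_pos h he]
    have h1 : uu c lA Cs v (e ∘ Equiv.swap s s') = uu c lA Cs v e := by
      apply uu_congr h
      intro i hi
      apply swap_in (h.nA i hi)
      rw [h.hA i hi, h.hA i hi, hr]
    have h2 : lL.map (e ∘ Equiv.swap s s') = lL.map e := by
      apply swap_none
      · rw [h.hL]; exact hn
      · rw [h.hL, ← hr]; exact hn
    have h3 : (lF.map (e ∘ Equiv.swap s s')).sum = (lF.map e).sum := by
      apply List.Perm.sum_eq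
      apply swap_in h.nF
      rw [h.hF, h.hF, hr]
    have h4 : (lG.map (e ∘ Equiv.swap s s')).Perm (lG.map e) := by
      apply swap_in h.nG
      rw [h.hG, h.hG, hr]
    rw [h1, h2, h3, gE_permB (SS_uu h e) h4]
  · rw [hat_neg h he, hat_neg h fun h1 => he (hP.1 h1)]

theorem gr_ne {s : ι} {r : Rl} (hr : ρ s = r) (hn : ∀ i, r ≠ Rl.gr i) :
    ∀ i < c, ρ s ≠ Rl.gr i := fun i _ => by rw [hr]; exact hn i

theorem alt (h : Ctx D c ρ lF lG lL lA Cs v) {s s' : ι} (hss : s ≠ s') (hs : ρ s = Rl.L)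
    (hs' : ρ s' = Rl.L) (e : ι → σ → ℕ) :
    hatF D c lF lG lL lA Cs v (e ∘ Equiv.swap s s') = - hatF D c lF lG lL lA Cs v e := by
  have hP : PP D c ρ (e ∘ Equiv.swap s s') ↔ PP D c ρ e :=
    PP_swap (by rw [hs, hs']) (by rw [hs, hs']) e
  by_cases he : PP D c ρ e
  · rw [hat_pos h (hP.2 he), hat_pos h he]
    have h1 : uu c lA Cs v (e ∘ Equiv.swap s s') = uu c lA Cs v e :=
      uu_swap_none h (gr_ne hs (by simp)) (gr_ne hs' (by simp)) e
    have h2 : lG.map (e ∘ Equiv.swap s s') = lG.map e := by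
      apply swap_none
      · rw [h.hG, hs]; simp
      · rw [h.hG, hs']; simp
    have h3 : lF.map (e ∘ Equiv.swap s s') = lF.map e := by
      apply swap_none
      · rw [h.hF, hs]; simp
      · rw [h.hF, hs']; simp
    obtain ⟨n, hn⟩ := mv2 (σ := σ) ((h.hL s).2 hs) ((h.hL s').2 hs') hss
    have h4 : ((lL.erase s).erase s').map (e ∘ Equiv.swap s s') =
        ((lL.erase s).erase s').map e := by
      apply swap_none
      · intro h5
        exact ((h.nL.mem_erase_iff).1 (List.mem_of_mem_erase h5)).1 rfl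
      · intro h5
        exact (((h.nL.erase s).mem_erase_iff).1 h5).1 rfl
    rw [h1, h2, h3, hn, hn e, h4, Function.comp_apply, Function.comp_apply,
      Equiv.swap_apply_left, Equiv.swap_apply_right]
    have h6 := gE_swapA [] (((lL.erase s).erase s').map e) (e s') (e s) (lG.map e)
      (uu c lA Cs v e)
    simp only [List.nil_append] at h6
    rw [h6, smul_neg]
    rfl
  · rw [hat_neg h he, hat_neg h fun h1 => he (hP.1 h1), neg_zero]

theorem dW_uu (h : Ctx D c ρ lF lG lL lA Cs v) {e : ι → σ → ℕ} (he : PP D c ρ e) :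
    dW D (uu c lA Cs v e) = 0 := by
  apply dW_mE h.dv
  intro p hp
  obtain ⟨i, hi, rfl⟩ := List.mem_map.1 hp
  have hi' := List.mem_range.1 hi
  refine ⟨by rw [List.length_map]; exact h.hC i hi', ?_⟩
  intro a ha
  obtain ⟨s, hs, rfl⟩ := List.mem_map.1 ha
  exact he.2 s (Or.inr ⟨i, Finset.mem_range.2 hi', (h.hA i hi' s).1 hs⟩)

theorem okL_of (h : Ctx D c ρ lF lG lL lA Cs v) {e : ι → σ → ℕ} (he : PP D c ρ e) :
    ok D (lL.map e) := by
  intro a ha
  obtain ⟨s, hs, rfl⟩ := List.mem_map.1 ha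
  exact he.2 s (Or.inl ((h.hL s).1 hs))

theorem dG_of (h : Ctx D c ρ lF lG lL lA Cs v) {e : ι → σ → ℕ} (he : PP D c ρ e) :
    ∀ y ∈ lG.map e, dg y = 1 := by
  intro a ha
  obtain ⟨s, hs, rfl⟩ := List.mem_map.1 ha
  exact he.1 s (Or.inr ((h.hG s).1 hs))

theorem okA_of (h : Ctx D c ρ lF lG lL lA Cs v) {e : ι → σ → ℕ} (he : PP D c ρ e) {i : ℕ}
    (hi : i < c) : ok D ((lA i).map e) := by
  intro a ha
  obtain ⟨s, hs, rfl⟩ := List.mem_map.1 ha
  exact he.2 s (Or.inr ⟨i, Finset.mem_range.2 hi, (h.hA i hi s).1 hs⟩)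

theorem fg (h : Ctx D c ρ lF lG lL lA Cs v) {s : ι} (hs : ρ s = Rl.F) (e : ι → σ → ℕ) :
    hatF D c lF lG lL lA Cs v e +
      ∑ s' ∈ cl ρ Rl.G, hatF D c lF lG lL lA Cs v (e ∘ Equiv.swap s' s) = 0 := by
  have hP : ∀ s', ρ s' = Rl.G → (PP D c ρ (e ∘ Equiv.swap s' s) ↔ PP D c ρ e) := by
    intro s' hs'
    exact PP_swap (by rw [hs, hs']; simp) (by rw [hs, hs']; simp) e
  rw [sum_cl h.nG h.hG]
  by_cases he : PP D c ρ e
  · have hfs : s ∈ lF := (h.hF s).2 hs
    have h1 := gE_dW_eq (D := D) (As := lL.map e) (Bs := e s :: lG.map e)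
      (by
        intro a ha b hb
        have h2 := okL_of h he a ha
        have h3 : dg b = 1 := by
          rcases List.mem_cons.1 hb with rfl | hb
          · exact he.1 s (Or.inl hs)
          · exact dG_of h he b hb
        omega)
      (by simp [h.hGL]) (uu c lA Cs v e)
    rw [dW_uu h he, gE_zero] at h1
    have h2 := congrFun (congrFun h1 []) ((lF.erase s).map e).sum
    simp only [Pi.sub_apply, Pi.smul_apply, smul_eq_mul, dW_nil, mul_zero, zero_sub,
      Pi.zero_apply] at h2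
    have h3 : sp (fun b R => sg b (gE (lL.map e) R (uu c lA Cs v e))) (e s :: lG.map e) []
        ((lF.erase s).map e).sum = 0 := by
      have h4 : ((-1 : ℂ) ^ (e s :: lG.map e).length) ≠ 0 := pow_ne_zero _ (by norm_num)
      have h5 := neg_eq_zero.1 h2.symm
      exact (mul_eq_zero.1 h5).resolve_left h4
    rw [sp_eval] at h3
    simp only [sp] at h3
    rw [sp_list _ e h.nG] at h3
    rw [← h3, hat_pos h he]
    have h6 : (lF.map e).sum = ((lF.erase s).map e).sum + e s := by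
      rw [(perm_mv hfs e).sum_eq, List.sum_cons, add_comm]
    congr 1
    · rw [h6]
      rfl
    · congr 1
      apply List.map_congr_left
      intro s' hs'
      have hs2 := (h.hG s').1 hs'
      have hne : s ≠ s' := by
        intro h7
        rw [h7, hs2] at hs
        simp at hs
      rw [hat_pos h ((hP s' hs2).2 he)]
      have h8 : uu c lA Cs v (e ∘ Equiv.swap s' s) = uu c lA Cs v e :=
        uu_swap_none h (gr_ne hs2 (by simp)) (gr_ne hs (by simp)) e
      have h9 : lL.map (e ∘ Equiv.swap s' s) = lL.map e := by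
        apply swap_none
        · rw [h.hL, hs2]; simp
        · rw [h.hL, hs]; simp
      have h10 : (lG.map (e ∘ Equiv.swap s' s)).Perm (e s :: (lG.erase s').map e) := by
        refine (perm_mv hs' _).trans ?_
        rw [Function.comp_apply, Equiv.swap_apply_left, swap_none]
        · intro h11
          exact ((h.nG.mem_erase_iff).1 h11).1 rfl
        · intro h11
          have h12 := (h.hG s).1 (List.mem_of_mem_erase h11)
          rw [hs] at h12
          simp at h12
      have h13 : (lF.map (e ∘ Equiv.swap s' s)).sum = ((lF.erase s).map e).sum + e s' := by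
        rw [(perm_mv hfs _).sum_eq, List.sum_cons, Function.comp_apply,
          Equiv.swap_apply_right, add_comm, swap_none]
        · intro h11
          have h12 := (h.hF s').1 (List.mem_of_mem_erase h11)
          rw [hs2] at h12
          simp at h12
        · intro h11
          exact ((h.nF.mem_erase_iff).1 h11).1 rfl
      rw [h8, h9, h13, gE_permB (SS_uu h e) h10]
      rfl
  · rw [hat_neg h he, zero_add]
    apply List.sum_eq_zero
    intro x hx
    obtain ⟨s', hs', rfl⟩ := List.mem_map.1 hx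
    exact hat_neg h fun h1 => he ((hP s' ((h.hG s').1 hs')).1 h1)

theorem col_front {w : Fn σ} (hw : SS w) {i : ℕ} {S T : List ℕ} (g : ℕ → List σ × List (σ → ℕ)) :
    mE ((S ++ i :: T).map g) w =
      ((-1 : ℂ) ^ ((S.map fun k => (g k).2.length * (g i).2.length).sum)) •
        gE ((g i).1.map ep) (g i).2 (mE ((S ++ T).map g) w) := by
  rw [List.map_append, List.map_cons, mE_move hw, List.map_append, List.map_map]
  rfl

theorem ex (h : Ctx D c ρ lF lG lL lA Cs v)
    (hB : ∀ i < c, ∀ (y : σ) (A : ℕ → List (σ → ℕ)),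
      (∀ k < c, (A k).length = (lA k).length + (if k = i then 1 else 0) ∧ ok D (A k)) →
      Cb D (mE ((List.range c).map (fun k => (if k = i then y :: Cs k else Cs k, A k))) v))
    {i : ℕ} (hi : i < c) {s : ι} (hs : ρ s = Rl.L) (e : ι → σ → ℕ) :
    hatF D c lF lG lL lA Cs v e +
      ∑ s' ∈ cl ρ (Rl.gr i), hatF D c lF lG lL lA Cs v (e ∘ Equiv.swap s' s) = 0 := by
  have hP : ∀ s', ρ s' = Rl.gr i → (PP D c ρ (e ∘ Equiv.swap s' s) ↔ PP D c ρ e) := by
    intro s' hs'
    refine PP_swap (by rw [hs, hs']; simp) ?_ e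
    rw [hs, hs']
    simp [hi]
  rw [sum_cl (h.nA i hi) (h.hA i hi)]
  by_cases he : PP D c ρ e
  · obtain ⟨S, T, hST⟩ := List.append_of_mem (List.mem_range.2 hi)
    have hnd : (S ++ i :: T).Nodup := by rw [← hST]; exact List.nodup_range
    have hk : ∀ k ∈ S ++ T, k < c ∧ k ≠ i := by
      intro k hk
      constructor
      · apply List.mem_range.1
        rw [hST]
        simp only [List.mem_append, List.mem_cons] at hk ⊢
        tauto
      · rintro rfl
        have h1 := (List.perm_middle (a := k) (l₁ := S) (l₂ := T)).nodup_iff.1 hnd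
        exact (List.nodup_cons.1 h1).1 hk
    obtain ⟨n, hn⟩ := mv1 (σ := σ) ((h.hL s).2 hs)
    set F0 : Fn σ := mE ((S ++ T).map (fun k => (Cs k, (lA k).map e))) v with hF0
    set N : ℕ := (S.map fun k => (lA k).length * (lA i).length).sum with hN
    have sF : SS F0 := SS_mE h.hv _
    have dF : dW D F0 = 0 := by
      apply dW_mE h.dv
      intro p hp
      obtain ⟨k, hk', rfl⟩ := List.mem_map.1 hp
      exact ⟨by rw [List.length_map]; exact h.hC k (hk k hk').1, okA_of h he (hk k hk').1⟩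
    -- values
    have hval : ∀ (e' : ι → σ → ℕ), (∀ k ∈ S ++ T, (lA k).map e' = (lA k).map e) →
        uu c lA Cs v e' = ((-1 : ℂ) ^ N) • gE ((Cs i).map ep) ((lA i).map e') F0 := by
      intro e' he'
      unfold uu
      rw [hST, col_front h.hv]
      simp only [List.length_map]
      rw [hF0, hN]
      congr 3
      apply List.map_congr_left
      intro k hk'
      rw [he' k hk']
    have hls : ((lL.erase s).map e).length = (lG.map e).length := by
      rw [List.length_map, List.length_map, List.length_erase_of_mem ((h.hL s).2 hs), h.hGL]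
      rfl
    have okl : ok D ((lL.erase s).map e) := by
      intro a ha
      obtain ⟨x, hx, rfl⟩ := List.mem_map.1 ha
      exact okL_of h he _ (List.mem_map_of_mem (List.mem_of_mem_erase hx))
    have oka : ok D (e s :: (lA i).map e) := by
      intro a ha
      rcases List.mem_cons.1 ha with rfl | ha
      · exact he.2 s (Or.inl hs)
      · exact okA_of h he hi a ha
    have h4 := rel4 (D := D) (F := F0) sF dF (C := (Cs i).map ep) (al := e s :: (lA i).map e)
      (ls := (lL.erase s).map e) (ys := lG.map e)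
      (by rw [List.length_map, List.length_cons, List.length_map]; exact h.hC i hi) hls
      (by
        intro x hx
        obtain ⟨z, _, rfl⟩ := List.mem_map.1 hx
        exact dg_ep z) oka (dG_of h he) okl (lF.map e).sum
    have h5 : sp (fun y R => gE ((lL.erase s).map e) R
        (gE (y :: (Cs i).map ep) (e s :: (lA i).map e) F0)) (lG.map e) [] (lF.map e).sum = 0 := by
      rw [sp_eval, ← sp_zero (M := ℂ) (lG.map e)]
      apply sp_congr_mem
      intro y R hp
      have hy : y ∈ lG.map e := hp.subset List.mem_cons_self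
      obtain ⟨z, rfl⟩ := one_dg (dG_of h he y hy)
      have hcb := hB i hi z (fun k => if k = i then e s :: (lA i).map e else (lA k).map e)
        (by
          intro k hk'
          by_cases hki : k = i
          · subst hki
            simp only [if_true]
            exact ⟨by simp, oka⟩
          · simp only [if_neg hki]
            exact ⟨by simp, okA_of h he hk'⟩)
      rw [hST, col_front h.hv] at hcb
      simp only [if_true] at hcb
      have h6 : (S ++ T).map (fun k => ((if k = i then z :: Cs k else Cs k),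
          (if k = i then e s :: (lA i).map e else (lA k).map e))) =
          (S ++ T).map (fun k => (Cs k, (lA k).map e)) := by
        apply List.map_congr_left
        intro k hk'
        rw [if_neg (hk k hk').2, if_neg (hk k hk').2]
      rw [h6] at hcb
      have h7 := Cb_smul hcb (((-1 : ℂ) ^ ((S.map fun k => (if k = i then
        e s :: (lA i).map e else (lA k).map e).length * (e s :: (lA i).map e).length).sum)))
      have hsq : ∀ N : ℕ, ((-1 : ℂ) ^ N * (-1 : ℂ) ^ N) = 1 := by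
        intro N
        rw [← mul_pow]
        norm_num
      rw [smul_smul, hsq, one_smul] at h7
      refine hat_Cb ?_ ?_ h7 _
      · intro a ha b hb
        have h8 := okl a ha
        have h9 := dG_of h he b (hp.subset (List.mem_cons_of_mem _ hb))
        omega
      · rw [hls, ← hp.length_eq, List.length_cons]
    rw [h5, mul_zero, sp_eval] at h4
    simp only [sp] at h4
    rw [sp_list _ e (h.nA i hi)] at h4
    rw [hat_pos h he, hval e (fun _ _ => rfl), hn, gE_smul]
    simp only [Pi.smul_apply, smul_eq_mul]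
    have h10 : (lA i).map (fun s' => hatF D c lF lG lL lA Cs v (e ∘ Equiv.swap s' s)) =
        (lA i).map (fun s' => ((-1 : ℂ) ^ n * (-1 : ℂ) ^ N) *
          (gE (e s' :: (lL.erase s).map e) (lG.map e)
            (gE ((Cs i).map ep) (e s :: ((lA i).erase s').map e) F0) [] (lF.map e).sum)) := by
      apply List.map_congr_left
      intro s' hs'
      have hs2 := (h.hA i hi s').1 hs'
      have h11 : ∀ k ∈ S ++ T, (lA k).map (e ∘ Equiv.swap s' s) = (lA k).map e := by
        intro k hk'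
        apply swap_none
        · rw [h.hA k (hk k hk').1, hs2]
          intro h12
          injection h12 with h12
          exact (hk k hk').2 h12.symm
        · rw [h.hA k (hk k hk').1, hs]
          simp
      have h12 : ((lA i).map (e ∘ Equiv.swap s' s)).Perm (e s :: ((lA i).erase s').map e) := by
        refine (perm_mv hs' _).trans ?_
        rw [Function.comp_apply, Equiv.swap_apply_left, swap_none]
        · intro h13
          exact (((h.nA i hi).mem_erase_iff).1 h13).1 rfl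
        · intro h13
          have h14 := (h.hA i hi s).1 (List.mem_of_mem_erase h13)
          rw [hs] at h14
          simp at h14
      have h13 : lG.map (e ∘ Equiv.swap s' s) = lG.map e := by
        apply swap_none
        · rw [h.hG, hs2]; simp
        · rw [h.hG, hs]; simp
      have h14 : lF.map (e ∘ Equiv.swap s' s) = lF.map e := by
        apply swap_none
        · rw [h.hF, hs2]; simp
        · rw [h.hF, hs]; simp
      have h15 : (lL.erase s).map (e ∘ Equiv.swap s' s) = (lL.erase s).map e := by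
        apply swap_none
        · intro h16
          have h17 := (h.hL s').1 (List.mem_of_mem_erase h16)
          rw [hs2] at h17
          simp at h17
        · intro h16
          exact ((h.nL.mem_erase_iff).1 h16).1 rfl
      rw [hat_pos h ((hP s' hs2).2 he), hval _ h11, hn, gE_smul, h13, h14, h15,
        gE_permB sF h12, Function.comp_apply, Equiv.swap_apply_right]
      simp only [Pi.smul_apply, smul_eq_mul]
      ring
    rw [h10, List.sum_map_mul_left]
    linear_combination ((-1 : ℂ) ^ n * (-1 : ℂ) ^ N) * h4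
  · rw [hat_neg h he, zero_add]
    apply List.sum_eq_zero
    intro x hx
    obtain ⟨s', hs', rfl⟩ := List.mem_map.1 hx
    exact hat_neg h fun h1 => he ((hP s' ((h.hA i hi s').1 hs')).1 h1)

/-! ### three slots -/

theorem u1_self (s : ι) (k : σ) : u1 s k s = ep k := by simp [u1, ep]

theorem u1_ne {s s' : ι} (h : s' ≠ s) (k : σ) : u1 s k s' = 0 := by
  simp [u1, Pi.single_eq_of_ne h]

/-- the shifted label -/
def e3 (e : ι → σ → ℕ) (s1 s2 s3 : ι) (x y z : σ) : ι → σ → ℕ := e + u1 s1 x + u1 s2 y + u1 s3 z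

theorem e3_1 (e : ι → σ → ℕ) {s1 s2 s3 : ι} (h12 : s1 ≠ s2) (h13 : s1 ≠ s3) (x y z : σ) :
    e3 e s1 s2 s3 x y z s1 = e s1 + ep x := by
  simp [e3, u1_self, u1_ne h12, u1_ne h13]

theorem e3_2 (e : ι → σ → ℕ) {s1 s2 s3 : ι} (h12 : s1 ≠ s2) (h23 : s2 ≠ s3) (x y z : σ) :
    e3 e s1 s2 s3 x y z s2 = e s2 + ep y := by
  simp [e3, u1_self, u1_ne h12.symm, u1_ne h23]

theorem e3_3 (e : ι → σ → ℕ) {s1 s2 s3 : ι} (h13 : s1 ≠ s3) (h23 : s2 ≠ s3) (x y z : σ) :
    e3 e s1 s2 s3 x y z s3 = e s3 + ep z := by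
  simp [e3, u1_self, u1_ne h13.symm, u1_ne h23.symm]

theorem e3_o (e : ι → σ → ℕ) {s s1 s2 s3 : ι} (h1 : s ≠ s1) (h2 : s ≠ s2) (h3 : s ≠ s3)
    (x y z : σ) : e3 e s1 s2 s3 x y z s = e s := by
  simp [e3, u1_ne h1, u1_ne h2, u1_ne h3]

theorem e3_map (e : ι → σ → ℕ) {s1 s2 s3 : ι} {l : List ι} (h1 : s1 ∉ l) (h2 : s2 ∉ l)
    (h3 : s3 ∉ l) (x y z : σ) : l.map (e3 e s1 s2 s3 x y z) = l.map e := by
  apply List.map_congr_left
  intro s hs
  have a1 : s ≠ s1 := by rintro rfl; exact h1 hs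
  have a2 : s ≠ s2 := by rintro rfl; exact h2 hs
  have a3 : s ≠ s3 := by rintro rfl; exact h3 hs
  exact e3_o e a1 a2 a3 x y z

theorem dl_add (a b : σ → ℕ) : dl (a + b) = dl a + dl b := dg_add a b

theorem dl_ep (k : σ) : dl (ep k) = 1 := dg_ep k

theorem dl_e3 (e : ι → σ → ℕ) (s1 s2 s3 : ι) (x y z x' y' z' : σ) (s : ι) :
    dl (e3 e s1 s2 s3 x y z s) = dl (e3 e s1 s2 s3 x' y' z' s) := by
  have h : ∀ (a : ι) (k k' : σ), dl (u1 a k s) = dl (u1 a k' s) := by
    intro a k k'
    by_cases hs : s = a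
    · subst hs
      rw [u1_self, u1_self, dl_ep, dl_ep]
    · rw [u1_ne hs, u1_ne hs]
  unfold e3
  simp only [Pi.add_apply, dl_add]
  rw [h s1 x x', h s2 y y', h s3 z z']

theorem PP_congr {e e' : ι → σ → ℕ} (h : ∀ s, dl (e s) = dl (e' s)) :
    PP D c ρ e ↔ PP D c ρ e' := by
  unfold PP
  simp only [h]

theorem A3_of {Φ : SF σ ι} {s1 s2 s3 : ι} {e : ι → σ → ℕ} {ε : ℂ} (Ψ : σ → σ → σ → ℂ)
    (h : ∀ x y z, Φ (e3 e s1 s2 s3 x y z) = ε * Ψ x y z) {p q r : σ}
    (h0 : Ψ p q r - Ψ q p r - Ψ p r q - Ψ r q p + Ψ q r p + Ψ r p q = 0) :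
    A3 Φ s1 s2 s3 p q r e = 0 := by
  have h1 : A3 Φ s1 s2 s3 p q r e = Φ (e3 e s1 s2 s3 p q r) - Φ (e3 e s1 s2 s3 q p r)
    - Φ (e3 e s1 s2 s3 p r q) - Φ (e3 e s1 s2 s3 r q p)
    + Φ (e3 e s1 s2 s3 q r p) + Φ (e3 e s1 s2 s3 r p q) := rfl
  rw [h1, h, h, h, h, h, h]
  linear_combination ε * h0

/-- all values are zero -/
theorem A3_zero (h : Ctx D c ρ lF lG lL lA Cs v) {s1 s2 s3 : ι} {e : ι → σ → ℕ} {p q r : σ}
    (he : ¬ PP D c ρ (e3 e s1 s2 s3 p q r)) :
    A3 (hatF D c lF lG lL lA Cs v) s1 s2 s3 p q r e = 0 := by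
  refine A3_of (ε := 0) (fun _ _ _ => 0) (fun x y z => ?_) (by ring)
  rw [zero_mul]
  exact hat_neg h fun h1 => he ((PP_congr (dl_e3 e s1 s2 s3 x y z p q r)).1 h1)

theorem zero_dl {y : σ → ℕ} (h : dl y = 0) : y = 0 := by
  funext i
  exact (Finset.sum_eq_zero_iff.1 h) i (Finset.mem_univ i)

theorem ne_role {s s' : ι} {r r' : Rl} (h : ρ s = r) (h' : ρ s' = r') (hr : r ≠ r') : s ≠ s' := by
  rintro rfl
  exact hr (h.symm.trans h')

theorem FGL (h : Ctx D c ρ lF lG lL lA Cs v)
    (hQ : ∀ A : ℕ → List (σ → ℕ), (∀ i < c, (A i).length = (lA i).length ∧ ok D (A i)) →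
      Q3 D (mE ((List.range c).map (fun i => (Cs i, A i))) v))
    {s1 s2 s3 : ι} (r1 : ρ s1 = Rl.F) (r2 : ρ s2 = Rl.G) (r3 : ρ s3 = Rl.L) (p q r : σ)
    (e : ι → σ → ℕ) : A3 (hatF D c lF lG lL lA Cs v) s1 s2 s3 p q r e = 0 := by
  have h12 : s1 ≠ s2 := ne_role r1 r2 (by simp)
  have h13 : s1 ≠ s3 := ne_role r1 r3 (by simp)
  have h23 : s2 ≠ s3 := ne_role r2 r3 (by simp)
  by_cases he : PP D c ρ (e3 e s1 s2 s3 p q r)
  · have m1 := (h.hF s1).2 r1
    have m2 := (h.hG s2).2 r2
    have m3 := (h.hL s3).2 r3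
    have d1 := he.1 s1 (Or.inl r1)
    have d2 := he.1 s2 (Or.inr r2)
    have d3 := he.2 s3 (Or.inl r3)
    rw [e3_1 e h12 h13, dl_add, dl_ep] at d1
    rw [e3_2 e h12 h23, dl_add, dl_ep] at d2
    rw [e3_3 e h13 h23, dl_add, dl_ep] at d3
    have z1 : e s1 = 0 := zero_dl (by omega)
    have z2 : e s2 = 0 := zero_dl (by omega)
    have nF2 : s2 ∉ lF.erase s1 := fun hm => by
      have := (h.hF s2).1 (List.mem_of_mem_erase hm); rw [r2] at this; simp at this
    have nF3 : s3 ∉ lF.erase s1 := fun hm => by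
      have := (h.hF s3).1 (List.mem_of_mem_erase hm); rw [r3] at this; simp at this
    have nF1 : s1 ∉ lF.erase s1 := fun hm => ((h.nF.mem_erase_iff).1 hm).1 rfl
    have nG1 : s1 ∉ lG.erase s2 := fun hm => by
      have := (h.hG s1).1 (List.mem_of_mem_erase hm); rw [r1] at this; simp at this
    have nG3 : s3 ∉ lG.erase s2 := fun hm => by
      have := (h.hG s3).1 (List.mem_of_mem_erase hm); rw [r3] at this; simp at this
    have nG2 : s2 ∉ lG.erase s2 := fun hm => ((h.nG.mem_erase_iff).1 hm).1 rfl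
    have nL1 : s1 ∉ lL.erase s3 := fun hm => by
      have := (h.hL s1).1 (List.mem_of_mem_erase hm); rw [r1] at this; simp at this
    have nL2 : s2 ∉ lL.erase s3 := fun hm => by
      have := (h.hL s2).1 (List.mem_of_mem_erase hm); rw [r2] at this; simp at this
    have nL3 : s3 ∉ lL.erase s3 := fun hm => ((h.nL.mem_erase_iff).1 hm).1 rfl
    have nA : ∀ i < c, ∀ x y z, (lA i).map (e3 e s1 s2 s3 x y z) = (lA i).map e := by
      intro i hi x y z
      apply e3_map
      · rw [h.hA i hi, r1]; simp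
      · rw [h.hA i hi, r2]; simp
      · rw [h.hA i hi, r3]; simp
    have hu : ∀ x y z, uu c lA Cs v (e3 e s1 s2 s3 x y z) = uu c lA Cs v e := by
      intro x y z
      apply uu_congr h
      intro i hi
      rw [nA i hi]
    obtain ⟨n, hn⟩ := mv1 (σ := σ) m3
    have hQ' : Q3 D (uu c lA Cs v e) := by
      apply hQ (fun i => (lA i).map e)
      intro i hi
      refine ⟨by simp, ?_⟩
      rw [← nA i hi p q r]
      exact okA_of h he hi
    have hls : ok D ((lL.erase s3).map e) := by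
      rw [← e3_map e nL1 nL2 nL3 p q r]
      intro a ha
      obtain ⟨x, hx, rfl⟩ := List.mem_map.1 ha
      exact okL_of h he _ (List.mem_map_of_mem (List.mem_of_mem_erase hx))
    have hys : ∀ y ∈ (lG.erase s2).map e, dg y = 1 := by
      rw [← e3_map e nG1 nG2 nG3 p q r]
      intro a ha
      obtain ⟨x, hx, rfl⟩ := List.mem_map.1 ha
      exact dG_of h he _ (List.mem_map_of_mem (List.mem_of_mem_erase hx))
    have hlen : ((lL.erase s3).map e).length = ((lG.erase s2).map e).length + 1 := by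
      rw [List.length_map, List.length_map, List.length_erase_of_mem m3,
        List.length_erase_of_mem m2, h.hGL]
      have := List.length_pos_of_mem m2
      omega
    refine A3_of (ε := (-1 : ℂ) ^ n) (fun x y z => gE ((e s3 + ep z) :: (lL.erase s3).map e)
      (ep y :: (lG.erase s2).map e) (uu c lA Cs v e) [] (((lF.erase s1).map e).sum + ep x))
      (fun x y z => ?_)
      (rel2_FGL (SS_uu h e) hQ' p q r (l := e s3) (by unfold dl at d3; unfold dg; omega) hls hys
        hlen _ _ (fun _ _ _ => rfl))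
    rw [hat_pos h ((PP_congr (dl_e3 e s1 s2 s3 x y z p q r)).2 he), hu, hn,
      gE_permB (SS_uu h e) (perm_mv m2 _), (perm_mv m1 _).sum_eq, List.sum_cons,
      e3_1 e h12 h13, e3_2 e h12 h23, e3_3 e h13 h23, e3_map e nF1 nF2 nF3, e3_map e nG1 nG2 nG3,
      e3_map e nL1 nL2 nL3, z1, z2, zero_add, zero_add, add_comm (ep x)]
    rfl
  · exact A3_zero h he

theorem FLL (h : Ctx D c ρ lF lG lL lA Cs v)
    (hQ : ∀ A : ℕ → List (σ → ℕ), (∀ i < c, (A i).length = (lA i).length ∧ ok D (A i)) →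
      Q3 D (mE ((List.range c).map (fun i => (Cs i, A i))) v))
    {s1 s2 s3 : ι} (r1 : ρ s1 = Rl.F) (r2 : ρ s2 = Rl.L) (r3 : ρ s3 = Rl.L) (h23 : s2 ≠ s3)
    (p q r : σ) (e : ι → σ → ℕ) : A3 (hatF D c lF lG lL lA Cs v) s1 s2 s3 p q r e = 0 := by
  have h12 : s1 ≠ s2 := ne_role r1 r2 (by simp)
  have h13 : s1 ≠ s3 := ne_role r1 r3 (by simp)
  by_cases he : PP D c ρ (e3 e s1 s2 s3 p q r)
  · have m1 := (h.hF s1).2 r1
    have m2 := (h.hL s2).2 r2
    have m3 := (h.hL s3).2 r3
    have d1 := he.1 s1 (Or.inl r1)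
    have d2 := he.2 s2 (Or.inl r2)
    have d3 := he.2 s3 (Or.inl r3)
    rw [e3_1 e h12 h13, dl_add, dl_ep] at d1
    rw [e3_2 e h12 h23, dl_add, dl_ep] at d2
    rw [e3_3 e h13 h23, dl_add, dl_ep] at d3
    have z1 : e s1 = 0 := zero_dl (by omega)
    have nF2 : s2 ∉ lF.erase s1 := fun hm => by
      have := (h.hF s2).1 (List.mem_of_mem_erase hm); rw [r2] at this; simp at this
    have nF3 : s3 ∉ lF.erase s1 := fun hm => by
      have := (h.hF s3).1 (List.mem_of_mem_erase hm); rw [r3] at this; simp at this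
    have nF1 : s1 ∉ lF.erase s1 := fun hm => ((h.nF.mem_erase_iff).1 hm).1 rfl
    have nG1 : s1 ∉ lG := fun hm => by
      have := (h.hG s1).1 hm; rw [r1] at this; simp at this
    have nG2 : s2 ∉ lG := fun hm => by
      have := (h.hG s2).1 hm; rw [r2] at this; simp at this
    have nG3 : s3 ∉ lG := fun hm => by
      have := (h.hG s3).1 hm; rw [r3] at this; simp at this
    have nL1 : s1 ∉ (lL.erase s2).erase s3 := fun hm => by
      have := (h.hL s1).1 (List.mem_of_mem_erase (List.mem_of_mem_erase hm))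
      rw [r1] at this; simp at this
    have nL2 : s2 ∉ (lL.erase s2).erase s3 := fun hm =>
      ((h.nL.mem_erase_iff).1 (List.mem_of_mem_erase hm)).1 rfl
    have nL3 : s3 ∉ (lL.erase s2).erase s3 := fun hm =>
      (((h.nL.erase s2).mem_erase_iff).1 hm).1 rfl
    have nA : ∀ i < c, ∀ x y z, (lA i).map (e3 e s1 s2 s3 x y z) = (lA i).map e := by
      intro i hi x y z
      apply e3_map
      · rw [h.hA i hi, r1]; simp
      · rw [h.hA i hi, r2]; simp
      · rw [h.hA i hi, r3]; simp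
    have hu : ∀ x y z, uu c lA Cs v (e3 e s1 s2 s3 x y z) = uu c lA Cs v e := by
      intro x y z
      apply uu_congr h
      intro i hi
      rw [nA i hi]
    obtain ⟨n, hn⟩ := mv2 (σ := σ) m2 m3 h23
    have hQ' : Q3 D (uu c lA Cs v e) := by
      apply hQ (fun i => (lA i).map e)
      intro i hi
      refine ⟨by simp, ?_⟩
      rw [← nA i hi p q r]
      exact okA_of h he hi
    have hls : ok D (((lL.erase s2).erase s3).map e) := by
      rw [← e3_map e nL1 nL2 nL3 p q r]
      intro a ha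
      obtain ⟨x, hx, rfl⟩ := List.mem_map.1 ha
      exact okL_of h he _
        (List.mem_map_of_mem (List.mem_of_mem_erase (List.mem_of_mem_erase hx)))
    have hys : ∀ y ∈ lG.map e, dg y = 1 := by
      rw [← e3_map e nG1 nG2 nG3 p q r]
      exact dG_of h he
    have m3' : s3 ∈ lL.erase s2 := (List.mem_erase_of_ne h23.symm).2 m3
    have hlen : (((lL.erase s2).erase s3).map e).length + 1 = (lG.map e).length := by
      rw [List.length_map, List.length_map, List.length_erase_of_mem m3']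
      have h5 := List.length_pos_of_mem m3'
      have h6 := List.length_erase_of_mem m2
      have h7 := h.hGL
      omega
    refine A3_of (ε := (-1 : ℂ) ^ n) (fun x y z => gE ((e s2 + ep y) :: (e s3 + ep z) ::
        ((lL.erase s2).erase s3).map e)
      (lG.map e) (uu c lA Cs v e) [] (((lF.erase s1).map e).sum + ep x))
      (fun x y z => ?_)
      (rel2_FLL (SS_uu h e) hQ' p q r (l := e s2) (l' := e s3)
        (by unfold dl at d2; unfold dg; omega) (by unfold dl at d3; unfold dg; omega) hls hys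
        hlen _ _ (fun _ _ _ => rfl))
    rw [hat_pos h ((PP_congr (dl_e3 e s1 s2 s3 x y z p q r)).2 he), hu, hn,
      (perm_mv m1 _).sum_eq, List.sum_cons,
      e3_1 e h12 h13, e3_2 e h12 h23, e3_3 e h13 h23, e3_map e nF1 nF2 nF3, e3_map e nG1 nG2 nG3,
      e3_map e nL1 nL2 nL3, z1, zero_add, add_comm (ep x)]
    rfl
  · exact A3_zero h he

/-- the relation of three slots -/
def Tr (Φ : SF σ ι) (s1 s2 s3 : ι) : Prop := ∀ k1 k2 k3 e, A3 Φ s1 s2 s3 k1 k2 k3 e = 0

theorem Tr.p12 {Φ : SF σ ι} {a b d : ι} (h : Tr Φ a b d) : Tr Φ b a d :=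
  fun k1 k2 k3 e => by rw [A3_12, h, neg_zero]

theorem Tr.p23 {Φ : SF σ ι} {a b d : ι} (h : Tr Φ a b d) : Tr Φ a d b :=
  fun k1 k2 k3 e => by rw [A3_23, h, neg_zero]

theorem tri (h : Ctx D c ρ lF lG lL lA Cs v) (hF0 : lF ≠ [])
    (hQ : ∀ A : ℕ → List (σ → ℕ), (∀ i < c, (A i).length = (lA i).length ∧ ok D (A i)) →
      Q3 D (mE ((List.range c).map (fun i => (Cs i, A i))) v))
    {s1 s2 s3 : ι} (h12 : s1 ≠ s2) (h13 : s1 ≠ s3) (h23 : s2 ≠ s3) (b1 : isB (ρ s1))
    (b2 : isB (ρ s2)) (b3 : isB (ρ s3)) : Tr (hatF D c lF lG lL lA Cs v) s1 s2 s3 := by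
  have deg1 : ∀ e, hatF D c lF lG lL lA Cs v e ≠ 0 → ∀ s, ρ s = Rl.F ∨ ρ s = Rl.G →
      dl (e s) = 1 := by
    intro e he s hs
    by_contra hn
    exact he (hat_neg h fun h1 => hn (h1.1 s hs))
  have sym : ∀ {s s' x : ι}, s ≠ s' → s ≠ x → s' ≠ x → ρ s = ρ s' → ρ s = Rl.F ∨ ρ s = Rl.G →
      Tr (hatF D c lF lG lL lA Cs v) s s' x := by
    intro s s' x hss hx hx' hr hs k1 k2 k3 e
    refine A3_sym hss hx.symm hx'.symm (fun e he => ⟨deg1 e he s hs, deg1 e he s' (hr ▸ hs)⟩)
      (fun e => same_role h hr ?_ e) k1 k2 k3 e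
    rcases hs with hs | hs <;> rw [hs] <;> simp
  have TF : ∀ {s0 a b : ι}, s0 ≠ a → s0 ≠ b → a ≠ b → ρ s0 = Rl.F → isB (ρ a) → isB (ρ b) →
      Tr (hatF D c lF lG lL lA Cs v) s0 a b := by
    intro s0 a b h0a h0b hab r0 ra rb
    rcases ra with ra | ra | ra
    · exact sym h0a h0b hab (r0.trans ra.symm) (Or.inl r0)
    · rcases rb with rb | rb | rb
      · exact (sym h0b h0a hab.symm (r0.trans rb.symm) (Or.inl r0)).p23
      · exact (sym hab h0a.symm h0b.symm (ra.trans rb.symm) (Or.inr ra)).p23.p12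
      · exact FGL h hQ r0 ra rb
    · rcases rb with rb | rb | rb
      · exact (sym h0b h0a hab.symm (r0.trans rb.symm) (Or.inl r0)).p23
      · exact Tr.p23 (FGL h hQ r0 rb ra)
      · exact FLL h hQ r0 ra rb hab
  by_cases c1 : ρ s1 = Rl.F
  · exact TF h12 h13 h23 c1 b2 b3
  by_cases c2 : ρ s2 = Rl.F
  · exact (TF h12.symm h23 h13 c2 b1 b3).p12
  by_cases c3 : ρ s3 = Rl.F
  · exact (TF h13.symm h23.symm h12 c3 b1 b2).p12.p23
  obtain ⟨s0, hs0⟩ := List.exists_mem_of_ne_nil lF hF0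
  have c0 := (h.hF s0).1 hs0
  have h01 : s0 ≠ s1 := fun h1 => c1 (h1 ▸ c0)
  have h02 : s0 ≠ s2 := fun h1 => c2 (h1 ▸ c0)
  have h03 : s0 ≠ s3 := fun h1 => c3 (h1 ▸ c0)
  intro k1 k2 k3 e
  by_cases hd : dl (e s0) = 1
  · obtain ⟨k0, hk0⟩ := one_dg hd
    have h4 : e = Function.update e s0 0 + u1 s0 k0 := by
      funext s
      by_cases hs : s = s0
      · subst hs
        rw [Pi.add_apply, u1_self, Function.update_self, zero_add, hk0]
      · rw [Pi.add_apply, u1_ne hs, Function.update_of_ne hs, add_zero]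
    rw [h4]
    exact four (TF h01 h02 h12 c0 b1 b2) (TF h01 h03 h13 c0 b1 b3) (TF h02 h03 h23 c0 b2 b3)
      k0 k1 k2 k3 _
  · apply A3_zero h
    intro h1
    apply hd
    have h2 := h1.1 s0 (Or.inl c0)
    rwa [e3_o e h01 h02 h03] at h2

end T13X

open T13X

theorem hatCls {ι : Type} [Fintype ι] [DecidableEq ι] {D c : ℕ} {ρ : ι → Rl}
    {lF lG lL : List ι} {lA : ℕ → List ι} {Cs : ℕ → List σ} {v : Fn σ}
    (nF : lF.Nodup) (nG : lG.Nodup) (nL : lL.Nodup) (nA : ∀ i < c, (lA i).Nodup)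
    (hF : ∀ s, s ∈ lF ↔ ρ s = Rl.F) (hG : ∀ s, s ∈ lG ↔ ρ s = Rl.G)
    (hL : ∀ s, s ∈ lL ↔ ρ s = Rl.L) (hA : ∀ i < c, ∀ s, s ∈ lA i ↔ ρ s = Rl.gr i)
    (hF0 : lF ≠ []) (hGL : lL.length = lG.length + 1)
    (hC : ∀ i < c, (Cs i).length = (lA i).length + 1) (hv : SS v) (dv : dW D v = 0)
    (hQ : ∀ A : ℕ → List (σ → ℕ), (∀ i < c, (A i).length = (lA i).length ∧ ok D (A i)) →
      Q3 D (mE ((List.range c).map (fun i => (Cs i, A i))) v))
    (hB : ∀ i < c, ∀ (y : σ) (A : ℕ → List (σ → ℕ)),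
      (∀ k < c, (A k).length = (lA k).length + (if k = i then 1 else 0) ∧ ok D (A k)) →
      Cb D (mE ((List.range c).map (fun k => (if k = i then y :: Cs k else Cs k, A k))) v)) :
    Cls (D - 1) ρ (Finset.range c) (hatF D c lF lG lL lA Cs v) := by
  have h : Ctx D c ρ lF lG lL lA Cs v := ⟨nF, nG, nL, nA, hF, hG, hL, hA, hGL, hC, hv, dv⟩
  refine ⟨⟨?_, ?_, ?_⟩, ?_, ?_, ?_, ?_, ?_, ?_⟩
  · intro i _ s s' hs hs' e
    exact same_role h (hs.trans hs'.symm) (by rw [hs]; simp) e
  · intro s s' hss hs hs' e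
    exact alt h hss hs hs' e
  · intro i hi s hs e
    exact ex h hB (Finset.mem_range.1 hi) hs e
  · intro e he s hs
    by_contra hn
    exact he (hat_neg h fun h1 => hn (h1.1 s hs))
  · intro e he s hs
    by_contra hn
    exact he (hat_neg h fun h1 => hn (by have := h1.2 s hs; omega))
  · intro s s' hs hs' e
    exact same_role h (hs.trans hs'.symm) (by rw [hs]; simp) e
  · intro s s' hs hs' e
    exact same_role h (hs.trans hs'.symm) (by rw [hs]; simp) e
  · intro s1 s2 s3 h12 h13 h23 b1 b2 b3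
    exact tri h hF0 hQ h12 h13 h23 b1 b2 b3
  · intro s hs e
    exact fg h hs e

end Pool.Agent.H69.VT
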