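import Pool.Agent.H69.VT.TDefs

/-!
Polarizations and the operators `gE`.
-/

set_option linter.unusedSectionVars false

namespace Pool.Agent.H69.VT

open scoped BigOperators
open Pool.Agent.H69.VS

variable {σ : Type} [Fintype σ] [DecidableEq σ]

namespace T3X

section suL
variable {α M : Type} [AddCommGroup M]

theorem su_add (f g : α → List α → M) (A : List α) :
    su (fun a R => f a R + g a R) A = su f A + su g A := by
  induction A generalizing f g with
  | nil => simp [su]
  | cons u C ih =>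
    simp only [su]
    rw [ih (fun v R => f v (u :: R)) (fun v R => g v (u :: R))]
    abel

theorem su_smul [Module ℂ M] (c : ℂ) (f : α → List α → M) (A : List α) :
    su (fun a R => c • f a R) A = c • su f A := by
  induction A generalizing f with
  | nil => simp [su]
  | cons u C ih =>
    simp only [su]
    rw [ih (fun v R => f v (u :: R)), smul_sub]

theorem su_zero (A : List α) : su (fun (_ : α) (_ : List α) => (0 : M)) A = 0 := by
  induction A with
  | nil => simp [su]
  | cons u C ih =>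
    simp only [su]
    rw [ih, sub_zero]

theorem su_map {N : Type} [AddCommGroup N] (φ : M → N) (h0 : φ 0 = 0)
    (hs : ∀ x y, φ (x - y) = φ x - φ y) (f : α → List α → M) (A : List α) :
    φ (su f A) = su (fun a R => φ (f a R)) A := by
  induction A generalizing f with
  | nil => simp [su, h0]
  | cons u C ih =>
    simp only [su]
    rw [hs, ih (fun v R => f v (u :: R))]

end suL

section dLL
variable {M : Type} [AddCommGroup M] [Module ℂ M] (j k : σ)

theorem dL_add (f g : List (σ → ℕ) → M) (A : List (σ → ℕ)) :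
    dL j k (fun R => f R + g R) A = dL j k f A + dL j k g A := by
  induction A generalizing f g with
  | nil => simp [dL]
  | cons a A ih =>
    simp only [dL]
    rw [ih (fun R => f (a :: R)) (fun R => g (a :: R)), smul_add]
    abel

theorem dL_smul (c : ℂ) (f : List (σ → ℕ) → M) (A : List (σ → ℕ)) :
    dL j k (fun R => c • f R) A = c • dL j k f A := by
  induction A generalizing f with
  | nil => simp [dL]
  | cons a A ih =>
    simp only [dL]
    rw [ih (fun R => f (a :: R)), smul_add, smul_comm]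

theorem dL_sub (f g : List (σ → ℕ) → M) (A : List (σ → ℕ)) :
    dL j k (fun R => f R - g R) A = dL j k f A - dL j k g A := by
  have h1 : (fun R => f R - g R) = fun R => f R + (-1 : ℂ) • g R := by
    funext R; rw [neg_one_smul, sub_eq_add_neg]
  rw [h1, dL_add, dL_smul, neg_one_smul, ← sub_eq_add_neg]

theorem dL_zero (A : List (σ → ℕ)) : dL j k (fun _ => (0 : M)) A = 0 := by
  induction A with
  | nil => simp [dL]
  | cons a A ih =>
    simp only [dL]
    rw [ih, smul_zero, add_zero]

theorem dL_su (g : (σ → ℕ) → List (σ → ℕ) → M) (A : List (σ → ℕ)) :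
    su (fun a R => dL j k (g a) R) A +
      su (fun a R => (a j : ℂ) • g (a - ep j + ep k) R) A = dL j k (fun A => su g A) A := by
  induction A generalizing g with
  | nil => simp [su, dL]
  | cons u C ih =>
    simp only [su, dL]
    have ih' := ih (fun v S => g v (u :: S))
    rw [dL_sub j k (fun R => g u R) (fun R => su (fun v S => g v (u :: S)) R) C, ← ih',
      su_add (fun v R => (u j : ℂ) • g v ((u - ep j + ep k) :: R))
        (fun v R => dL j k (fun S => g v (u :: S)) R) C,
      su_smul (u j : ℂ) (fun v R => g v ((u - ep j + ep k) :: R)) C, smul_sub]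
    abel

theorem su_dL {α : Type} (h : α → List α → List (σ → ℕ) → M) (A : List α)
    (B : List (σ → ℕ)) :
    su (fun a R => dL j k (fun S => h a R S) B) A =
      dL j k (fun S => su (fun a R => h a R S) A) B := by
  induction B generalizing h with
  | nil =>
    simp only [dL]
    exact su_zero A
  | cons b B ih =>
    simp only [dL]
    rw [su_add (fun a R => (b j : ℂ) • h a R ((b - ep j + ep k) :: B))
      (fun a R => dL j k (fun S => h a R (b :: S)) B) A,
      su_smul (b j : ℂ) (fun a R => h a R ((b - ep j + ep k) :: B)) A,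
      ih (fun a R S => h a R (b :: S))]

/-- closure -/
theorem dL_mem {P : M → Prop} (h0 : P 0) (ha : ∀ x y, P x → P y → P (x + y))
    (hs : ∀ (c : ℂ) x, P x → P (c • x)) (A : List (σ → ℕ)) (f : List (σ → ℕ) → M)
    (h : ∀ (U V : List (σ → ℕ)) (a : σ → ℕ), A = U ++ a :: V → a j ≠ 0 →
      P (f (U ++ (a - ep j + ep k) :: V))) : P (dL j k f A) := by
  induction A generalizing f with
  | nil => exact h0
  | cons a A ih =>
    simp only [dL]
    refine ha _ _ ?_ ?_
    · by_cases h1 : a j = 0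
      · rw [h1, Nat.cast_zero, zero_smul]; exact h0
      · exact hs _ _ (h [] A a rfl h1)
    · refine ih _ ?_
      intro U V b hb hbj
      exact h (a :: U) V b (by rw [hb]; rfl) hbj

end dLL

theorem gN_sub (As : List (σ → ℕ)) (F G : Fn σ) : gN As (F - G) = gN As F - gN As G := by
  rcases As with _ | ⟨a, _ | ⟨b, As⟩⟩
  · rfl
  · rfl
  · simp [gN]

theorem gN_add (As : List (σ → ℕ)) (F G : Fn σ) : gN As (F + G) = gN As F + gN As G := by
  rcases As with _ | ⟨a, _ | ⟨b, As⟩⟩
  · rfl
  · rfl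
  · simp [gN]

theorem gN_smul (As : List (σ → ℕ)) (c : ℂ) (F : Fn σ) : gN As (c • F) = c • gN As F := by
  rcases As with _ | ⟨a, _ | ⟨b, As⟩⟩
  · rfl
  · rfl
  · simp [gN]

theorem gE_add (As Bs : List (σ → ℕ)) (F G : Fn σ) :
    gE As Bs (F + G) = gE As Bs F + gE As Bs G := by
  induction Bs generalizing As F G with
  | nil => simp only [gE]; exact gN_add As F G
  | cons b Bs ih =>
    simp only [gE]
    rw [← su_add]
    congr 1
    funext a R
    rw [Af_add, ih]

theorem gE_smul (As Bs : List (σ → ℕ)) (c : ℂ) (F : Fn σ) :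
    gE As Bs (c • F) = c • gE As Bs F := by
  induction Bs generalizing As F with
  | nil => simp only [gE]; exact gN_smul As c F
  | cons b Bs ih =>
    simp only [gE]
    rw [← su_smul]
    congr 1
    funext a R
    rw [Af_smul, ih]

theorem Re_add (j k : σ) (F G : Fn σ) : Re j k (F + G) = Re j k F + Re j k G := by
  simp only [Re, rW_add', sg_add, ta_add]; abel

theorem Re_smul (j k : σ) (c : ℂ) (F : Fn σ) : Re j k (c • F) = c • Re j k F := by
  simp only [Re, rW_smul', sg_smul, ta_smul, smul_add]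

theorem Re_zero (j k : σ) : Re j k (0 : Fn σ) = 0 := by
  have := Re_smul j k 0 (0 : Fn σ)
  simpa using this

theorem Re_sub (j k : σ) (F G : Fn σ) : Re j k (F - G) = Re j k F - Re j k G := by
  have h1 : F - G = F + (-1 : ℂ) • G := by rw [neg_one_smul, sub_eq_add_neg]
  rw [h1, Re_add, Re_smul, neg_one_smul, ← sub_eq_add_neg]

theorem sg_sg (a b : σ → ℕ) (F : Fn σ) : sg a (sg b F) = sg (a + b) F := by
  funext w f; simp only [sg]; congr 1; abel

theorem sg_Re (j k : σ) (e : σ → ℕ) (F : Fn σ) :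
    sg e (Re j k F) = Re j k (sg e F) + (e j : ℂ) • sg (e - ep j + ep k) F := by
  have h1 := sg_ta j (sg (ep k) F) e
  rw [sg_sg, sg_sg] at h1
  have h2 : sg e (Re j k F) = sg e (rW j k F) + sg e (ta j (sg (ep k) F)) := rfl
  rw [h2, sub_eq_iff_eq_add.mp h1, ← rW_sg]
  simp only [Re, sg_sg]
  rw [add_comm (ep k) e]
  abel

theorem dg_rep {j k : σ} {e : σ → ℕ} (h : e j ≠ 0) : dg (e - ep j + ep k) = dg e := by
  rw [dg_add, dg_ep, dg_sub e j h]

theorem AE_Re (j k : σ) (e : σ → ℕ) (F : Fn σ) :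
    Af (Lt.E e) (Re j k F) = (e j : ℂ) • Af (Lt.E (e - ep j + ep k)) F +
      Re j k (Af (Lt.E e) F) := by
  simp only [Re, Af_add, AE_rW, Af_ta, Af_sg]
  abel

theorem AT_Re (j k : σ) (y : σ → ℕ) (F : Fn σ) :
    Af (Lt.T y) (Re j k F) = (((y + ep k) j : ℕ) : ℂ) • Af (Lt.T (y + ep k - ep j)) F +
      Re j k (Af (Lt.T y) F) := by
  simp only [Re, Af_add, AT_rW, Af_ta, Af_sg]
  abel

theorem cE_rep (D : ℕ) (j k : σ) (e : σ → ℕ) :
    (e j : ℂ) * cE D (e - ep j + ep k) = (e j : ℂ) * cE D e := by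
  by_cases h : e j = 0
  · simp [h]
  · unfold cE; rw [dg_rep h]

theorem Cb_add {D : ℕ} {F G : Fn σ} (h : Cb D F) (h' : Cb D G) : Cb D (F + G) := by
  obtain ⟨A, hA, eA⟩ := h
  obtain ⟨B, hB, eB⟩ := h'
  exact ⟨A + B, hA.add hB, by rw [dW_add', eA, eB]⟩

theorem Cb_smul {D : ℕ} {F : Fn σ} (h : Cb D F) (c : ℂ) : Cb D (c • F) := by
  obtain ⟨A, hA, eA⟩ := h
  exact ⟨c • A, hA.smul c, by rw [dW_smul', eA]⟩

theorem Cb_zero (D : ℕ) : Cb D (0 : Fn σ) := ⟨0, SS.zero, dW_zero' D⟩

theorem rW_split (j k : σ) (F : Fn σ) : rW j k F = qW j (pW k F) + pW k (qW j F) :=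
  (qW_pW k j F).symm

theorem ep_rep (j k : σ) : (ep j - ep j + ep k : σ → ℕ) = ep k := by
  simp

theorem ep_ne {p j : σ} (h : p ≠ j) : (ep p : σ → ℕ) j = 0 := by
  simp [ep, h.symm]

end T3X

open T3X

theorem Re_SS {F : Fn σ} (h : SS F) (j k : σ) : SS (Re j k F) := by
  unfold Re
  rw [rW_split]
  exact (((h.pW k).qW j).add ((h.qW j).pW k)).add ((h.sg _).ta j)

theorem Re_dW {D : ℕ} {j k : σ} (hjk : j ≠ k) (F : Fn σ) :
    dW D (Re j k F) = Re j k (dW D F) := by
  rw [← sub_eq_zero]
  refine rec_zero (fun F => dW D (Re j k F) - Re j k (dW D F)) ?_ ?_ F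
  · intro F f
    simp [Re, ta, sg]
  · intro F x
    cases x with
    | T y =>
      refine ⟨1, ?_⟩
      simp only [Af_sub, AT_dW, AT_Re, dW_add', dW_smul']
      module
    | E e =>
      refine ⟨-1, ?_⟩
      simp only [Af_sub, AE_dW, AE_Re, dW_add', dW_smul', Re_sub, Re_smul, sg_Re, smul_add,
        smul_sub, smul_smul]
      rw [cE_rep D j k e, mul_comm (cE D e) (e j : ℂ)]
      module

theorem Re_Sp {D t : ℕ} {μ : σ → ℕ} {j k : σ} (hjk : j ≠ k) {F : Fn σ}
    (h : Sp D 0 0 t 0 (μ + ep k) F) : Sp D 0 0 t 0 (μ + ep j) (Re j k F) := by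
  unfold Re
  rw [rW_split, h.qW_zero, pW_zero', add_zero]
  exact ((h.pW k).qW j).add ((h.sgG k).taG j)

theorem Re_Ev {D t : ℕ} {μ : σ → ℕ} {j k : σ} (hjk : j ≠ k) {u : Fn σ}
    (h : Ev D t (μ + ep k) u) : Ev D t (μ + ep j) (Re j k u) := by
  obtain ⟨h1, h2, h3⟩ := h
  exact ⟨Re_SS h1 j k, Re_Sp hjk h2, by rw [Re_dW hjk, h3, Re_zero]⟩

theorem Re_Cb {D : ℕ} {j k : σ} (hjk : j ≠ k) {u : Fn σ} (h : Cb D u) :
    Cb D (Re j k u) := by
  obtain ⟨F, hF, e⟩ := h
  exact ⟨Re j k F, Re_SS hF j k, by rw [Re_dW hjk, e]⟩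

/-- relation to the operators on pairs -/
theorem Re_QP {D t : ℕ} {μ : σ → ℕ} {j k : σ} (hjk : j ≠ k) {F : Fn σ} (hF : SS F)
    (h : Sp D 0 0 t 0 (μ + ep k) F) :
    (Qm j (Pp k ((F, 0) : Pr σ))).1 = Re j k F := by
  simp only [Qm, Pp, Re]
  rw [rW_split, h.qW_zero, pW_zero', add_zero, sub_zero]

/-- derivation rule -/
theorem gE_Re {j k : σ} (hjk : j ≠ k) (As Bs : List (σ → ℕ)) (F : Fn σ) :
    gE As Bs (Re j k F) = Re j k (gE As Bs F) + dL j k (fun A => gE A Bs F) As +
      dL j k (fun B => gE As B F) Bs := by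
  induction Bs generalizing As F with
  | nil =>
    rcases As with _ | ⟨a, _ | ⟨b, As⟩⟩
    · simp [gE, gN, dL]
    · simp only [gE, gN, dL, add_zero]
      exact sg_Re j k a F
    · simp only [gE, gN, dL, add_zero, smul_zero, zero_add, Re_zero]
      exact (dL_zero j k As).symm
  | cons b Bs ih =>
    have key : ∀ a : σ → ℕ, (((a + b) j : ℕ) : ℂ) • Af (Lt.E (a + b - ep j + ep k)) F =
        (a j : ℂ) • Af (Lt.E (a - ep j + ep k + b)) F +
          (b j : ℂ) • Af (Lt.E (a + (b - ep j + ep k))) F := by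
      intro a
      have e1 : (a j : ℂ) • Af (Lt.E (a - ep j + ep k + b)) F =
          (a j : ℂ) • Af (Lt.E (a + b - ep j + ep k)) F := by
        by_cases h : a j = 0
        · simp [h]
        · congr 3
          funext z
          simp only [Pi.add_apply, Pi.sub_apply, ep, Pi.single_apply]
          split_ifs <;> subst_vars <;> omega
      have e2 : (b j : ℂ) • Af (Lt.E (a + (b - ep j + ep k))) F =
          (b j : ℂ) • Af (Lt.E (a + b - ep j + ep k)) F := by
        by_cases h : b j = 0
        · simp [h]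
        · congr 3
          funext z
          simp only [Pi.add_apply, Pi.sub_apply, ep, Pi.single_apply]
          split_ifs <;> subst_vars <;> omega
      rw [e1, e2, ← add_smul, Pi.add_apply, Nat.cast_add]
    have step : ∀ (a : σ → ℕ) (R : List (σ → ℕ)),
        gE R Bs (Af (Lt.E (a + b)) (Re j k F)) =
          (Re j k (gE R Bs (Af (Lt.E (a + b)) F)) +
            (dL j k (fun A => gE A Bs (Af (Lt.E (a + b)) F)) R +
              (a j : ℂ) • gE R Bs (Af (Lt.E (a - ep j + ep k + b)) F))) +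
          ((b j : ℂ) • gE R Bs (Af (Lt.E (a + (b - ep j + ep k))) F) +
            dL j k (fun B => gE R B (Af (Lt.E (a + b)) F)) Bs) := by
      intro a R
      rw [AE_Re, key a, gE_add, gE_add, gE_smul, gE_smul, ih]
      abel
    have hL : gE As (b :: Bs) (Re j k F) =
        su (fun a R => gE R Bs (Af (Lt.E (a + b)) (Re j k F))) As := by rw [gE]
    rw [hL]
    have hf : (fun (a : σ → ℕ) (R : List (σ → ℕ)) =>
        gE R Bs (Af (Lt.E (a + b)) (Re j k F))) = fun a R =>
          (Re j k (gE R Bs (Af (Lt.E (a + b)) F)) +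
            (dL j k (fun A => gE A Bs (Af (Lt.E (a + b)) F)) R +
              (a j : ℂ) • gE R Bs (Af (Lt.E (a - ep j + ep k + b)) F))) +
          ((b j : ℂ) • gE R Bs (Af (Lt.E (a + (b - ep j + ep k))) F) +
            dL j k (fun B => gE R B (Af (Lt.E (a + b)) F)) Bs) := by
      funext a R; exact step a R
    rw [hf, su_add, su_add, su_add, su_add]
    have h1 : su (fun (a : σ → ℕ) (R : List (σ → ℕ)) =>
        Re j k (gE R Bs (Af (Lt.E (a + b)) F))) As = Re j k (gE As (b :: Bs) F) := by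
      rw [gE]
      exact (su_map (Re j k) (Re_zero j k) (Re_sub j k) _ As).symm
    have h2 := dL_su j k (fun (a : σ → ℕ) (R : List (σ → ℕ)) =>
      gE R Bs (Af (Lt.E (a + b)) F)) As
    have h3 : su (fun (a : σ → ℕ) (R : List (σ → ℕ)) =>
        (b j : ℂ) • gE R Bs (Af (Lt.E (a + (b - ep j + ep k))) F)) As =
        (b j : ℂ) • gE As ((b - ep j + ep k) :: Bs) F := by
      rw [su_smul, gE]
    have h4 := su_dL j k (fun (a : σ → ℕ) (R : List (σ → ℕ)) (S : List (σ → ℕ)) =>
      gE R S (Af (Lt.E (a + b)) F)) As Bs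
    rw [h1, h2, h3, h4]
    simp only [dL, gE]

theorem Q3_Re {D : ℕ} {j k : σ} (hjk : j ≠ k) {u : Fn σ} (hu : Q3 D u) :
    Q3 D (Re j k u) := by
  intro p q r a a' ha ha'
  rw [gE_Re hjk]
  refine Cb_add (Cb_add (Re_Cb hjk (hu p q r a a' ha ha')) ?_) ?_
  · simp only [dL, add_zero]
    refine Cb_add ?_ (Cb_add ?_ ?_)
    · by_cases h : p = j
      · subst h; rw [ep_rep]; exact Cb_smul (hu k q r a a' ha ha') _
      · rw [ep_ne h, Nat.cast_zero, zero_smul]; exact Cb_zero D
    · by_cases h : q = j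
      · subst h; rw [ep_rep]; exact Cb_smul (hu p k r a a' ha ha') _
      · rw [ep_ne h, Nat.cast_zero, zero_smul]; exact Cb_zero D
    · by_cases h : r = j
      · subst h; rw [ep_rep]; exact Cb_smul (hu p q k a a' ha ha') _
      · rw [ep_ne h, Nat.cast_zero, zero_smul]; exact Cb_zero D
  · simp only [dL, add_zero]
    refine Cb_add ?_ ?_
    · by_cases h : a j = 0
      · rw [h, Nat.cast_zero, zero_smul]; exact Cb_zero D
      · exact Cb_smul (hu p q r _ a' (by rw [dg_rep h]; exact ha) ha') _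
    · by_cases h : a' j = 0
      · rw [h, Nat.cast_zero, zero_smul]; exact Cb_zero D
      · exact Cb_smul (hu p q r a _ ha (by rw [dg_rep h]; exact ha')) _

theorem Hz_Re {D : ℕ} {j k : σ} (hjk : j ≠ k) {u : Fn σ} (hu : Hz D u) :
    Hz D (Re j k u) := by
  intro f ys ls hl hy hls
  rw [gE_Re hjk]
  have h1 : Re j k (gE ls ys u) [] f = 0 := by
    simp only [Re, Pi.add_apply, rW_nil, ta, sg, zero_add]
    rw [hu _ ys ls hl hy hls, mul_zero]
  have h2 : dL j k (fun A => gE A ys u) ls [] f = 0 := by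
    refine dL_mem j k (P := fun G : Fn σ => G [] f = 0) rfl ?_ ?_ ls _ ?_
    · intro x y hx hy'
      simp only [Pi.add_apply, hx, hy', add_zero]
    · intro c x hx
      simp only [Pi.smul_apply, smul_eq_mul, hx, mul_zero]
    · intro U V a hA haj
      refine hu f ys _ ?_ hy ?_
      · rw [← hl, hA]; simp
      · intro b hb
        simp only [List.mem_append, List.mem_cons] at hb
        rcases hb with hb | hb | hb
        · exact hls b (by rw [hA]; simp [hb])
        · rw [hb, dg_rep haj]; exact hls a (by rw [hA]; simp)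
        · exact hls b (by rw [hA]; simp [hb])
  have h3 : dL j k (fun B => gE ls B u) ys [] f = 0 := by
    refine dL_mem j k (P := fun G : Fn σ => G [] f = 0) rfl ?_ ?_ ys _ ?_
    · intro x y hx hy'
      simp only [Pi.add_apply, hx, hy', add_zero]
    · intro c x hx
      simp only [Pi.smul_apply, smul_eq_mul, hx, mul_zero]
    · intro U V a hA haj
      refine hu f _ ls ?_ ?_ hls
      · rw [hl, hA]; simp
      · intro b hb
        simp only [List.mem_append, List.mem_cons] at hb
        rcases hb with hb | hb | hb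
        · exact hy b (by rw [hA]; simp [hb])
        · rw [hb, dg_rep haj]; exact hy a (by rw [hA]; simp)
        · exact hy b (by rw [hA]; simp [hb])
  simp only [Pi.add_apply]
  rw [h1, h2, h3]
  simp

/-- two-column contractions -/
theorem Q2_Re {D : ℕ} {j k : σ} (hjk : j ≠ k) {u : Fn σ}
    (hu : ∀ (x y : σ) (l : σ → ℕ), dg l + 1 = D → Cb D (gE [ep x, ep y] [l] u)) :
    ∀ (x y : σ) (l : σ → ℕ), dg l + 1 = D → Cb D (gE [ep x, ep y] [l] (Re j k u)) := by
  intro p q a ha
  rw [gE_Re hjk]
  refine Cb_add (Cb_add (Re_Cb hjk (hu p q a ha)) ?_) ?_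
  · simp only [dL, add_zero]
    refine Cb_add ?_ ?_
    · by_cases h : p = j
      · subst h; rw [ep_rep]; exact Cb_smul (hu k q a ha) _
      · rw [ep_ne h, Nat.cast_zero, zero_smul]; exact Cb_zero D
    · by_cases h : q = j
      · subst h; rw [ep_rep]; exact Cb_smul (hu p k a ha) _
      · rw [ep_ne h, Nat.cast_zero, zero_smul]; exact Cb_zero D
  · simp only [dL, add_zero]
    by_cases h : a j = 0
    · rw [h, Nat.cast_zero, zero_smul]; exact Cb_zero D
    · exact Cb_smul (hu p q _ (by rw [dg_rep h]; exact ha)) _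

end Pool.Agent.H69.VT
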