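import Pool.Agent.H69.VT.TDefs

/-!
The row test for a class of functions (variant of `claimA`, `claimB`, `Van_ind`).
-/

set_option linter.unusedSectionVars false

namespace Pool.Agent.H69.VT

open scoped BigOperators
open Pool.Agent.H69.VS

variable {σ : Type} [Fintype σ] [DecidableEq σ]

namespace T4X

theorem Rr_eq (j k : σ) (v : Fn σ) : Rr j k ((v, 0) : Pr σ) = (Re j k v, 0) := by
  refine Prod.ext rfl ?_
  funext w f
  have e1 : (Rr j k ((v, 0) : Pr σ)).2 = rW j k (0 : Fn σ) + sg (ep k) (ta j (0 : Fn σ)) := rfl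
  rw [e1, rW_zero']
  simp [ta, sg]

theorem Bd_zero (D : ℕ) : Bd D (0 : Pr σ) :=
  ⟨0, SS.zero, SS.zero, by
    refine Prod.ext ?_ ?_
    · simp [Del, dW_zero', hW_zero']
    · simp [Del, dW_zero']⟩

theorem Bd_of_Cb {D : ℕ} {F : Fn σ} (h : Cb D F) : Bd D ((F, 0) : Pr σ) := by
  obtain ⟨G, g1, g2⟩ := h
  refine ⟨(G, 0), g1, SS.zero, ?_⟩
  refine Prod.ext ?_ ?_
  · simp only [Del, hW_zero', add_zero, g2]
  · simp only [Del, dW_zero', neg_zero]

variable {D t : ℕ} {lam : σ → ℕ} {v : Fn σ}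

theorem claimA' (hmax : ∀ (μ : σ → ℕ) (j k : σ), lam = μ + ep k → j ≠ k → lam k ≤ lam j →
      Cb D (Re j k v))
    (hv : SS v) (sv : Sp D 0 0 t 0 lam v) (dv : dW D v = 0) :
    ∀ (L : List σ), L.Nodup → ∀ (α : σ → ℕ), lam = α + sE L →
      SP D t L.length α (uL L (v, 0)) ∧ Del D (uL L (v, 0)) = 0 ∧
      ∀ j, j ∉ L → (∀ k ∈ L, lam k ≤ lam j) → Bd D (Qm j (uL L (v, 0)))
  | [], _, α, hα => by
    have hα' : lam = α := by rw [hα]; simp [sE]
    subst hα'
    refine ⟨⟨hv, SS.zero, sv, Sp.zero⟩, ?_, ?_⟩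
    · refine Prod.ext ?_ ?_
      · simp [uL, Del, dv, hW_zero']
      · simp [uL, Del, dW_zero']
    · intro j _ _
      have : Qm j (uL [] (v, 0)) = 0 := by
        refine Prod.ext ?_ ?_
        · simp only [uL, Qm, sv.qW_zero j]
          funext w f; simp [ta]
        · simp [uL, Qm, qW_zero']
      rw [this]
      exact Bd_zero D
  | k :: L, hnd, α, hα => by
    have hnd' := List.nodup_cons.1 hnd
    have hα' : lam = (α + ep k) + sE L := by
      rw [hα]; simp only [sE, List.map_cons, List.sum_cons]; abel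
    obtain ⟨h1, h2, h3⟩ := claimA' hmax hv sv dv L hnd'.2 (α + ep k) hα'
    refine ⟨h1.P k, ?_, ?_⟩
    · have := Pp_Del D k (uL L (v, 0))
      rw [h2, Pp_zero] at this
      have h4 : Del D (Pp k (uL L (v, 0))) = 0 := by
        rw [← neg_eq_zero]; exact this.symm
      exact h4
    · intro j hj hle
      have hjk : k ≠ j := fun e => hj (by rw [e]; exact List.mem_cons_self)
      have hjL : j ∉ L := fun h' => hj (List.mem_cons_of_mem _ h')
      have h5 := Qm_Pp j k (uL L (v, 0))
      have h6 : Qm j (uL (k :: L) (v, 0)) = Rr j k (uL L (v, 0)) + - Pp k (Qm j (uL L (v, 0))) := by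
        rw [← h5]; simp only [uL]; abel
      rw [h6]
      refine Bd.add ?_ ((h3 j hjL (fun k' hk' => hle k' (List.mem_cons_of_mem _ hk'))).P k).neg
      rw [Rr_uL hjk L hjL]
      apply Bd.uL
      -- the base class
      have hsE : lam = (α + sE L) + ep k := by rw [hα']; abel
      rw [Rr_eq]
      exact Bd_of_Cb (hmax (α + sE L) j k hsE hjk.symm (hle k List.mem_cons_self))

theorem claimB' (hmax : ∀ (μ : σ → ℕ) (j k : σ), lam = μ + ep k → j ≠ k → lam k ≤ lam j →
      Cb D (Re j k v))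
    (hv : SS v) (sv : Sp D 0 0 t 0 lam v) (dv : dW D v = 0) :
    ∀ (L : List σ), L.Nodup → L.Pairwise (fun a b => lam b ≤ lam a) → (∀ k ∈ L, lam k ≠ 0) →
      ∀ (α : σ → ℕ), lam = α + sE L → Bd D (uL L (v, 0)) → Bd D ((v, 0) : Pr σ)
  | [], _, _, _, _, _, h => h
  | k :: L, hnd, hpw, hpos, α, hα, h => by
    have hnd' := List.nodup_cons.1 hnd
    have hpw' := List.pairwise_cons.1 hpw
    have hα' : lam = (α + ep k) + sE L := by
      rw [hα]; simp only [sE, List.map_cons, List.sum_cons]; abel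
    obtain ⟨h1, h2, h3⟩ := claimA' hmax hv sv dv L hnd'.2 (α + ep k) hα'
    refine claimB' hmax hv sv dv L hnd'.2 hpw'.2
      (fun k' hk' => hpos k' (List.mem_cons_of_mem _ hk')) (α + ep k) hα' ?_
    have h4 := Qm_Pp k k (uL L (v, 0))
    rw [Rr_self k h1] at h4
    have h5 : Bd D (Qm k (Pp k (uL L (v, 0))) + Pp k (Qm k (uL L (v, 0)))) :=
      (h.Q k).add ((h3 k hnd'.1 (fun k' hk' => hpw'.1 k' hk')).P k)
    rw [h4] at h5
    have hk : (α + ep k) k = lam k := by
      rw [hα']
      simp only [Pi.add_apply]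
      rw [sE_not_mem L k hnd'.1, add_zero]
    have hne : (((α + ep k) k + L.length : ℕ) : ℂ) ≠ 0 := by
      rw [hk]
      have := hpos k List.mem_cons_self
      exact_mod_cast (by omega : lam k + L.length ≠ 0)
    have h6 := h5.smul ((((α + ep k) k + L.length : ℕ) : ℂ)⁻¹)
    rw [smul_smul, inv_mul_cancel₀ hne, one_smul] at h6
    exact h6

end T4X

theorem testB {D t N r : ℕ} (Z : (σ → ℕ) → Fn σ → Prop)
    (hE : ∀ β u, Z β u → Ev D t β u)
    (hR : ∀ (μ : σ → ℕ) (j k : σ) (u : Fn σ), j ≠ k → μ k + 1 ≤ μ j → Z (μ + ep k) u →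
      Z (μ + ep j) (Re j k u))
    (h0 : ∀ β u, dg β = N → Z β u → (supp β).card < r → Cb D u)
    (h1 : ∀ β u (L : List σ), dg β = N → Z β u → L.Nodup → L.length = r →
      (∀ k ∈ L, β k ≠ 0) → Bd D (uL L (u, 0))) :
    ∀ β u, dg β = N → Z β u → Cb D u := by
  have key : ∀ (n : ℕ) (β : σ → ℕ) (u : Fn σ), dg β = N → N ^ 2 - VS.sq β = n → Z β u →
      Cb D u := by
    intro n
    induction n using Nat.strong_induction_on with
    | _ n ih =>
      intro β u hβ hn hZ
      by_cases hc : (supp β).card < r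
      · exact h0 β u hβ hZ hc
      · obtain ⟨L, l1, l2, l3, l4⟩ := exists_list β r (by omega)
        obtain ⟨hS, sv, dv⟩ := hE β u hZ
        have hα : β = (β - sE L) + sE L := by
          funext k
          simp only [Pi.add_apply, Pi.sub_apply]
          by_cases hk : k ∈ L
          · have e1 := sE_le L l1 k
            have e2 := l3 k hk
            omega
          · rw [sE_not_mem L k hk]; omega
        have hmax : ∀ (μ : σ → ℕ) (j k : σ), β = μ + ep k → j ≠ k → β k ≤ β j →
            Cb D (Re j k u) := by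
          intro μ j k hl hjk hle
          have e1 : β k = μ k + 1 := by rw [hl]; simp [ep]
          have e2 : β j = μ j := by rw [hl]; simp [ep, hjk]
          rw [e1, e2] at hle
          have hlt : VS.sq β < VS.sq (μ + ep j) := by
            rw [hl, sq_add_ep, sq_add_ep]
            omega
          have hdg : dg (μ + ep j) = N := by
            rw [← hβ, hl, dg_add, dg_add, dg_ep, dg_ep]
          have h2 := sq_le (μ + ep j)
          rw [hdg] at h2
          refine ih (N ^ 2 - VS.sq (μ + ep j)) (by omega) (μ + ep j) _ hdg rfl ?_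
          exact hR μ j k u hjk hle (by rw [← hl]; exact hZ)
        obtain ⟨Y, y1, y2, y3⟩ := T4X.claimB' hmax hS sv dv L l1 l2 l3 (β - sE L) hα
          (h1 β u L hβ hZ l1 l4 l3)
        exact ⟨cut D 1 t β Y.1, SS_cut y1, dW_cut sv (congrArg Prod.fst y3)⟩
  exact fun β u hβ hZ => key _ β u hβ rfl hZ

end Pool.Agent.H69.VT
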