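import Pool.Agent.H69.VT.T2
import Pool.Agent.H69.VT.T5

/-!
The class `uL L (u, 0)` and gluing of primitives.
-/

set_option linter.unusedSectionVars false

namespace Pool.Agent.H69.VT

open scoped BigOperators
open Pool.Agent.H69.VS

variable {σ : Type} [Fintype σ] [DecidableEq σ]

namespace T6X

theorem spA (g : (σ → ℕ) → List (σ → ℕ) → Fn σ) (Bs : List (σ → ℕ)) (w : List (Lt σ))
    (f : σ → ℕ) : sp g Bs w f = sp (fun b R => g b R w f) Bs := by
  induction Bs generalizing g with
  | nil => rfl
  | cons b Bs ih =>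
    simp only [sp, Pi.add_apply]
    rw [ih]

/-- congruence in the sum over a choice -/
theorem spC {M : Type} [AddCommGroup M] {g h : (σ → ℕ) → List (σ → ℕ) → M} :
    ∀ (Bs : List (σ → ℕ)),
      (∀ b R, (b :: R).Perm Bs → g b R = h b R) → sp g Bs = sp h Bs
  | [], _ => rfl
  | b :: Bs, H => by
    simp only [sp]
    rw [H b Bs (List.Perm.refl _)]
    congr 1
    apply spC Bs
    intro b' R hp
    apply H
    exact (List.Perm.swap _ _ _).trans (hp.cons b)

theorem spM (c : ℂ) (g : (σ → ℕ) → List (σ → ℕ) → ℂ) (Bs : List (σ → ℕ)) :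
    sp (fun b R => c * g b R) Bs = c * sp g Bs := by
  induction Bs generalizing g with
  | nil => simp [sp]
  | cons b Bs ih =>
    simp only [sp]
    rw [ih (fun v R => g v (b :: R))]
    ring

theorem pW_E (k : σ) : ∀ (w : List (Lt σ)) (F : Fn σ) (f : σ → ℕ), nT w = 0 → pW k F w f = 0
  | [], F, f, _ => pW_nil k F f
  | Lt.T y :: w, F, f, h => by simp [nT] at h
  | Lt.E e :: w, F, f, h => by
    simp only [pW]
    rw [pW_E k w _ f (by simpa only [nT] using h), neg_zero]

theorem hW_E (D : ℕ) : ∀ (w : List (Lt σ)) (F : Fn σ) (f : σ → ℕ), nT w = 0 → hW D F w f = 0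
  | [], F, f, _ => hW_nil D F f
  | Lt.T y :: w, F, f, h => by simp [nT] at h
  | Lt.E e :: w, F, f, h => by
    simp only [hW]
    exact hW_E D w _ f (by simpa only [nT] using h)

/-- `pW` on a word with the even letters in front -/
theorem pW_mT (k : σ) : ∀ (al : List (σ → ℕ)) {X : Fn σ}, SS X → ∀ (w : List (Lt σ))
    (f : σ → ℕ), nT w = 0 →
      pW k X (mT al ++ w) f = - sp (fun b R => X (mT R ++ Lt.E (b + ep k) :: w) f) al
  | [], X, _, w, f, hw => by
    simp only [mT, List.map_nil, List.nil_append, sp, neg_zero]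
    exact pW_E k w X f hw
  | b :: al, X, hX, w, f, hw => by
    have h1 : pW k X (mT (b :: al) ++ w) f =
        - X (Lt.E (b + ep k) :: (mT al ++ w)) f + pW k (Af (Lt.T b) X) (mT al ++ w) f := rfl
    rw [h1, pW_mT k al (hX.af _) w f hw, mT_move hX]
    have h2 : sp (fun b R => X (mT R ++ Lt.E (b + ep k) :: w) f) (b :: al) =
        X (mT al ++ Lt.E (b + ep k) :: w) f +
        sp (fun v R => Af (Lt.T b) X (mT R ++ Lt.E (v + ep k) :: w) f) al := rfl
    rw [h2, neg_add]

/-- `hW` on a word with the even letters in front -/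
theorem hW_mT (D : ℕ) : ∀ (al : List (σ → ℕ)) (X : Fn σ) (w : List (Lt σ))
    (f : σ → ℕ), nT w = 0 → ok D al →
      hW D X (mT al ++ w) f = sp (fun b R => X (mT R ++ w) (f + b)) al
  | [], X, w, f, hw, _ => by
    simp only [mT, List.map_nil, List.nil_append, sp]
    exact hW_E D w X f hw
  | b :: al, X, w, f, hw, hok => by
    have h1 : hW D X (mT (b :: al) ++ w) f =
        (if dg b + 1 = D then X (mT al ++ w) (f + b) else 0) +
          hW D (Af (Lt.T b) X) (mT al ++ w) f := rfl
    rw [h1, if_pos (hok b (by simp)), hW_mT D al _ w f hw (fun a ha => hok a (by simp [ha]))]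
    rfl

theorem half (n : ℕ) : (-1 : ℂ) ^ ((n + 1) * (n + 1 + 1) / 2) =
    - ((-1 : ℂ) ^ n) * (-1 : ℂ) ^ (n * (n + 1) / 2) := by
  have h : (n + 1) * (n + 1 + 1) / 2 = n * (n + 1) / 2 + (n + 1) := by
    have : (n + 1) * (n + 1 + 1) = n * (n + 1) + (n + 1) * 2 := by ring
    rw [this, Nat.add_mul_div_right _ _ (by norm_num)]
  rw [h, pow_add, pow_succ]
  ring

theorem both {u : Fn σ} (hu : SS u) (h0 : ∀ w f, nT w ≠ 0 → u w f = 0) :
    ∀ (L : List σ), SS (uL L ((u, 0) : Pr σ)).1 ∧ SS (uL L ((u, 0) : Pr σ)).2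
  | [] => ⟨hu, SS.zero⟩
  | k :: L => by
    obtain ⟨h1, h2⟩ := both hu h0 L
    exact ⟨h1.pW k, (h1.sg _).sub (h2.pW k)⟩

end T6X

open T6X

theorem uL_fst {u : Fn σ} (hu : SS u) (h0 : ∀ w f, nT w ≠ 0 → u w f = 0) :
    ∀ (L : List σ) (al : List (σ → ℕ)) (w : List (Lt σ)) (f : σ → ℕ), nT w = 0 →
      L.length = al.length →
      (uL L ((u, 0) : Pr σ)).1 (mT al ++ w) f =
        (-1 : ℂ) ^ (L.length * (L.length + 1) / 2) * gE (L.map ep) al u w f
  | [], [], w, f, _, _ => by
    simp [uL, mT, gE, gN]
  | [], b :: al, w, f, _, hl => by simp at hl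
  | k :: L, al, w, f, hw, hl => by
    have e1 : (uL (k :: L) ((u, 0) : Pr σ)).1 = pW k (uL L ((u, 0) : Pr σ)).1 := rfl
    simp only [List.length_cons] at hl ⊢
    rw [e1, pW_mT k al (both hu h0 L).1 w f hw]
    have e2 : sp (fun b R => (uL L ((u, 0) : Pr σ)).1 (mT R ++ Lt.E (b + ep k) :: w) f) al =
        sp (fun b R => ((-1 : ℂ) ^ (L.length * (L.length + 1) / 2) * (-1 : ℂ) ^ L.length) *
          gE (L.map ep) R (Af (Lt.E (ep k + b)) u) w f) al := by
      apply spC
      intro b R hp
      have hR : R.length = L.length := by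
        have := hp.length_eq
        simp only [List.length_cons] at this
        omega
      rw [uL_fst hu h0 L R (Lt.E (b + ep k) :: w) f (by simpa only [nT] using hw) hR.symm]
      have h3 : gE (L.map ep) R u (Lt.E (b + ep k) :: w) f =
          Af (Lt.E (b + ep k)) (gE (L.map ep) R u) w f := rfl
      rw [h3, Af_gE hu, hR, add_comm b (ep k)]
      simp only [Pi.smul_apply, smul_eq_mul]
      ring
    rw [e2, spM, half]
    have e3 := gE_cons hu (ep k) (L.map ep) al (by simp; omega)
    have e4 : gE (L.map ep) al u = 0 := gE_len (by simp; omega) (by simp; omega) u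
    have e5 : gE ((k :: L).map ep) al u =
        sp (fun b R => gE (L.map ep) R (Af (Lt.E (ep k + b)) u)) al := by
      rw [List.map_cons, e3, e4]
      have : sg (ep k) (0 : Fn σ) = 0 := rfl
      rw [this, smul_zero, add_zero]
    rw [e5, spA]
    ring

theorem uL_snd {u : Fn σ} (hu : SS u) (h0 : ∀ w f, nT w ≠ 0 → u w f = 0) :
    ∀ (L : List σ) (al : List (σ → ℕ)) (w : List (Lt σ)) (f : σ → ℕ), nT w = 0 →
      L.length = al.length + 1 →
      (uL L ((u, 0) : Pr σ)).2 (mT al ++ w) f =
        - (-1 : ℂ) ^ (L.length * (L.length + 1) / 2) * gE (L.map ep) al u w f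
  | [], al, w, f, _, hl => by simp at hl
  | k :: L, al, w, f, hw, hl => by
    have e1 : (uL (k :: L) ((u, 0) : Pr σ)).2 (mT al ++ w) f =
        (uL L ((u, 0) : Pr σ)).1 (mT al ++ w) (f + ep k) -
          pW k (uL L ((u, 0) : Pr σ)).2 (mT al ++ w) f := rfl
    simp only [List.length_cons] at hl ⊢
    have hl' : L.length = al.length := by omega
    rw [e1, pW_mT k al (both hu h0 L).2 w f hw, uL_fst hu h0 L al w _ hw hl']
    have e2 : sp (fun b R => (uL L ((u, 0) : Pr σ)).2 (mT R ++ Lt.E (b + ep k) :: w) f) al =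
        sp (fun b R => ((-1 : ℂ) ^ (L.length * (L.length + 1) / 2) * (-1 : ℂ) ^ L.length) *
          gE (L.map ep) R (Af (Lt.E (ep k + b)) u) w f) al := by
      apply spC
      intro b R hp
      have hR : L.length = R.length + 1 := by
        have := hp.length_eq
        simp only [List.length_cons] at this
        omega
      rw [uL_snd hu h0 L R (Lt.E (b + ep k) :: w) f (by simpa only [nT] using hw) hR]
      have h3 : gE (L.map ep) R u (Lt.E (b + ep k) :: w) f =
          Af (Lt.E (b + ep k)) (gE (L.map ep) R u) w f := rfl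
      rw [h3, Af_gE hu, add_comm b (ep k)]
      simp only [Pi.smul_apply, smul_eq_mul]
      rw [hR, pow_succ (-1 : ℂ) R.length]
      ring
    rw [e2, spM, half]
    have e3 := gE_cons hu (ep k) (L.map ep) al (by simp; omega)
    have e5 : gE ((k :: L).map ep) al u w f =
        sp (fun b R => gE (L.map ep) R (Af (Lt.E (ep k + b)) u) w f) al +
          (-1 : ℂ) ^ al.length * gE (L.map ep) al u w (f + ep k) := by
      rw [List.map_cons, e3]
      simp only [Pi.add_apply, Pi.smul_apply, smul_eq_mul]
      rw [spA]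
      rfl
    rw [e5, ← hl']
    have h4 : (-1 : ℂ) ^ L.length * (-1 : ℂ) ^ L.length = 1 := by
      rw [← mul_pow]; simp
    linear_combination (-(-1 : ℂ) ^ (L.length * (L.length + 1) / 2) *
      gE (L.map ep) al u w (f + ep k)) * h4

theorem primG {D : ℕ} {X : Fn σ} (hS : SS X)
    (h : ∀ a : Multiset (σ → ℕ), ∃ B : Fn σ, SS B ∧ dW D B = fixT X a) :
    ∃ X' : Fn σ, SS X' ∧ dW D X' = X := by
  choose B hB1 hB2 using h
  refine ⟨glue B, SS_glue B hB1, ?_⟩
  funext w f
  rw [dW_glue, hB2]
  simp only [fixT, nT_Ew, if_true]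
  rw [← SS_sort' hS]

namespace T6X

theorem Del_uL {D : ℕ} {u : Fn σ} (du : dW D u = 0) :
    ∀ L : List σ, Del D (uL L ((u, 0) : Pr σ)) = 0
  | [] => by
    refine Prod.ext ?_ ?_
    · simp [uL, Del, du, hW_zero']
    · simp [uL, Del, dW_zero']
  | k :: L => by
    have h1 := Pp_Del D k (uL L ((u, 0) : Pr σ))
    rw [Del_uL du L, Pp_zero] at h1
    have h2 : Del D (Pp k (uL L ((u, 0) : Pr σ))) = 0 := by
      rw [← neg_eq_zero]; exact h1.symm
    exact h2

theorem SP_uL {D t : ℕ} {β : σ → ℕ} {u : Fn σ} (hu : SS u) (su' : Sp D 0 0 t 0 β u) :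
    ∀ (L : List σ) (α : σ → ℕ), β = α + sE L → SP D t L.length α (uL L ((u, 0) : Pr σ))
  | [], α, h => by
    have : β = α := by rw [h]; simp [sE]
    subst this
    exact ⟨hu, SS.zero, su', Sp.zero⟩
  | k :: L, α, h => by
    have h1 : β = (α + ep k) + sE L := by
      rw [h]; simp only [sE, List.map_cons, List.sum_cons]; abel
    exact (SP_uL hu su' L (α + ep k) h1).P k

theorem sE_le (L : List σ) (hn : L.Nodup) (β : σ → ℕ) (h : ∀ k ∈ L, β k ≠ 0) :
    ∃ α : σ → ℕ, β = α + sE L := by
  refine ⟨β - sE L, ?_⟩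
  funext z
  have h1 : sE L z ≤ β z := by
    by_cases hz : z ∈ L
    · have h2 : sE L z ≤ 1 := by
        clear h
        induction L with
        | nil => simp [sE]
        | cons l L ih =>
          have hn' := List.nodup_cons.1 hn
          have e : sE (l :: L) z = (ep l : σ → ℕ) z + sE L z := rfl
          rw [e]
          by_cases hl : z = l
          · subst hl
            rw [sE_not_mem L z hn'.1]
            simp [ep]
          · have : (ep l : σ → ℕ) z = 0 := by simp [ep, hl]
            rw [this, zero_add]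
            by_cases hzL : z ∈ L
            · exact ih hn'.2 hzL
            · rw [sE_not_mem L z hzL]; omega
      have := h z hz
      omega
    · rw [sE_not_mem L z hz]; omega
  simp only [Pi.add_apply, Pi.sub_apply]
  omega

/-- nonzero values of a typed pair: the even letters -/
theorem fixT_zero {D s c t m : ℕ} {α : σ → ℕ} {X : Fn σ} (hX : Sp D s c t m α X)
    (a : Multiset (σ → ℕ)) (ha : ¬ (a.card + c = m ∧ ok D a.toList)) : fixT X a = 0 := by
  funext w f
  by_contra hne
  have hw : nT w = 0 := by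
    by_contra h3; apply hne; simp [fixT, h3]
  have h3 : X (mT a.toList ++ w) f ≠ 0 := by
    intro h4; apply hne; simp [fixT, h4]
  obtain ⟨a1, a2, a3, a4⟩ := hX _ _ h3
  rw [nT_append, nT_mT, hw, Multiset.length_toList] at a2
  apply ha
  refine ⟨by omega, ?_⟩
  intro y hy
  exact a4 (Lt.T y) (by
    rw [List.mem_append]; left
    exact List.mem_map.2 ⟨y, hy, rfl⟩)

theorem TL_mT (a : List (σ → ℕ)) (w : List (Lt σ)) (hw : nT w = 0) :
    TL (mT a ++ w) = a ∧ Ew (mT a ++ w) = w := by
  induction a with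
  | nil =>
    simp only [mT, List.map_nil, List.nil_append]
    induction w with
    | nil => exact ⟨rfl, rfl⟩
    | cons x w ih =>
      cases x with
      | T y => simp [nT] at hw
      | E e =>
        have := ih (by simpa only [nT] using hw)
        exact ⟨this.1, by simp only [Ew]; rw [this.2]⟩
  | cons y a ih =>
    have e : mT (y :: a) ++ w = Lt.T y :: (mT a ++ w) := rfl
    rw [e]
    exact ⟨by simp only [TL]; rw [ih.1], by simp only [Ew]; rw [ih.2]⟩

theorem glue_mT (B : Multiset (σ → ℕ) → Fn σ) (R : List (σ → ℕ)) (w : List (Lt σ)) (f : σ → ℕ)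
    (hw : nT w = 0) : glue B (mT R ++ w) f = B (R : Multiset (σ → ℕ)) w f := by
  unfold glue Tm
  rw [(TL_mT R w hw).1, (TL_mT R w hw).2]

end T6X

theorem bdOf {D t m : ℕ} {β : σ → ℕ} {u : Fn σ} (hu : Ev D t β u) (L : List σ)
    (hL : L.length = m + 1) (hLn : L.Nodup) (hLs : ∀ k ∈ L, β k ≠ 0)
    (h2 : ∀ al : List (σ → ℕ), al.length = m → ok D al → Cb D (gE (L.map ep) al u))
    (h1 : ∀ P : List (σ → ℕ) → Fn σ, (∀ al, SS (P al)) →
      (∀ al al' : List (σ → ℕ), al.Perm al' → P al = P al') →
      (∀ al : List (σ → ℕ), al.length = m → ok D al →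
        St D (m + 1) t ((L.map ep).sum + al.sum) β (P al) ∧ dW D (P al) = gE (L.map ep) al u) →
      ∀ al : List (σ → ℕ), al.length = m + 1 → ok D al →
        Cb D (gE (L.map ep) al u - sp (fun a R => sg a (P R)) al)) :
    Bd D (uL L ((u, 0) : Pr σ)) := by
  classical
  obtain ⟨uS, uT, ud⟩ := hu
  have h0 : ∀ w f, nT w ≠ 0 → u w f = 0 := by
    intro w f hw
    by_contra hne
    have := (uT w f hne).2.1
    omega
  obtain ⟨α, hα⟩ := sE_le L hLn β hLs
  have hSP := SP_uL uS uT L α hα
  have hDel := Del_uL ud L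
  have hS1 := hSP.1
  have hS2 := hSP.2.1
  have hT1 := hSP.2.2.1
  have hT2 := hSP.2.2.2
  rw [hL] at hT1 hT2
  set X : Pr σ := uL L ((u, 0) : Pr σ) with hXd
  have hlen : (L.map (ep : σ → σ → ℕ)).length = m + 1 := by rw [List.length_map, hL]
  have uSt : St D 0 t 0 β u := St_of_Sp uT
  -- chosen primitives
  have key : ∀ a : Multiset (σ → ℕ), ∃ Q : Fn σ, SS Q ∧
      ((a.card = m ∧ ok D a.toList) → St D (m + 1) t ((L.map ep).sum + a.sum) β Q ∧
        dW D Q = gE (L.map ep) a.toList u) ∧ (¬ (a.card = m ∧ ok D a.toList) → Q = 0) := by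
    intro a
    by_cases ha : a.card = m ∧ ok D a.toList
    · have hal : a.toList.length = m := by rw [Multiset.length_toList]; exact ha.1
      have hc := h2 a.toList hal ha.2
      have hst := St_gE uSt (L.map ep) a.toList (by right; rw [hlen, hal])
      rw [hal, zero_add, zero_add, Multiset.sum_toList] at hst
      obtain ⟨G, g1, g2, g3⟩ := cb_st hc hst
      exact ⟨G, g1, fun _ => ⟨g2, g3⟩, fun h => absurd ha h⟩
    · exact ⟨0, SS.zero, fun h => absurd h ha, fun _ => rfl⟩
  choose Q hQ1 hQ2 hQ3 using key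
  have hP := h1 (fun al => Q (al : Multiset (σ → ℕ))) (fun al => hQ1 _)
    (fun al al' hp => by
      show Q _ = Q _
      rw [Multiset.coe_eq_coe.2 hp])
    (by
      intro al hal hok
      have hpt : ((al : Multiset (σ → ℕ)).toList).Perm al :=
        Multiset.coe_eq_coe.1 (Multiset.coe_toList _)
      have ha : (al : Multiset (σ → ℕ)).card = m ∧ ok D (al : Multiset (σ → ℕ)).toList :=
        ⟨by rw [Multiset.coe_card, hal], fun y hy => hok y (hpt.mem_iff.1 hy)⟩
      obtain ⟨q1, q2⟩ := hQ2 _ ha
      rw [Multiset.sum_coe] at q1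
      exact ⟨q1, by rw [q2]; exact gE_permB uS hpt _⟩)
  -- the primitive of the second component
  obtain ⟨c, hc⟩ : ∃ c : ℂ, c = (-1 : ℂ) ^ (L.length * (L.length + 1) / 2) := ⟨_, rfl⟩
  have hQT : ∀ (a : Multiset (σ → ℕ)) (w : List (Lt σ)) (f : σ → ℕ), nT w ≠ 0 → Q a w f = 0 := by
    intro a w f hw
    by_cases ha : a.card = m ∧ ok D a.toList
    · by_contra hne
      exact hw ((hQ2 a ha).1 w f hne).2.1
    · rw [hQ3 a ha]; rfl
  have hgT : ∀ (a : List (σ → ℕ)), (a.length = m ∨ a.length = m + 1) → ∀ (w : List (Lt σ))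
      (f : σ → ℕ), nT w ≠ 0 → gE (L.map ep) a u w f = 0 := by
    intro a ha w f hw
    by_contra hne
    have hst := St_gE uSt (L.map ep) a (by rw [hlen]; omega)
    exact hw (hst w f hne).2.1
  set B : Multiset (σ → ℕ) → Fn σ := fun a => (-c) • Q a with hB
  have hX1S : SS (glue B) := SS_glue B (fun a => (hQ1 a).smul _)
  have hX1d : dW D (glue B) = X.2 := by
    funext w f
    rw [dW_glue]
    have hBd : dW D (B (Tm w)) = fixT X.2 (Tm w) := by
      rw [hB]
      simp only []
      rw [dW_smul']
      by_cases ha : (Tm w).card = m ∧ ok D (Tm w).toList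
      · rw [(hQ2 _ ha).2]
        funext w' f'
        by_cases hw' : nT w' = 0
        · have := uL_snd uS h0 L (Tm w).toList w' f' hw' (by
            rw [hL, Multiset.length_toList, ha.1])
          simp only [fixT, hw', if_true, Pi.smul_apply, smul_eq_mul]
          rw [hXd, this, hc]
        · have e1 := hgT (Tm w).toList (by left; rw [Multiset.length_toList, ha.1]) w' f' hw'
          simp only [fixT, hw', if_false, Pi.smul_apply, e1, smul_zero]
      · rw [hQ3 _ ha, dW_zero', smul_zero]
        symm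
        apply fixT_zero hT2
        intro h3
        exact ha ⟨by omega, h3.2⟩
    rw [hBd]
    simp only [fixT, nT_Ew, if_true]
    rw [← SS_sort' hS2]
  -- the first component
  have hF2S : SS (X.1 + hW D (glue B)) := hS1.add (hX1S.hW D)
  obtain ⟨X0, x1, x2⟩ := primG hF2S (D := D) (by
    intro a
    by_cases ha : a.card = m + 1 ∧ ok D a.toList
    · have hal : a.toList.length = m + 1 := by rw [Multiset.length_toList]; exact ha.1
      obtain ⟨F, f1, f2⟩ := hP a.toList hal ha.2
      refine ⟨c • F, f1.smul _, ?_⟩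
      rw [dW_smul', f2]
      funext w f
      by_cases hw : nT w = 0
      · have e1 := uL_fst uS h0 L a.toList w f hw (by rw [hL, hal])
        have e2 := hW_mT D a.toList (glue B) w f hw ha.2
        have e3 : sp (fun b R => glue B (mT R ++ w) (f + b)) a.toList =
            (-c) * sp (fun b R => Q (R : Multiset (σ → ℕ)) w (f + b)) a.toList := by
          rw [← spM]
          apply spC
          intro b R _
          rw [glue_mT B R w _ hw]
          rfl
        simp only [fixT, hw, if_true, Pi.smul_apply, Pi.sub_apply, Pi.add_apply, smul_eq_mul]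
        rw [e2, e3, spA, hXd, e1, hc]
        simp only [sg]
        ring
      · have e1 := hgT a.toList (by right; exact hal) w f hw
        have e2 : sp (fun b R => sg b (Q (R : Multiset (σ → ℕ)))) a.toList w f = 0 := by
          rw [spA]
          have e3 : sp (fun b R => sg b (Q (R : Multiset (σ → ℕ))) w f) a.toList =
              sp (fun b R => (0 : ℂ) * (0 : ℂ)) a.toList := by
            apply spC
            intro b R _
            simp only [sg]
            rw [hQT _ _ _ hw, mul_zero]
          rw [e3, spM, zero_mul]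
        simp only [fixT, hw, if_false, Pi.smul_apply, Pi.sub_apply, smul_eq_mul]
        rw [e1, e2]
        ring
    · refine ⟨0, SS.zero, ?_⟩
      rw [dW_zero']
      funext w f
      by_contra hne
      have hne' : fixT (X.1 + hW D (glue B)) a w f ≠ 0 := fun h => hne (by rw [h]; rfl)
      have hw : nT w = 0 := by
        by_contra h3; apply hne'; simp [fixT, h3]
      have h3 : X.1 (mT a.toList ++ w) f + hW D (glue B) (mT a.toList ++ w) f ≠ 0 := by
        intro h4; apply hne'; simp [fixT, hw, h4]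
      have hz := fixT_zero hT1 a (fun h => ha ⟨by omega, h.2⟩)
      have hz1 : X.1 (mT a.toList ++ w) f = 0 := by
        have h4 : fixT X.1 a w f = 0 := by rw [hz]; rfl
        simpa only [fixT, hw, if_true] using h4
      rw [hz1, zero_add] at h3
      obtain ⟨p, y, v, q1, q2, q3⟩ := hW_ne D _ _ _ h3
      have q4 : Q (Tm (p ++ v)) (Ew (p ++ v)) (f + y) ≠ 0 := by
        intro h5; apply q3
        show ((-c) • Q (Tm (p ++ v))) (Ew (p ++ v)) (f + y) = 0
        simp only [Pi.smul_apply, smul_eq_mul, h5, mul_zero]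
      have q5 : (Tm (p ++ v)).card = m ∧ ok D (Tm (p ++ v)).toList := by
        by_contra h6
        apply q4
        rw [hQ3 _ h6]; rfl
      have q6 : a.toList = TL p ++ y :: TL v := by
        rw [← (TL_mT a.toList w hw).1, q1, TL_append]
        rfl
      have q7 : TL (p ++ v) = TL p ++ TL v := TL_append p v
      apply ha
      refine ⟨?_, ?_⟩
      · have l1 : (Tm (p ++ v)).card = (TL p ++ TL v).length := by
          unfold Tm; rw [q7]; rfl
        rw [← Multiset.length_toList, q6]
        rw [q5.1] at l1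
        simp only [List.length_append, List.length_cons] at l1 ⊢
        omega
      · intro z hz'
        rw [q6] at hz'
        have hpt : ((Tm (p ++ v)).toList).Perm (TL p ++ TL v) := by
          apply Multiset.coe_eq_coe.1
          rw [Multiset.coe_toList]
          unfold Tm; rw [q7]
        simp only [List.mem_append, List.mem_cons] at hz'
        rcases hz' with hz' | hz' | hz'
        · exact q5.2 z (hpt.mem_iff.2 (List.mem_append.2 (Or.inl hz')))
        · rw [hz']; exact q2
        · exact q5.2 z (hpt.mem_iff.2 (List.mem_append.2 (Or.inr hz'))))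
  refine ⟨(X0, - glue B), x1, hX1S.neg, ?_⟩
  refine Prod.ext ?_ ?_
  · show dW D X0 + hW D (- glue B) = X.1
    rw [x2, hW_neg']; abel
  · show - dW D (- glue B) = X.2
    rw [dW_neg', neg_neg, hX1d]

end Pool.Agent.H69.VT
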