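import Pool.Agent.H69.VT.T1
import Pool.Agent.H69.VT.T2
import Pool.Agent.H69.VT.T3
import Pool.Agent.H69.VT.T4
import Pool.Agent.H69.VT.T5
import Pool.Agent.H69.VT.T6
import Pool.Agent.H69.VS.Num

/-!
Project VT (MP_fb19ec), row T7: two-column contractions.

If all contractions `gE [x, y] [l] u` are boundaries then `u` is a boundary (in the strands above
`D`, given the vanishing in the strands `≥ 2 D - 1` for less than `T` letters).
-/

set_option linter.unusedSectionVars false

namespace Pool.Agent.H69.VT

open scoped BigOperators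
open Pool.Agent.H69.VS

variable {σ : Type} [Fintype σ] [DecidableEq σ]

namespace T7X

theorem St_add {D s t : ℕ} {γ β : σ → ℕ} {F G : Fn σ} (h : St D s t γ β F)
    (h' : St D s t γ β G) : St D s t γ β (F + G) := by
  intro w f hne
  by_cases h0 : F w f = 0
  · refine h' w f ?_
    intro h1
    exact hne (by simp [h0, h1])
  · exact h w f h0

theorem St_neg {D s t : ℕ} {γ β : σ → ℕ} {F : Fn σ} (h : St D s t γ β F) :
    St D s t γ β (-F) := by
  intro w f hne
  refine h w f ?_
  intro h1
  exact hne (by simp [h1])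

theorem St_sub {D s t : ℕ} {γ β : σ → ℕ} {F G : Fn σ} (h : St D s t γ β F)
    (h' : St D s t γ β G) : St D s t γ β (F - G) := by
  rw [sub_eq_add_neg]
  exact St_add h (St_neg h')

theorem Cb_neg {D : ℕ} {F : Fn σ} (h : Cb D F) : Cb D (-F) := by
  have := Cb_smul h (-1)
  rwa [neg_one_smul] at this

theorem Cb_sub {D : ℕ} {F G : Fn σ} (h : Cb D F) (h' : Cb D G) : Cb D (F - G) := by
  rw [sub_eq_add_neg]
  exact Cb_add h (Cb_neg h')

theorem two (x y l : σ → ℕ) : ([x, y] : List (σ → ℕ)).length = ([l] : List (σ → ℕ)).length + 1 :=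
  rfl

theorem hd2 {D : ℕ} (x y : σ) {Bs : List (σ → ℕ)} (h : ok D Bs) :
    ∀ a ∈ ([ep x, ep y] : List (σ → ℕ)), ∀ b ∈ Bs, dg a + dg b = D := by
  intro a ha b hb
  have h1 := h b hb
  have h2 : dg a = 1 := by
    simp only [List.mem_cons, List.not_mem_nil, or_false] at ha
    rcases ha with rfl | rfl
    · exact dg_ep x
    · exact dg_ep y
  omega

end T7X

open T7X

theorem G1 {D T b : ℕ} (hD : 2 ≤ D) (hV : HV σ D T) (hb : 1 ≤ b) :
    ∀ (t : ℕ) (β : σ → ℕ) (u : Fn σ), t ≤ T → dg β = t * D + (D + b) → Ev D t β u →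
      (∀ (x y : σ) (l : σ → ℕ), dg l + 1 = D → Cb D (gE [ep x, ep y] [l] u)) → Cb D u := by
  intro t
  induction t using Nat.strong_induction_on with
  | _ t ih =>
  intro β u htT hβ hu hQ
  refine testB (D := D) (t := t) (N := t * D + (D + b)) (r := 2)
    (fun β u => Ev D t β u ∧
      ∀ (x y : σ) (l : σ → ℕ), dg l + 1 = D → Cb D (gE [ep x, ep y] [l] u))
    (fun β u h => h.1) (fun μ j k u hjk _ h => ⟨Re_Ev hjk h.1, Q2_Re hjk h.2⟩) ?_ ?_ β u hβ
    ⟨hu, hQ⟩
  · -- small support
    intro β u hβ h hc
    have hV : Van D t β := by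
      refine Van_small (j := D + b) ?_ hβ
      have h1 : (supp β).card ≤ 1 := by omega
      have h2 : (supp β).card * (D - 1) ≤ 1 * (D - 1) := Nat.mul_le_mul_right _ h1
      omega
    obtain ⟨F', h1, -, h3⟩ := hV u h.1.1 h.1.2.1 h.1.2.2
    exact ⟨F', h1, h3⟩
  · -- the columns with two variables
    intro β u L hβ h hLn hL2 hLs
    obtain ⟨hu, hQ⟩ := h
    obtain ⟨hSS, hSp, hdu⟩ := hu
    have hSt : St D 0 t 0 β u := St_of_Sp hSp
    refine bdOf (m := 1) ⟨hSS, hSp, hdu⟩ L hL2 hLn hLs ?_ ?_
    · intro al hal hok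
      obtain ⟨p, q, rfl⟩ := List.length_eq_two.1 hL2
      obtain ⟨l, rfl⟩ := List.length_eq_one_iff.1 hal
      exact hQ p q l (hok l (List.mem_singleton_self l))
    · intro P hPS _ hP al hal hok
      obtain ⟨p, q, rfl⟩ := List.length_eq_two.1 hL2
      obtain ⟨a1, a2, rfl⟩ := List.length_eq_two.1 hal
      have ha1 : dg a1 + 1 = D := hok a1 (by simp)
      have ha2 : dg a2 + 1 = D := hok a2 (by simp)
      have hok1 : ok D [a1] := fun a ha => by rw [List.mem_singleton.1 ha]; exact ha1
      have hok2 : ok D [a2] := fun a ha => by rw [List.mem_singleton.1 ha]; exact ha2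
      obtain ⟨hP1, hP1'⟩ := hP [a1] rfl hok1
      obtain ⟨hP2, hP2'⟩ := hP [a2] rfl hok2
      have hmap : ([p, q] : List σ).map ep = ([ep p, ep q] : List (σ → ℕ)) := rfl
      rw [hmap] at hP1 hP1' hP2 hP2' ⊢
      -- the function G
      have hsp : sp (fun a R => sg a (P R)) [a1, a2] = sg a1 (P [a2]) + sg a2 (P [a1]) := by
        simp only [sp]
        rw [add_zero]
      rw [hsp]
      obtain ⟨G, hG⟩ : ∃ G : Fn σ, G = gE [ep p, ep q] [a1, a2] u -
        (sg a1 (P [a2]) + sg a2 (P [a1])) := ⟨_, rfl⟩
      rw [← hG]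
      obtain ⟨γ, hγ⟩ : ∃ γ : σ → ℕ, γ = ep p + ep q + a1 + a2 := ⟨_, rfl⟩
      have hGS : SS G := by
        rw [hG]
        exact (SS_gE hSS _ _).sub (((hPS _).sg _).add ((hPS _).sg _))
      have hGt : St D 2 t γ β G := by
        rw [hG]
        refine St_sub ?_ (St_add ?_ ?_)
        · have h1 := St_gE hSt [ep p, ep q] [a1, a2] (Or.inl rfl)
          have h2 : (0 : σ → ℕ) + ([ep p, ep q] : List (σ → ℕ)).sum +
              ([a1, a2] : List (σ → ℕ)).sum = γ := by
            rw [hγ]
            simp only [List.sum_cons, List.sum_nil]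
            abel
          rw [h2] at h1
          exact h1
        · have h1 := St_sg hP2 a1
          have h2 : ([ep p, ep q] : List (σ → ℕ)).sum + ([a2] : List (σ → ℕ)).sum + a1 = γ := by
            rw [hγ]
            simp only [List.sum_cons, List.sum_nil]
            abel
          rw [h2] at h1
          exact h1
        · have h1 := St_sg hP1 a2
          have h2 : ([ep p, ep q] : List (σ → ℕ)).sum + ([a1] : List (σ → ℕ)).sum + a2 = γ := by
            rw [hγ]
            simp only [List.sum_cons, List.sum_nil]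
            abel
          rw [h2] at h1
          exact h1
      have hGd : dW D G = 0 := by
        have h1 := gE_dW_eq (hd2 p q hok) rfl u
        rw [hdu, gE_zero] at h1
        simp only [List.length_cons, List.length_nil, sp] at h1
        norm_num at h1
        rw [hG, dW_sub', dW_add', dW_sg, dW_sg, hP1', hP2']
        rw [sub_eq_zero]
        rw [eq_comm, sub_eq_zero] at h1
        exact h1
      rcases St_cases hGt with h0 | ⟨r, β', hr, hβ', hGp⟩
      · rw [h0]
        exact Cb_zero D
      -- the induction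
      have hdγ : dg γ = 2 * D := by
        rw [hγ, dg_add, dg_add, dg_add, dg_ep, dg_ep]
        omega
      refine ih r (by omega) β' G (by omega) ?_ ⟨hGS, hGp, hGd⟩ ?_
      · have h1 : dg β' + dg γ = dg β := by rw [← dg_add, hβ']
        rw [hβ, hdγ, ← hr] at h1
        have h2 : (r + 2) * D = r * D + 2 * D := by ring
        omega
      intro x y l hl
      have hokl : ok D [l] := fun a ha => by rw [List.mem_singleton.1 ha]; exact hl
      -- the primitive Z
      have hCt : St D 1 t (ep x + ep y + l) β (gE [ep x, ep y] [l] u) := by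
        have h1 := St_gE hSt [ep x, ep y] [l] (Or.inr rfl)
        have h2 : (0 : σ → ℕ) + ([ep x, ep y] : List (σ → ℕ)).sum + ([l] : List (σ → ℕ)).sum =
            ep x + ep y + l := by
          simp only [List.sum_cons, List.sum_nil]
          abel
        rw [h2] at h1
        exact h1
      obtain ⟨Z, hZS, hZt, hZd⟩ := cb_st (hQ x y l hl) hCt
      -- the closed functions B
      have hB : ∀ a : σ → ℕ, dg a + 1 = D →
          St D 2 t (([ep p, ep q] : List (σ → ℕ)).sum + ([a] : List (σ → ℕ)).sum) β (P [a]) →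
          dW D (P [a]) = gE [ep p, ep q] [a] u →
          Cb D (gE [ep p, ep q] [a] Z + gE [ep x, ep y] [l] (P [a])) := by
        intro a ha hPt hPd
        have hoka : ok D [a] := fun a' ha' => by rw [List.mem_singleton.1 ha']; exact ha
        obtain ⟨γ', hγ'⟩ : ∃ γ' : σ → ℕ, γ' = ep x + ep y + l + (ep p + ep q + a) := ⟨_, rfl⟩
        have hdγ' : dg γ' = 2 * D + 2 := by
          rw [hγ', dg_add, dg_add, dg_add, dg_add, dg_add, dg_ep, dg_ep, dg_ep, dg_ep]
          omega
        have hBt : St D 3 t γ' β (gE [ep p, ep q] [a] Z + gE [ep x, ep y] [l] (P [a])) := by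
          refine St_add ?_ ?_
          · have h1 := St_gE hZt [ep p, ep q] [a] (Or.inr rfl)
            have h2 : ep x + ep y + l + ([ep p, ep q] : List (σ → ℕ)).sum +
                ([a] : List (σ → ℕ)).sum = γ' := by
              rw [hγ']
              simp only [List.sum_cons, List.sum_nil]
              abel
            rw [h2] at h1
            exact h1
          · have h1 := St_gE hPt [ep x, ep y] [l] (Or.inr rfl)
            have h2 : ([ep p, ep q] : List (σ → ℕ)).sum + ([a] : List (σ → ℕ)).sum +
                ([ep x, ep y] : List (σ → ℕ)).sum + ([l] : List (σ → ℕ)).sum = γ' := by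
              rw [hγ']
              simp only [List.sum_cons, List.sum_nil]
              abel
            rw [h2] at h1
            exact h1
        have hBd : dW D (gE [ep p, ep q] [a] Z + gE [ep x, ep y] [l] (P [a])) = 0 := by
          have h1 := gE_dW_succ (hd2 p q hoka) (two _ _ _) Z
          have h2 := gE_dW_succ (hd2 x y hokl) (two _ _ _) (P [a])
          have h3 := gE_gE hSS [ep p, ep q] [a] [ep x, ep y] [l]
          rw [hZd] at h1
          rw [hPd] at h2
          simp only [List.length_cons, List.length_nil] at h1 h2 h3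
          norm_num at h1 h2 h3
          rw [dW_add']
          have h4 : dW D (gE [ep p, ep q] [a] Z) =
              - gE [ep p, ep q] [a] (gE [ep x, ep y] [l] u) := by
            rw [h1, neg_neg]
          have h5 : dW D (gE [ep x, ep y] [l] (P [a])) =
              - gE [ep x, ep y] [l] (gE [ep p, ep q] [a] u) := by
            rw [h2, neg_neg]
          rw [h4, h5, h3]
          abel
        obtain ⟨K, hKS, -, hKd⟩ := van_st (s := 3)
          ((SS_gE hZS _ _).add (SS_gE (hPS _) _ _)) hBt hBd (by
            intro r' β'' hr' hβ''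
            refine hV r' (by omega) (2 * D + b - 2) β'' (by omega) ?_
            have h1 : dg β'' + dg γ' = dg β := by rw [← dg_add, hβ'']
            rw [hβ, hdγ', ← hr'] at h1
            have h2 : (r' + 3) * D = r' * D + 3 * D := by ring
            omega)
        exact ⟨K, hKS, hKd⟩
      have hB1 := hB a1 ha1 hP1 hP1'
      have hB2 := hB a2 ha2 hP2 hP2'
      -- the contraction of G
      have hmain : gE [ep x, ep y] [l] G = dW D (gE [ep p, ep q] [a1, a2] Z) -
          (sg a1 (gE [ep p, ep q] [a2] Z + gE [ep x, ep y] [l] (P [a2])) +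
            sg a2 (gE [ep p, ep q] [a1] Z + gE [ep x, ep y] [l] (P [a1]))) := by
        have h1 := gE_gE hSS [ep x, ep y] [l] [ep p, ep q] [a1, a2]
        have h2 := gE_dW_eq (hd2 p q hok) rfl Z
        rw [hZd] at h2
        simp only [List.length_cons, List.length_nil, sp] at h1 h2
        norm_num at h1 h2
        rw [hG, gE_sub, gE_add, gE_sg, gE_sg, h1, h2, sg_add, sg_add]
        abel
      rw [hmain]
      refine Cb_sub ⟨_, SS_gE hZS _ _, rfl⟩ (Cb_add (Cb_sg hB2 a1) (Cb_sg hB1 a2))

end Pool.Agent.H69.VT
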