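import Pool.Agent.H69.VT.T1
import Pool.Agent.H69.VT.T2
import Pool.Agent.H69.VT.T5

/-!
Project VT, row T9: two variables, products of contractions.
-/

set_option linter.unusedSectionVars false

namespace Pool.Agent.H69.VT

open scoped BigOperators
open Pool.Agent.H69.VS

variable {σ : Type} [Fintype σ] [DecidableEq σ]

/-- products of two-column contractions -/
def eP (x y : σ) : List (σ → ℕ) → Fn σ → Fn σ
  | [], u => u
  | l :: ls, u => eP x y ls (gE [ep x, ep y] [l] u)

namespace T9X

theorem dg_nul : dg (0 : σ → ℕ) = 0 := by simp [dg]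

/-! ### the products -/

theorem eP_zero (x y : σ) (ls : List (σ → ℕ)) : eP x y ls (0 : Fn σ) = 0 := by
  induction ls with
  | nil => rfl
  | cons l ls ih => rw [eP, gE_zero, ih]

theorem eP_sub (x y : σ) (ls : List (σ → ℕ)) (F G : Fn σ) :
    eP x y ls (F - G) = eP x y ls F - eP x y ls G := by
  induction ls generalizing F G with
  | nil => rfl
  | cons l ls ih => rw [eP, gE_sub, ih]; rfl

theorem eP_neg (x y : σ) (ls : List (σ → ℕ)) (F : Fn σ) :
    eP x y ls (-F) = - eP x y ls F := by
  have h := eP_sub x y ls 0 F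
  rwa [eP_zero, zero_sub, zero_sub] at h

theorem eP_sg (x y : σ) (g : σ → ℕ) (ls : List (σ → ℕ)) (F : Fn σ) :
    eP x y ls (sg g F) = sg g (eP x y ls F) := by
  induction ls generalizing F with
  | nil => rfl
  | cons l ls ih => rw [eP, gE_sg, ih]; rfl

theorem eP_swap (x y : σ) (l l' : σ → ℕ) (ls : List (σ → ℕ)) {u : Fn σ} (h : SS u) :
    eP x y (l :: l' :: ls) u = - eP x y (l' :: l :: ls) u := by
  simp only [eP]
  rw [gE_gE h, ← eP_neg]
  simp

theorem eP_two (x y : σ) (l : σ → ℕ) (ls : List (σ → ℕ)) {u : Fn σ} (h : SS u) :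
    eP x y (l :: l :: ls) u = 0 := by
  have h1 := eP_swap x y l l ls h
  funext w f
  have h2 := congrFun (congrFun h1 w) f
  simp only [Pi.neg_apply] at h2
  have h3 : (2 : ℂ) * eP x y (l :: l :: ls) u w f = 0 := by linear_combination h2
  rcases mul_eq_zero.mp h3 with h4 | h4
  · norm_num at h4
  · exact h4

theorem eP_mem (x y : σ) (l : σ → ℕ) : ∀ (ls : List (σ → ℕ)) {u : Fn σ}, SS u → l ∈ ls →
    eP x y (l :: ls) u = 0
  | [], _, _, hm => absurd hm List.not_mem_nil
  | a :: R, u, h, hm => by
    by_cases ha : a = l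
    · rw [ha]; exact eP_two x y l R h
    · have hR : l ∈ R := by
        rcases List.mem_cons.mp hm with h1 | h1
        · exact absurd h1.symm ha
        · exact h1
      rw [eP_swap x y l a R h]
      have h2 := eP_mem x y l R (SS_gE h [ep x, ep y] [a]) hR
      have h3 : eP x y (a :: l :: R) u = eP x y (l :: R) (gE [ep x, ep y] [a] u) := rfl
      rw [h3, h2, neg_zero]

theorem eP_rep (x y : σ) : ∀ (ls : List (σ → ℕ)) {u : Fn σ}, SS u → ¬ ls.Nodup →
    eP x y ls u = 0
  | [], _, _, hm => absurd List.nodup_nil hm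
  | a :: R, u, h, hm => by
    by_cases ha : a ∈ R
    · exact eP_mem x y a R h ha
    · have hR : ¬ R.Nodup := fun h1 => hm (List.nodup_cons.mpr ⟨ha, h1⟩)
      exact eP_rep x y R (SS_gE h [ep x, ep y] [a]) hR

theorem eP_St (x y : σ) {D t : ℕ} {β : σ → ℕ} : ∀ (ls : List (σ → ℕ)) {s : ℕ} {γ : σ → ℕ}
    {F : Fn σ}, St D s t γ β F → ok D ls →
    ∃ γ' : σ → ℕ, dg γ' = dg γ + ls.length * (D + 1) ∧ St D (s + ls.length) t γ' β (eP x y ls F)
  | [], s, γ, F, h, _ => ⟨γ, by simp, h⟩
  | l :: ls, s, γ, F, h, ho => by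
    have h1 := St_gE h [ep x, ep y] [l] (Or.inr rfl)
    obtain ⟨γ', h2, h3⟩ := eP_St x y ls h1 (fun a ha => ho a (List.mem_cons_of_mem _ ha))
    refine ⟨γ', ?_, ?_⟩
    · rw [h2]
      have h4 := ho l List.mem_cons_self
      simp only [List.sum_cons, List.sum_nil, add_zero, dg_add, dg_ep, List.length_cons]
      rw [← h4]; ring
    · have h5 : s + (l :: ls).length = s + [l].length + ls.length := by
        simp only [List.length_cons, List.length_nil]; omega
      rw [h5]; exact h3

theorem eP_out (x y : σ) {D t : ℕ} {β : σ → ℕ} {z : σ} (hβ : β z = 0) {l : σ → ℕ}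
    (hl : l z ≠ 0) : ∀ (ls : List (σ → ℕ)) {s : ℕ} {γ : σ → ℕ}
    {F : Fn σ}, St D s t γ β F → l ∈ ls → eP x y ls F = 0
  | [], s, γ, F, _, hm => absurd hm List.not_mem_nil
  | a :: R, s, γ, F, h, hm => by
    by_cases ha : a = l
    · have h1 : gE [ep x, ep y] [a] F = 0 :=
        gE_out h List.mem_cons_self (by rw [ha]; exact hl) hβ
      rw [eP, h1, eP_zero]
    · have hR : l ∈ R := by
        rcases List.mem_cons.mp hm with h1 | h1
        · exact absurd h1.symm ha
        · exact h1
      exact eP_out x y hβ hl R (St_gE h [ep x, ep y] [a] (Or.inr rfl)) hR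

theorem su_eP (x y : σ) (ls : List (σ → ℕ)) {u : Fn σ} (h : SS u) :
    su (fun l R => eP x y (l :: R) u) ls = (ls.length : ℂ) • eP x y ls u := by
  induction ls generalizing u with
  | nil => simp [su]
  | cons a C ih =>
    have h1 : su (fun v R => eP x y (v :: a :: R) u) C =
        - su (fun v R => eP x y (v :: R) (gE [ep x, ep y] [a] u)) C := by
      rw [← su_neg]
      refine su_congr (fun v R => ?_) C
      rw [eP_swap x y v a R h]; rfl
    simp only [su]
    rw [h1, ih (SS_gE h _ _)]
    have h2 : eP x y C (gE [ep x, ep y] [a] u) = eP x y (a :: C) u := rfl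
    rw [h2, List.length_cons]
    push_cast
    module

/-! ### the signed sum over the letters -/

/-- signed sum over the choice of `x` or `y` -/
def SE (x y : σ) : ℕ → (σ → ℕ) → (List (σ → ℕ) → (σ → ℕ) → Fn σ) → Fn σ
  | 0, c, Ψ => Ψ [] c
  | n + 1, c, Ψ => SE x y n (c + ep y) (fun R c => Ψ (ep x :: R) c) -
      SE x y n (c + ep x) (fun R c => Ψ (ep y :: R) c)

theorem SE_shift (x y : σ) (a : σ → ℕ) : ∀ (n : ℕ) (h : σ → ℕ)
    (Ψ : List (σ → ℕ) → (σ → ℕ) → Fn σ),
    SE x y n (h + a) Ψ = SE x y n h (fun R c => Ψ R (c + a))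
  | 0, h, Ψ => rfl
  | n + 1, h, Ψ => by
    simp only [SE]
    rw [add_right_comm h a (ep y), add_right_comm h a (ep x), SE_shift x y a n,
      SE_shift x y a n]

theorem SE_sub (x y : σ) : ∀ (n : ℕ) (h : σ → ℕ)
    (Ψ Φ : List (σ → ℕ) → (σ → ℕ) → Fn σ),
    SE x y n h (fun R c => Ψ R c - Φ R c) = SE x y n h Ψ - SE x y n h Φ
  | 0, h, Ψ, Φ => rfl
  | n + 1, h, Ψ, Φ => by
    simp only [SE]
    rw [SE_sub x y n, SE_sub x y n]
    abel

theorem SE_zero (x y : σ) : ∀ (n : ℕ) (h : σ → ℕ), SE x y n h (fun _ _ => (0 : Fn σ)) = 0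
  | 0, h => rfl
  | n + 1, h => by
    simp only [SE]
    rw [SE_zero x y n, SE_zero x y n, sub_zero]

theorem SE_su (x y : σ) (n : ℕ) (h : σ → ℕ) (ls : List (σ → ℕ)) :
    ∀ (Φ : (σ → ℕ) → List (σ → ℕ) → List (σ → ℕ) → (σ → ℕ) → Fn σ),
    SE x y n h (fun R c => su (fun l R' => Φ l R' R c) ls) =
      su (fun l R' => SE x y n h (Φ l R')) ls := by
  induction ls with
  | nil => intro Φ; simp only [su]; exact SE_zero x y n h
  | cons a C ih =>
    intro Φ
    simp only [su]
    rw [SE_sub, ih (fun l R' => Φ l (a :: R'))]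

theorem SE_van (x y : σ) (f : σ → ℕ) : ∀ (n : ℕ) (h : σ → ℕ)
    (Ψ : List (σ → ℕ) → (σ → ℕ) → Fn σ),
    (∀ R c, R.length = n → (∀ r ∈ R, r = ep x ∨ r = ep y) → dg c = dg h + n →
      (∀ z, z ≠ x → z ≠ y → h z = 0 → c z = 0) → Ψ R c [] f = 0) →
    SE x y n h Ψ [] f = 0
  | 0, h, Ψ, hy => hy [] h rfl (fun r hr => absurd hr List.not_mem_nil) rfl
      (fun z _ _ h0 => h0)
  | n + 1, h, Ψ, hy => by
    have key : ∀ a b : σ, (a = x ∨ a = y) → (b = x ∨ b = y) →
        SE x y n (h + ep b) (fun R c => Ψ (ep a :: R) c) [] f = 0 := by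
      intro a b ha hb
      refine SE_van x y f n (h + ep b) _ (fun R c h1 h2 h3 h4 => ?_)
      refine hy (ep a :: R) c (by rw [List.length_cons, h1]) ?_ ?_ ?_
      · intro r hr
        rcases List.mem_cons.mp hr with h5 | h5
        · rcases ha with ha | ha
          · left; rw [h5, ha]
          · right; rw [h5, ha]
        · exact h2 r h5
      · rw [h3, dg_add, dg_ep]; omega
      · intro z hzx hzy h0
        apply h4 z hzx hzy
        have hzb : z ≠ b := by
          rcases hb with hb | hb
          · rw [hb]; exact hzx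
          · rw [hb]; exact hzy
        simp [ep, h0, hzb]
    have e1 := key x y (Or.inl rfl) (Or.inr rfl)
    have e2 := key y x (Or.inr rfl) (Or.inl rfl)
    simp only [SE, Pi.sub_apply]
    rw [e1, e2, sub_zero]

theorem gE_C (x y : σ) (l : σ → ℕ) (u : Fn σ) :
    gE [ep x, ep y] [l] u = sg (ep y) (Af (Lt.E (l + ep x)) u) -
      sg (ep x) (Af (Lt.E (l + ep y)) u) := by
  simp only [gE, su, gN, sub_zero]
  rw [add_comm (ep x) l, add_comm (ep y) l]

theorem sg_add_exp (g g' : σ → ℕ) (F : Fn σ) : sg (g + g') F = sg g (sg g' F) := by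
  funext w f; simp only [sg]; congr 1; abel

theorem Spl (x y : σ) : ∀ (n : ℕ) (h : σ → ℕ) (ls : List (σ → ℕ)) (u : Fn σ), SS u →
    ls.length = n → SE x y n h (fun R c => gE (c :: ls) R u) =
      ((-1 : ℂ) ^ n * (n.factorial : ℂ)) • sg h (eP x y ls u)
  | 0, h, ls, u, hu, hl => by
    have h1 : ls = [] := List.length_eq_zero_iff.mp hl
    subst h1
    simp only [SE, gE, gN, eP, pow_zero, Nat.factorial_zero, Nat.cast_one, mul_one, one_smul]
  | n + 1, h, ls, u, hu, hl => by
    have e0 : ∀ (e : σ → ℕ) (R : List (σ → ℕ)) (c : σ → ℕ), gE (c :: ls) (e :: R) u =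
        gE ls R (Af (Lt.E (c + e)) u) -
          su (fun l R' => gE (c :: R') R (Af (Lt.E (l + e)) u)) ls := fun e R c => rfl
    have key : ∀ (g a : σ), SE x y n (h + ep a) (fun R c => su (fun l R' => gE (c :: R') R
        (Af (Lt.E (l + ep g)) u)) ls) = su (fun l R' => ((-1 : ℂ) ^ n * (n.factorial : ℂ)) •
        sg h (eP x y R' (sg (ep a) (Af (Lt.E (l + ep g)) u)))) ls := by
      intro g a
      rw [SE_su x y n (h + ep a) ls (fun l R' R c => gE (c :: R') R (Af (Lt.E (l + ep g)) u))]
      refine su_congr_mem (fun l R' hp => ?_)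
      have hlen : R'.length = n := by
        have := hp.length_eq
        rw [List.length_cons, hl] at this
        omega
      rw [Spl x y n (h + ep a) R' _ (hu.af _) hlen, sg_add_exp, eP_sg]
    simp only [SE, e0]
    rw [SE_sub, SE_sub, key x y, key y x]
    have e1 : SE x y n (h + ep y) (fun R c => gE ls R (Af (Lt.E (c + ep x)) u)) =
        SE x y n (h + ep x) (fun R c => gE ls R (Af (Lt.E (c + ep y)) u)) := by
      rw [SE_shift, SE_shift]
      simp only [add_assoc, add_comm (ep y) (ep x)]
    rw [e1]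
    have e2 : su (fun l R' => eP x y (l :: R') u) ls = (ls.length : ℂ) • eP x y ls u :=
      su_eP x y ls hu
    have e3 : su (fun l R' => ((-1 : ℂ) ^ n * (n.factorial : ℂ)) •
        sg h (eP x y R' (sg (ep y) (Af (Lt.E (l + ep x)) u)))) ls -
        su (fun l R' => ((-1 : ℂ) ^ n * (n.factorial : ℂ)) •
        sg h (eP x y R' (sg (ep x) (Af (Lt.E (l + ep y)) u)))) ls =
        ((-1 : ℂ) ^ n * (n.factorial : ℂ)) • sg h ((ls.length : ℂ) • eP x y ls u) := by
      rw [← e2, ← su_sub]
      have e4 : sg h (su (fun l R' => eP x y (l :: R') u) ls) =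
          su (fun l R' => sg h (eP x y (l :: R') u)) ls := (su_map (sgh h) _ ls).symm
      rw [e4, ← su_smul]
      refine su_congr (fun l R' => ?_) ls
      rw [← smul_sub]
      congr 1
      have e5 : eP x y (l :: R') u = eP x y R' (gE [ep x, ep y] [l] u) := rfl
      rw [e5, gE_C, eP_sub]
      rfl
    have e6 : ∀ A B C : Fn σ, A - B - (A - C) = -(B - C) := fun A B C => by abel
    rw [e6, e3, hl]
    have e7 : sg h ((((n + 1 : ℕ) : ℂ)) • eP x y ls u) =
        (((n + 1 : ℕ) : ℂ)) • sg h (eP x y ls u) := rfl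
    rw [e7, smul_smul, ← neg_smul, Nat.factorial_succ]
    congr 1
    push_cast
    ring

/-! ### small things -/

theorem split : ∀ (m : ℕ) (f : σ → ℕ), m ≤ dg f → ∃ g h : σ → ℕ, f = g + h ∧ dg h = m
  | 0, f, _ => ⟨f, 0, by simp, dg_nul⟩
  | m + 1, f, hm => by
    obtain ⟨g, h, h1, h2⟩ := split m f (by omega)
    have h3 : dg g ≠ 0 := by
      intro h4
      rw [h1, dg_add] at hm
      omega
    obtain ⟨i, hi⟩ : ∃ i, g i ≠ 0 := by
      by_contra hn
      push Not at hn
      exact h3 (by simp [dg, hn])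
    refine ⟨g - ep i, h + ep i, ?_, ?_⟩
    · rw [h1]
      funext z
      by_cases hz : z = i
      · subst hz; simp [ep]; omega
      · simp [ep, hz]
    · rw [dg_add, dg_ep, h2]

theorem card_le {x y : σ} (hxy : x ≠ y) {D : ℕ} {ls : List (σ → ℕ)}
    (hn : ls.Nodup) (ho : ok D ls) (hs : ∀ l ∈ ls, ∀ z, z ≠ x → z ≠ y → l z = 0) :
    ls.length ≤ D := by
  have hd : ∀ l ∈ ls, l x + l y + 1 = D := by
    intro l hl
    have h1 := ho l hl
    have h2 : dg l = l x + l y := by
      unfold dg
      rw [← Finset.sum_subset (Finset.subset_univ {x, y}), Finset.sum_pair hxy]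
      intro z _ hz
      simp only [Finset.mem_insert, Finset.mem_singleton, not_or] at hz
      exact hs l hl z hz.1 hz.2
    rw [← h1, h2]
  have hinj : ∀ l ∈ ls, ∀ l' ∈ ls, l x = l' x → l = l' := by
    intro l hl l' hl' he
    funext z
    by_cases hzx : z = x
    · rw [hzx]; exact he
    · by_cases hzy : z = y
      · rw [hzy]
        have h1 := hd l hl
        have h2 := hd l' hl'
        omega
      · rw [hs l hl z hzx hzy, hs l' hl' z hzx hzy]
  have hnd : (ls.map (fun l => l x)).Nodup := by
    refine (List.nodup_map_iff_inj_on hn).mpr ?_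
    intro a ha b hb hab
    exact hinj a ha b hb hab
  have h3 : (ls.map (fun l => l x)).toFinset ⊆ Finset.range D := by
    intro v hv
    rw [List.mem_toFinset, List.mem_map] at hv
    obtain ⟨l, hl, rfl⟩ := hv
    have := hd l hl
    exact Finset.mem_range.mpr (by omega)
  have h4 := Finset.card_le_card h3
  rw [List.toFinset_card_of_nodup hnd, List.length_map, Finset.card_range] at h4
  exact h4

end T9X

open T9X in
/-- (W2) -/
theorem W2 {D t j : ℕ} (hD : 1 ≤ D) {x y : σ} (hxy : x ≠ y) {β : σ → ℕ} {u : Fn σ}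
    (hu : Ev D t β u) (hs : ∀ z, β z ≠ 0 → z = x ∨ z = y) (hβ : dg β = t * D + j) (hj : D ≤ j)
    (hz : Hz D u) : ∀ ls : List (σ → ℕ), ok D ls → ls.length = t → ∀ f, eP x y ls u [] f = 0 := by
  intro ls ho hl f
  obtain ⟨hS, hSp, hdu⟩ := hu
  by_contra hne
  have hne' : eP x y ls u ≠ 0 := fun h => hne (by rw [h]; rfl)
  have hSt := St_of_Sp hSp
  -- labels are supported on the two variables and distinct
  have hsup : ∀ l ∈ ls, ∀ z, z ≠ x → z ≠ y → l z = 0 := by
    intro l hlm z hzx hzy
    by_contra h0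
    have hb : β z = 0 := by
      by_contra h1
      rcases hs z h1 with h2 | h2
      · exact hzx h2
      · exact hzy h2
    exact hne' (eP_out x y hb h0 ls hSt hlm)
  have hnd : ls.Nodup := by
    by_contra h0
    exact hne' (eP_rep x y ls hS h0)
  have hle := card_le hxy hnd ho hsup
  rcases Nat.lt_or_ge t D with htD | htD
  · -- few letters
    obtain ⟨γ', g1, g2⟩ := eP_St x y ls hSt ho
    obtain ⟨a1, a2, a3, a4⟩ := g2 [] f hne
    have hdf : dg f + t = j := by
      have h5 := congrArg dg a3
      rw [dg_add, dg_add, g1, hβ, hl] at h5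
      have h6 : dg (md ([] : List (Lt σ))) = 0 := dg_nul
      have h7 : dg (0 : σ → ℕ) = 0 := dg_nul
      rw [h6, h7] at h5
      have h8 : t * (D + 1) = t * D + t := by ring
      omega
    obtain ⟨g, h, e1, e2⟩ := split (D - 1 - t) f (by omega)
    have h9 := Spl x y t h ls u hS hl
    have h10 : SE x y t h (fun R c => gE (c :: ls) R u) [] g = 0 := by
      refine SE_van x y g t h _ (fun R c h1 h2 h3 h4 => ?_)
      refine hz g R (c :: ls) (by rw [List.length_cons, hl, h1]) ?_ ?_
      · intro r hr
        rcases h2 r hr with h5 | h5 <;> rw [h5, dg_ep]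
      · intro a ha
        rcases List.mem_cons.mp ha with h5 | h5
        · rw [h5, h3, e2]; omega
        · exact ho a h5
    rw [h9] at h10
    have h11 : ((-1 : ℂ) ^ t * (t.factorial : ℂ)) * eP x y ls u [] (g + h) = 0 := h10
    rw [← e1] at h11
    rcases mul_eq_zero.mp h11 with h12 | h12
    · rcases mul_eq_zero.mp h12 with h13 | h13
      · exact absurd h13 (pow_ne_zero _ (by norm_num))
      · exact absurd h13 (Nat.cast_ne_zero.mpr (Nat.factorial_ne_zero t))
    · exact hne h12
  · have htD' : t = D := by omega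
    cases ls with
    | nil => simp at hl; omega
    | cons l ls =>
      have hlen : ls.length = D - 1 := by
        rw [List.length_cons] at hl; omega
      have hS' : SS (gE [ep x, ep y] [l] u) := SS_gE hS _ _
      have h9 := Spl x y (D - 1) 0 ls _ hS' hlen
      have ho' : ok D ls := fun a ha => ho a (List.mem_cons_of_mem _ ha)
      have hol : dg l + 1 = D := ho l List.mem_cons_self
      have h10 : SE x y (D - 1) 0 (fun R c => gE (c :: ls) R (gE [ep x, ep y] [l] u)) [] f = 0 := by
        refine SE_van x y f (D - 1) 0 _ (fun R c h1 h2 h3 h4 => ?_)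
        have hc : c ∈ l :: ls := by
          by_contra hc
          have hn2 : (c :: l :: ls).Nodup := List.nodup_cons.mpr ⟨hc, hnd⟩
          have h5 := card_le (D := D) hxy hn2 ?_ ?_
          · rw [List.length_cons, hl] at h5; omega
          · intro a ha
            rcases List.mem_cons.mp ha with h6 | h6
            · rw [h6, h3, dg_nul]; omega
            · exact ho a h6
          · intro a ha
            rcases List.mem_cons.mp ha with h6 | h6
            · rw [h6]; intro z z1 z2; exact h4 z z1 z2 rfl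
            · exact hsup a h6
        rcases List.mem_cons.mp hc with h6 | h6
        · rw [h6]
          have hR1 : ∀ r ∈ R, dg r = 1 := by
            intro r hr
            rcases h2 r hr with h5 | h5 <;> rw [h5, dg_ep]
          have h7 := rel4 (D := D) hS hdu (C := [ep x, ep y]) (al := [l, l]) (ls := ls) (ys := R)
            rfl (by rw [hlen, h1]) ?_ ?_ hR1 ho' f
          · have h8 : sp (fun y' R' => gE ls R' (gE (y' :: [ep x, ep y]) [l, l] u)) R = 0 := by
              have h8' : sp (fun y' R' => gE ls R' (gE (y' :: [ep x, ep y]) [l, l] u)) R =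
                  sp (fun (_ : σ → ℕ) (_ : List (σ → ℕ)) => (0 : Fn σ)) R := by
                refine sp_congr_mem (fun a R' hp => ?_)
                have ha : a ∈ R := hp.subset List.mem_cons_self
                have h11 : ¬ (a :: [ep x, ep y]).Nodup := by
                  rcases h2 a ha with h5 | h5 <;> rw [h5] <;> simp
                rw [gE_rep h11, gE_zero]
              rw [h8', sp_zero]
            rw [h8] at h7
            have h12 : sp (fun a R' => gE (a :: ls) R (gE [ep x, ep y] R' u)) [l, l] [] f =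
                2 * gE (l :: ls) R (gE [ep x, ep y] [l] u) [] f := by
              simp only [sp, Pi.add_apply, Pi.zero_apply]
              ring
            rw [h12] at h7
            have h13 : (2 : ℂ) * gE (l :: ls) R (gE [ep x, ep y] [l] u) [] f = 0 := by
              rw [h7]; simp
            rcases mul_eq_zero.mp h13 with h14 | h14
            · norm_num at h14
            · exact h14
          · intro a ha
            simp only [List.mem_cons, List.not_mem_nil, or_false] at ha
            rcases ha with h5 | h5 <;> rw [h5, dg_ep]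
          · intro a ha
            simp only [List.mem_cons, List.not_mem_nil, or_false, or_self] at ha
            rw [ha]; exact hol
        · have h11 : ¬ (c :: ls).Nodup := fun h5 => (List.nodup_cons.mp h5).1 h6
          rw [gE_rep h11]; rfl
      rw [h9] at h10
      have h11 : ((-1 : ℂ) ^ (D - 1) * ((D - 1).factorial : ℂ)) *
          eP x y (l :: ls) u [] (f + 0) = 0 := h10
      rw [add_zero] at h11
      rcases mul_eq_zero.mp h11 with h12 | h12
      · rcases mul_eq_zero.mp h12 with h13 | h13
        · exact absurd h13 (pow_ne_zero _ (by norm_num))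
        · exact absurd h13 (Nat.cast_ne_zero.mpr (Nat.factorial_ne_zero _))
      · exact hne h12

end Pool.Agent.H69.VT
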