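import Pool.Agent.H69.VT.T1
import Pool.Agent.H69.VT.T2
import Pool.Agent.H69.VT.T3
import Pool.Agent.H69.VT.T4
import Pool.Agent.H69.VT.T5
import Pool.Agent.H69.VT.T6
import Pool.Agent.H69.VT.T7
import Pool.Agent.H69.VT.T9

/-!
Project VT (MP_fb19ec), row T10: a closed function of a weight in one variable is a boundary, and
a closed function of a weight in two variables is a boundary when all products of contractions
vanish.
-/

set_option linter.unusedSectionVars false

namespace Pool.Agent.H69.VT

open scoped BigOperators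
open Pool.Agent.H69.VS

variable {σ : Type} [Fintype σ] [DecidableEq σ]

namespace T10X

/-! ### linearity of the products -/

theorem eP_add (x y : σ) (ls : List (σ → ℕ)) (F G : Fn σ) :
    eP x y ls (F + G) = eP x y ls F + eP x y ls G := by
  induction ls generalizing F G with
  | nil => rfl
  | cons l ls ih => simp only [eP, gE_add, ih]

theorem eP_smul (x y : σ) (ls : List (σ → ℕ)) (c : ℂ) (F : Fn σ) :
    eP x y ls (c • F) = c • eP x y ls F := by
  induction ls generalizing F with
  | nil => rfl
  | cons l ls ih => simp only [eP, gE_smul, ih]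

theorem eP_neg (x y : σ) (ls : List (σ → ℕ)) (F : Fn σ) :
    eP x y ls (-F) = - eP x y ls F := by
  induction ls generalizing F with
  | nil => rfl
  | cons l ls ih => simp only [eP, gE_neg, ih]

theorem eP_sg (x y : σ) (ls : List (σ → ℕ)) (g : σ → ℕ) (F : Fn σ) :
    eP x y ls (sg g F) = sg g (eP x y ls F) := by
  induction ls generalizing F with
  | nil => rfl
  | cons l ls ih => simp only [eP, gE_sg, ih]

theorem eP_Cb {D : ℕ} (x y : σ) : ∀ (ls : List (σ → ℕ)), ok D ls → ∀ F : Fn σ, Cb D F →
    Cb D (eP x y ls F)
  | [], _, _, h => h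
  | l :: ls, hl, F, h => by
    have h1 : ok D [l] := fun a ha => by
      rw [List.mem_singleton.1 ha]
      exact hl l List.mem_cons_self
    exact eP_Cb x y ls (fun a ha => hl a (List.mem_cons_of_mem _ ha)) _
      (Cb_gE (T7X.hd2 x y h1) rfl h)

theorem Cb_nil {D : ℕ} {F : Fn σ} (h : Cb D F) (f : σ → ℕ) : F [] f = 0 := by
  obtain ⟨G, -, rfl⟩ := h
  exact dW_nil D G f

/-! ### polarizations of the products -/

theorem gE_Re2 {x y j k : σ} (hjk : j ≠ k) (hj : j = x ∨ j = y) (hk : k = x ∨ k = y)
    (l : σ → ℕ) (F : Fn σ) :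
    gE [ep x, ep y] [l] (Re j k F) = Re j k (gE [ep x, ep y] [l] F) +
      (l j : ℂ) • gE [ep x, ep y] [l - ep j + ep k] F := by
  rw [gE_Re hjk]
  have h1 : dL j k (fun A => gE A [l] F) [ep x, ep y] = 0 := by
    simp only [dL, add_zero]
    have e0 : ∀ z : σ, gE [ep z, ep z] [l] F = 0 := fun z => gE_rep (by simp) _ _
    have e1 : ∀ z k : σ, (ep z : σ → ℕ) - ep z + ep k = ep k := by
      intro z k
      rw [tsub_self, zero_add]
    rcases hj with rfl | rfl <;> rcases hk with rfl | rfl
    · exact absurd rfl hjk
    · rw [e1, e0]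
      have e2 : (ep k : σ → ℕ) j = 0 := by
        simp [ep, hjk]
      rw [e2]
      simp
    · rw [e1, e0]
      have e2 : (ep k : σ → ℕ) j = 0 := by
        simp [ep, hjk]
      rw [e2]
      simp
    · exact absurd rfl hjk
  rw [h1]
  simp only [dL, add_zero]

theorem eP_Re {x y j k : σ} (hjk : j ≠ k) (hj : j = x ∨ j = y) (hk : k = x ∨ k = y)
    (ls : List (σ → ℕ)) (F : Fn σ) :
    eP x y ls (Re j k F) = Re j k (eP x y ls F) + dL j k (fun R => eP x y R F) ls := by
  induction ls generalizing F with
  | nil => simp [eP, dL]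
  | cons l ls ih =>
    simp only [eP, dL]
    rw [gE_Re2 hjk hj hk, eP_add, eP_smul, ih]
    abel

theorem Re_nil {j k : σ} {G : Fn σ} (h : ∀ f, G [] f = 0) (f : σ → ℕ) : Re j k G [] f = 0 := by
  simp [Re, rW, ta, sg, h]

theorem dL_van {D : ℕ} {j k : σ} (hjk : j ≠ k) : ∀ (ls : List (σ → ℕ))
    (g : List (σ → ℕ) → Fn σ), ok D ls →
    (∀ ls' : List (σ → ℕ), ok D ls' → ls'.length = ls.length → ∀ f, g ls' [] f = 0) →
    ∀ f, dL j k g ls [] f = 0
  | [], g, _, _, f => by simp [dL]
  | l :: ls, g, hl, h, f => by
    have hl1 : dg l + 1 = D := hl l List.mem_cons_self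
    have hls : ok D ls := fun a ha => hl a (List.mem_cons_of_mem _ ha)
    simp only [dL, Pi.add_apply, Pi.smul_apply, smul_eq_mul]
    have h2 : dL j k (fun R => g (l :: R)) ls [] f = 0 := by
      refine dL_van hjk ls _ hls (fun ls' h1 h3 f => h (l :: ls') ?_ ?_ f) f
      · intro a ha
        rcases List.mem_cons.1 ha with rfl | ha
        · exact hl1
        · exact h1 a ha
      · simp [h3]
    rw [h2, add_zero]
    by_cases h0 : l j = 0
    · rw [h0]
      simp
    · rw [h ((l - ep j + ep k) :: ls) ?_ rfl f, mul_zero]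
      intro a ha
      rcases List.mem_cons.1 ha with rfl | ha
      · rw [dg_add, dg_ep]
        have := dg_sub l j h0
        omega
      · exact hls a ha

/-! ### the identity (J) -/

theorem ident {F : Fn σ} (hF : SS F) {p q z : σ} (hz : z = p ∨ z = q) (a1 a2 : σ → ℕ) :
    sg (ep z) (gE [ep p, ep q] [a1, a2] F) =
      Af (Lt.E (ep z + a2)) (gE [ep p, ep q] [a1] F) +
        Af (Lt.E (ep z + a1)) (gE [ep p, ep q] [a2] F) := by
  have sw : ∀ e e' : σ → ℕ, Af (Lt.E e) (Af (Lt.E e') F) = - Af (Lt.E e') (Af (Lt.E e) F) :=
    fun e e' => Af_swap hF e e'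
  have s0 : ∀ e : σ → ℕ, Af (Lt.E e) (Af (Lt.E e) F) = 0 := by
    intro e
    have := sw e e
    exact self_eq_neg.1 this
  simp only [gE, gN, su, sub_zero, Af_sub, Af_sg, sg_sub]
  rcases hz with rfl | rfl
  · rw [sw (ep z + a1) (ep z + a2), sw (ep z + a1) (ep q + a2)]
    simp only [sg_neg]
    abel
  · rw [sw (ep z + a1) (ep z + a2), sw (ep z + a1) (ep p + a2)]
    simp only [sg_neg]
    abel

/-- no letters: the empty product is the function itself -/
theorem zeroCase {D : ℕ} {β : σ → ℕ} {u : Fn σ} (hu : Ev D 0 β u) (h : ∀ f, u [] f = 0) :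
    u = 0 := by
  funext w f
  by_contra hne
  obtain ⟨h1, -, -, -⟩ := hu.2.1 w f hne
  have hw : w = [] := by
    apply List.eq_nil_of_length_eq_zero
    omega
  subst hw
  exact hne (h f)

/-- type of a product -/
theorem St_eP {D t : ℕ} {β : σ → ℕ} (x y : σ) : ∀ (ls : List (σ → ℕ)) (s : ℕ) (γ : σ → ℕ)
    (F : Fn σ), ok D ls → St D s t γ β F → ∃ γ' : σ → ℕ, dg γ' = dg γ + ls.length * (D + 1) ∧
      St D (s + ls.length) t γ' β (eP x y ls F)
  | [], s, γ, F, _, h => ⟨γ, by simp, h⟩
  | l :: ls, s, γ, F, hl, h => by
    have h1 := St_gE h [ep x, ep y] [l] (Or.inr rfl)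
    obtain ⟨γ', g1, g2⟩ := St_eP x y ls _ _ _ (fun a ha => hl a (List.mem_cons_of_mem _ ha)) h1
    have hl1 : dg l + 1 = D := hl l List.mem_cons_self
    refine ⟨γ', ?_, ?_⟩
    · rw [g1]
      simp only [List.sum_cons, List.sum_nil, add_zero, dg_add, dg_ep, List.length_cons]
      have e1 : (ls.length + 1) * (D + 1) = ls.length * (D + 1) + (D + 1) := by ring
      omega
    · have e1 : s + (l :: ls).length = s + [l].length + ls.length := by
        simp only [List.length_cons, List.length_nil]
        omega
      rw [e1]
      exact g2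

/-- swapping the two variables of a contraction -/
theorem gE_sw (p q : σ) (Bs : List (σ → ℕ)) (F : Fn σ) :
    gE [ep q, ep p] Bs F = - gE [ep p, ep q] Bs F :=
  gE_swapA [] [] (ep q) (ep p) Bs F

end T10X

open T10X T7X

theorem one_var {D t : ℕ} (hD : 1 ≤ D) (ht : 1 ≤ t) {β : σ → ℕ} {u : Fn σ} (hu : Ev D t β u)
    (hc : (supp β).card ≤ 1) : Cb D u := by
  obtain ⟨hSS, hSp, hdu⟩ := hu
  obtain ⟨F', h1, h2, h3⟩ := reduce hSS hSp hdu (supp β)
  refine ⟨F', h1, ?_⟩
  have h4 : u - dW D F' = 0 := by
    funext w f
    by_contra hne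
    have g2 : Sp D 0 0 t 0 β (u - dW D F') := by
      refine hSp.sub ?_
      intro w f hne
      obtain ⟨a1, a2, a3, a4⟩ := h2.dW w f hne
      exact ⟨by omega, a2, a3, a4⟩
    obtain ⟨a1, a2, a3, a4⟩ := g2 w f hne
    match w, hne, a1, a2, a3, a4 with
    | [], _, a1, _, _, _ =>
      simp only [List.length_nil] at a1
      omega
    | Lt.T y :: w, _, _, a2, _, _ =>
      simp only [nT] at a2
      omega
    | Lt.E e :: w, hne, _, _, a3, a4 =>
      have he : dg e = D := a4 (Lt.E e) List.mem_cons_self
      have hle : ∀ z, e z ≤ β z := by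
        intro z
        have := congrFun a3 z
        simp only [md, Pi.add_apply] at this
        omega
      have h5 : ∃ i, e i ≠ 0 := by
        by_contra hn
        push Not at hn
        have : dg e = 0 := by
          unfold dg
          exact Finset.sum_eq_zero fun i _ => hn i
        omega
      obtain ⟨i, hi⟩ := h5
      have hms : ∀ z, e z ≠ 0 → z ∈ supp β := by
        intro z hz
        have := hle z
        simp only [supp, Finset.mem_filter, Finset.mem_univ, true_and]
        omega
      have huniq : ∀ z, e z ≠ 0 → z = i := fun z hz =>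
        Finset.card_le_one.1 hc z (hms z hz) i (hms i hi)
      have hei : e i = D := by
        rw [← he]
        unfold dg
        symm
        apply Finset.sum_eq_single i
        · intro z _ hz
          by_contra h6
          exact hz (huniq z h6)
        · intro h6
          exact absurd (Finset.mem_univ i) h6
      have hev : e = vx D i := by
        funext z
        by_cases hz : z = i
        · subst hz
          rw [hei]
          simp [vx]
        · have : e z = 0 := by
            by_contra h6
            exact hz (huniq z h6)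
          rw [this]
          simp [vx, hz]
      refine hne (h3 i (hms i hi) _ f (Or.inr ?_))
      rw [hev]
      exact List.mem_cons_self
  exact (sub_eq_zero.1 h4).symm

/-- (W1) -/
theorem W1 {D : ℕ} (hD : 1 ≤ D) {x y : σ} (hxy : x ≠ y) :
    ∀ (t j : ℕ) (β : σ → ℕ) (u : Fn σ), Ev D t β u → (∀ z, β z ≠ 0 → z = x ∨ z = y) →
      dg β = t * D + j → t ≤ j →
      (∀ ls : List (σ → ℕ), ok D ls → ls.length = t → ∀ f, eP x y ls u [] f = 0) → Cb D u := by
  intro t
  induction t using Nat.strong_induction_on with
  | _ t ih =>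
  intro j β u hu hs hβ htj hp
  refine testB (D := D) (t := t) (N := t * D + j) (r := 2)
    (fun β u => Ev D t β u ∧ (∀ z, β z ≠ 0 → z = x ∨ z = y) ∧
      ∀ ls : List (σ → ℕ), ok D ls → ls.length = t → ∀ f, eP x y ls u [] f = 0)
    (fun β u h => h.1) ?_ ?_ ?_ β u hβ ⟨hu, hs, hp⟩
  · -- polarizations
    intro μ j k u hjk hμ h
    obtain ⟨hu, hs, hp⟩ := h
    have hk : k = x ∨ k = y := by
      refine hs k ?_
      have : (ep k : σ → ℕ) k = 1 := by simp [ep]
      rw [Pi.add_apply, this]
      omega
    have hj : j = x ∨ j = y := by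
      refine hs j ?_
      rw [Pi.add_apply]
      omega
    refine ⟨Re_Ev hjk hu, ?_, ?_⟩
    · intro z hz
      by_cases hzj : z = j
      · rw [hzj]
        exact hj
      · refine hs z ?_
        have h1 : (ep j : σ → ℕ) z = 0 := by simp [ep, hzj]
        rw [Pi.add_apply, h1] at hz
        rw [Pi.add_apply]
        omega
    · intro ls hok hlen f
      rw [eP_Re hjk hj hk]
      have h1 : Re j k (eP x y ls u) [] f = 0 := Re_nil (hp ls hok hlen) f
      have h2 : dL j k (fun R => eP x y R u) ls [] f = 0 :=
        dL_van hjk ls _ hok (fun ls' g1 g2 f => hp ls' g1 (by rw [g2, hlen]) f) f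
      rw [Pi.add_apply, Pi.add_apply, h1, h2, add_zero]
  · -- small support
    intro β u hβ h hc
    obtain ⟨hu, hs, hp⟩ := h
    rcases Nat.eq_zero_or_pos t with h0 | h0
    · subst h0
      rw [zeroCase hu (fun f => hp [] (fun a ha => absurd ha List.not_mem_nil) rfl f)]
      exact Cb_zero D
    · exact one_var hD h0 hu (by omega)
  · -- the two columns
    intro β u L hβ h hLn hL2 hLs
    obtain ⟨hu, hs, hp⟩ := h
    obtain ⟨hSS, hSp, hdu⟩ := hu
    have hSt : St D 0 t 0 β u := St_of_Sp hSp
    obtain ⟨p, q, rfl⟩ := List.length_eq_two.1 hL2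
    have hpq : p ≠ q := by
      intro h0
      subst h0
      simp at hLn
    have hpx : p = x ∨ p = y := hs p (hLs p (by simp))
    have hqx : q = x ∨ q = y := hs q (hLs q (by simp))
    -- a contraction along [p, q] is a contraction along [x, y] up to sign
    have hsgn : ∃ c : ℂ, ∀ (Bs : List (σ → ℕ)) (F : Fn σ),
        gE [ep p, ep q] Bs F = c • gE [ep x, ep y] Bs F := by
      rcases hpx with rfl | rfl <;> rcases hqx with rfl | rfl
      · exact absurd rfl hpq
      · exact ⟨1, fun Bs F => (one_smul ℂ _).symm⟩
      · exact ⟨-1, fun Bs F => by rw [gE_sw, neg_one_smul]⟩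
      · exact absurd rfl hpq
    obtain ⟨c, hc⟩ := hsgn
    refine bdOf (m := 1) ⟨hSS, hSp, hdu⟩ [p, q] rfl hLn hLs ?_ ?_
    · intro al hal hok
      obtain ⟨l, rfl⟩ := List.length_eq_one_iff.1 hal
      have hmap : ([p, q] : List σ).map ep = ([ep p, ep q] : List (σ → ℕ)) := rfl
      rw [hmap, hc]
      refine Cb_smul ?_ c
      have hl : dg l + 1 = D := hok l (by simp)
      have h1 := St_gE hSt [ep x, ep y] [l] (Or.inr rfl)
      rcases St_cases h1 with h0 | ⟨r, β', hr, hβ', hGp⟩
      · rw [h0]
        exact Cb_zero D
      simp only [List.length_cons, List.length_nil, List.sum_cons, List.sum_nil, add_zero,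
        zero_add] at hr hβ'
      have hdW : dW D (gE [ep x, ep y] [l] u) = 0 := by
        have h2 := gE_dW_succ (hd2 x y hok) (two _ _ _) u
        rw [hdu, gE_zero] at h2
        simp only [List.length_cons, List.length_nil] at h2
        norm_num at h2
        exact h2
      have hd : dg β' + (D + 1) = dg β := by
        rw [← hβ', dg_add, dg_add, dg_add, dg_ep, dg_ep]
        omega
      have ht : t = r + 1 := hr.symm
      have hrD : (r + 1) * D = r * D + D := by ring
      have hj : 1 ≤ j := by omega
      refine ih r (by omega) (j - 1) β' _ ⟨SS_gE hSS _ _, hGp, hdW⟩ ?_ ?_ (by omega) ?_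
      · intro z hz
        refine hs z ?_
        rw [← hβ', Pi.add_apply]
        omega
      · rw [hβ, ht, hrD] at hd
        omega
      · intro ls h2 h3 f
        refine hp (l :: ls) ?_ ?_ f
        · intro a ha
          rcases List.mem_cons.1 ha with rfl | ha
          · exact hl
          · exact h2 a ha
        · rw [List.length_cons, h3, ht]
    · intro P hPS _ hP al hal hok
      obtain ⟨a1, a2, rfl⟩ := List.length_eq_two.1 hal
      have ha1 : dg a1 + 1 = D := hok a1 (by simp)
      have ha2 : dg a2 + 1 = D := hok a2 (by simp)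
      have hok1 : ok D [a1] := fun a ha => by rw [List.mem_singleton.1 ha]; exact ha1
      have hok2 : ok D [a2] := fun a ha => by rw [List.mem_singleton.1 ha]; exact ha2
      obtain ⟨hP1, hP1'⟩ := hP [a1] rfl hok1
      obtain ⟨hP2, hP2'⟩ := hP [a2] rfl hok2
      have hmap : ([p, q] : List σ).map ep = ([ep p, ep q] : List (σ → ℕ)) := rfl
      rw [hmap] at hP1 hP1' hP2 hP2' ⊢
      have hsp : sp (fun a R => sg a (P R)) [a1, a2] = sg a1 (P [a2]) + sg a2 (P [a1]) := by
        simp only [sp]
        rw [add_zero]
      rw [hsp]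
      obtain ⟨G, hG⟩ : ∃ G : Fn σ, G = gE [ep p, ep q] [a1, a2] u -
        (sg a1 (P [a2]) + sg a2 (P [a1])) := ⟨_, rfl⟩
      rw [← hG]
      obtain ⟨γ, hγ⟩ : ∃ γ : σ → ℕ, γ = ep p + ep q + a1 + a2 := ⟨_, rfl⟩
      have hGS : SS G := by
        rw [hG]
        exact (SS_gE hSS _ _).sub (((hPS _).sg _).add ((hPS _).sg _))
      have hGt : St D 2 t γ β G := by
        rw [hG]
        refine T7X.St_sub ?_ (St_add ?_ ?_)
        · have h1 := St_gE hSt [ep p, ep q] [a1, a2] (Or.inl rfl)
          have h2 : (0 : σ → ℕ) + ([ep p, ep q] : List (σ → ℕ)).sum +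
              ([a1, a2] : List (σ → ℕ)).sum = γ := by
            rw [hγ]
            simp only [List.sum_cons, List.sum_nil]
            abel
          rw [h2] at h1
          exact h1
        · have h1 := St_sg hP2 a1
          have h2 : ([ep p, ep q] : List (σ → ℕ)).sum + ([a2] : List (σ → ℕ)).sum + a1 = γ := by
            rw [hγ]
            simp only [List.sum_cons, List.sum_nil]
            abel
          rw [h2] at h1
          exact h1
        · have h1 := St_sg hP1 a2
          have h2 : ([ep p, ep q] : List (σ → ℕ)).sum + ([a1] : List (σ → ℕ)).sum + a2 = γ := by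
            rw [hγ]
            simp only [List.sum_cons, List.sum_nil]
            abel
          rw [h2] at h1
          exact h1
      have hGd : dW D G = 0 := by
        have h1 := gE_dW_eq (hd2 p q hok) rfl u
        rw [hdu, gE_zero] at h1
        simp only [List.length_cons, List.length_nil, sp] at h1
        norm_num at h1
        rw [hG, dW_sub', dW_add', dW_sg, dW_sg, hP1', hP2']
        rw [sub_eq_zero]
        rw [eq_comm, sub_eq_zero] at h1
        exact h1
      rcases St_cases hGt with h0 | ⟨r, β', hr, hβ', hGp⟩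
      · rw [h0]
        exact Cb_zero D
      have hdγ : dg γ = 2 * D := by
        rw [hγ, dg_add, dg_add, dg_add, dg_ep, dg_ep]
        omega
      have hr2 : (r + 2) * D = r * D + 2 * D := by ring
      have hdβ : dg β' + 2 * D = t * D + j := by
        rw [← hdγ, ← dg_add, hβ', hβ]
      refine ih r (by omega) j β' G ⟨hGS, hGp, hGd⟩ ?_ ?_ (by omega) ?_
      · intro z hz
        refine hs z ?_
        rw [← hβ', Pi.add_apply]
        omega
      · rw [← hr, hr2] at hdβ
        omega
      · -- the products of G
        intro ls hls hlen f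
        by_contra hne
        obtain ⟨γ', g1, g2⟩ := St_eP x y ls 2 γ G hls hGt
        obtain ⟨b1, b2, b3, b4⟩ := g2 [] f hne
        simp only [md, zero_add] at b3
        -- the monomial is not trivial
        have hdf : dg f ≠ 0 := by
          have h1 : dg f + dg γ' = dg β := by rw [← dg_add, b3]
          rw [g1, hdγ, hβ, hlen, ← hr, hr2] at h1
          have h2 : r * (D + 1) = r * D + r := by ring
          omega
        have h5 : ∃ i, f i ≠ 0 := by
          by_contra hn
          push Not at hn
          exact hdf (Finset.sum_eq_zero fun i _ => hn i)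
        obtain ⟨z, hz⟩ := h5
        have hzx : z = x ∨ z = y := by
          refine hs z ?_
          rw [← b3, Pi.add_apply]
          omega
        have hzp : z = p ∨ z = q := by
          rcases hpx with rfl | rfl <;> rcases hqx with rfl | rfl
          · exact absurd rfl hpq
          · exact hzx
          · exact hzx.symm
          · exact absurd rfl hpq
        -- the shift of G is a boundary
        have hsgG : sg (ep z) G = - dW D (Af (Lt.E (ep z + a2)) (P [a1]) +
            Af (Lt.E (ep z + a1)) (P [a2])) := by
          have c1 : cE D (ep z + a2) = 1 := by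
            unfold cE
            rw [if_pos]
            rw [dg_add, dg_ep]
            omega
          have c2 : cE D (ep z + a1) = 1 := by
            unfold cE
            rw [if_pos]
            rw [dg_add, dg_ep]
            omega
          have h1 := AE_dW D (P [a1]) (ep z + a2)
          have h2 := AE_dW D (P [a2]) (ep z + a1)
          rw [hP1', c1, one_smul] at h1
          rw [hP2', c2, one_smul] at h2
          have h3 := ident hSS hzp a1 a2
          rw [h1, h2] at h3
          have h4 : ∀ (a : σ → ℕ) (H : Fn σ), sg (ep z) (sg a H) = sg (ep z + a) H := by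
            intro a H
            funext w f
            simp only [sg]
            rw [add_assoc]
          rw [hG, sg_sub, sg_add, h3, h4, h4, dW_add']
          abel
        have hCb : Cb D (sg (ep z) G) := by
          rw [hsgG, ← dW_neg']
          exact ⟨_, (((hPS _).af _).add ((hPS _).af _)).neg, rfl⟩
        have h6 := Cb_nil (eP_Cb x y ls hls _ hCb) (f - ep z)
        rw [eP_sg] at h6
        have h7 : f - ep z + ep z = f := by
          funext i
          simp only [Pi.add_apply, Pi.sub_apply, ep]
          by_cases hi : i = z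
          · subst hi
            simp only [Pi.single_eq_same]
            omega
          · simp only [Pi.single_eq_of_ne hi]
            omega
        simp only [sg] at h6
        rw [h7] at h6
        exact hne h6

end Pool.Agent.H69.VT
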