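import Pool.Agent.H69.VT.T1
import Pool.Agent.H69.VT.T2
import Pool.Agent.H69.VT.T5
import Pool.Agent.H69.VT.T6
import Pool.Agent.H69.VT.T7

/-!
Three-column contractions.
-/

set_option linter.unusedSectionVars false

namespace Pool.Agent.H69.VT

open scoped BigOperators
open Pool.Agent.H69.VS

variable {σ : Type} [Fintype σ] [DecidableEq σ]

namespace T8X

theorem St_add {D s t : ℕ} {γ β : σ → ℕ} {F G : Fn σ} (h : St D s t γ β F)
    (h' : St D s t γ β G) : St D s t γ β (F + G) := by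
  intro w f hw
  by_cases h0 : F w f = 0
  · refine h' w f fun h1 => hw ?_
    simp only [Pi.add_apply, h0, h1, add_zero]
  · exact h w f h0

theorem St_neg {D s t : ℕ} {γ β : σ → ℕ} {F : Fn σ} (h : St D s t γ β F) :
    St D s t γ β (-F) := by
  intro w f hw
  refine h w f fun h1 => hw ?_
  simp only [Pi.neg_apply, h1, neg_zero]

theorem St_sub {D s t : ℕ} {γ β : σ → ℕ} {F G : Fn σ} (h : St D s t γ β F)
    (h' : St D s t γ β G) : St D s t γ β (F - G) := by
  rw [sub_eq_add_neg]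
  exact St_add h (St_neg h')

theorem St_eq {D s t : ℕ} {γ γ' β : σ → ℕ} {F : Fn σ} (h : St D s t γ β F) (e : γ = γ') :
    St D s t γ' β F := by
  subst e; exact h

theorem Cb_sub {D : ℕ} {F G : Fn σ} (h : Cb D F) (h' : Cb D G) : Cb D (F - G) := by
  obtain ⟨A, hA, rfl⟩ := h
  obtain ⟨B, hB, rfl⟩ := h'
  exact ⟨A - B, hA.sub hB, by rw [dW_sub']⟩

/-- the contraction corrected by the primitives -/
def Gf (L : List (σ → ℕ)) (P : List (σ → ℕ) → Fn σ) (u : Fn σ) (al : List (σ → ℕ)) : Fn σ :=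
  gE L al u - sp (fun a R => sg a (P R)) al

/-- data of the claim -/
structure Dt (D T b t : ℕ) (β : σ → ℕ) (u : Fn σ) (p q r : σ) (P : List (σ → ℕ) → Fn σ) :
    Prop where
  hD : 2 ≤ D
  hV : HV σ D T
  hb : 1 ≤ b
  ht : t ≤ T
  hβ : dg β = t * D + (D + b)
  hu : Ev D t β u
  hQ : Q3 D u
  hS : ∀ al, SS (P al)
  hp : ∀ al al' : List (σ → ℕ), al.Perm al' → P al = P al'
  hP : ∀ al : List (σ → ℕ), al.length = 2 → ok D al →
    St D 3 t (([ep p, ep q, ep r] : List (σ → ℕ)).sum + al.sum) β (P al) ∧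
      dW D (P al) = gE [ep p, ep q, ep r] al u

variable {D T b t : ℕ} {β : σ → ℕ} {u : Fn σ} {p q r : σ} {P : List (σ → ℕ) → Fn σ}

theorem ok2 {a c : σ → ℕ} (ha : dg a + 1 = D) (hc : dg c + 1 = D) : ok D [a, c] := by
  intro z hz
  rcases List.mem_pair.mp hz with rfl | rfl
  · exact ha
  · exact hc

/-- primitive of a contraction by three columns -/
theorem exZ (h : Dt D T b t β u p q r P) (k x y : σ) {a l : σ → ℕ} (ha : dg a + 1 = D)
    (hl : dg l + 1 = D) : ∃ Z : Fn σ, SS Z ∧ St D 3 t (ep k + ep x + ep y + a + l) β Z ∧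
      dW D Z = gE [ep k, ep x, ep y] [a, l] u := by
  refine cb_st (s := 2) (h.hQ k x y a l ha hl) ?_
  refine St_eq (St_gE (St_of_Sp h.hu.2.1) [ep k, ep x, ep y] [a, l] (Or.inr rfl)) ?_
  simp only [List.sum_cons, List.sum_nil, add_zero, zero_add]
  abel

/-- vanishing of the offset functions with four letters removed -/
theorem van4 (h : Dt D T b t β u p q r P) {x y : σ} {a l c : σ → ℕ} (ha : dg a + 1 = D)
    (hl : dg l + 1 = D) (hc : dg c + 1 = D) {F : Fn σ} (hF : SS F)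
    (sF : St D 4 t (ep p + ep q + ep r + ep x + ep y + a + l + c) β F) (dF : dW D F = 0) :
    ∃ G : Fn σ, SS G ∧ dW D G = F := by
  obtain ⟨G, h1, -, h2⟩ := van_st hF sF dF (by
    intro s β' hs hβ'
    refine h.hV s (by have := h.ht; omega) (2 * D + b - 2) β' (by have := h.hb; have := h.hD; omega)
      ?_
    have h3 := congrArg dg hβ'
    simp only [dg_add, dg_ep] at h3
    rw [h.hβ, ← hs] at h3
    have h4 : (s + 4) * D = s * D + 4 * D := by ring
    have := h.hb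
    have := h.hD
    omega)
  exact ⟨G, h1, h2⟩

/-- the closed function of the claim -/
theorem exW (h : Dt D T b t β u p q r P) {x y : σ} {a l c : σ → ℕ} (ha : dg a + 1 = D)
    (hl : dg l + 1 = D) (hc : dg c + 1 = D) {Zp Zq Zr : Fn σ}
    (sp1 : SS Zp) (sp2 : St D 3 t (ep p + ep x + ep y + a + l) β Zp)
    (sp3 : dW D Zp = gE [ep p, ep x, ep y] [a, l] u)
    (sq1 : SS Zq) (sq2 : St D 3 t (ep q + ep x + ep y + a + l) β Zq)
    (sq3 : dW D Zq = gE [ep q, ep x, ep y] [a, l] u)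
    (sr1 : SS Zr) (sr2 : St D 3 t (ep r + ep x + ep y + a + l) β Zr)
    (sr3 : dW D Zr = gE [ep r, ep x, ep y] [a, l] u) :
    ∃ W : Fn σ, SS W ∧ dW D W = gE [ep q, ep r] [c] Zp - gE [ep p, ep r] [c] Zq +
      gE [ep p, ep q] [c] Zr + gE [ep x, ep y] [l] (P [a, c]) +
      gE [ep x, ep y] [a] (P [l, c]) := by
  have hPa := h.hP [a, c] rfl (ok2 ha hc)
  have hPl := h.hP [l, c] rfl (ok2 hl hc)
  refine van4 (x := x) (y := y) h ha hl hc ?_ ?_ ?_
  · exact ((((SS_gE sp1 _ _).sub (SS_gE sq1 _ _)).add (SS_gE sr1 _ _)).add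
      (SS_gE (h.hS _) _ _)).add (SS_gE (h.hS _) _ _)
  · refine St_add (St_add (St_add (St_sub ?_ ?_) ?_) ?_) ?_
    · refine St_eq (St_gE sp2 [ep q, ep r] [c] (Or.inr rfl)) ?_
      simp only [List.sum_cons, List.sum_nil, add_zero]
      abel
    · refine St_eq (St_gE sq2 [ep p, ep r] [c] (Or.inr rfl)) ?_
      simp only [List.sum_cons, List.sum_nil, add_zero]
      abel
    · refine St_eq (St_gE sr2 [ep p, ep q] [c] (Or.inr rfl)) ?_
      simp only [List.sum_cons, List.sum_nil, add_zero]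
      abel
    · refine St_eq (St_gE hPa.1 [ep x, ep y] [l] (Or.inr rfl)) ?_
      simp only [List.sum_cons, List.sum_nil, add_zero]
      abel
    · refine St_eq (St_gE hPl.1 [ep x, ep y] [a] (Or.inr rfl)) ?_
      simp only [List.sum_cons, List.sum_nil, add_zero]
      abel
  · have e1 : ∀ (i j : σ) {g : σ → ℕ}, dg g + 1 = D →
        ∀ A ∈ [ep i, ep j], ∀ B ∈ [g], dg A + dg B = D := by
      intro i j g hg A hA B hB
      rw [List.mem_singleton] at hB
      subst hB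
      rcases List.mem_pair.mp hA with rfl | rfl <;> rw [dg_ep] <;> omega
    have d1 := gE_dW_succ (e1 q r hc) rfl Zp
    have d2 := gE_dW_succ (e1 p r hc) rfl Zq
    have d3 := gE_dW_succ (e1 p q hc) rfl Zr
    have d4 := gE_dW_succ (e1 x y hl) rfl (P [a, c])
    have d5 := gE_dW_succ (e1 x y ha) rfl (P [l, c])
    rw [sp3] at d1
    rw [sq3] at d2
    rw [sr3] at d3
    rw [hPa.2] at d4
    rw [hPl.2] at d5
    have z := zeta2 h.hu.1 [ep p, ep q, ep r] [c] (ep x) (ep y) a l rfl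
    simp only [su, List.length_cons, List.length_nil, zero_add, pow_one, neg_smul, one_smul,
      sub_zero] at d1 d2 d3 d4 d5 z
    simp only [dW_add', dW_sub']
    rw [d1, d2, d3] at z
    rw [d4, d5] at z
    linear_combination -z

theorem deg2 (i j : σ) {g g' : σ → ℕ} (hg : dg g + 1 = D) (hg' : dg g' + 1 = D) :
    ∀ A ∈ [ep i, ep j], ∀ B ∈ [g, g'], dg A + dg B = D := by
  intro A hA B hB
  rcases List.mem_pair.mp hA with rfl | rfl <;> rcases List.mem_pair.mp hB with rfl | rfl <;>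
    rw [dg_ep] <;> omega

theorem claim (h : Dt D T b t β u p q r P) (x y : σ) {a l b1 b2 : σ → ℕ} (ha : dg a + 1 = D)
    (hl : dg l + 1 = D) (h1 : dg b1 + 1 = D) (h2 : dg b2 + 1 = D) :
    Cb D (gE [ep x, ep y] [l] (Gf [ep p, ep q, ep r] P u [a, b1, b2]) +
      gE [ep x, ep y] [a] (Gf [ep p, ep q, ep r] P u [l, b1, b2])) := by
  obtain ⟨Zp, sp1, sp2, sp3⟩ := exZ h p x y ha hl
  obtain ⟨Zq, sq1, sq2, sq3⟩ := exZ h q x y ha hl
  obtain ⟨Zr, sr1, sr2, sr3⟩ := exZ h r x y ha hl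
  obtain ⟨W1, sW1, dW1⟩ := exW h ha hl h1 sp1 sp2 sp3 sq1 sq2 sq3 sr1 sr2 sr3
  obtain ⟨W2, sW2, dW2⟩ := exW h ha hl h2 sp1 sp2 sp3 sq1 sq2 sq3 sr1 sr2 sr3
  have hPb := h.hP [b1, b2] rfl (ok2 h1 h2)
  have d1 := gE_dW_eq (deg2 q r h1 h2) rfl Zp
  have d2 := gE_dW_eq (deg2 p r h1 h2) rfl Zq
  have d3 := gE_dW_eq (deg2 p q h1 h2) rfl Zr
  have d4 := gE_dW_eq (deg2 x y ha hl) rfl (P [b1, b2])
  rw [sp3] at d1
  rw [sq3] at d2
  rw [sr3] at d3
  rw [hPb.2] at d4
  have z := zeta1 h.hu.1 [ep p, ep q, ep r] [b1, b2] (ep x) (ep y) a l rfl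
  simp only [su, sp, List.length_cons, List.length_nil, zero_add, Nat.reduceAdd, neg_one_sq,
    one_smul, sub_zero, add_zero] at d1 d2 d3 d4 z
  refine ⟨gE [ep q, ep r] [b1, b2] Zp - gE [ep p, ep r] [b1, b2] Zq +
    gE [ep p, ep q] [b1, b2] Zr - gE [ep x, ep y] [a, l] (P [b1, b2]) - sg b1 W2 - sg b2 W1,
    ?_, ?_⟩
  · exact ((((((SS_gE sp1 _ _).sub (SS_gE sq1 _ _)).add (SS_gE sr1 _ _)).sub
      (SS_gE (h.hS _) _ _)).sub (sW2.sg _))).sub (sW1.sg _)
  · simp only [dW_add', dW_sub', dW_sg, dW1, dW2]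
    rw [d1, d2, d3, d4] at z
    simp only [Gf, sp, gE_sub, gE_add, gE_sg, add_zero, sg_add, sg_sub]
    linear_combination z

theorem Gf_swap (h : Dt D T b t β u p q r P) (a c g : σ → ℕ) (L : List (σ → ℕ)) :
    Gf L P u [a, c, g] = Gf L P u [c, a, g] := by
  have h1 : gE L [a, c, g] u = gE L [c, a, g] u := gE_permB h.hu.1 (List.Perm.swap _ _ _) L
  have h2 : P [a, c] = P [c, a] := h.hp _ _ (List.Perm.swap _ _ _)
  simp only [Gf, sp, h1, h2]
  abel

theorem claim2 (h : Dt D T b t β u p q r P) (x y : σ) {a1 a2 a3 l : σ → ℕ} (h1 : dg a1 + 1 = D)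
    (h2 : dg a2 + 1 = D) (h3 : dg a3 + 1 = D) (hl : dg l + 1 = D) :
    Cb D (gE [ep x, ep y] [l] (Gf [ep p, ep q, ep r] P u [a1, a2, a3])) := by
  have c1 := claim h x y h1 hl h2 h3
  have c2 := claim h x y h2 h1 hl h3
  have c3 := claim h x y hl h2 h1 h3
  have c4 := Cb_smul (Cb_add (Cb_sub c1 c2) c3) (1 / 2 : ℂ)
  rw [Gf_swap h a2 l a3, Gf_swap h a1 l a3, Gf_swap h a2 a1 a3] at c4
  have e : gE [ep x, ep y] [l] (Gf [ep p, ep q, ep r] P u [a1, a2, a3]) =
      (1 / 2 : ℂ) • (gE [ep x, ep y] [l] (Gf [ep p, ep q, ep r] P u [a1, a2, a3]) +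
        gE [ep x, ep y] [a1] (Gf [ep p, ep q, ep r] P u [l, a2, a3]) -
        (gE [ep x, ep y] [a1] (Gf [ep p, ep q, ep r] P u [l, a2, a3]) +
          gE [ep x, ep y] [a2] (Gf [ep p, ep q, ep r] P u [l, a1, a3])) +
        (gE [ep x, ep y] [a2] (Gf [ep p, ep q, ep r] P u [l, a1, a3]) +
          gE [ep x, ep y] [l] (Gf [ep p, ep q, ep r] P u [a1, a2, a3]))) := by
    module
  rw [e]
  exact c4

end T8X

theorem H3a {D T b t : ℕ} (hD : 2 ≤ D) (hV : HV σ D T) (hb : 1 ≤ b) (ht : t ≤ T)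
    {β : σ → ℕ} {u : Fn σ} (hβ : dg β = t * D + (D + b)) (hu : Ev D t β u) (hQ : Q3 D u)
    (L : List σ) (hL : L.length = 3) (hLn : L.Nodup) (hLs : ∀ k ∈ L, β k ≠ 0) :
    Bd D (uL L ((u, 0) : Pr σ)) := by
  obtain ⟨p, q, r, rfl⟩ := List.length_eq_three.mp hL
  refine bdOf (m := 2) hu [p, q, r] hL hLn hLs ?_ ?_
  · intro al hal hok
    obtain ⟨a, a', rfl⟩ := List.length_eq_two.mp hal
    exact hQ p q r a a' (hok a (by simp)) (hok a' (by simp))
  · intro P hS hp hP al hal hok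
    obtain ⟨a1, a2, a3, rfl⟩ := List.length_eq_three.mp hal
    have h1 : dg a1 + 1 = D := hok a1 (by simp)
    have h2 : dg a2 + 1 = D := hok a2 (by simp)
    have h3 : dg a3 + 1 = D := hok a3 (by simp)
    have h : T8X.Dt D T b t β u p q r P := ⟨hD, hV, hb, ht, hβ, hu, hQ, hS, hp, hP⟩
    change Cb D (T8X.Gf [ep p, ep q, ep r] P u [a1, a2, a3])
    have hP1 := h.hP [a2, a3] rfl (T8X.ok2 h2 h3)
    have hP2 := h.hP [a1, a3] rfl (T8X.ok2 h1 h3)
    have hP3 := h.hP [a1, a2] rfl (T8X.ok2 h1 h2)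
    have sG : SS (T8X.Gf [ep p, ep q, ep r] P u [a1, a2, a3]) := by
      refine (SS_gE hu.1 _ _).sub ?_
      exact ((hS _).sg _).add (((hS _).sg _).add (((hS _).sg _).add SS.zero))
    have tG : St D 3 t (ep p + ep q + ep r + a1 + a2 + a3) β
        (T8X.Gf [ep p, ep q, ep r] P u [a1, a2, a3]) := by
      refine T8X.St_sub ?_ ?_
      · refine T8X.St_eq (St_gE (St_of_Sp hu.2.1) [ep p, ep q, ep r] [a1, a2, a3] (Or.inl rfl)) ?_
        simp only [List.sum_cons, List.sum_nil, add_zero, zero_add]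
        abel
      · simp only [sp, add_zero]
        refine T8X.St_add ?_ (T8X.St_add ?_ ?_)
        · refine T8X.St_eq (St_sg hP1.1 a1) ?_
          simp only [List.sum_cons, List.sum_nil, add_zero]
          abel
        · refine T8X.St_eq (St_sg hP2.1 a2) ?_
          simp only [List.sum_cons, List.sum_nil, add_zero]
          abel
        · refine T8X.St_eq (St_sg hP3.1 a3) ?_
          simp only [List.sum_cons, List.sum_nil, add_zero]
          abel
    have dG : dW D (T8X.Gf [ep p, ep q, ep r] P u [a1, a2, a3]) = 0 := by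
      have hd : ∀ A ∈ [ep p, ep q, ep r], ∀ B ∈ [a1, a2, a3], dg A + dg B = D := by
        intro A hA B hB
        have hA1 : dg A = 1 := by
          simp only [List.mem_cons, List.not_mem_nil, or_false] at hA
          rcases hA with rfl | rfl | rfl <;> exact dg_ep _
        have hB1 : dg B + 1 = D := hok B hB
        omega
      have e := gE_dW_eq hd rfl u
      rw [hu.2.2, gE_zero] at e
      simp only [sp, List.length_cons, List.length_nil, zero_add, Nat.reduceAdd, add_zero] at e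
      have e3 : ((-1 : ℂ) ^ 3) = -1 := by norm_num
      rw [e3] at e
      simp only [neg_smul, one_smul] at e
      simp only [T8X.Gf, sp, add_zero, dW_sub', dW_add', dW_sg, hP1.2, hP2.2, hP3.2]
      linear_combination e
    rcases St_cases tG with h0 | ⟨s, β', hs, hβ', hsp⟩
    · rw [h0]
      exact Cb_zero D
    · refine G1 hD hV hb s β' _ (by omega) ?_ ⟨sG, hsp, dG⟩ ?_
      · have e := congrArg dg hβ'
        simp only [dg_add, dg_ep] at e
        rw [hβ, ← hs] at e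
        have h4 : (s + 3) * D = s * D + 3 * D := by ring
        omega
      · intro x y l hl
        exact T8X.claim2 h x y h1 h2 h3 hl

end Pool.Agent.H69.VT
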