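import Pool.Agent.H69.VT.TDefs
import Pool.Agent.H69.VT.T3
import Pool.Agent.H69.VT.T4
import Pool.Agent.H69.VT.T5
import Pool.Agent.H69.VT.T8
import Pool.Agent.H69.VT.T9
import Pool.Agent.H69.VT.T10

/-!
The hat criterion: a closed function with vanishing hat, whose three-column contractions are
boundaries, is a boundary.
-/

set_option linter.unusedSectionVars false

namespace Pool.Agent.H69.VT

open scoped BigOperators
open Pool.Agent.H69.VS

variable {σ : Type} [Fintype σ] [DecidableEq σ]

namespace T11X

/-- a vector has subvectors of all smaller degrees -/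
theorem exSub (β : σ → ℕ) : ∀ n : ℕ, n ≤ dg β → ∃ f l : σ → ℕ, f + l = β ∧ dg l = n := by
  intro n
  induction n with
  | zero =>
    intro _
    exact ⟨β, 0, by simp, by simp [dg]⟩
  | succ n ih =>
    intro h
    obtain ⟨f, l, hfl, hl⟩ := ih (by omega)
    have hf : dg f ≠ 0 := by
      intro h0
      have : dg β = dg f + dg l := by
        rw [← hfl]
        simp [dg, Finset.sum_add_distrib]
      omega
    have : ∃ i, f i ≠ 0 := by
      by_contra hc
      push Not at hc
      exact hf (by simp [dg, hc])
    obtain ⟨i, hi⟩ := this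
    refine ⟨f - ep i, l + ep i, ?_, ?_⟩
    · rw [← hfl]
      funext j
      simp only [Pi.add_apply, Pi.sub_apply, ep]
      by_cases hj : j = i
      · subst hj
        simp only [Pi.single_eq_same]
        omega
      · simp only [Pi.single_eq_of_ne hj]
        omega
    · have h1 : dg (ep i : σ → ℕ) = 1 := by
        simp [dg, ep]
      have h2 : dg (l + ep i) = dg l + dg (ep i : σ → ℕ) := by
        simp [dg, Finset.sum_add_distrib]
      omega

/-- no letters: the hat determines the function -/
theorem zeroCase {D b : ℕ} {β : σ → ℕ} {u : Fn σ} (hD : 1 ≤ D) (hβ : dg β = D + b)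
    (hu : Ev D 0 β u) (hz : Hz D u) : u = 0 := by
  funext w f
  by_contra h
  obtain ⟨h1, -, h3, -⟩ := hu.2.1 w f h
  have hw : w = [] := by
    apply List.eq_nil_of_length_eq_zero
    omega
  subst hw
  have hf : f = β := by
    simpa [md] using h3
  subst hf
  obtain ⟨g, l, hgl, hl⟩ := exSub f (D - 1) (by omega)
  have h4 := hz g [] [l] rfl (by simp) (by
    intro a ha
    rw [List.mem_singleton] at ha
    subst ha
    omega)
  simp only [gE, gN, sg, hgl] at h4
  exact h h4

end T11X

theorem H3 {D T b t : ℕ} (hD : 2 ≤ D) (hV : HV σ D T) (hb : 1 ≤ b) (ht : t ≤ T)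
    (htb : t ≤ D + b) {β : σ → ℕ} {u : Fn σ} (hβ : dg β = t * D + (D + b)) (hu : Ev D t β u)
    (hQ : Q3 D u) (hz : Hz D u) : Cb D u := by
  refine testB (D := D) (t := t) (N := t * D + (D + b)) (r := 3)
    (fun β u => Ev D t β u ∧ Q3 D u ∧ Hz D u) (fun β u h => h.1) ?_ ?_ ?_ β u hβ ⟨hu, hQ, hz⟩
  · intro μ j k u hjk _ h
    exact ⟨Re_Ev hjk h.1, Q3_Re hjk h.2.1, Hz_Re hjk h.2.2⟩
  · intro β u hβ h hc
    obtain ⟨hu, hQ, hz⟩ := h
    by_cases hc1 : (supp β).card ≤ 1
    · rcases Nat.eq_zero_or_pos t with h0 | h0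
      · subst h0
        rw [T11X.zeroCase (b := b) (by omega) (by omega) hu hz]
        exact Cb_zero D
      · exact one_var (by omega) h0 hu hc1
    · have hc2 : (supp β).card = 2 := by omega
      obtain ⟨x, y, hxy, hs⟩ := Finset.card_eq_two.mp hc2
      have hs' : ∀ z, β z ≠ 0 → z = x ∨ z = y := by
        intro z hz
        have : z ∈ supp β := by
          simp [supp, hz]
        rw [hs] at this
        simpa using this
      exact W1 (by omega) hxy t (D + b) β u hu hs' hβ htb
        (W2 (by omega) hxy hu hs' hβ (by omega) hz)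
  · intro β u L hβ h hLn hL hLs
    exact H3a hD hV hb ht hβ h.1 h.2.1 L hL hLn hLs

end Pool.Agent.H69.VT
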