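import Pool.Agent.H69.VT.T1
import Pool.Agent.H69.VT.T2
import Pool.Agent.H69.VT.T3
import Pool.Agent.H69.VT.T4
import Pool.Agent.H69.VT.T5
import Pool.Agent.H69.VT.T6
import Pool.Agent.H69.VT.T11
import Pool.Agent.H69.VT.T13
import Pool.Agent.H69.VS.Num

/-!
Project VT (MP_fb19ec), row T14: the induction over the columns.

All iterated contractions by columns of length at least three are boundaries (`SC`), hence the
classes in the strand `2 D - 1` vanish (`Tfin`).
-/

set_option linter.unusedSectionVars false

namespace Pool.Agent.H69.VT

open scoped BigOperators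
open Pool.Agent.H69.VS

variable {σ : Type} [Fintype σ] [DecidableEq σ]

namespace T14X

/-! ### Slots -/

/-- slots: the places of finitely many lists -/
abbrev Sl (c : ℕ) (X : ℕ → List (σ → ℕ)) : Type := Σ i : Fin (c + 3), Fin (X i).length

/-- the slots of the list `i` -/
def lst (c : ℕ) (X : ℕ → List (σ → ℕ)) (i : Fin (c + 3)) : List (Sl c X) :=
  (List.finRange (X i).length).map (Sigma.mk i)

/-- the roles -/
def role : ℕ → Rl
  | 0 => Rl.F
  | 1 => Rl.G
  | 2 => Rl.L
  | i + 3 => Rl.gr i

theorem role_inj {a b : ℕ} (h : role a = role b) : a = b := by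
  rcases a with _ | _ | _ | a <;> rcases b with _ | _ | _ | b <;> simp [role] at h ⊢
  exact h

/-- the role of a slot -/
def rho (c : ℕ) (X : ℕ → List (σ → ℕ)) (s : Sl c X) : Rl := role s.1

/-- the labels -/
def lab (c : ℕ) (X : ℕ → List (σ → ℕ)) (s : Sl c X) : σ → ℕ := (X s.1).get s.2

theorem lst_map (c : ℕ) (X : ℕ → List (σ → ℕ)) (i : Fin (c + 3)) :
    (lst c X i).map (lab c X) = X i := by
  rw [lst, List.map_map]
  exact List.map_get_finRange (X i)

theorem lst_nodup (c : ℕ) (X : ℕ → List (σ → ℕ)) (i : Fin (c + 3)) : (lst c X i).Nodup := by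
  refine (List.nodup_finRange _).map ?_
  intro a b h
  exact eq_of_heq (Sigma.mk.inj h).2

theorem lst_length (c : ℕ) (X : ℕ → List (σ → ℕ)) (i : Fin (c + 3)) :
    (lst c X i).length = (X i).length := by
  rw [lst, List.length_map, List.length_finRange]

theorem mem_lst (c : ℕ) (X : ℕ → List (σ → ℕ)) (i : Fin (c + 3)) (s : Sl c X) :
    s ∈ lst c X i ↔ rho c X s = role i := by
  rw [lst, List.mem_map]
  constructor
  · rintro ⟨j, -, rfl⟩
    rfl
  · intro h
    obtain ⟨a, b⟩ := s
    have h1 : a = i := Fin.ext (role_inj h)
    subst h1
    exact ⟨b, List.mem_finRange b, rfl⟩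

theorem card_cl (c : ℕ) (X : ℕ → List (σ → ℕ)) (i : Fin (c + 3)) :
    (cl (rho c X) (role i)).card = (X i).length := by
  rw [← lst_length c X i, ← List.toFinset_card_of_nodup (lst_nodup c X i)]
  congr 1
  ext s
  rw [List.mem_toFinset, mem_lst, cl, Finset.mem_filter]
  simp

/-! ### Monomials -/

theorem exists_vars (n : ℕ) : ∀ f : σ → ℕ, dg f = n →
    ∃ L : List σ, (L.map ep).sum = f ∧ L.length = n := by
  induction n with
  | zero =>
    intro f hf
    refine ⟨[], ?_, rfl⟩
    funext z
    have h1 := le_dg f z
    rw [hf] at h1
    exact (Nat.le_zero.1 h1).symm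
  | succ n ih =>
    intro f hf
    have h1 : ∃ k, f k ≠ 0 := by
      by_contra hcon
      push Not at hcon
      have h2 : dg f = 0 := Finset.sum_eq_zero (fun i _ => hcon i)
      omega
    obtain ⟨k, hk⟩ := h1
    obtain ⟨L, h2, h3⟩ := ih (f - ep k) (by
      have := dg_sub f k hk
      omega)
    refine ⟨k :: L, ?_, by rw [List.length_cons, h3]⟩
    rw [List.map_cons, List.sum_cons, h2, add_comm]
    exact sub_ep_add hk

/-! ### Columns -/

/-- the number of the symmetric letters -/
def cA (cols : List (List σ × List (σ → ℕ))) : ℕ := (cols.map (fun p => p.2.length)).sum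

theorem cA_cons (p : List σ × List (σ → ℕ)) (cols : List (List σ × List (σ → ℕ))) :
    cA (p :: cols) = p.2.length + cA cols := by
  rw [cA, List.map_cons, List.sum_cons, cA]

theorem hd_col {D : ℕ} (C : List σ) {Bs : List (σ → ℕ)} (h : ok D Bs) :
    ∀ a ∈ (C.map ep : List (σ → ℕ)), ∀ b ∈ Bs, dg a + dg b = D := by
  intro a ha b hb
  have h1 := h b hb
  obtain ⟨x, -, rfl⟩ := List.mem_map.1 ha
  rw [dg_ep]
  omega

/-- the type of an iterated contraction -/
theorem mE_type {D T : ℕ} {β : σ → ℕ} {v : Fn σ} (hv : Ev D T β v) :
    ∀ cols : List (List σ × List (σ → ℕ)),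
      (∀ p ∈ cols, p.1.length = p.2.length + 1 ∧ ok D p.2) →
      SS (mE cols v) ∧ dW D (mE cols v) = 0 ∧
        ∃ γ : σ → ℕ, dg γ = cA cols * D + cols.length ∧ St D (cA cols) T γ β (mE cols v) := by
  intro cols
  induction cols with
  | nil =>
    intro _
    refine ⟨hv.1, hv.2.2, 0, ?_, St_of_Sp hv.2.1⟩
    simp [cA, dg]
  | cons p cols ih =>
    intro h
    obtain ⟨h1, h2, γ, h3, h4⟩ := ih (fun q hq => h q (List.mem_cons_of_mem _ hq))
    obtain ⟨hp1, hp2⟩ := h p List.mem_cons_self
    have hlen : (p.1.map ep : List (σ → ℕ)).length = p.2.length + 1 := by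
      rw [List.length_map, hp1]
    refine ⟨SS_gE h1 _ _, ?_, γ + (p.1.map ep).sum + p.2.sum, ?_, ?_⟩
    · have h5 := gE_dW_succ (hd_col p.1 hp2) hlen (mE cols v)
      rw [h2, gE_zero] at h5
      have h6 : ((-1 : ℂ) ^ p.2.length) ≠ 0 := pow_ne_zero _ (by norm_num)
      exact (smul_eq_zero.1 h5.symm).resolve_left h6
    · have h5 : dg ((p.1.map ep : List (σ → ℕ)).sum) = p.1.length := dg_sE p.1
      have h6 := dg_list_sum D p.2 hp2
      rw [dg_add, dg_add, h3, h5, hp1, cA_cons, List.length_cons]
      have h7 : (p.2.length + cA cols) * D = p.2.length * D + cA cols * D := by ring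
      omega
    · have h5 := St_gE h4 (p.1.map ep) p.2 (Or.inr hlen)
      rw [cA_cons, add_comm p.2.length]
      exact h5

/-- the columns as functions of the index -/
theorem cols_eq (cols : List (List σ × List (σ → ℕ))) :
    (List.range cols.length).map (fun i => ((cols.getD i ([], [])).1, (cols.getD i ([], [])).2)) =
      cols := by
  refine List.ext_getElem (by simp) ?_
  intro i h1 h2
  rw [List.getElem_map, List.getElem_range, List.getD_eq_getElem _ _ h2]

theorem getD_mem (cols : List (List σ × List (σ → ℕ))) {i : ℕ} (hi : i < cols.length) :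
    cols.getD i ([], []) ∈ cols := by
  rw [List.getD_eq_getElem _ _ hi]
  exact List.getElem_mem hi

theorem cA_range (c : ℕ) (Cs : ℕ → List σ) (A : ℕ → List (σ → ℕ)) :
    cA ((List.range c).map (fun i => (Cs i, A i))) = ∑ i ∈ Finset.range c, (A i).length := by
  rw [cA, List.map_map]
  rfl

end T14X

open T14X

theorem SC_aux {D T : ℕ} (hD : 4 ≤ D) (hT : T + 2 ≤ 2 * D) (hX : XP D T) (hV : HV σ D T)
    {β : σ → ℕ} (hβ : dg β = T * D + (2 * D - 1)) {v : Fn σ} (hv : Ev D T β v) :
    ∀ (k : ℕ) (cols : List (List σ × List (σ → ℕ))), T + 1 ≤ cA cols + k → cols ≠ [] →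
      (∀ p ∈ cols, p.1.length = p.2.length + 1 ∧ 2 ≤ p.2.length ∧ ok D p.2) →
      Cb D (mE cols v) := by
  intro k
  induction k with
  | zero =>
    intro cols hk _ h
    obtain ⟨h1, h2, γ, h3, h4⟩ := mE_type hv cols (fun p hp => ⟨(h p hp).1, (h p hp).2.2⟩)
    rcases St_cases h4 with h0 | ⟨r, β', hr, -, -⟩
    · rw [h0]
      exact Cb_zero D
    · omega
  | succ k ih =>
    intro cols hk hne h
    obtain ⟨h1, h2, γ, h3, h4⟩ := mE_type hv cols (fun p hp => ⟨(h p hp).1, (h p hp).2.2⟩)
    rcases St_cases h4 with h0 | ⟨r, β', hr, hβ', hSp⟩
    · rw [h0]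
      exact Cb_zero D
    -- numbers
    have hcA : 2 * cols.length ≤ cA cols := by
      clear hk hne h1 h2 h3 h4 hr hβ' hSp
      induction cols with
      | nil => simp
      | cons p cols ih' =>
        have h5 := ih' (fun q hq => h q (List.mem_cons_of_mem _ hq))
        have h6 := (h p List.mem_cons_self).2.1
        rw [cA_cons, List.length_cons]
        omega
    have hc1 : 1 ≤ cols.length := List.length_pos_iff.2 hne
    obtain ⟨c, hc⟩ : ∃ c : ℕ, c = cols.length := ⟨_, rfl⟩
    rw [← hc] at hcA hc1 h3
    have hdβ' : dg β' = r * D + (2 * D - 1 - c) := by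
      have h5 : dg β' + dg γ = dg β := by rw [← dg_add, hβ']
      rw [h3, hβ, ← hr] at h5
      have h6 : (r + cA cols) * D = r * D + cA cols * D := by ring
      omega
    have hEv : Ev D r β' (mE cols v) := ⟨h1, hSp, h2⟩
    by_cases hgreen : r < D - c
    · -- Green
      have h5 := Ng_closed (D - 1) 1 (D - c) (by omega)
      have h6 : 1 * (D - 1) + (D - c) = 2 * D - 1 - c := by omega
      have h7 : D - 1 + 1 = D := by omega
      rw [h6, h7] at h5
      obtain ⟨F', f1, -, f3⟩ := Van_Ng D (2 * D - 1 - c) r (by omega) β' hdβ' _ h1 hSp h2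
      exact ⟨F', f1, f3⟩
    -- contractions by columns of length three
    have hQall : ∀ cols' : List (List σ × List (σ → ℕ)), cA cols' = cA cols → cols' ≠ [] →
        (∀ p ∈ cols', p.1.length = p.2.length + 1 ∧ 2 ≤ p.2.length ∧ ok D p.2) →
        Q3 D (mE cols' v) := by
      intro cols' hcA' _ h' p q s a a' ha ha'
      refine ih (([p, q, s], [a, a']) :: cols') ?_ (List.cons_ne_nil _ _) ?_
      · rw [cA_cons, hcA']
        simp only [List.length_cons, List.length_nil]
        omega
      · intro y hy
        rcases List.mem_cons.1 hy with rfl | hy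
        · refine ⟨rfl, le_refl 2, ?_⟩
          intro z hz
          simp only [List.mem_cons, List.not_mem_nil, or_false] at hz
          rcases hz with rfl | rfl
          · exact ha
          · exact ha'
        · exact h' y hy
    have hQ : Q3 D (mE cols v) := hQall cols rfl hne h
    -- the hat vanishes
    have hz : Hz D (mE cols v) := by
      intro f ys ls hlen hys hls
      by_contra hne0
      have h5 := St_gE (St_of_Sp hSp) ls ys (Or.inr hlen) [] f hne0
      obtain ⟨g1, -, g3, -⟩ := h5
      simp only [List.length_nil] at g1
      have g1' : ys.length = r := by omega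
      have hdf : dg f = D - c := by
        have e1 : dg f + (dg ls.sum + dg ys.sum) = dg β' := by
          rw [← g3]
          simp only [md, dg_add]
          have : dg (0 : σ → ℕ) = 0 := by simp [dg]
          omega
        have e2 := dg_list_sum D ls hls
        have e3 : dg ys.sum = ys.length := by
          clear g3 e1 hlen g1 g1' hne0
          induction ys with
          | nil => simp [dg]
          | cons y ys ih' =>
            rw [List.sum_cons, dg_add, List.length_cons,
              ih' (fun z hz => hys z (List.mem_cons_of_mem _ hz)), hys y List.mem_cons_self]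
            omega
        rw [hlen, g1'] at e2
        rw [g1'] at e3
        rw [hdβ', e3] at e1
        have e4 : (r + 1) * D = r * D + D := by ring
        omega
      obtain ⟨fl, hfl, hfl'⟩ := exists_vars (D - c) f hdf
      -- the lists
      obtain ⟨X, hX0, hX1, hX2, hX3⟩ : ∃ X : ℕ → List (σ → ℕ), X 0 = fl.map ep ∧ X 1 = ys ∧
          X 2 = ls ∧ ∀ i, X (i + 3) = (cols.getD i ([], [])).2 := by
        refine ⟨fun k => match k with
          | 0 => fl.map ep
          | 1 => ys
          | 2 => ls
          | i + 3 => (cols.getD i ([], [])).2, rfl, rfl, rfl, fun i => rfl⟩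
      obtain ⟨Cs, hCs⟩ : ∃ Cs : ℕ → List σ, ∀ i, Cs i = (cols.getD i ([], [])).1 :=
        ⟨_, fun i => rfl⟩
      let lA : ℕ → List (Sl c X) := fun i =>
        if h : i + 3 < c + 3 then lst c X ⟨i + 3, h⟩ else []
      have hlA : ∀ i (hi : i < c), lA i = lst c X ⟨i + 3, by omega⟩ := by
        intro i hi
        exact dif_pos (by omega)
      have hlAlen : ∀ i < c, (lA i).length = (cols.getD i ([], [])).2.length := by
        intro i hi
        rw [hlA i hi, lst_length, ← hX3 i]
      have hlAmap : ∀ i < c, (lA i).map (lab c X) = (cols.getD i ([], [])).2 := by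
        intro i hi
        rw [hlA i hi, lst_map, ← hX3 i]
      have hcol : ∀ i < c, cols.getD i ([], []) ∈ cols := fun i hi => getD_mem cols (by omega)
      have hcAsum : cA cols = ∑ i ∈ Finset.range c, (lA i).length := by
        have e := cA_range cols.length (fun i => (cols.getD i ([], [])).1)
          (fun i => (cols.getD i ([], [])).2)
        rw [cols_eq cols, ← hc] at e
        rw [e]
        exact Finset.sum_congr rfl (fun i hi => (hlAlen i (Finset.mem_range.1 hi)).symm)
      have hcls : Cls (D - 1) (rho c X) (Finset.range c)
          (hatF D c (lst c X 0) (lst c X 1) (lst c X 2) lA Cs v) := by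
        refine hatCls (lst_nodup c X 0) (lst_nodup c X 1) (lst_nodup c X 2) ?_
          (fun s => mem_lst c X 0 s) ?_ ?_ ?_ ?_ ?_ ?_ hv.1 hv.2.2 ?_ ?_
        · intro i hi
          rw [hlA i hi]
          exact lst_nodup c X _
        · intro s
          exact mem_lst c X 1 s
        · intro s
          exact mem_lst c X 2 s
        · intro i hi s
          rw [hlA i hi]
          exact mem_lst c X _ s
        · intro h0
          have e1 := lst_length c X 0
          rw [h0] at e1
          have e2 : (X ((0 : Fin (c + 3)) : ℕ)).length = D - c := by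
            show (X 0).length = D - c
            rw [hX0, List.length_map, hfl']
          rw [e2, List.length_nil] at e1
          omega
        · rw [lst_length, lst_length]
          show (X 2).length = (X 1).length + 1
          rw [hX1, hX2, hlen]
        · intro i hi
          rw [hlAlen i hi, hCs i]
          exact (h _ (hcol i hi)).1
        · intro A hA
          refine hQall _ ?_ ?_ ?_
          · rw [cA_range, hcAsum]
            exact Finset.sum_congr rfl (fun i hi => (hA i (Finset.mem_range.1 hi)).1)
          · intro h0
            have e1 := congrArg List.length h0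
            simp only [List.length_map, List.length_range, List.length_nil] at e1
            omega
          · intro p hp
            obtain ⟨i, hi, rfl⟩ := List.mem_map.1 hp
            have hi' : i < c := List.mem_range.1 hi
            have e1 := h _ (hcol i hi')
            have e2 := (hA i hi').1
            rw [hlAlen i hi'] at e2
            refine ⟨?_, ?_, (hA i hi').2⟩
            · show (Cs i).length = (A i).length + 1
              rw [hCs i, e2]
              exact e1.1
            · show 2 ≤ (A i).length
              rw [e2]
              exact e1.2.1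
        · intro i hi y A hA
          refine ih _ ?_ ?_ ?_
          · have e1 : cA ((List.range c).map (fun k => (if k = i then y :: Cs k else Cs k, A k))) =
                ∑ k ∈ Finset.range c, (A k).length :=
              cA_range c (fun k => if k = i then y :: Cs k else Cs k) A
            rw [e1]
            have e2 : ∑ k ∈ Finset.range c, (A k).length =
                ∑ k ∈ Finset.range c, ((lA k).length + (if k = i then 1 else 0)) :=
              Finset.sum_congr rfl (fun k hk => (hA k (Finset.mem_range.1 hk)).1)
            rw [e2, Finset.sum_add_distrib, ← hcAsum, Finset.sum_ite_eq', if_pos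
              (Finset.mem_range.2 hi)]
            omega
          · intro h0
            have e1 := congrArg List.length h0
            simp only [List.length_map, List.length_range, List.length_nil] at e1
            omega
          · intro p hp
            obtain ⟨k', hk', rfl⟩ := List.mem_map.1 hp
            have hk'' : k' < c := List.mem_range.1 hk'
            have e1 := h _ (hcol k' hk'')
            have e2 := (hA k' hk'').1
            rw [hlAlen k' hk''] at e2
            refine ⟨?_, ?_, (hA k' hk'').2⟩
            · show (if k' = i then y :: Cs k' else Cs k').length = (A k').length + 1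
              rw [e2]
              by_cases hki : k' = i
              · rw [if_pos hki, if_pos hki, List.length_cons, hCs k', e1.1]
              · rw [if_neg hki, if_neg hki, hCs k', e1.1]
            · show 2 ≤ (A k').length
              rw [e2]
              have := e1.2.1
              omega
      -- the cardinalities
      have hF : (cl (rho c X) Rl.F).card = D - c := by
        have e1 := card_cl c X 0
        have e2 : (X ((0 : Fin (c + 3)) : ℕ)).length = D - c := by
          show (X 0).length = D - c
          rw [hX0, List.length_map, hfl']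
        rw [e2] at e1
        exact e1
      have hG : (cl (rho c X) Rl.G).card = r := by
        have e1 := card_cl c X 1
        have e2 : (X ((1 : Fin (c + 3)) : ℕ)).length = r := by
          show (X 1).length = r
          rw [hX1, g1']
        rw [e2] at e1
        exact e1
      have hL : (cl (rho c X) Rl.L).card = r + 1 := by
        have e1 := card_cl c X 2
        have e2 : (X ((2 : Fin (c + 3)) : ℕ)).length = r + 1 := by
          show (X 2).length = r + 1
          rw [hX2, hlen, g1']
        rw [e2] at e1
        exact e1
      have hgr : ∀ i < c, (cl (rho c X) (Rl.gr i)).card = (lA i).length := by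
        intro i hi
        have e1 := card_cl c X ⟨i + 3, by omega⟩
        rw [hlA i hi, lst_length]
        exact e1
      have hall := hX σ (Sl c X) (Finset.range c) (rho c X) _ hcls
        ⟨0, Finset.mem_range.2 (by omega)⟩
        (by
          intro i hi
          rw [Finset.mem_range] at hi
          rw [hgr i hi, hlAlen i hi]
          exact (h _ (hcol i hi)).2.1)
        (by rw [hF, Finset.card_range]; omega)
        (by
          rw [hL, Finset.sum_congr rfl (fun i hi => hgr i (Finset.mem_range.1 hi)), ← hcAsum]
          omega)
        (by rw [hG, hL])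
        (by rw [hL, Finset.card_range]; omega)
        (lab c X)
      -- the value
      apply hne0
      have hcond : (∀ s ∈ lst c X 0 ++ lst c X 1, dl (lab c X s) = 1) ∧
          (∀ s ∈ lst c X 2, dl (lab c X s) + 1 = D) ∧
          (∀ i < c, ∀ s ∈ lA i, dl (lab c X s) + 1 = D) := by
        refine ⟨?_, ?_, ?_⟩
        · intro s hs
          rcases List.mem_append.1 hs with hs | hs
          · have e1 : lab c X s ∈ (lst c X 0).map (lab c X) := List.mem_map_of_mem hs
            rw [lst_map] at e1
            have e2 : lab c X s ∈ fl.map ep := by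
              rw [← hX0]
              exact e1
            obtain ⟨x, -, hx⟩ := List.mem_map.1 e2
            rw [← hx]
            exact dg_ep x
          · have e1 : lab c X s ∈ (lst c X 1).map (lab c X) := List.mem_map_of_mem hs
            rw [lst_map] at e1
            have e2 : lab c X s ∈ ys := by
              rw [← hX1]
              exact e1
            exact hys _ e2
        · intro s hs
          have e1 : lab c X s ∈ (lst c X 2).map (lab c X) := List.mem_map_of_mem hs
          rw [lst_map] at e1
          have e2 : lab c X s ∈ ls := by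
            rw [← hX2]
            exact e1
          exact hls _ e2
        · intro i hi s hs
          have e1 : lab c X s ∈ (lA i).map (lab c X) := List.mem_map_of_mem hs
          rw [hlAmap i hi] at e1
          exact (h _ (hcol i hi)).2.2 _ e1
      have hval : hatF D c (lst c X 0) (lst c X 1) (lst c X 2) lA Cs v (lab c X) =
          gE ls ys (mE cols v) [] f := by
        unfold hatF
        rw [if_pos hcond, lst_map, lst_map, lst_map]
        have e0 : (List.range c).map (fun i => (Cs i, (lA i).map (lab c X))) =
            (List.range c).map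
              (fun i => ((cols.getD i ([], [])).1, (cols.getD i ([], [])).2)) := by
          refine List.map_congr_left (fun i hi => ?_)
          rw [hCs i, hlAmap i (List.mem_range.1 hi)]
        have e1 : (List.range c).map (fun i => (Cs i, (lA i).map (lab c X))) = cols := by
          rw [e0, hc]
          exact cols_eq cols
        rw [e1]
        show gE (X 2) (X 1) (mE cols v) [] (X 0).sum = _
        rw [hX0, hX1, hX2, hfl]
      rw [← hval]
      exact hall
    exact H3 (T := T) (b := D - 1 - c) (t := r) (by omega) hV (by omega) (by omega) (by omega)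
      (by rw [hdβ']; omega) hEv hQ hz

theorem SC {D T : ℕ} (hD : 4 ≤ D) (hT : T + 2 ≤ 2 * D) (hX : XP D T) (hV : HV σ D T)
    {β : σ → ℕ} (hβ : dg β = T * D + (2 * D - 1)) {v : Fn σ} (hv : Ev D T β v) :
    ∀ cols : List (List σ × List (σ → ℕ)), cols ≠ [] →
      (∀ p ∈ cols, p.1.length = p.2.length + 1 ∧ 2 ≤ p.2.length ∧ ok D p.2) →
      Cb D (mE cols v) :=
  fun cols h0 h => SC_aux hD hT hX hV hβ hv (T + 1) cols (by omega) h0 h

theorem Tfin {D T : ℕ} (hD : 4 ≤ D) (hT : T + 2 ≤ 2 * D) (hX : XP D T) (hV : HV σ D T) :
    ∀ β : σ → ℕ, dg β = T * D + (2 * D - 1) → Van D T β := by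
  intro β hβ F hF sF dF
  have hCb : Cb D F := by
    refine testB (D := D) (t := T) (N := T * D + (2 * D - 1)) (r := 3)
      (fun β u => Ev D T β u) (fun β u h => h) (fun μ j k u hjk _ h => Re_Ev hjk h) ?_ ?_ β F hβ
      ⟨hF, sF, dF⟩
    · intro β u hβ h hc
      have h1 : Van D T β := by
        refine Van_small (j := 2 * D - 1) ?_ hβ
        have h1 : (supp β).card ≤ 2 := by omega
        have h2 : (supp β).card * (D - 1) ≤ 2 * (D - 1) := Nat.mul_le_mul_right _ h1
        omega
      obtain ⟨F', h1, -, h3⟩ := h1 u h.1 h.2.1 h.2.2
      exact ⟨F', h1, h3⟩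
    · intro β u L hβ hu hLn hL3 hLs
      refine bdOf (m := 2) hu L hL3 hLn hLs ?_ ?_
      · intro al hal hok
        have h1 := SC hD hT hX hV hβ hu [(L, al)] (List.cons_ne_nil _ _) (by
          intro p hp
          rw [List.mem_singleton.1 hp]
          exact ⟨by rw [hL3, hal], by rw [hal], hok⟩)
        exact h1
      · intro P hPS _ hP al hal hok
        obtain ⟨a1, a2, a3, rfl⟩ := List.length_eq_three.1 hal
        have ha1 : dg a1 + 1 = D := hok a1 (by simp)
        have ha2 : dg a2 + 1 = D := hok a2 (by simp)
        have ha3 : dg a3 + 1 = D := hok a3 (by simp)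
        have hok2 : ∀ a b : σ → ℕ, dg a + 1 = D → dg b + 1 = D → ok D [a, b] := by
          intro a b ha hb z hz
          simp only [List.mem_cons, List.not_mem_nil, or_false] at hz
          rcases hz with rfl | rfl
          · exact ha
          · exact hb
        obtain ⟨hP1, hP1'⟩ := hP [a2, a3] rfl (hok2 _ _ ha2 ha3)
        obtain ⟨hP2, hP2'⟩ := hP [a1, a3] rfl (hok2 _ _ ha1 ha3)
        obtain ⟨hP3, hP3'⟩ := hP [a1, a2] rfl (hok2 _ _ ha1 ha2)
        have hLlen : (L.map ep : List (σ → ℕ)).length = 3 := by rw [List.length_map, hL3]
        have hsp : sp (fun a R => sg a (P R)) [a1, a2, a3] =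
            sg a1 (P [a2, a3]) + (sg a2 (P [a1, a3]) + sg a3 (P [a1, a2])) := by
          simp only [sp]
          rw [add_zero]
        rw [hsp]
        obtain ⟨γ, hγ⟩ : ∃ γ : σ → ℕ, γ = (L.map ep).sum + a1 + a2 + a3 := ⟨_, rfl⟩
        have hdγ : dg γ = 3 * D := by
          have h5 : dg ((L.map ep : List (σ → ℕ)).sum) = L.length := dg_sE L
          rw [hγ, dg_add, dg_add, dg_add, h5, hL3]
          omega
        obtain ⟨G, hG⟩ : ∃ G : Fn σ, G = gE (L.map ep) [a1, a2, a3] u -
          (sg a1 (P [a2, a3]) + (sg a2 (P [a1, a3]) + sg a3 (P [a1, a2]))) := ⟨_, rfl⟩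
        rw [← hG]
        have hGS : SS G := by
          rw [hG]
          exact (SS_gE hu.1 _ _).sub (((hPS _).sg _).add (((hPS _).sg _).add ((hPS _).sg _)))
        have hGt : St D 3 T γ β G := by
          have e0 : St D 3 T γ β (gE (L.map ep) [a1, a2, a3] u) := by
            have h1 := St_gE (St_of_Sp hu.2.1) (L.map ep) [a1, a2, a3] (Or.inl hLlen)
            have h2 : (0 : σ → ℕ) + (L.map ep).sum + ([a1, a2, a3] : List (σ → ℕ)).sum = γ := by
              rw [hγ]
              simp only [List.sum_cons, List.sum_nil]
              abel
            rw [h2] at h1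
            exact h1
          have e1 : St D 3 T γ β (sg a1 (P [a2, a3])) := by
            have h1 := St_sg hP1 a1
            have h2 : (L.map ep).sum + ([a2, a3] : List (σ → ℕ)).sum + a1 = γ := by
              rw [hγ]
              simp only [List.sum_cons, List.sum_nil]
              abel
            rw [h2] at h1
            exact h1
          have e2 : St D 3 T γ β (sg a2 (P [a1, a3])) := by
            have h1 := St_sg hP2 a2
            have h2 : (L.map ep).sum + ([a1, a3] : List (σ → ℕ)).sum + a2 = γ := by
              rw [hγ]
              simp only [List.sum_cons, List.sum_nil]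
              abel
            rw [h2] at h1
            exact h1
          have e3 : St D 3 T γ β (sg a3 (P [a1, a2])) := by
            have h1 := St_sg hP3 a3
            have h2 : (L.map ep).sum + ([a1, a2] : List (σ → ℕ)).sum + a3 = γ := by
              rw [hγ]
              simp only [List.sum_cons, List.sum_nil]
              abel
            rw [h2] at h1
            exact h1
          intro w f hne
          by_cases z0 : gE (L.map ep) [a1, a2, a3] u w f = 0
          · by_cases z1 : sg a1 (P [a2, a3]) w f = 0
            · by_cases z2 : sg a2 (P [a1, a3]) w f = 0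
              · refine e3 w f ?_
                intro z3
                apply hne
                rw [hG]
                simp [z0, z1, z2, z3]
              · exact e2 w f z2
            · exact e1 w f z1
          · exact e0 w f z0
        have hGd : dW D G = 0 := by
          have h1 := gE_dW_eq (hd_col L hok) hLlen u
          rw [hu.2.2, gE_zero] at h1
          have h2 : dW D (gE (L.map ep) [a1, a2, a3] u) =
              sp (fun b R => sg b (gE (L.map ep) R u)) [a1, a2, a3] := by
            have h3 : ((-1 : ℂ) ^ ([a1, a2, a3] : List (σ → ℕ)).length) ≠ 0 :=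
              pow_ne_zero _ (by norm_num)
            rw [← smul_sub, eq_comm, smul_eq_zero] at h1
            exact sub_eq_zero.1 (h1.resolve_left h3)
          rw [hG, dW_sub', dW_add', dW_add', dW_sg, dW_sg, dW_sg, hP1', hP2', hP3', h2]
          simp only [sp]
          abel
        obtain ⟨K, hKS, -, hKd⟩ := van_st hGS hGt hGd (by
          intro r' β'' hr' hβ''
          refine hV r' (by omega) (2 * D - 1) β'' le_rfl ?_
          have h1 : dg β'' + dg γ = dg β := by rw [← dg_add, hβ'']
          rw [hβ, hdγ, ← hr'] at h1
          have h2 : (r' + 3) * D = r' * D + 3 * D := by ring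
          omega)
        exact ⟨K, hKS, hKd⟩
  obtain ⟨G, hG1, hG2, hG3⟩ := cb_st hCb (St_of_Sp sF)
  refine ⟨G, hG1, ?_, hG3⟩
  intro w f hne
  obtain ⟨b1, b2, b3, b4⟩ := hG2 w f hne
  refine ⟨by omega, by omega, ?_, b4⟩
  rw [← b3]
  abel

end Pool.Agent.H69.VT
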