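import Pool.Agent.H69.VS.Asm

/-!
The numerical recursion with a better base.
-/

set_option linter.unusedSectionVars false

namespace Pool.Agent.H69.VT

open Pool.Agent.H69.VS

variable {σ : Type} [Fintype σ] [DecidableEq σ]

theorem SL_first' {E i x : ℕ} (h : SL E (i + 1) 0 x) (hE : 4 ≤ E) : SL E (i + 1) 1 (x + 1) := by
  unfold SL at *
  obtain ⟨n, hn⟩ : ∃ n, E + (i + 1 + 2) - 0 = n + 1 := ⟨E + (i + 1 + 2) - 1, by omega⟩
  have hn' : E + (i + 1 + 2) - 1 = n := by omega
  rw [hn, Nat.choose_succ_succ] at h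
  rw [hn']
  have h1 : i + 5 ≤ Nat.choose n (i + 2) :=
    le_trans (ch2 (i + 1)) (Nat.choose_le_choose _ (by omega))
  have h2 : Nat.choose n (i + 1 + 1).succ = Nat.choose n (i + 1 + 2) := rfl
  rw [h2] at h
  have h3 : Nat.choose n (i + 1 + 1) = Nat.choose n (i + 2) := rfl
  rw [h3] at h
  omega

theorem SL_all' {E x : ℕ} (hE : 4 ≤ E) (hx : x + 3 ≤ E) :
    ∀ i r, 1 ≤ r → r ≤ E → SL E i r x := by
  intro i
  induction i with
  | zero =>
    intro r h1 h2
    obtain ⟨u, hu⟩ : ∃ u, E = r + u := ⟨E - r, by omega⟩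
    refine SL_two h2 ?_
    rw [hu, Nat.add_sub_cancel_left]
    obtain ⟨r', rfl⟩ : ∃ r', r = r' + 1 := ⟨r - 1, by omega⟩
    rcases Nat.eq_zero_or_pos u with h3 | h3
    · subst h3
      nlinarith
    · obtain ⟨u', rfl⟩ : ∃ u', u = u' + 1 := ⟨u - 1, by omega⟩
      nlinarith [Nat.zero_le (r' * u'), Nat.zero_le (r' * r')]
  | succ i ih =>
    have h0 : SL E (i + 1) 0 x := SL_next (ih E (by omega) le_rfl)
    have h1 := SL_first' h0 hE
    have h2 : ∀ r, 1 ≤ r → r + 1 ≤ E → SL E (i + 1) r (x + 1) := by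
      intro r hr
      induction r, hr using Nat.le_induction with
      | base => intro _; exact h1
      | succ r hr ihr => intro hr2; exact SL_step (ihr (by omega)) (by omega)
    intro r hr1 hr2
    by_cases hr : r = E
    · obtain ⟨r', rfl⟩ : ∃ r', r = r' + 1 := ⟨r - 1, by omega⟩
      exact SL_step_last (h2 r' (by omega) (by omega)) hr
    · exact SL_mono (h2 r hr1 (by omega)) (by omega)

theorem asmX {E x : ℕ} (hE : 4 ≤ E) (hx : x + 3 ≤ E)
    (hbase : ∀ t, t < E + 4 + x → ∀ β : σ → ℕ, dg β = t * (E + 1) + (2 * E + 1) →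
      Van (E + 1) t β) :
    ∀ i r, 1 ≤ r → r ≤ E → ∀ t, t < E * cc i + (i + 3) * r + 1 + x → ∀ β : σ → ℕ,
      dg β = t * (E + 1) + ((i + 2) * E + r) → Van (E + 1) t β := by
  have inner : ∀ i, (∀ t, t < E * cc i + (i + 3) * 1 + 1 + x → ∀ β : σ → ℕ,
      dg β = t * (E + 1) + ((i + 2) * E + 1) → Van (E + 1) t β) →
      ∀ r, 1 ≤ r → r ≤ E → ∀ t, t < E * cc i + (i + 3) * r + 1 + x → ∀ β : σ → ℕ,
      dg β = t * (E + 1) + ((i + 2) * E + r) → Van (E + 1) t β := by
    intro i h1 r hr
    induction r, hr using Nat.le_induction with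
    | base => intro _; exact h1
    | succ r hr ih =>
      intro hr2 t ht
      have h3 : (i + 3) * (r + 1) = (i + 3) * r + (i + 3) := by ring
      rw [h3] at ht
      have h4 := SL_all' hE hx i (r + 1) (by omega) hr2
      unfold SL at h4
      rw [h3] at h4
      refine asm_step (M := E * cc i + (i + 3) * r + 1 + x) (by omega) hr2 ?_ ?_ t (by omega)
      · intro t ht β hβ
        apply ih (by omega) t (by omega) β
        rw [hβ]; omega
      · omega
  intro i
  induction i with
  | zero =>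
    apply inner
    intro t ht β hβ
    apply hbase t _ β hβ
    simp only [cc] at ht; omega
  | succ i ih =>
    apply inner
    intro t ht
    have h4 := SL_all' hE hx (i + 1) 1 (by omega) (by omega)
    unfold SL at h4
    simp only [cc] at ht h4
    have h5 : E * (cc i + (i + 3)) = E * cc i + (i + 3) * E := by ring
    rw [h5] at ht h4
    refine asm_step (i := i + 1) (r := 1) (M := E * cc i + (i + 3) * E + 1 + x) (by omega)
      (by omega) ?_ ?_ t (by omega)
    · intro t ht β hβ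
      apply ih E (by omega) le_rfl t (by omega) β
      rw [hβ]
      have h6 : (i + 1 + 2) * E = (i + 2) * E + E := by ring
      omega
    · omega

/-- the vanishing in the form of the question, from the vanishing in the strand `2 d - 1` -/
theorem final_ofX {d b q p x : ℕ} (hx : x + 4 ≤ d)
    (hbase : ∀ t, t < d + 3 + x → ∀ β : σ → ℕ, dg β = t * d + (2 * d - 1) → Van d t β)
    (hd : b + q + 1 ≤ d) (hq : 2 ≤ q) (hex : d = 4 → q = 3 → p ≤ 23)
    (hp1 : (p : ℤ) ≤ (Nat.choose (d + q) q : ℤ) - (Nat.choose (d - b - 1) q : ℤ) - (q : ℤ) - 1)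
    (hp2 : 2 * p ≤ (d - 1) * (q * (q + 1) - 4) + 2 * (q + 1) * (q + b) + 2 * x) :
    ∀ β : σ → ℕ, dg β = p * d + (b + q * d) → Van d p β := by
  rcases Nat.lt_or_ge d 5 with h5 | h5
  · have hd4 : d = 4 := by omega
    have hx0 : x = 0 := by omega
    subst hx0
    exact final_of (s := 0) (by omega) (fun t ht β hβ => hbase t (by omega) β hβ) hd (by omega) hq
      hex hp1 (by omega)
  · obtain ⟨E, rfl⟩ : ∃ E, d = E + 1 := ⟨d - 1, by omega⟩
    obtain ⟨i, rfl⟩ : ∃ i, q = i + 2 := ⟨q - 2, by omega⟩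
    have hcc := cc_closed i
    have e1 : (i + 2) * (i + 2 + 1) - 4 = 2 * cc i := by
      have : (i + 2) * (i + 2 + 1) = (i + 2) * (i + 3) := by ring
      omega
    rw [e1, Nat.add_sub_cancel] at hp2
    have e2 : E * (2 * cc i) = 2 * (E * cc i) := by ring
    have e3 : 2 * (i + 2 + 1) * (i + 2 + b) = 2 * ((i + 3) * (i + 2 + b)) := by ring
    rw [e2, e3] at hp2
    have e4 : b + (i + 2) * (E + 1) = (i + 2) * E + (i + 2 + b) := by ring
    rw [e4]
    refine asmX (x := x) (by omega) (by omega) ?_ i (i + 2 + b) (by omega) (by omega) p (by omega)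
    intro t ht β hβ
    exact hbase t (by omega) β (by omega)

end Pool.Agent.H69.VT
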