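import Pool.Agent.H69.VT.TDefs

/-!
Algebra of the operators `gE`, first part: linearity, permutations of the labels, commutation.
-/

set_option linter.unusedSectionVars false

namespace Pool.Agent.H69.VT

open scoped BigOperators
open Pool.Agent.H69.VS

/-! ### sums over the choice of an element -/

section sums

variable {α M N : Type} [AddCommGroup M] [AddCommGroup N]

theorem su_congr_mem {f g : α → List α → M} {A : List α}
    (h : ∀ a R, (a :: R).Perm A → f a R = g a R) : su f A = su g A := by
  induction A generalizing f g with
  | nil => rfl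
  | cons u C ih =>
    have h1 : su (fun v R => f v (u :: R)) C = su (fun v R => g v (u :: R)) C :=
      ih fun a R hp => h a (u :: R) ((List.Perm.swap u a R).trans (hp.cons u))
    simp only [su]
    rw [h u C (List.Perm.refl _), h1]

theorem su_congr {f g : α → List α → M} (h : ∀ a R, f a R = g a R) (A : List α) :
    su f A = su g A := su_congr_mem fun a R _ => h a R

theorem su_add (f g : α → List α → M) (A : List α) :
    su (fun a R => f a R + g a R) A = su f A + su g A := by
  induction A generalizing f g with
  | nil => simp [su]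
  | cons u C ih =>
    simp only [su]
    rw [ih]
    abel

theorem su_map (φ : M →+ N) (f : α → List α → M) (A : List α) :
    su (fun a R => φ (f a R)) A = φ (su f A) := by
  induction A generalizing f with
  | nil => simp [su]
  | cons u C ih =>
    simp only [su]
    rw [ih (fun v R => f v (u :: R)), map_sub]

theorem su_zero (A : List α) : su (fun (_ : α) (_ : List α) => (0 : M)) A = 0 := by
  induction A with
  | nil => rfl
  | cons u C ih =>
    simp only [su]
    rw [ih, sub_zero]

theorem su_neg (f : α → List α → M) (A : List α) :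
    su (fun a R => - f a R) A = - su f A := by
  induction A generalizing f with
  | nil => simp [su]
  | cons u C ih =>
    simp only [su]
    rw [ih (fun v R => f v (u :: R))]
    abel

theorem su_sub (f g : α → List α → M) (A : List α) :
    su (fun a R => f a R - g a R) A = su f A - su g A := by
  induction A generalizing f g with
  | nil => simp [su]
  | cons u C ih =>
    simp only [su]
    rw [ih]
    abel

theorem su_smul [Module ℂ M] (c : ℂ) (f : α → List α → M) (A : List α) :
    su (fun a R => c • f a R) A = c • su f A := by
  induction A generalizing f with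
  | nil => simp [su]
  | cons u C ih =>
    simp only [su]
    rw [ih (fun v R => f v (u :: R)), smul_sub]

theorem sp_congr_mem {f g : α → List α → M} {A : List α}
    (h : ∀ a R, (a :: R).Perm A → f a R = g a R) : sp f A = sp g A := by
  induction A generalizing f g with
  | nil => rfl
  | cons u C ih =>
    have h1 : sp (fun v R => f v (u :: R)) C = sp (fun v R => g v (u :: R)) C :=
      ih fun a R hp => h a (u :: R) ((List.Perm.swap u a R).trans (hp.cons u))
    simp only [sp]
    rw [h u C (List.Perm.refl _), h1]

theorem sp_congr {f g : α → List α → M} (h : ∀ a R, f a R = g a R) (A : List α) :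
    sp f A = sp g A := sp_congr_mem fun a R _ => h a R

theorem sp_add (f g : α → List α → M) (A : List α) :
    sp (fun a R => f a R + g a R) A = sp f A + sp g A := by
  induction A generalizing f g with
  | nil => simp [sp]
  | cons u C ih =>
    simp only [sp]
    rw [ih]
    abel

theorem sp_map (φ : M →+ N) (f : α → List α → M) (A : List α) :
    sp (fun a R => φ (f a R)) A = φ (sp f A) := by
  induction A generalizing f with
  | nil => simp [sp]
  | cons u C ih =>
    simp only [sp]
    rw [ih (fun v R => f v (u :: R)), map_add]

theorem sp_zero (A : List α) : sp (fun (_ : α) (_ : List α) => (0 : M)) A = 0 := by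
  induction A with
  | nil => rfl
  | cons u C ih =>
    simp only [sp]
    rw [ih, add_zero]

theorem sp_neg (f : α → List α → M) (A : List α) :
    sp (fun a R => - f a R) A = - sp f A := by
  induction A generalizing f with
  | nil => simp [sp]
  | cons u C ih =>
    simp only [sp]
    rw [ih (fun v R => f v (u :: R))]
    abel

theorem sp_sub (f g : α → List α → M) (A : List α) :
    sp (fun a R => f a R - g a R) A = sp f A - sp g A := by
  induction A generalizing f g with
  | nil => simp [sp]
  | cons u C ih =>
    simp only [sp]
    rw [ih]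
    abel

theorem sp_smul [Module ℂ M] (c : ℂ) (f : α → List α → M) (A : List α) :
    sp (fun a R => c • f a R) A = c • sp f A := by
  induction A generalizing f with
  | nil => simp [sp]
  | cons u C ih =>
    simp only [sp]
    rw [ih (fun v R => f v (u :: R)), smul_add]

/-- the order of two choices -/
theorem su_su (f : α → α → List α → M) (A : List α) :
    su (fun a R => su (fun b S => f a b S) R) A = - su (fun a R => su (fun b S => f b a S) R) A := by
  induction A generalizing f with
  | nil => simp [su]
  | cons u C ih =>
    have h1 := ih (fun a b S => f a b (u :: S))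
    simp only [su, su_sub]
    rw [h1]
    abel

/-- exchange of two neighbours -/
theorem su_swap (a b : α) (A' : List α) (A : List α) (g : α → List α → M)
    (h : ∀ x R R', g x (R ++ a :: b :: R') = - g x (R ++ b :: a :: R')) :
    su g (A ++ a :: b :: A') = - su g (A ++ b :: a :: A') := by
  induction A generalizing g with
  | nil =>
    simp only [List.nil_append, su]
    have h1 : su (fun v R => g v (a :: b :: R)) A' = - su (fun v R => g v (b :: a :: R)) A' := by
      rw [← su_neg]
      exact su_congr (fun v R => h v [] R) A'
    rw [h1]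
    abel
  | cons u C ih =>
    simp only [List.cons_append, su]
    have h1 := ih (fun v R => g v (u :: R)) fun x R R' => h x (u :: R) R'
    have h2 := h u C A'
    rw [h1, h2]
    abel

end sums

variable {σ : Type} [Fintype σ] [DecidableEq σ]

/-! ### linearity -/

theorem gN_add (As : List (σ → ℕ)) (F G : Fn σ) : gN As (F + G) = gN As F + gN As G := by
  match As with
  | [] => rfl
  | [a] => rfl
  | _ :: _ :: _ => simp [gN]

theorem gN_smul (As : List (σ → ℕ)) (c : ℂ) (F : Fn σ) : gN As (c • F) = c • gN As F := by
  match As with
  | [] => rfl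
  | [a] => rfl
  | _ :: _ :: _ => simp [gN]

theorem gE_add (As Bs : List (σ → ℕ)) (F G : Fn σ) :
    gE As Bs (F + G) = gE As Bs F + gE As Bs G := by
  induction Bs generalizing As F G with
  | nil => exact gN_add As F G
  | cons b Bs ih =>
    simp only [gE]
    rw [← su_add]
    exact su_congr (fun a R => by rw [Af_add, ih]) As

theorem gE_smul (As Bs : List (σ → ℕ)) (c : ℂ) (F : Fn σ) :
    gE As Bs (c • F) = c • gE As Bs F := by
  induction Bs generalizing As F with
  | nil => exact gN_smul As c F
  | cons b Bs ih =>
    simp only [gE]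
    rw [← su_smul]
    exact su_congr (fun a R => by rw [Af_smul, ih]) As

theorem gE_zero (As Bs : List (σ → ℕ)) : gE As Bs (0 : Fn σ) = 0 := by
  have h := gE_smul As Bs 0 (0 : Fn σ)
  rwa [zero_smul, zero_smul] at h

theorem gE_neg (As Bs : List (σ → ℕ)) (F : Fn σ) : gE As Bs (-F) = - gE As Bs F := by
  have h := gE_smul As Bs (-1) F
  rwa [neg_one_smul, neg_one_smul] at h

theorem gE_sub (As Bs : List (σ → ℕ)) (F G : Fn σ) :
    gE As Bs (F - G) = gE As Bs F - gE As Bs G := by
  rw [sub_eq_add_neg, gE_add, gE_neg, ← sub_eq_add_neg]

/-- `gE` as an additive map -/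
def gEh (As Bs : List (σ → ℕ)) : Fn σ →+ Fn σ where
  toFun := gE As Bs
  map_zero' := gE_zero As Bs
  map_add' := gE_add As Bs

/-- `sg` as an additive map -/
def sgh (g : σ → ℕ) : Fn σ →+ Fn σ where
  toFun := sg g
  map_zero' := rfl
  map_add' _ _ := rfl

/-- `Af` as an additive map -/
def Afh (x : Lt σ) : Fn σ →+ Fn σ where
  toFun := Af x
  map_zero' := rfl
  map_add' _ _ := rfl

theorem gE_sg (g : σ → ℕ) (As Bs : List (σ → ℕ)) (F : Fn σ) :
    gE As Bs (sg g F) = sg g (gE As Bs F) := by
  induction Bs generalizing As F with
  | nil =>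
    match As with
    | [] => rfl
    | [a] =>
      funext w f
      change F w (f + a + g) = F w (f + g + a)
      rw [add_right_comm]
    | _ :: _ :: _ => rfl
  | cons b Bs ih =>
    simp only [gE]
    refine Eq.trans ?_ (su_map (sgh g) _ As)
    exact su_congr (fun a R => by rw [Af_sg, ih]; rfl) As

theorem SS_su {α : Type} {f : α → List α → Fn σ} (h : ∀ a R, SS (f a R)) (A : List α) :
    SS (su f A) := by
  induction A generalizing f with
  | nil => exact SS.zero
  | cons u C ih => exact (h u C).sub (ih fun a R => h a (u :: R))

theorem SS_gE {F : Fn σ} (h : SS F) (As Bs : List (σ → ℕ)) : SS (gE As Bs F) := by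
  induction Bs generalizing As F with
  | nil =>
    match As with
    | [] => exact h
    | [a] => exact h.sg a
    | _ :: _ :: _ => exact SS.zero
  | cons b Bs ih => exact SS_su (fun a R => ih (h.af _) R) As

/-- two odd letters -/
theorem Af_swap {F : Fn σ} (h : SS F) (e e' : σ → ℕ) :
    Af (Lt.E e) (Af (Lt.E e') F) = - Af (Lt.E e') (Af (Lt.E e) F) := by
  have h1 := h.front (Lt.E e') (Lt.E e)
  rw [h1]
  exact neg_one_smul ℂ _

/-! ### permutations of the labels -/

theorem gE_permB {F : Fn σ} (h : SS F) {Bs Bs' : List (σ → ℕ)} (hp : Bs.Perm Bs')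
    (As : List (σ → ℕ)) : gE As Bs F = gE As Bs' F := by
  induction hp generalizing As F with
  | nil => rfl
  | cons b _ ih => exact su_congr (fun a R => ih (h.af _) R) As
  | swap b b' Bs =>
    simp only [gE]
    rw [su_su, ← su_neg]
    refine su_congr (fun a R => ?_) As
    rw [← su_neg]
    refine su_congr (fun a' R' => ?_) R
    rw [Af_swap h, gE_neg, neg_neg]
  | trans _ _ ih1 ih2 => exact (ih1 h As).trans (ih2 h As)

theorem gE_swapA (A A' : List (σ → ℕ)) (a b : σ → ℕ) (Bs : List (σ → ℕ)) (F : Fn σ) :
    gE (A ++ a :: b :: A') Bs F = - gE (A ++ b :: a :: A') Bs F := by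
  induction Bs generalizing A A' F with
  | nil =>
    have h0 : ∀ (c d : σ → ℕ), gN (A ++ c :: d :: A') F = 0 := by
      intro c d
      match A with
      | [] => rfl
      | [_] => rfl
      | _ :: _ :: _ => rfl
    simp only [gE, h0, neg_zero]
  | cons b0 Bs ih => exact su_swap a b A' A _ fun x R R' => ih R R' _

namespace T1X

theorem moveA (P : List (σ → ℕ)) (A A' : List (σ → ℕ)) (a : σ → ℕ) (Bs : List (σ → ℕ))
    (F : Fn σ) :
    gE (P ++ (A ++ a :: A')) Bs F = ((-1 : ℂ) ^ A.length) • gE (P ++ a :: (A ++ A')) Bs F := by
  induction A generalizing P with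
  | nil => simp
  | cons u C ih =>
    have h1 := ih (P ++ [u])
    simp only [List.append_assoc, List.cons_append, List.nil_append] at h1
    simp only [List.cons_append]
    rw [h1, gE_swapA P (C ++ A') u a]
    simp only [List.length_cons, pow_succ, mul_neg, mul_one, neg_smul, smul_neg]

end T1X

theorem gE_moveA (A A' : List (σ → ℕ)) (a : σ → ℕ) (Bs : List (σ → ℕ)) (F : Fn σ) :
    gE (A ++ a :: A') Bs F = ((-1 : ℂ) ^ A.length) • gE (a :: (A ++ A')) Bs F :=
  T1X.moveA [] A A' a Bs F

namespace T1X

theorem two (P A : List (σ → ℕ)) (a : σ → ℕ) (Bs : List (σ → ℕ)) (F : Fn σ) :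
    gE (P ++ a :: a :: A) Bs F = 0 := by
  have h := gE_swapA P A a a Bs F
  funext w f
  have h1 := congrFun (congrFun h w) f
  simp only [Pi.neg_apply] at h1
  have h2 : gE (P ++ a :: a :: A) Bs F w f = 0 := by
    have h3 : (2 : ℂ) * gE (P ++ a :: a :: A) Bs F w f = 0 := by linear_combination h1
    exact (mul_eq_zero.1 h3).resolve_left two_ne_zero
  exact h2

theorem rep {As : List (σ → ℕ)} (h : ¬ As.Nodup) (P : List (σ → ℕ)) (Bs : List (σ → ℕ))
    (F : Fn σ) : gE (P ++ As) Bs F = 0 := by
  induction As generalizing P with
  | nil => exact absurd List.nodup_nil h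
  | cons a As ih =>
    rw [List.nodup_cons, not_and_or, not_not] at h
    rcases h with h | h
    · obtain ⟨S, T, rfl⟩ := List.append_of_mem h
      have h1 := moveA (P ++ [a]) S T a Bs F
      simp only [List.append_assoc, List.cons_append, List.nil_append] at h1
      rw [h1, two, smul_zero]
    · have h1 := ih h (P ++ [a])
      simp only [List.append_assoc, List.cons_append, List.nil_append] at h1
      exact h1

end T1X

theorem gE_rep {As : List (σ → ℕ)} (h : ¬ As.Nodup) (Bs : List (σ → ℕ)) (F : Fn σ) :
    gE As Bs F = 0 := T1X.rep h [] Bs F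

theorem gE_len {As Bs : List (σ → ℕ)} (h : As.length ≠ Bs.length)
    (h' : As.length ≠ Bs.length + 1) (F : Fn σ) : gE As Bs F = 0 := by
  induction Bs generalizing As F with
  | nil =>
    match As with
    | [] => exact absurd rfl h
    | [a] => exact absurd rfl h'
    | _ :: _ :: _ => rfl
  | cons b Bs ih =>
    simp only [gE]
    refine (su_congr_mem fun a R hp => ?_).trans (su_zero As)
    have h1 := hp.length_eq
    simp only [List.length_cons] at h1 h h'
    exact ih (by omega) (by omega) _

/-! ### commutation -/

theorem Af_gE {F : Fn σ} (h : SS F) (e : σ → ℕ) (As Bs : List (σ → ℕ)) :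
    Af (Lt.E e) (gE As Bs F) = ((-1 : ℂ) ^ Bs.length) • gE As Bs (Af (Lt.E e) F) := by
  induction Bs generalizing As F with
  | nil =>
    simp only [List.length_nil, pow_zero, one_smul]
    match As with
    | [] => rfl
    | [a] => rfl
    | _ :: _ :: _ => rfl
  | cons b Bs ih =>
    simp only [gE]
    rw [← su_smul]
    refine (su_map (Afh (Lt.E e)) _ As).symm.trans (su_congr (fun a R => ?_) As)
    change Af (Lt.E e) (gE R Bs (Af (Lt.E (a + b)) F)) = _
    rw [ih (h.af _), Af_swap h, gE_neg, List.length_cons, pow_succ, mul_neg, mul_one, neg_smul,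
      smul_neg]

theorem gE_gE {F : Fn σ} (h : SS F) (As Bs As' Bs' : List (σ → ℕ)) :
    gE As Bs (gE As' Bs' F) =
      ((-1 : ℂ) ^ (Bs.length * Bs'.length)) • gE As' Bs' (gE As Bs F) := by
  induction Bs generalizing As F with
  | nil =>
    simp only [List.length_nil, zero_mul, pow_zero, one_smul]
    match As with
    | [] => rfl
    | [a] => exact (gE_sg a As' Bs' F).symm
    | _ :: _ :: _ => exact (gE_zero As' Bs').symm
  | cons b Bs ih =>
    simp only [gE]
    have h1 : gE As' Bs' (su (fun a R => gE R Bs (Af (Lt.E (a + b)) F)) As) =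
        su (fun a R => gE As' Bs' (gE R Bs (Af (Lt.E (a + b)) F))) As :=
      (su_map (gEh As' Bs') _ As).symm
    rw [h1, ← su_smul]
    refine su_congr (fun a R => ?_) As
    rw [Af_gE h, gE_smul, ih (h.af _), smul_smul, List.length_cons, ← pow_add]
    congr 2
    ring

end Pool.Agent.H69.VT
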