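import Pool.Agent.H69.VT.TDefs
import Pool.Agent.H69.VT.X7
import Pool.Agent.H69.VT.T5
import Pool.Agent.H69.VT.T14

/-!
The numerical conditions of `Xplus`, and the vanishing in the strand `2 D - 1` for `2 t ≤ 3 D`
(project VT, row T15).
-/

set_option linter.unusedSectionVars false

namespace Pool.Agent.H69.VT

open scoped BigOperators
open Pool.Agent.H69.VS

variable {σ : Type} [Fintype σ] [DecidableEq σ]

namespace T15X

theorem sum_sub_one {C : Finset ℕ} {m : ℕ → ℕ} (h2 : ∀ i ∈ C, 2 ≤ m i) :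
    ∑ i ∈ C, (m i - 1) + C.card = ∑ i ∈ C, m i := by
  have h : ∑ i ∈ C, (m i - 1) + ∑ _i ∈ C, 1 = ∑ i ∈ C, m i := by
    rw [← Finset.sum_add_distrib]
    exact Finset.sum_congr rfl fun i hi => by have := h2 i hi; omega
  rwa [Finset.sum_const, smul_eq_mul, mul_one] at h

theorem two_mul_card_le {C : Finset ℕ} {m : ℕ → ℕ} (h2 : ∀ i ∈ C, 2 ≤ m i) :
    2 * C.card ≤ ∑ i ∈ C, m i := by
  have h : ∑ _i ∈ C, 2 ≤ ∑ i ∈ C, m i := Finset.sum_le_sum h2
  rw [Finset.sum_const, smul_eq_mul] at h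
  omega

end T15X

open T15X

theorem XP_of {D t : ℕ} (hD : 4 ≤ D) (ht : 2 * t ≤ 3 * D) : XP D t := by
  intro σ ι _ _ _ _ C ρ Φ hΦ hC h2 hF hL _ hK
  have h3 := sum_sub_one h2
  have h4 := two_mul_card_le h2
  have h5 : 0 < C.card := Finset.card_pos.2 hC
  exact Xplus C ρ Φ hΦ (by omega) (by omega) (by omega)

theorem Tall {D : ℕ} (hD : 4 ≤ D) : ∀ t, 2 * t ≤ 3 * D → ∀ β : σ → ℕ,
    dg β = t * D + (2 * D - 1) → Van D t β := by
  intro t
  induction t using Nat.strong_induction_on with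
  | _ t ih =>
    intro ht
    exact Tfin hD (by omega) (XP_of hD ht)
      (HV_of (by omega) fun r hr => ih r hr (by omega))

end Pool.Agent.H69.VT
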